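import Pool.Agent.K1H23.PC.Stm

/-!
# The assembly
-/

namespace Pool.Agent.K1H23.PC

open Pool.Agent.NPC Pool.Agent.NPC.ER Pool.Agent.NPC.ER.Oslp

/-- Soundness of the graph. -/
theorem snd_of (hT : S_T) (hLB : S_LB) (hCNT : S_CNT) (hTF : S_TF) (n P : ℕ)
    (sg : ℕ → ℕ → Bool) (hn : 1 ≤ n) (h : CRw 2 (gr n P sg)) : Ord n P sg := by
  obtain ⟨φ, q, h1, h2, h3⟩ := h
  have hd : Dr n P sg φ q := ⟨h1, h2, h3⟩
  have h4 := hT n P sg φ q hn hd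
  obtain ⟨h5, h6⟩ := hLB n P sg φ q hn hd h4
  obtain ⟨w, hw, h7⟩ := hCNT n P sg φ q hn hd h5 h6
  exact hTF n P sg φ q w hn hd h4 hw h7

/-- Soundness of the reduction. -/
theorem sat_of (hT : S_T) (hLB : S_LB) (hCNT : S_CNT) (hTF : S_TF) (hGEO : S_GEO) (hBS : S_BS)
    (S : List Con) (h : CRw 2 (red S)) : Sat S := by
  rw [prog_iff]
  refine hBS _ (wf_prog S) (hGEO _ _ _ ?_)
  have := snd_of hT hLB hCNT hTF (fN (prog S)) (fP (prog S)) (fS (prog S))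
    (by unfold fN; omega) h
  exact this

/-- Completeness of the reduction. -/
theorem of_sat (hK : S_K12C) (hL0 : S_L0) (hINS : S_INS) (hMAIN : S_MAIN) (hFRM : S_FRM)
    (hASM : S_ASM) (hBQ : S_BQ) (hBM : S_BM) (hBA : S_BA) (S : List Con) (h : Sat S) :
    CR 2 (red S) := by
  rw [prog_iff] at h
  have h1 := hBA hBQ _ (wf_prog S) (hBM _ (wf_prog S) h)
  have h2 := hINS (ent k12) _ _ _ (by omega) hK (hL0 _ _ _ h1)
  have hn : 1 ≤ fN (prog S) := by unfold fN; omega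
  refine hASM (fN (prog S)) (fP (prog S)) (fS (prog S)) hn (hMAIN _ _ _ hn h2) ?_
  intro B Y x hx
  refine hFRM _ B Y x ?_ hx
  have : 1 * (0 + 2) ≤ H (fN (prog S)) (fP (prog S)) := by
    unfold H
    exact Nat.mul_le_mul hn (by omega)
  omega

/-- The main theorem. -/
theorem main_of (hINST : S_INST) (hT : S_T) (hLB : S_LB) (hCNT : S_CNT) (hTF : S_TF)
    (hGEO : S_GEO) (hBS : S_BS) (hK : S_K12C) (hL0 : S_L0) (hINS : S_INS) (hMAIN : S_MAIN)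
    (hFRM : S_FRM) (hASM : S_ASM) (hBQ : S_BQ) (hBM : S_BM) (hBA : S_BA) (hPR : S_PR)
    (hMEM : S_MEM) :
    ERComplete (lang fun G : Inst => IsInst G ∧ CR 2 G) ∧
      ∀ Q : Inst → Prop, (∀ G, IsInst G → CR 2 G → Q G) → (∀ G, Q G → IsInst G ∧ CRw 2 G) →
        ERHard (lang Q) := by
  have key : ∀ Q : Inst → Prop, (∀ G, IsInst G → CR 2 G → Q G) →
      (∀ G, Q G → IsInst G ∧ CRw 2 G) → ERHard (lang Q) := by
    intro Q h1 h2
    refine ERHard.of_sys (f := red) hPR fun S => ⟨fun hS => ?_, fun hQ => ?_⟩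
    · refine h1 _ ?_ (of_sat hK hL0 hINS hMAIN hFRM hASM hBQ hBM hBA S hS)
      exact hINST _ _ _ (by unfold fN; omega)
    · exact sat_of hT hLB hCNT hTF hGEO hBS S (h2 _ hQ).2
  exact ⟨⟨hMEM, key _ (fun G h1 h2 => ⟨h1, h2⟩) fun G h => ⟨h.1, h.2.weak⟩⟩, key⟩

end Pool.Agent.K1H23.PC
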