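import Mathlib

/-!
# The `t`-polygonal crossing number: definitions
-/

namespace Pool.Agent.K1H23.PC

/-- An input `(V, E, k)`: the list of the vertices (natural numbers), the list of the edges (pairs
of vertices) and the bound `k`. -/
abbrev Inst : Type := List ℕ × List (ℕ × ℕ) × ℕ

/-- `(V, E)` is a finite simple graph: no vertex and no edge is listed twice, every edge is listed
as `(u, v)` with `u < v`, and its ends are vertices. -/
def IsInst (G : Inst) : Prop :=
  G.1.Nodup ∧ G.2.1.Nodup ∧ ∀ e ∈ G.2.1, e.1 ∈ G.1 ∧ e.2 ∈ G.1 ∧ e.1 < e.2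

/-- The polygonal path which consists of the `t` segments between consecutive points of
`q 0, …, q t`. -/
def path (t : ℕ) (q : ℕ → ℝ × ℝ) : Set (ℝ × ℝ) :=
  {x | ∃ i < t, x ∈ segment ℝ (q i) (q (i + 1))}

/-- The path is simple: consecutive nodes are distinct, and two different segments only meet if
they are consecutive, in the common node. -/
structure Simple (t : ℕ) (q : ℕ → ℝ × ℝ) : Prop where
  ne : ∀ i < t, q i ≠ q (i + 1)
  meet : ∀ i j, i < j → j < t → ∀ x, x ∈ segment ℝ (q i) (q (i + 1)) →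
    x ∈ segment ℝ (q j) (q (j + 1)) → j = i + 1 ∧ x = q j

/-- `(φ, q)` draws the graph `(V, E)` with polygonal paths of `t` segments: the vertex `v` is the
point `φ v`, distinct vertices are distinct points, the edge `e` is the (simple) polygonal path with
the nodes `q e 0, …, q e t` from `φ e.1` to `φ e.2`, and it passes through no other vertex. -/
structure IsPoly (t : ℕ) (V : List ℕ) (E : List (ℕ × ℕ)) (φ : ℕ → ℝ × ℝ)
    (q : ℕ × ℕ → ℕ → ℝ × ℝ) : Prop where
  inj : ∀ u ∈ V, ∀ v ∈ V, φ u = φ v → u = v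
  src : ∀ e ∈ E, q e 0 = φ e.1
  tgt : ∀ e ∈ E, q e t = φ e.2
  simple : ∀ e ∈ E, Simple t (q e)
  avoid : ∀ e ∈ E, ∀ w ∈ V, w ≠ e.1 → w ≠ e.2 → φ w ∉ path t (q e)

/-- No bend of an edge lies on another edge. Since the edges do not pass through vertices either,
every common point of two edges which is not a common end is an interior point of a segment of each
of them, and these two segments are not parallel: the edges cross properly there. -/
def Proper (t : ℕ) (E : List (ℕ × ℕ)) (q : ℕ × ℕ → ℕ → ℝ × ℝ) : Prop :=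
  ∀ e ∈ E, ∀ f ∈ E, e ≠ f → ∀ i, 0 < i → i < t → q e i ∉ path t (q f)

/-- The crossings of a drawing: an unordered pair of distinct edges together with a point of both
which is not the point of a common end. -/
def crossings (t : ℕ) (E : List (ℕ × ℕ)) (φ : ℕ → ℝ × ℝ) (q : ℕ × ℕ → ℕ → ℝ × ℝ) :
    Set (Sym2 (ℕ × ℕ) × (ℝ × ℝ)) :=
  {z | ∃ e ∈ E, ∃ f ∈ E, e ≠ f ∧ z.1 = s(e, f) ∧ z.2 ∈ path t (q e) ∧ z.2 ∈ path t (q f) ∧
    ¬ ∃ w, (w = e.1 ∨ w = e.2) ∧ (w = f.1 ∨ w = f.2) ∧ z.2 = φ w}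

/-- `CR t (V, E, k)`: the graph `(V, E)` has a `t`-polygonal drawing with at most `k` crossings. -/
def CR (t : ℕ) (G : Inst) : Prop :=
  ∃ (φ : ℕ → ℝ × ℝ) (q : ℕ × ℕ → ℕ → ℝ × ℝ), IsPoly t G.1 G.2.1 φ q ∧ Proper t G.2.1 q ∧
    (crossings t G.2.1 φ q).Finite ∧ (crossings t G.2.1 φ q).ncard ≤ G.2.2

/-- The weak form of `CR t`: the common points of two edges are only required to be finite in
number; they need not be proper crossings (and bends may lie on other edges). -/
def CRw (t : ℕ) (G : Inst) : Prop :=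
  ∃ (φ : ℕ → ℝ × ℝ) (q : ℕ × ℕ → ℕ → ℝ × ℝ), IsPoly t G.1 G.2.1 φ q ∧
    (crossings t G.2.1 φ q).Finite ∧ (crossings t G.2.1 φ q).ncard ≤ G.2.2

theorem CR.weak {t : ℕ} {G : Inst} (h : CR t G) : CRw t G := by
  obtain ⟨φ, q, h1, -, h2, h3⟩ := h
  exact ⟨φ, q, h1, h2, h3⟩

end Pool.Agent.K1H23.PC
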