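import Pool.Agent.K1H23.PC.Defs

/-!
# The graph of a pattern

`n` classes of lines (in the order of the slopes), `P` points, signs `sg j c`. The frame is a cycle
of `2 * H` rim vertices and a hub; every edge of the frame is a bundle of `BB` paths of length two.
The class `c` has `W` chords, the edges `c * W, …, c * W + W - 1`, which join rim vertices; the
point `j` is joined to `2 * n` rim vertices, two for every class, on the side given by `sg`.
-/

namespace Pool.Agent.K1H23.PC

/-- The number of chords of a class. -/
def W (n P : ℕ) : ℕ := (2 * n * P) * (2 * n * P) + 1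

/-- Half the number of the rim vertices. -/
def H (n P : ℕ) : ℕ := n * (W n P + 2)

/-- The number of chords. -/
def NN (n P : ℕ) : ℕ := n * W n P

/-- The bound for the number of crossings. -/
def KK (n P : ℕ) : ℕ :=
  NN n P * (NN n P - 1) / 2 + P * NN n P * (n - 1) + (2 * n * P) * (2 * n * P)

/-- The number of paths of a bundle. -/
def BB (n P : ℕ) : ℕ := 2 * KK n P + 1

/-- The position of the left end of a chord. -/
def posA (n P u : ℕ) : ℕ := u / W n P * (W n P + 2) + 1 + u % W n P

/-- The position of the right end of a chord. -/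
def posB (n P u : ℕ) : ℕ := H n P + posA n P u

/-- The position of the end number `m < 2 * n` of a star: `m < n` is next to the left ends of the
chords of the class `m`, and `n + c` is next to the right ends of the chords of the class `c`. -/
def posS (n P : ℕ) (sg : ℕ → ℕ → Bool) (j m : ℕ) : ℕ :=
  if m < n then m * (W n P + 2) + (if sg j m = true then 0 else W n P + 1)
  else H n P + ((m - n) * (W n P + 2) + (if sg j (m - n) = true then W n P + 1 else 0))

/-- The rim vertices. -/
def vR (i : ℕ) : ℕ := 5 * i + 1

/-- The points. -/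
def vP (j : ℕ) : ℕ := 5 * j + 2

/-- The middle vertices of the bundles of the rim. -/
def vX (n P i k : ℕ) : ℕ := 5 * (i * BB n P + k) + 3

/-- The middle vertices of the bundles of the spokes. -/
def vY (n P i k : ℕ) : ℕ := 5 * (i * BB n P + k) + 4

/-- The kinds of edges. -/
inductive Ed : Type
  | ch (u : ℕ)
  | st (j m : ℕ)
  | x1 (i k : ℕ)
  | x2 (i k : ℕ)
  | y1 (i k : ℕ)
  | y2 (i k : ℕ)
  deriving DecidableEq

/-- The first end of an edge. -/
def Ed.src (n P : ℕ) : Ed → ℕ
  | ch u => vR (posA n P u)
  | st j _ => vP j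
  | x1 i _ => vR i
  | x2 i k => vX n P i k
  | y1 _ _ => 0
  | y2 i k => vY n P i k

/-- The second end of an edge. -/
def Ed.tgt (n P : ℕ) (sg : ℕ → ℕ → Bool) : Ed → ℕ
  | ch u => vR (posB n P u)
  | st j m => vR (posS n P sg j m)
  | x1 i k => vX n P i k
  | x2 i _ => vR ((i + 1) % (2 * H n P))
  | y1 i k => vY n P i k
  | y2 i _ => vR i

/-- The edges of the graph. -/
def Ed.Valid (n P : ℕ) : Ed → Prop
  | ch u => u < NN n P
  | st j m => j < P ∧ m < 2 * n
  | x1 i k => i < 2 * H n P ∧ k < BB n P
  | x2 i k => i < 2 * H n P ∧ k < BB n P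
  | y1 i k => i < 2 * H n P ∧ k < BB n P
  | y2 i k => i < 2 * H n P ∧ k < BB n P

/-- Chords and edges of stars. -/
def Ed.Main : Ed → Prop
  | ch _ => True
  | st _ _ => True
  | _ => False

/-- An unordered pair of numbers. -/
def pr (a b : ℕ) : ℕ × ℕ := (min a b, max a b)

/-- The edge as a pair of vertices. -/
def Ed.pair (n P : ℕ) (sg : ℕ → ℕ → Bool) (e : Ed) : ℕ × ℕ := pr (e.src n P) (e.tgt n P sg)

/-- The list of the vertices. -/
def vts (n P : ℕ) : List ℕ :=
  0 :: ((List.range (2 * H n P)).map vR ++ (List.range P).map vP ++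
    (List.range (2 * H n P * BB n P)).map (fun a => 5 * a + 3) ++
    (List.range (2 * H n P * BB n P)).map (fun a => 5 * a + 4))

/-- The list of the edges. -/
def eds (n P : ℕ) (sg : ℕ → ℕ → Bool) : List (ℕ × ℕ) :=
  (List.range (NN n P)).map (fun u => pr (vR (posA n P u)) (vR (posB n P u))) ++
  (List.range P).flatMap (fun j => (List.range (2 * n)).map fun m =>
    pr (vP j) (vR (posS n P sg j m))) ++
  (List.range (2 * H n P)).flatMap (fun i => (List.range (BB n P)).flatMap fun k =>
    [pr (vR i) (vX n P i k), pr (vX n P i k) (vR ((i + 1) % (2 * H n P))),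
      pr 0 (vY n P i k), pr (vY n P i k) (vR i)])

/-- The instance of a pattern. -/
def gr (n P : ℕ) (sg : ℕ → ℕ → Bool) : Inst := (vts n P, eds n P sg, KK n P)

end Pool.Agent.K1H23.PC
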