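import Pool.Agent.K1H23.PC.Defs
import Pool.Agent.H612.PatOslp

/-!
# Ordered sign patterns of points and lines

A pattern consists of a number `n` of lines (in the order of increasing slopes), a number `P` of
points and the signs `sg j c` (`true`: the point `j` is above the line `c`).
-/

namespace Pool.Agent.K1H23.PC

open Pool.Agent.NPC Pool.Agent.NPC.ER Pool.Agent.NPC.ER.Oslp

/-- An entry of a matrix. -/
def ent (M : List (List Bool)) (i c : ℕ) : Bool := (M.getD i []).getD c false

/-- The pattern is realised by points and lines `y = s c * x + t c` with increasing slopes. -/
def OReal (n P : ℕ) (sg : ℕ → ℕ → Bool) : Prop :=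
  ∃ (s t : ℕ → ℝ) (p : ℕ → ℝ × ℝ), (∀ a b, a < b → b < n → s a < s b) ∧
    ∀ j < P, ∀ c < n, if sg j c = true then s c * (p j).1 + t c < (p j).2
      else (p j).2 < s c * (p j).1 + t c

/-- The orientation of three lines: positive if and only if (for increasing slopes) the common point
of the lines `a` and `c` is above the line `b`. -/
def EE (s t : ℕ → ℝ) (a b c : ℕ) : ℝ :=
  (s c - s b) * t a - (s c - s a) * t b + (s b - s a) * t c

/-- Weak realisations: the orientations of the triples of lines which are forced by the points are
correct. -/
def TReal (n P : ℕ) (sg : ℕ → ℕ → Bool) : Prop :=
  ∃ s t : ℕ → ℝ, (∀ a b, a < b → b < n → s a < s b) ∧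
    ∀ j < P, ∀ a b c, a < b → b < c → c < n →
      (sg j a = false → sg j b = true → sg j c = false → 0 < EE s t a b c) ∧
      (sg j a = true → sg j b = false → sg j c = true → EE s t a b c < 0)

/-! ### The pattern of a program -/

/-- The number of groups of lines: the groups `0, …, p.length` belong to the values of index
`1, …, p.length + 1`, the last group belongs to the value of index `0` (infinity). -/
def Ng (p : List Ins) : ℕ := p.length + 2

/-- The group of the value of index `a`. -/
def grp (p : List Ins) (a : ℕ) : ℕ := if a = 0 then p.length + 1 else a - 1

/-- The index of the value which is the slope of the line number `u` of the operation `k`: the lines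
are `6, 7, 8, 9, 10, 11` in the notation of `Pool.Agent.NPC.ER.Sgn`. -/
def lab (c : ℕ × ℕ × ℕ × ℕ) (k u : ℕ) : ℕ :=
  if u = 0 then c.2.2.1 else if u = 1 then c.2.1 else if u = 2 then c.1 else if u = 3 then 0 else
  if u = 4 then c.2.2.2 else k

/-- The zone (in its group) of the line number `u` of a quadrilateral: `b = 1` for the upper one,
`b = 0` for the lower one. The zones are: `0` (below), `1` (the lower bound is the first line),
`2`, `3` (the result of the operation), `4` (the upper bound is the first line), `5` (above). -/
def zn (b u : ℕ) : ℕ :=
  if b = 1 then (if u = 1 then 0 else if u = 5 then 3 else 5)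
  else (if u = 1 then 5 else if u = 5 then 2 else 0)

/-- The index of a line. -/
def lidx (p : List Ins) (g z r : ℕ) : ℕ := (g * 6 + z) * (12 * Ng p) + r

/-- The index of the line number `u` of the quadrilateral `(k, b)` with the operation `c`. -/
def qidx (p : List Ins) (c : ℕ × ℕ × ℕ × ℕ) (k b u : ℕ) : ℕ :=
  lidx p (grp p (lab c k u)) (zn b u) (6 * (2 * k + b) + u)

/-- The index `x` is the index of a line of the quadrilateral number `x % (12 * Ng p) / 6`. -/
def isReal (p : List Ins) (x : ℕ) : Bool :=
  match Sgn.opd p (x % (12 * Ng p) / 6 / 2) with
  | none => false
  | some c => decide (x = qidx p c (x % (12 * Ng p) / 6 / 2) (x % (12 * Ng p) / 6 % 2)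
      (x % (12 * Ng p) % 6))

/-- The signs of the five points and the six lines of an upper quadrilateral. -/
def tabU : List (List Bool) :=
  [[true, true, true, true, true, false],
   [false, true, false, true, true, true],
   [false, false, true, true, false, true],
   [false, false, true, false, true, false],
   [false, true, true, true, true, false]]

/-- The signs of the five points and the six lines of a lower quadrilateral. -/
def tabL : List (List Bool) :=
  [[false, true, true, false, true, true],
   [true, false, true, true, true, true],
   [false, false, false, true, true, false],
   [false, true, true, true, false, false],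
   [false, true, true, true, true, false]]

/-- The signs of the points and the lines of a quadrilateral; for an addition (`add = true`) the
signs of the line number `2` are opposite. -/
def tab (add : Bool) (b s u : ℕ) : Bool :=
  xor (ent (if b = 1 then tabU else tabL) s u) (add && decide (u = 2))

/-- The centre of a line. -/
def cen (p : List Ins) (x : ℕ) : ℕ := if isReal p x = true then x % (12 * Ng p) / 6 + 1 else 0

/-- The sign of the point number `i % 5` of the quadrilateral number `i / 5` and the line `x`. -/
def bsg (p : List Ins) (i x : ℕ) : Bool :=
  match Sgn.opd p (i / 5 / 2) with
  | none => true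
  | some c =>
    if cen p x = i / 5 + 1 then tab (decide (c.1 = 0)) (i / 5 % 2) (i % 5) (x % (12 * Ng p) % 6)
    else if cen p x < i / 5 + 1 then decide (x / (12 * Ng p) / 6 < Ng p - 1)
    else decide (x / (12 * Ng p) / 6 = Ng p - 1)

/-- The number of lines of the pattern of a program. -/
def bN (p : List Ins) : ℕ := 72 * Ng p * Ng p

/-- The number of points of the pattern of a program. -/
def bP (p : List Ins) : ℕ := 10 * Ng p

/-! ### Additional lines -/

/-- A line `0` below all points, and points next to it in all gaps between the other lines. -/
def sg1 (P : ℕ) (sg : ℕ → ℕ → Bool) (i c : ℕ) : Bool :=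
  if i < P then (if c = 0 then true else sg i (c - 1))
  else if c = 0 then true else decide (i - P + 1 < c)

/-- The pattern of the clusters. -/
def k12 : List (List Bool) :=
  ((List.range 11).map fun y => (List.range 12).map fun c => decide (y < c)) ++
  ((List.range 10).map fun y => (List.range 12).map fun c => decide (c = 0) || decide (y + 1 < c)) ++
  [[true, false, true, true, false, false, true, false, true, false, true, true],
   [true, false, false, true, false, false, false, false, true, true, true, true],
   [true, false, true, false, false, false, false, false, false, true, true, true],
   [true, false, true, false, false, false, false, false, true, false, true, false],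
   [true, false, true, true, false, false, false, false, true, false, true, true],
   [true, true, true, true, true, false, true, true, true, true, false, false],
   [true, true, true, true, false, true, true, true, true, true, true, true],
   [true, false, true, true, false, false, true, true, true, false, true, false],
   [true, true, true, true, true, false, true, false, true, false, true, false],
   [true, true, true, true, true, false, true, true, true, false, true, false]]

/-- Every line is replaced by a cluster of twelve lines, and each cluster gets its 31 points. -/
def sg2 (k : ℕ → ℕ → Bool) (P : ℕ) (sg : ℕ → ℕ → Bool) (i c : ℕ) : Bool :=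
  if i < P then sg i (c / 12)
  else if c / 12 < (i - P) / 31 then true
  else if (i - P) / 31 < c / 12 then false
  else k ((i - P) % 31) (c % 12)

/-- The number of lines of the full pattern of a program. -/
def fN (p : List Ins) : ℕ := 12 * (bN p + 1)

/-- The number of points of the pattern with the line `0`. -/
def fP1 (p : List Ins) : ℕ := bP p + (bN p - 1)

/-- The number of points of the full pattern of a program. -/
def fP (p : List Ins) : ℕ := fP1 p + 31 * (bN p + 1)

/-- The signs of the full pattern of a program. -/
def fS (p : List Ins) : ℕ → ℕ → Bool := sg2 (ent k12) (fP1 p) (sg1 (bP p) (bsg p))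

end Pool.Agent.K1H23.PC
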