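import Pool.Agent.K1H23.PC.Graph
import Pool.Agent.K1H23.PC.Pat
import Pool.Agent.ER.Hard
import Pool.Agent.H612.OslpPoly

/-!
# The pieces of the proof that `CR 2` is complete for `∃ℝ`
-/

namespace Pool.Agent.K1H23.PC

open Pool.Agent.NPC Pool.Agent.NPC.ER Pool.Agent.NPC.ER.Oslp

/-! ### The graph -/

/-- The members of the list of edges. -/
def S_EDS : Prop := ∀ (n P : ℕ) (sg : ℕ → ℕ → Bool), 1 ≤ n → ∀ f, f ∈ eds n P sg ↔
  ∃ e : Ed, e.Valid n P ∧ e.pair n P sg = f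

/-- Different edges are different pairs. -/
def S_INJ : Prop := ∀ (n P : ℕ) (sg : ℕ → ℕ → Bool), 1 ≤ n → ∀ e e' : Ed, e.Valid n P →
  e'.Valid n P → e.pair n P sg = e'.pair n P sg → e = e'

/-- The instance is a graph. -/
def S_INST : Prop := ∀ (n P : ℕ) (sg : ℕ → ℕ → Bool), 1 ≤ n → IsInst (gr n P sg)

/-- The end number `m` of the star of `j` is above the class `c`. -/
def ab (n : ℕ) (sg : ℕ → ℕ → Bool) (j m c : ℕ) : Bool :=
  if m = c ∨ m = n + c then sg j c else if m < n then decide (m < c) else decide (n + c < m)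

/-- The positions on the rim. -/
def S_POS : Prop := ∀ (n P : ℕ) (sg : ℕ → ℕ → Bool), 1 ≤ n →
  (∀ u < NN n P, posA n P u < H n P ∧ H n P ≤ posB n P u ∧ posB n P u < 2 * H n P) ∧
  (∀ u < NN n P, ∀ u' < NN n P, u < u' → posA n P u < posA n P u') ∧
  (∀ j m, m < 2 * n → posS n P sg j m < 2 * H n P ∧ (m < n ↔ posS n P sg j m < H n P) ∧
    ∀ u < NN n P, posS n P sg j m ≠ posA n P u ∧ posS n P sg j m ≠ posB n P u ∧
      (ab n sg j m (u / W n P) = true ↔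
        posS n P sg j m < posA n P u ∨ posB n P u < posS n P sg j m) ∧
      (ab n sg j m (u / W n P) = false ↔
        posA n P u < posS n P sg j m ∧ posS n P sg j m < posB n P u)) ∧
  (∀ j m m', m < m' → m' < 2 * n → posS n P sg j m < posS n P sg j m')

/-- For every point `j` and every class `c` exactly `n - 1` ends of the star of `j` are on the
wrong side of the class `c`. -/
def S_MIN : Prop := ∀ (n : ℕ) (sg : ℕ → ℕ → Bool) (j c : ℕ), c < n →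
  ((Finset.range (2 * n)).filter fun m => ab n sg j m c ≠ sg j c).card = n - 1

/-! ### Soundness: topology -/

/-- The drawing of an edge. -/
def pth (n P : ℕ) (sg : ℕ → ℕ → Bool) (q : ℕ × ℕ → ℕ → ℝ × ℝ) (e : Ed) : Set (ℝ × ℝ) :=
  path 2 (q (e.pair n P sg))

/-- A weak drawing with few crossings. -/
structure Dr (n P : ℕ) (sg : ℕ → ℕ → Bool) (φ : ℕ → ℝ × ℝ) (q : ℕ × ℕ → ℕ → ℝ × ℝ) :
    Prop where
  poly : IsPoly 2 (vts n P) (eds n P sg) φ q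
  fin : (crossings 2 (eds n P sg) φ q).Finite
  le : (crossings 2 (eds n P sg) φ q).ncard ≤ KK n P

/-- The edge `e` has the vertex `v` as an end. -/
def Ed.Inc (n P : ℕ) (sg : ℕ → ℕ → Bool) (e : Ed) (v : ℕ) : Prop :=
  v = e.src n P ∨ v = e.tgt n P sg

/-- Two sets which join interleaved pairs of rim vertices inside chords and stars meet. -/
def LemT (n P : ℕ) (sg : ℕ → ℕ → Bool) (φ : ℕ → ℝ × ℝ) (q : ℕ × ℕ → ℕ → ℝ × ℝ) : Prop :=
  ∀ a b i i' : ℕ, a < b → b < 2 * H n P → i < 2 * H n P → i' < 2 * H n P → a < i → i < b →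
    (i' < a ∨ b < i') → ∀ (S S' : Set (ℝ × ℝ)) (A A' : Set Ed),
    (∀ e ∈ A, e.Valid n P ∧ e.Main ∧ ¬ e.Inc n P sg (vR a) ∧ ¬ e.Inc n P sg (vR b)) →
    (∀ e ∈ A', e.Valid n P ∧ e.Main ∧ ¬ e.Inc n P sg (vR i) ∧ ¬ e.Inc n P sg (vR i')) →
    (∀ z ∈ S, ∃ e ∈ A, z ∈ pth n P sg q e) → (∀ z ∈ S', ∃ e ∈ A', z ∈ pth n P sg q e) →
    JoinedIn S (φ (vR i)) (φ (vR i')) → JoinedIn S' (φ (vR a)) (φ (vR b)) → (S ∩ S').Nonempty

/-- The topological lemma (the frame contains uncrossed paths; `K₅` is not planar). -/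
def S_T : Prop := ∀ (n P : ℕ) (sg : ℕ → ℕ → Bool) (φ : ℕ → ℝ × ℝ) (q : ℕ × ℕ → ℕ → ℝ × ℝ),
  1 ≤ n → Dr n P sg φ q → LemT n P sg φ q

/-- Chords meet; a chord meets one of two star edges which end on different sides. -/
def S_LB : Prop := ∀ (n P : ℕ) (sg : ℕ → ℕ → Bool) (φ : ℕ → ℝ × ℝ) (q : ℕ × ℕ → ℕ → ℝ × ℝ),
  1 ≤ n → Dr n P sg φ q → LemT n P sg φ q →
  (∀ u < NN n P, ∀ u' < NN n P, u ≠ u' →
    (pth n P sg q (Ed.ch u) ∩ pth n P sg q (Ed.ch u')).Nonempty) ∧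
  ∀ j < P, ∀ u < NN n P, ∀ m < 2 * n, ∀ m' < 2 * n,
    ab n sg j m (u / W n P) = true → ab n sg j m' (u / W n P) = false →
    (pth n P sg q (Ed.st j m) ∩ pth n P sg q (Ed.ch u)).Nonempty ∨
      (pth n P sg q (Ed.st j m') ∩ pth n P sg q (Ed.ch u)).Nonempty

/-- The chords number `w` of all classes have the minimal number of crossings. -/
def Good (n P : ℕ) (sg : ℕ → ℕ → Bool) (q : ℕ × ℕ → ℕ → ℝ × ℝ) (w : ℕ) : Prop :=
  (∀ c < n, ∀ c' < n, c ≠ c' → ∃! z, z ∈ pth n P sg q (Ed.ch (c * W n P + w)) ∩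
    pth n P sg q (Ed.ch (c' * W n P + w))) ∧
  ∀ j < P, ∀ c < n, ∀ m < 2 * n,
    (ab n sg j m c = sg j c →
      pth n P sg q (Ed.st j m) ∩ pth n P sg q (Ed.ch (c * W n P + w)) = ∅) ∧
    (ab n sg j m c ≠ sg j c → ∃! z, z ∈ pth n P sg q (Ed.st j m) ∩
      pth n P sg q (Ed.ch (c * W n P + w)))

/-- The count: there is a good number `w`. -/
def S_CNT : Prop := ∀ (n P : ℕ) (sg : ℕ → ℕ → Bool) (φ : ℕ → ℝ × ℝ) (q : ℕ × ℕ → ℕ → ℝ × ℝ),
  1 ≤ n → Dr n P sg φ q →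
  (∀ u < NN n P, ∀ u' < NN n P, u ≠ u' →
    (pth n P sg q (Ed.ch u) ∩ pth n P sg q (Ed.ch u')).Nonempty) →
  (∀ j < P, ∀ u < NN n P, ∀ m < 2 * n, ∀ m' < 2 * n,
    ab n sg j m (u / W n P) = true → ab n sg j m' (u / W n P) = false →
    (pth n P sg q (Ed.st j m) ∩ pth n P sg q (Ed.ch u)).Nonempty ∨
      (pth n P sg q (Ed.st j m') ∩ pth n P sg q (Ed.ch u)).Nonempty) →
  ∃ w < W n P, Good n P sg q w

/-- The point with parameter `s ∈ [0, 2]` of the path with the nodes `q 0, q 1, q 2`. -/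
noncomputable def pl (q : ℕ → ℝ × ℝ) (s : ℝ) : ℝ × ℝ :=
  if s ≤ 1 then q 0 + s • (q 1 - q 0) else q 1 + (s - 1) • (q 2 - q 1)

/-- The cross product of two vectors. -/
def cr (a b : ℝ × ℝ) : ℝ := a.1 * b.2 - a.2 * b.1

/-- One path with two segments for every class, with the prescribed orders of the common points:
`τ c c'` is the parameter on the path `c` of the common point with the path `c'`. -/
def Ord (n P : ℕ) (sg : ℕ → ℕ → Bool) : Prop :=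
  ∃ (q : ℕ → ℕ → ℝ × ℝ) (τ : ℕ → ℕ → ℝ),
    (∀ c < n, q c 0 ≠ q c 1 ∧ q c 1 ≠ q c 2) ∧
    (∀ c < n, ∀ c' < n, c ≠ c' → pl (q c) (τ c c') = pl (q c') (τ c' c) ∧
      (τ c c' < 1 → τ c' c < 1 → cr (q c 1 - q c 0) (q c' 1 - q c' 0) ≠ 0) ∧
      (1 < τ c c' → 1 < τ c' c → cr (q c 2 - q c 1) (q c' 2 - q c' 1) ≠ 0)) ∧
    ∀ j < P, ∀ x y z, x < y → y < z → z < n →
      (sg j x = false → sg j y = true → sg j z = false →
        τ x z < τ x y ∧ τ y z < τ y x ∧ τ z y < τ z x) ∧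
      (sg j x = true → sg j y = false → sg j z = true →
        τ x y < τ x z ∧ τ y x < τ y z ∧ τ z x < τ z y)

/-- The orders of the crossings. -/
def S_TF : Prop := ∀ (n P : ℕ) (sg : ℕ → ℕ → Bool) (φ : ℕ → ℝ × ℝ) (q : ℕ × ℕ → ℕ → ℝ × ℝ)
  (w : ℕ), 1 ≤ n → Dr n P sg φ q → LemT n P sg φ q → w < W n P → Good n P sg q w → Ord n P sg

/-! ### Soundness: geometry -/

/-- Straight lines: the orders of the common points give real slopes and orientations. The line `a`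
is `o a + τ • d a`. -/
def S_LINE : Prop := ∀ (m : ℕ) (o d : ℕ → ℝ × ℝ) (τ : ℕ → ℕ → ℝ) (T : ℕ → ℕ → ℕ → Bool → Prop),
  (∀ a < m, ∀ b < m, a ≠ b → cr (d a) (d b) ≠ 0 ∧ o a + τ a b • d a = o b + τ b a • d b) →
  (∀ x y z, x < y → y < z → z < m → T x y z false →
    τ x z < τ x y ∧ τ y z < τ y x ∧ τ z y < τ z x) →
  (∀ x y z, x < y → y < z → z < m → T x y z true →
    τ x y < τ x z ∧ τ y x < τ y z ∧ τ z x < τ z y) →
  (∀ y z, 0 < y → y < z → z < m → T 0 y z true) →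
  ∃ s t : ℕ → ℝ, (∀ a b, a < b → b < m → s a < s b) ∧
    ∀ x y z, x < y → y < z → z < m → (T x y z false → 0 < EE s t x y z) ∧
      (T x y z true → EE s t x y z < 0)

/-- The pattern of the clusters is not realisable by straight lines. -/
def S_K12 : Prop := ¬ TReal 12 31 (ent k12)

/-- From the orders of the crossings to real lines: each cluster has a path whose bend is after its
crossings with the other clusters. -/
def S_GEO : Prop := ∀ (n P : ℕ) (sg : ℕ → ℕ → Bool),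
  Ord (12 * (n + 1)) (P + (n - 1) + 31 * (n + 1))
    (sg2 (ent k12) (P + (n - 1)) (sg1 P sg)) → TReal n P sg

/-! ### Completeness: configurations -/

/-- The function with slope `hi` to the left and slope `lo` to the right of `ξ`, with value `τ` at
`ξ`. -/
noncomputable def cf (lo hi ξ τ x : ℝ) : ℝ := τ + hi * min (x - ξ) 0 + lo * max (x - ξ) 0

/-- Configurations of (slightly bent) lines and points. -/
structure IsConfig (n P : ℕ) (sg : ℕ → ℕ → Bool) (lo hi ξ τ : ℕ → ℝ) (p : ℕ → ℝ × ℝ) :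
    Prop where
  le : ∀ c < n, lo c ≤ hi c
  lt : ∀ c, c + 1 < n → hi c < lo (c + 1)
  ne : ∀ c < n, ∀ c' < n, c ≠ c' → cf (lo c') (hi c') (ξ c') (τ c') (ξ c) ≠ τ c
  side : ∀ j < P, ∀ c < n, if sg j c = true then cf (lo c) (hi c) (ξ c) (τ c) (p j).1 < (p j).2
    else (p j).2 < cf (lo c) (hi c) (ξ c) (τ c) (p j).1

/-- There is a configuration. -/
def Conf (n P : ℕ) (sg : ℕ → ℕ → Bool) : Prop :=
  ∃ lo hi ξ τ p, IsConfig n P sg lo hi ξ τ p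

/-- The line `0` and the points next to it. -/
def S_L0 : Prop := ∀ (n P : ℕ) (sg : ℕ → ℕ → Bool), OReal n P sg →
  OReal (n + 1) (P + (n - 1)) (sg1 P sg)

/-- The explicit configuration of the clusters. -/
def S_K12C : Prop := Conf 12 31 (ent k12)

/-- Insertion of the clusters. -/
def S_INS : Prop := ∀ (k : ℕ → ℕ → Bool) (n P : ℕ) (sg : ℕ → ℕ → Bool), 1 ≤ n →
  Conf 12 31 k → OReal n P sg → Conf (12 * n) (P + 31 * n) (sg2 k P sg)

/-- `w` copies of every (bent) line: the copies of the class `c` are `c * w, …, c * w + w - 1`. -/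
structure IsCop (n P w : ℕ) (sg : ℕ → ℕ → Bool) (lo hi ξ τ : ℕ → ℝ) (p : ℕ → ℝ × ℝ) :
    Prop where
  le : ∀ u < n * w, lo u ≤ hi u
  same : ∀ u u', u < u' → u' < n * w → u / w = u' / w → ξ u = ξ u' ∧ hi u < hi u' ∧ lo u < lo u'
  diff : ∀ u u', u' < n * w → u / w < u' / w → hi u < lo u'
  ne : ∀ u < n * w, ∀ u' < n * w, u ≠ u' → cf (lo u') (hi u') (ξ u') (τ u') (ξ u) ≠ τ u
  side : ∀ j < P, ∀ u < n * w, if sg j (u / w) = true then
    cf (lo u) (hi u) (ξ u) (τ u) (p j).1 < (p j).2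
    else (p j).2 < cf (lo u) (hi u) (ξ u) (τ u) (p j).1

/-- Copies exist. -/
def S_CPY : Prop := ∀ (n P w : ℕ) (sg : ℕ → ℕ → Bool), 1 ≤ w → Conf n P sg →
  ∃ lo hi ξ τ p, IsCop n P w sg lo hi ξ τ p

/-- The point of the parabola with abscissa `x i`. -/
def rp (Y : ℝ) (x : ℕ → ℝ) (i : ℕ) : ℝ × ℝ := (x i, x i ^ 2 - Y)

/-- The point `z` is in the interior of the convex polygon with the vertices `rp Y x i`,
`i < R`. -/
def InHull (R : ℕ) (Y : ℝ) (x : ℕ → ℝ) (z : ℝ × ℝ) : Prop :=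
  (∀ i, i + 1 < R → (x i + x (i + 1)) * z.1 - x i * x (i + 1) - Y < z.2) ∧
    z.2 < (x 0 + x (R - 1)) * z.1 - x 0 * x (R - 1) - Y

/-- The point `z` is in the convex polygon with the vertices `rp Y x i`, `i < R`. -/
def InCHull (R : ℕ) (Y : ℝ) (x : ℕ → ℝ) (z : ℝ × ℝ) : Prop :=
  (∀ i, i + 1 < R → (x i + x (i + 1)) * z.1 - x i * x (i + 1) - Y ≤ z.2) ∧
    z.2 ≤ (x 0 + x (R - 1)) * z.1 - x 0 * x (R - 1) - Y

/-- The intersections of a family of (bent) lines with a low parabola. -/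
structure IsLay (H : ℕ) (lo hi ξ τ : ℕ → ℝ) (M Y : ℝ) (x : ℕ → ℝ) : Prop where
  mono : ∀ i, i + 1 < 2 * H → x i < x (i + 1)
  left : ∀ m < H, x m < - M
  right : ∀ m < H, M < x (H + m)
  onL : ∀ m < H, cf (lo m) (hi m) (ξ m) (τ m) (x m) = x m ^ 2 - Y
  onR : ∀ m < H, cf (lo m) (hi m) (ξ m) (τ m) (x (H + m)) = x (H + m) ^ 2 - Y
  hull : ∀ z : ℝ × ℝ, |z.1| ≤ M → |z.2| ≤ M → InHull (2 * H) Y x z
  slope : ∀ z : ℝ × ℝ, |z.1| ≤ M → |z.2| ≤ M → ∀ m < H, ∀ m' < H, hi m < lo m' →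
    ((x m ^ 2 - Y - z.2) / (x m - z.1) < lo m' ∧
      (x (H + m) ^ 2 - Y - z.2) / (x (H + m) - z.1) < lo m') ∧
    (hi m < (x m' ^ 2 - Y - z.2) / (x m' - z.1) ∧
      hi m < (x (H + m') ^ 2 - Y - z.2) / (x (H + m') - z.1))

/-- The parabola exists. -/
def S_LAY : Prop := ∀ (H : ℕ) (lo hi ξ τ : ℕ → ℝ) (M : ℝ), 3 ≤ H → 0 < M →
  (∀ m < H, lo m ≤ hi m) →
  (∀ m m', m < m' → m' < H → hi m < lo m' ∨ (ξ m = ξ m' ∧ hi m < hi m' ∧ lo m < lo m')) →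
  hi 0 < lo (H - 1) → (∀ m < H, |ξ m| ≤ M ∧ |τ m| ≤ M) → ∃ Y x, IsLay H lo hi ξ τ M Y x

/-- Points in general position. -/
def S_GEN : Prop := ∀ (P : ℕ) (p : ℕ → ℝ × ℝ) (ε : ℝ) (Z : Finset (ℝ × ℝ)), 0 < ε →
  ∃ p' : ℕ → ℝ × ℝ, (∀ j < P, |(p' j).1 - (p j).1| < ε ∧ |(p' j).2 - (p j).2| < ε) ∧
    (∀ j < P, p' j ∉ Z ∧ ∀ z ∈ Z, ∀ z' ∈ Z, z ≠ z' → cr (p' j - z) (z' - z) ≠ 0) ∧
    ∀ j < P, ∀ j' < P, j ≠ j' → p' j ≠ p' j' ∧ ∀ z ∈ Z, cr (p' j - z) (p' j' - z) ≠ 0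

/-- The drawing of a chord. -/
def cd (n P : ℕ) (Y : ℝ) (x : ℕ → ℝ) (V : ℕ → ℝ × ℝ) (u : ℕ) : Set (ℝ × ℝ) :=
  segment ℝ (rp Y x (posA n P u)) (V u) ∪ segment ℝ (V u) (rp Y x (posB n P u))

/-- The drawing of a star edge. -/
def sp (n P : ℕ) (sg : ℕ → ℕ → Bool) (Y : ℝ) (x : ℕ → ℝ) (p : ℕ → ℝ × ℝ) (j m : ℕ) :
    Set (ℝ × ℝ) :=
  segment ℝ (p j) (rp Y x (posS n P sg j m))

/-- A drawing of the chords and the stars inside the polygon. -/
structure Main (n P : ℕ) (sg : ℕ → ℕ → Bool) (Y : ℝ) (x : ℕ → ℝ) (V p : ℕ → ℝ × ℝ) : Prop where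
  mono : ∀ i, i + 1 < 2 * H n P → x i < x (i + 1)
  hullV : ∀ u < NN n P, InHull (2 * H n P) Y x (V u)
  hullp : ∀ j < P, InHull (2 * H n P) Y x (p j)
  mid : ∀ u < NN n P, x (posA n P u) < (V u).1 ∧ (V u).1 < x (posB n P u)
  chch : ∀ u < NN n P, ∀ u' < NN n P, u ≠ u' →
    (cd n P Y x V u ∩ cd n P Y x V u').Subsingleton ∧ V u ∉ cd n P Y x V u'
  stch : ∀ j < P, ∀ m < 2 * n, ∀ u < NN n P,
    (sp n P sg Y x p j m ∩ cd n P Y x V u).Subsingleton ∧ V u ∉ sp n P sg Y x p j m ∧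
      (ab n sg j m (u / W n P) = sg j (u / W n P) →
        sp n P sg Y x p j m ∩ cd n P Y x V u = ∅)
  pch : ∀ j < P, ∀ u < NN n P, p j ∉ cd n P Y x V u
  pst : ∀ j < P, ∀ j' < P, j ≠ j' → ∀ m < 2 * n, p j' ∉ sp n P sg Y x p j m
  stst : ∀ j < P, ∀ m < 2 * n, ∀ j' < P, ∀ m' < 2 * n, ¬ (j = j' ∧ m = m') →
    (sp n P sg Y x p j m ∩ sp n P sg Y x p j' m').Subsingleton

/-- The drawing inside the polygon exists. -/
def S_MAIN : Prop := ∀ (n P : ℕ) (sg : ℕ → ℕ → Bool), 1 ≤ n → Conf n P sg →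
  ∃ Y x V p, Main n P sg Y x V p

/-- The vertices of the frame. -/
inductive Fv : Type
  | r (i : ℕ)
  | X (i k : ℕ)
  | Y (i k : ℕ)
  | h
  deriving DecidableEq

/-- Valid vertices of the frame. -/
def Fv.Valid (R B : ℕ) : Fv → Prop
  | r i => i < R
  | X i k => i < R ∧ k < B
  | Y i k => i < R ∧ k < B
  | h => True

/-- The first end of the frame edge of kind `t < 4`. -/
def fsrc (e : ℕ × ℕ × ℕ) : Fv :=
  if e.1 = 0 then Fv.r e.2.1 else if e.1 = 1 then Fv.X e.2.1 e.2.2 else if e.1 = 2 then Fv.h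
  else Fv.Y e.2.1 e.2.2

/-- The second end of the frame edge of kind `t < 4`. -/
def ftgt (R : ℕ) (e : ℕ × ℕ × ℕ) : Fv :=
  if e.1 = 0 then Fv.X e.2.1 e.2.2 else if e.1 = 1 then Fv.r ((e.2.1 + 1) % R) else
  if e.1 = 2 then Fv.Y e.2.1 e.2.2 else Fv.r e.2.1

/-- Valid edges of the frame. -/
def FVal (R B : ℕ) (e : ℕ × ℕ × ℕ) : Prop := e.1 < 4 ∧ e.2.1 < R ∧ e.2.2 < B

/-- A straight-line drawing of the frame outside the polygon. -/
structure IsFrame (R B : ℕ) (Y : ℝ) (x : ℕ → ℝ) (pos : Fv → ℝ × ℝ) : Prop where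
  rim : ∀ i < R, pos (Fv.r i) = rp Y x i
  inj : ∀ v v', Fv.Valid R B v → Fv.Valid R B v' → pos v = pos v' → v = v'
  pair : ∀ e e', FVal R B e → FVal R B e' → e ≠ e' → ∀ z,
    z ∈ segment ℝ (pos (fsrc e)) (pos (ftgt R e)) →
    z ∈ segment ℝ (pos (fsrc e')) (pos (ftgt R e')) →
    ∃ v, (v = fsrc e ∨ v = ftgt R e) ∧ (v = fsrc e' ∨ v = ftgt R e') ∧ z = pos v
  hull : ∀ e, FVal R B e → ∀ z, z ∈ segment ℝ (pos (fsrc e)) (pos (ftgt R e)) →
    InCHull R Y x z → ∃ i < R, (fsrc e = Fv.r i ∨ ftgt R e = Fv.r i) ∧ z = rp Y x i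

/-- The frame can be drawn. -/
def S_FRM : Prop := ∀ (R B : ℕ) (Y : ℝ) (x : ℕ → ℝ), 3 ≤ R →
  (∀ i, i + 1 < R → x i < x (i + 1)) → ∃ pos, IsFrame R B Y x pos

/-- The drawing of the graph. -/
def S_ASM : Prop := ∀ (n P : ℕ) (sg : ℕ → ℕ → Bool), 1 ≤ n →
  (∃ Y x V p, Main n P sg Y x V p) →
  (∀ (B : ℕ) (Y : ℝ) (x : ℕ → ℝ), (∀ i, i + 1 < 2 * H n P → x i < x (i + 1)) →
    ∃ pos, IsFrame (2 * H n P) B Y x pos) → CR 2 (gr n P sg)

/-! ### The pattern of a program -/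

/-- The cross ratio form: the sign of `Φ` decides on which side of the exact value `s 5` is. -/
def Phi (s : ℕ → ℝ) : ℝ :=
  (s 5 - s 2) * (s 3 - s 4) * (s 0 - s 1) - (s 5 - s 4) * (s 0 - s 2) * (s 3 - s 1)

/-- The sign with which `Phi` has to be multiplied for the quadrilateral `b`. -/
def sgn (add : Bool) (b : ℕ) : ℝ := (if b = 1 then -1 else 1) * (if add = true then -1 else 1)

/-- Quadrilaterals near an exact one: `σ` are the slopes of the lines `6, …, 11` of an exact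
quadrilateral. -/
def S_BQ : Prop := ∀ (add : Bool) (b : ℕ) (σ : ℕ → ℝ), b < 2 →
  σ 1 < σ 0 → σ 1 < σ 4 → σ 0 < σ 5 → σ 4 < σ 5 → σ 5 < σ 3 →
  (add = false → σ 2 < σ 1) → (add = true → σ 2 = σ 3) → Phi σ = 0 →
  ∃ δ B : ℝ, 0 < δ ∧ 0 < B ∧ ∀ s : ℕ → ℝ, (∀ u < 6, |s u - σ u| < δ) → 0 < sgn add b * Phi s →
    ∃ (t : ℕ → ℝ) (p : ℕ → ℝ × ℝ), (∀ u < 6, |t u| ≤ B) ∧
      (∀ i < 5, |(p i).1| ≤ B ∧ |(p i).2| ≤ B) ∧
      ∀ i < 5, ∀ u < 6, if tab add b i u = true then s u * (p i).1 + t u < (p i).2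
        else (p i).2 < s u * (p i).1 + t u

/-- The slopes. -/
def S_BM : Prop := ∀ p : List Ins, WF 2 p → OSat p → ∃ σ : ℕ → ℝ,
  (∀ a b, a < b → b < Ng p → σ a < σ b) ∧
  (∀ k c, Sgn.opd p k = some c → Phi (fun u => σ (grp p (lab c k u))) = 0) ∧
  ∀ δ > 0, ∃ s : ℕ → ℝ, (∀ a b, a < b → b < bN p → s a < s b) ∧
    (∀ x < bN p, |s x - σ (x / (12 * Ng p) / 6)| < δ) ∧
    ∀ k c, Sgn.opd p k = some c → ∀ b < 2,
      0 < sgn (decide (c.1 = 0)) b * Phi (fun u => s (qidx p c k b u))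

/-- Completeness of the pattern of a program. -/
def S_BA : Prop := S_BQ → ∀ p : List Ins, WF 2 p → (∃ σ : ℕ → ℝ,
  (∀ a b, a < b → b < Ng p → σ a < σ b) ∧
  (∀ k c, Sgn.opd p k = some c → Phi (fun u => σ (grp p (lab c k u))) = 0) ∧
  ∀ δ > 0, ∃ s : ℕ → ℝ, (∀ a b, a < b → b < bN p → s a < s b) ∧
    (∀ x < bN p, |s x - σ (x / (12 * Ng p) / 6)| < δ) ∧
    ∀ k c, Sgn.opd p k = some c → ∀ b < 2,
      0 < sgn (decide (c.1 = 0)) b * Phi (fun u => s (qidx p c k b u))) →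
  OReal (bN p) (bP p) (bsg p)

/-- The identity behind the quadrilaterals. -/
theorem quad_identity (s t : ℕ → ℝ) (i l o w j k : ℕ) :
    (s k - s j) * (s w - s j) * (s w - s k) * EE s t o l i -
      (s i - s l) * (s w - s j) * (s w - s k) * EE s t o j k +
      (s i - s o) * (s k - s j) * (s w - s k) * EE s t l j w -
      (s l - s o) * (s k - s j) * (s w - s j) * EE s t i k w =
    ((s k - s o) * (s w - s j) * (s i - s l) - (s k - s j) * (s i - s o) * (s w - s l)) *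
      EE s t j k w := by
  unfold EE
  ring

/-- Soundness of the pattern of a program. -/
def S_BS : Prop := ∀ p : List Ins, WF 2 p → TReal (bN p) (bP p) (bsg p) → OSat p

/-! ### Polynomial time and membership -/

/-- The reduction. -/
def red (S : List Con) : Inst := gr (fN (prog S)) (fP (prog S)) (fS (prog S))

/-- The reduction is computable in polynomial time. -/
def S_PR : Prop := Poly red

/-- Membership in `∃ℝ`. -/
def S_MEM : Prop := InER (lang fun G : Inst => IsInst G ∧ CR 2 G)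

end Pool.Agent.K1H23.PC
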