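import Pool.Agent.K1H23.PC.Stm

set_option autoImplicit false

/-!
# The drawing of the graph (task 2317, helper10)
-/

namespace Pool.Agent.K1H23.PC

/-! ### The convex polygon -/

theorem asm_mono {R : ℕ} {x : ℕ → ℝ} (hx : ∀ i, i + 1 < R → x i < x (i + 1)) :
    ∀ j i, i < j → j < R → x i < x j := by
  intro j
  induction j with
  | zero => intro i hi; omega
  | succ j ih =>
    intro i hi hj
    rcases Nat.lt_succ_iff_lt_or_eq.1 hi with h | h
    · exact (ih i h (by omega)).trans (hx j hj)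
    · rw [h]
      exact hx j hj

theorem asm_mono_le {R : ℕ} {x : ℕ → ℝ} (hx : ∀ i, i + 1 < R → x i < x (i + 1)) (i j : ℕ)
    (hij : i ≤ j) (hj : j < R) : x i ≤ x j := by
  rcases Nat.lt_or_eq_of_le hij with h | h
  · exact (asm_mono hx j i h hj).le
  · rw [h]

theorem rp_inj {R : ℕ} {Y : ℝ} {x : ℕ → ℝ} (hx : ∀ i, i + 1 < R → x i < x (i + 1)) {i j : ℕ}
    (hi : i < R) (hj : j < R) (h : rp Y x i = rp Y x j) : i = j := by
  have h1 : x i = x j := congrArg Prod.fst h
  rcases Nat.lt_trichotomy i j with h2 | h2 | h2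
  · exact absurd h1 (asm_mono hx j i h2 hj).ne
  · exact h2
  · exact absurd h1 (asm_mono hx i j h2 hi).ne'

theorem rp_cHull {R : ℕ} {Y : ℝ} {x : ℕ → ℝ} (hx : ∀ i, i + 1 < R → x i < x (i + 1)) {i : ℕ}
    (hi : i < R) : InCHull R Y x (rp Y x i) := by
  constructor
  · intro k hk
    change (x k + x (k + 1)) * x i - x k * x (k + 1) - Y ≤ x i ^ 2 - Y
    have h : 0 ≤ (x i - x k) * (x i - x (k + 1)) := by
      rcases Nat.lt_or_ge k i with h1 | h1
      · exact mul_nonneg (sub_nonneg.2 (asm_mono_le hx k i h1.le hi))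
          (sub_nonneg.2 (asm_mono_le hx (k + 1) i h1 hi))
      · exact mul_nonneg_of_nonpos_of_nonpos
          (sub_nonpos.2 (asm_mono_le hx i k h1 (by omega)))
          (sub_nonpos.2 (asm_mono_le hx i (k + 1) (by omega) hk))
    nlinarith
  · change x i ^ 2 - Y ≤ (x 0 + x (R - 1)) * x i - x 0 * x (R - 1) - Y
    have h : 0 ≤ (x i - x 0) * (x (R - 1) - x i) :=
      mul_nonneg (sub_nonneg.2 (asm_mono_le hx 0 i (Nat.zero_le _) hi))
        (sub_nonneg.2 (asm_mono_le hx i (R - 1) (by omega) (by omega)))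
    nlinarith

theorem rp_not_hull {R : ℕ} {Y : ℝ} {x : ℕ → ℝ} {i : ℕ} (hi : i < R) :
    ¬ InHull R Y x (rp Y x i) := by
  rintro ⟨h1, h2⟩
  rcases Nat.lt_or_ge (i + 1) R with h | h
  · have h3 := h1 i h
    change (x i + x (i + 1)) * x i - x i * x (i + 1) - Y < x i ^ 2 - Y at h3
    nlinarith
  · have h4 : i = R - 1 := by omega
    rw [← h4] at h2
    change x i ^ 2 - Y < (x 0 + x i) * x i - x 0 * x i - Y at h2
    nlinarith

theorem InHull.cl {R : ℕ} {Y : ℝ} {x : ℕ → ℝ} {z : ℝ × ℝ} (h : InHull R Y x z) :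
    InCHull R Y x z := ⟨fun i hi => (h.1 i hi).le, h.2.le⟩

/-- half-open segments from a point of the polygon to an interior point -/
theorem seg_hull {R : ℕ} {Y : ℝ} {x : ℕ → ℝ} {a b : ℝ × ℝ} (ha : InCHull R Y x a)
    (hb : InHull R Y x b) {z : ℝ × ℝ} (hz : z ∈ segment ℝ a b) : z = a ∨ InHull R Y x z := by
  obtain ⟨s, t, hs, ht, hst, rfl⟩ := hz
  rcases ht.eq_or_lt with h | h
  · left
    have : s = 1 := by linarith
    rw [← h, this, one_smul, zero_smul, add_zero]
  · right
    have e1 : (s • a + t • b).1 = s * a.1 + t * b.1 := rfl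
    have e2 : (s • a + t • b).2 = s * a.2 + t * b.2 := rfl
    constructor
    · intro i hi
      have h1 := ha.1 i hi
      have h2 := hb.1 i hi
      rw [e1, e2]
      have h3 : s * ((x i + x (i + 1)) * a.1 - x i * x (i + 1) - Y) ≤ s * a.2 :=
        mul_le_mul_of_nonneg_left h1 hs
      have h4 : t * ((x i + x (i + 1)) * b.1 - x i * x (i + 1) - Y) < t * b.2 :=
        mul_lt_mul_of_pos_left h2 h
      have h5 : (x i + x (i + 1)) * (s * a.1 + t * b.1) - x i * x (i + 1) - Y =
          s * ((x i + x (i + 1)) * a.1 - x i * x (i + 1) - Y) +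
          t * ((x i + x (i + 1)) * b.1 - x i * x (i + 1) - Y) := by
        have : s = 1 - t := by linarith
        rw [this]
        ring
      rw [h5]
      exact add_lt_add_of_le_of_lt h3 h4
    · have h1 := ha.2
      have h2 := hb.2
      rw [e1, e2]
      have h3 : s * a.2 ≤ s * ((x 0 + x (R - 1)) * a.1 - x 0 * x (R - 1) - Y) :=
        mul_le_mul_of_nonneg_left h1 hs
      have h4 : t * b.2 < t * ((x 0 + x (R - 1)) * b.1 - x 0 * x (R - 1) - Y) :=
        mul_lt_mul_of_pos_left h2 h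
      have h5 : (x 0 + x (R - 1)) * (s * a.1 + t * b.1) - x 0 * x (R - 1) - Y =
          s * ((x 0 + x (R - 1)) * a.1 - x 0 * x (R - 1) - Y) +
          t * ((x 0 + x (R - 1)) * b.1 - x 0 * x (R - 1) - Y) := by
        have : s = 1 - t := by linarith
        rw [this]
        ring
      rw [h5]
      exact add_lt_add_of_le_of_lt h3 h4

/-! ### Paths with two segments -/

/-- Two segments which only meet in the common node. -/
def G3 (a b c : ℝ × ℝ) : Prop :=
  a ≠ b ∧ b ≠ c ∧ ∀ z, z ∈ segment ℝ a b → z ∈ segment ℝ b c → z = b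

theorem G3.symm {a b c : ℝ × ℝ} (h : G3 a b c) : G3 c b a :=
  ⟨h.2.1.symm, h.1.symm, fun z h1 h2 => h.2.2 z (by rwa [segment_symm]) (by rwa [segment_symm])⟩

theorem G3.simple {q : ℕ → ℝ × ℝ} (h : G3 (q 0) (q 1) (q 2)) : Simple 2 q := by
  constructor
  · intro i hi
    interval_cases i
    · exact h.1
    · exact h.2.1
  · intro i j hij hj z h1 h2
    have hi : i = 0 := by omega
    have hj : j = 1 := by omega
    subst hi
    subst hj
    exact ⟨rfl, h.2.2 z h1 h2⟩

theorem path_two (q : ℕ → ℝ × ℝ) :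
    path 2 q = segment ℝ (q 0) (q 1) ∪ segment ℝ (q 1) (q 2) := by
  ext z
  constructor
  · rintro ⟨i, hi, hz⟩
    interval_cases i
    · exact Or.inl hz
    · exact Or.inr hz
  · rintro (hz | hz)
    · exact ⟨0, by norm_num, hz⟩
    · exact ⟨1, by norm_num, hz⟩

theorem G3.of_fst {a b c : ℝ × ℝ} (h1 : a.1 < b.1) (h2 : b.1 < c.1) : G3 a b c := by
  refine ⟨fun h => h1.ne (congrArg Prod.fst h), fun h => h2.ne (congrArg Prod.fst h),
    fun z hz1 hz2 => ?_⟩
  obtain ⟨s, t, hs, ht, hst, rfl⟩ := hz1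
  obtain ⟨s', t', hs', ht', hst', hz⟩ := hz2
  have e1 : (s • a + t • b).1 = s * a.1 + t * b.1 := rfl
  have e2 : (s' • b + t' • c).1 = s' * b.1 + t' * c.1 := rfl
  have e3 := congrArg Prod.fst hz
  rw [e1, e2] at e3
  have hs0 : s = 0 := by
    by_contra h
    have h3 : 0 < s := lt_of_le_of_ne hs (Ne.symm h)
    have h4 : s * a.1 + t * b.1 < b.1 := by
      have : t = 1 - s := by linarith
      rw [this]
      nlinarith
    have h5 : b.1 ≤ s' * b.1 + t' * c.1 := by
      have : s' = 1 - t' := by linarith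
      rw [this]
      nlinarith
    linarith
  have ht1 : t = 1 := by linarith
  rw [hs0, ht1, zero_smul, one_smul, zero_add]

theorem seg_open {a b c : ℝ × ℝ} (hb : b ∈ openSegment ℝ a c) :
    segment ℝ a b ∪ segment ℝ b c = segment ℝ a c := by
  have hb' : b ∈ segment ℝ a c := openSegment_subset_segment ℝ a c hb
  apply Set.Subset.antisymm
  · refine Set.union_subset ?_ ?_
    · exact (convex_segment a c).segment_subset (left_mem_segment ℝ a c) hb'
    · exact (convex_segment a c).segment_subset hb' (right_mem_segment ℝ a c)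
  · rintro z ⟨s, t, hs, ht, hst, rfl⟩
    obtain ⟨s', t', hs', ht', hst', rfl⟩ := hb
    have e1 : s' = 1 - t' := by linarith
    have e2 : s = 1 - t := by linarith
    rcases le_total t t' with h | h
    · left
      refine ⟨1 - t / t', t / t', sub_nonneg.2 (div_le_one_of_le₀ h ht'.le), by positivity,
        by ring, ?_⟩
      rw [e1, e2, smul_add, smul_smul, smul_smul, ← add_assoc, ← add_smul]
      congr 2
      · field_simp
        ring
      · field_simp
    · right
      refine ⟨(1 - t) / (1 - t'), 1 - (1 - t) / (1 - t'), ?_, ?_, by ring, ?_⟩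
      · exact div_nonneg (by linarith) (by linarith)
      · exact sub_nonneg.2 (div_le_one_of_le₀ (by linarith) (by linarith))
      · have h1 : (1 - t') ≠ 0 := by linarith
        rw [e1, e2, smul_add, smul_smul, smul_smul, add_assoc, ← add_smul]
        congr 2
        · field_simp
        · field_simp
          ring

theorem G3.of_open {a b c : ℝ × ℝ} (hac : a ≠ c) (hb : b ∈ openSegment ℝ a c) : G3 a b c := by
  obtain ⟨s, t, hs, ht, hst, rfl⟩ := hb
  have key : ∀ r : ℝ, r • (c - a) = 0 → r = 0 := by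
    intro r hr
    rcases smul_eq_zero.1 hr with h | h
    · exact h
    · exact absurd (sub_eq_zero.1 h).symm hac
  have e1 : s = 1 - t := by linarith
  refine ⟨fun h => ?_, fun h => ?_, fun z hz1 hz2 => ?_⟩
  · have h1 : t • (c - a) = 0 := by
      have h2 : s • a + t • c - a = t • (c - a) := by
        rw [e1, sub_smul, one_smul, smul_sub]
        abel
      rw [← h2, ← h, sub_self]
    exact ht.ne' (key t h1)
  · have h1 : s • (c - a) = 0 := by
      have e2 : t = 1 - s := by linarith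
      have h2 : c - (s • a + t • c) = s • (c - a) := by
        rw [e2, sub_smul, one_smul, smul_sub]
        abel
      rw [← h2, h, sub_self]
    exact hs.ne' (key s h1)
  · obtain ⟨s1, t1, hs1, ht1, hst1, rfl⟩ := hz1
    obtain ⟨s2, t2, hs2, ht2, hst2, hz⟩ := hz2
    have e2 : s1 = 1 - t1 := by linarith
    have e3 : s2 = 1 - t2 := by linarith
    have h1 : (t1 * t - (t + t2 * (1 - t))) • (c - a) = 0 := by
      have h2 : s1 • a + t1 • (s • a + t • c) - (s2 • (s • a + t • c) + t2 • c) =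
          (t1 * t - (t + t2 * (1 - t))) • (c - a) := by
        rw [e1, e2, e3]
        ext
        · simp only [Prod.fst_sub, Prod.fst_add, Prod.smul_fst, smul_eq_mul]
          ring
        · simp only [Prod.snd_sub, Prod.snd_add, Prod.smul_snd, smul_eq_mul]
          ring
      rw [← h2, hz, sub_self]
    have h3 := key _ h1
    have h4 : t1 = 1 := by
      nlinarith [mul_nonneg ht2 hs.le]
    have h5 : s1 = 0 := by linarith
    rw [h4, h5, zero_smul, one_smul, zero_add]

/-! ### The vertices -/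

/-- The number of a vertex of the frame. -/
def fcode (n P : ℕ) : Fv → ℕ
  | Fv.r i => vR i
  | Fv.X i k => vX n P i k
  | Fv.Y i k => vY n P i k
  | Fv.h => 0

/-- The positions of the vertices. -/
noncomputable def aphi (n P : ℕ) (p : ℕ → ℝ × ℝ) (pos : Fv → ℝ × ℝ) (v : ℕ) : ℝ × ℝ :=
  if v = 0 then pos Fv.h else if v % 5 = 1 then pos (Fv.r (v / 5)) else
  if v % 5 = 2 then p (v / 5) else
  if v % 5 = 3 then pos (Fv.X (v / 5 / BB n P) (v / 5 % BB n P)) else
  pos (Fv.Y (v / 5 / BB n P) (v / 5 % BB n P))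

section

variable {n P : ℕ} {sg : ℕ → ℕ → Bool} {Y : ℝ} {x : ℕ → ℝ} {V p : ℕ → ℝ × ℝ} {pos : Fv → ℝ × ℝ}

theorem aphi_R (i : ℕ) : aphi n P p pos (vR i) = pos (Fv.r i) := by
  unfold aphi vR
  rw [if_neg (by omega), if_pos (by omega), show (5 * i + 1) / 5 = i by omega]

theorem aphi_P (j : ℕ) : aphi n P p pos (vP j) = p j := by
  unfold aphi vP
  rw [if_neg (by omega), if_neg (by omega), if_pos (by omega), show (5 * j + 2) / 5 = j by omega]

theorem aphi_X (i k : ℕ) (hk : k < BB n P) : aphi n P p pos (vX n P i k) = pos (Fv.X i k) := by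
  unfold aphi vX
  rw [if_neg (by omega), if_neg (by omega), if_neg (by omega), if_pos (by omega),
    show (5 * (i * BB n P + k) + 3) / 5 = i * BB n P + k by omega]
  congr 2
  · rw [mul_comm, Nat.mul_add_div (by omega), Nat.div_eq_of_lt hk, add_zero]
  · rw [mul_comm, Nat.mul_add_mod, Nat.mod_eq_of_lt hk]

theorem aphi_Y (i k : ℕ) (hk : k < BB n P) : aphi n P p pos (vY n P i k) = pos (Fv.Y i k) := by
  unfold aphi vY
  rw [if_neg (by omega), if_neg (by omega), if_neg (by omega), if_neg (by omega),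
    show (5 * (i * BB n P + k) + 4) / 5 = i * BB n P + k by omega]
  congr 2
  · rw [mul_comm, Nat.mul_add_div (by omega), Nat.div_eq_of_lt hk, add_zero]
  · rw [mul_comm, Nat.mul_add_mod, Nat.mod_eq_of_lt hk]

theorem aphi_code (v : Fv) (hv : Fv.Valid (2 * H n P) (BB n P) v) :
    aphi n P p pos (fcode n P v) = pos v := by
  cases v with
  | r i => exact aphi_R i
  | X i k => exact aphi_X i k hv.2
  | Y i k => exact aphi_Y i k hv.2
  | h => rfl

theorem mem_vts_imp {w : ℕ} (hw : w ∈ vts n P) :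
    (∃ v, Fv.Valid (2 * H n P) (BB n P) v ∧ w = fcode n P v) ∨ ∃ j < P, w = vP j := by
  have hB : 0 < BB n P := Nat.succ_pos _
  unfold vts at hw
  simp only [List.mem_cons, List.mem_append, List.mem_map, List.mem_range] at hw
  rcases hw with h | ((⟨i, hi, h⟩ | ⟨j, hj, h⟩) | ⟨a, ha, h⟩) | ⟨a, ha, h⟩
  · exact Or.inl ⟨Fv.h, trivial, h⟩
  · exact Or.inl ⟨Fv.r i, hi, h.symm⟩
  · exact Or.inr ⟨j, hj, h.symm⟩
  · refine Or.inl ⟨Fv.X (a / BB n P) (a % BB n P), ⟨Nat.div_lt_of_lt_mul (by rwa [mul_comm]),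
      Nat.mod_lt _ hB⟩, ?_⟩
    change w = 5 * (a / BB n P * BB n P + a % BB n P) + 3
    rw [Nat.div_add_mod']
    exact h.symm
  · refine Or.inl ⟨Fv.Y (a / BB n P) (a % BB n P), ⟨Nat.div_lt_of_lt_mul (by rwa [mul_comm]),
      Nat.mod_lt _ hB⟩, ?_⟩
    change w = 5 * (a / BB n P * BB n P + a % BB n P) + 4
    rw [Nat.div_add_mod']
    exact h.symm

/-! ### The edges -/

/-- The number of a frame edge. -/
def Ed.ft : Ed → ℕ × ℕ × ℕ
  | Ed.ch _ => (0, 0, 0)
  | Ed.st _ _ => (0, 0, 0)
  | Ed.x1 i k => (0, i, k)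
  | Ed.x2 i k => (1, i, k)
  | Ed.y1 i k => (2, i, k)
  | Ed.y2 i k => (3, i, k)

variable (n P sg Y x V p pos) in
/-- The drawing of an edge. -/
def aD : Ed → Set (ℝ × ℝ)
  | Ed.ch u => cd n P Y x V u
  | Ed.st j m => sp n P sg Y x p j m
  | Ed.x1 i k => segment ℝ (pos (fsrc (0, i, k))) (pos (ftgt (2 * H n P) (0, i, k)))
  | Ed.x2 i k => segment ℝ (pos (fsrc (1, i, k))) (pos (ftgt (2 * H n P) (1, i, k)))
  | Ed.y1 i k => segment ℝ (pos (fsrc (2, i, k))) (pos (ftgt (2 * H n P) (2, i, k)))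
  | Ed.y2 i k => segment ℝ (pos (fsrc (3, i, k))) (pos (ftgt (2 * H n P) (3, i, k)))

theorem ft_D {e : Ed} (hm : ¬ e.Main) : aD n P sg Y x V p pos e =
    segment ℝ (pos (fsrc e.ft)) (pos (ftgt (2 * H n P) e.ft)) := by
  cases e with
  | ch u => exact absurd trivial hm
  | st j m => exact absurd trivial hm
  | x1 i k => rfl
  | x2 i k => rfl
  | y1 i k => rfl
  | y2 i k => rfl

theorem ft_val {e : Ed} (he : e.Valid n P) (hm : ¬ e.Main) :
    FVal (2 * H n P) (BB n P) e.ft := by
  cases e with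
  | ch u => exact absurd trivial hm
  | st j m => exact absurd trivial hm
  | x1 i k => exact ⟨by simp [Ed.ft], he.1, he.2⟩
  | x2 i k => exact ⟨by simp [Ed.ft], he.1, he.2⟩
  | y1 i k => exact ⟨by simp [Ed.ft], he.1, he.2⟩
  | y2 i k => exact ⟨by simp [Ed.ft], he.1, he.2⟩

theorem ft_src {e : Ed} (hm : ¬ e.Main) : e.src n P = fcode n P (fsrc e.ft) := by
  cases e with
  | ch u => exact absurd trivial hm
  | st j m => exact absurd trivial hm
  | x1 i k => rfl
  | x2 i k => rfl
  | y1 i k => rfl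
  | y2 i k => rfl

theorem ft_tgt {e : Ed} (hm : ¬ e.Main) :
    e.tgt n P sg = fcode n P (ftgt (2 * H n P) e.ft) := by
  cases e with
  | ch u => exact absurd trivial hm
  | st j m => exact absurd trivial hm
  | x1 i k => rfl
  | x2 i k => rfl
  | y1 i k => rfl
  | y2 i k => rfl

theorem ft_inj {e f : Ed} (he : ¬ e.Main) (hf : ¬ f.Main) (h : e.ft = f.ft) : e = f := by
  cases e with
  | ch u => exact absurd trivial he
  | st j m => exact absurd trivial he
  | x1 i k =>
    cases f with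
    | ch u => exact absurd trivial hf
    | st j m => exact absurd trivial hf
    | x1 i' k' =>
      have h1 : ((0 : ℕ), i, k) = ((0 : ℕ), i', k') := h
      simp only [Prod.mk.injEq, true_and] at h1
      rw [h1.1, h1.2]
    | x2 i' k' => exact absurd (congrArg Prod.fst h) (by simp [Ed.ft])
    | y1 i' k' => exact absurd (congrArg Prod.fst h) (by simp [Ed.ft])
    | y2 i' k' => exact absurd (congrArg Prod.fst h) (by simp [Ed.ft])
  | x2 i k =>
    cases f with
    | ch u => exact absurd trivial hf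
    | st j m => exact absurd trivial hf
    | x2 i' k' =>
      have h1 : ((1 : ℕ), i, k) = ((1 : ℕ), i', k') := h
      simp only [Prod.mk.injEq, true_and] at h1
      rw [h1.1, h1.2]
    | x1 i' k' => exact absurd (congrArg Prod.fst h) (by simp [Ed.ft])
    | y1 i' k' => exact absurd (congrArg Prod.fst h) (by simp [Ed.ft])
    | y2 i' k' => exact absurd (congrArg Prod.fst h) (by simp [Ed.ft])
  | y1 i k =>
    cases f with
    | ch u => exact absurd trivial hf
    | st j m => exact absurd trivial hf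
    | y1 i' k' =>
      have h1 : ((2 : ℕ), i, k) = ((2 : ℕ), i', k') := h
      simp only [Prod.mk.injEq, true_and] at h1
      rw [h1.1, h1.2]
    | x1 i' k' => exact absurd (congrArg Prod.fst h) (by simp [Ed.ft])
    | x2 i' k' => exact absurd (congrArg Prod.fst h) (by simp [Ed.ft])
    | y2 i' k' => exact absurd (congrArg Prod.fst h) (by simp [Ed.ft])
  | y2 i k =>
    cases f with
    | ch u => exact absurd trivial hf
    | st j m => exact absurd trivial hf
    | y2 i' k' =>
      have h1 : ((3 : ℕ), i, k) = ((3 : ℕ), i', k') := h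
      simp only [Prod.mk.injEq, true_and] at h1
      rw [h1.1, h1.2]
    | x1 i' k' => exact absurd (congrArg Prod.fst h) (by simp [Ed.ft])
    | x2 i' k' => exact absurd (congrArg Prod.fst h) (by simp [Ed.ft])
    | y1 i' k' => exact absurd (congrArg Prod.fst h) (by simp [Ed.ft])

theorem fv_src {R B : ℕ} {t : ℕ × ℕ × ℕ} (h : FVal R B t) : Fv.Valid R B (fsrc t) := by
  obtain ⟨a, i, k⟩ := t
  obtain ⟨h1, h2, h3⟩ := h
  unfold fsrc
  dsimp only at h1 h2 h3 ⊢
  split_ifs
  · exact h2
  · exact ⟨h2, h3⟩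
  · trivial
  · exact ⟨h2, h3⟩

theorem fv_tgt {R B : ℕ} {t : ℕ × ℕ × ℕ} (h : FVal R B t) : Fv.Valid R B (ftgt R t) := by
  obtain ⟨a, i, k⟩ := t
  obtain ⟨h1, h2, h3⟩ := h
  unfold ftgt
  dsimp only at h1 h2 h3 ⊢
  split_ifs
  · exact ⟨h2, h3⟩
  · exact Nat.mod_lt _ (by omega)
  · exact ⟨h2, h3⟩
  · exact h2

theorem fv_ne {R B : ℕ} {t : ℕ × ℕ × ℕ} (h : FVal R B t) : fsrc t ≠ ftgt R t := by
  obtain ⟨a, i, k⟩ := t
  unfold fsrc ftgt
  dsimp only
  split_ifs <;> exact fun h => nomatch h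

theorem exists_edge {R B : ℕ} (hR : 0 < R) (hB : 0 < B) {v : Fv} (hv : Fv.Valid R B v) :
    ∃ t, FVal R B t ∧ (v = fsrc t ∨ v = ftgt R t) := by
  cases v with
  | r i => exact ⟨(0, i, 0), ⟨by norm_num, hv, hB⟩, Or.inl rfl⟩
  | X i k => exact ⟨(0, i, k), ⟨by norm_num, hv.1, hv.2⟩, Or.inr rfl⟩
  | Y i k => exact ⟨(2, i, k), ⟨by norm_num, hv.1, hv.2⟩, Or.inr rfl⟩
  | h => exact ⟨(2, 0, 0), ⟨by norm_num, hR, hB⟩, Or.inl rfl⟩

/-- The hypotheses. -/
structure Ctx (n P : ℕ) (sg : ℕ → ℕ → Bool) (Y : ℝ) (x : ℕ → ℝ) (V p : ℕ → ℝ × ℝ)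
    (pos : Fv → ℝ × ℝ) : Prop where
  hn : 1 ≤ n
  hM : Main n P sg Y x V p
  hF : IsFrame (2 * H n P) (BB n P) Y x pos
  pA : ∀ u < NN n P, posA n P u < 2 * H n P
  pB : ∀ u < NN n P, posB n P u < 2 * H n P
  pS : ∀ j m, m < 2 * n → posS n P sg j m < 2 * H n P

theorem Ctx.Rpos (h : Ctx n P sg Y x V p pos) : 0 < 2 * H n P := by
  have : 1 * (0 + 2) ≤ H n P := by
    unfold H
    exact Nat.mul_le_mul h.hn (by omega)
  omega

theorem BB_pos : 0 < BB n P := Nat.succ_pos _

/-- a point of a frame edge in the polygon -/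
theorem Ctx.frame_hull (h : Ctx n P sg Y x V p pos) {e : Ed} (he : e.Valid n P) (hm : ¬ e.Main)
    {z : ℝ × ℝ} (hz : z ∈ aD n P sg Y x V p pos e) (hc : InCHull (2 * H n P) Y x z) :
    ∃ i < 2 * H n P, (vR i = e.src n P ∨ vR i = e.tgt n P sg) ∧ z = rp Y x i := by
  rw [ft_D hm] at hz
  obtain ⟨i, hi, h1, h2⟩ := h.hF.hull e.ft (ft_val he hm) z hz hc
  refine ⟨i, hi, ?_, h2⟩
  rcases h1 with h1 | h1
  · left
    rw [ft_src hm, h1]
    rfl
  · right
    rw [ft_tgt hm, h1]
    rfl

/-- the points of a main edge -/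
theorem Ctx.main_hull (h : Ctx n P sg Y x V p pos) {e : Ed} (he : e.Valid n P) (hm : e.Main)
    {z : ℝ × ℝ} (hz : z ∈ aD n P sg Y x V p pos e) : InHull (2 * H n P) Y x z ∨
    ∃ i < 2 * H n P, (vR i = e.src n P ∨ vR i = e.tgt n P sg) ∧ z = rp Y x i := by
  have hmono := h.hM.mono
  cases e with
  | ch u =>
    have hu : u < NN n P := he
    rcases hz with hz | hz
    · rcases seg_hull (rp_cHull hmono (h.pA u hu)) (h.hM.hullV u hu) hz with h1 | h1
      · exact Or.inr ⟨_, h.pA u hu, Or.inl rfl, h1⟩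
      · exact Or.inl h1
    · rw [segment_symm] at hz
      rcases seg_hull (rp_cHull hmono (h.pB u hu)) (h.hM.hullV u hu) hz with h1 | h1
      · exact Or.inr ⟨_, h.pB u hu, Or.inr rfl, h1⟩
      · exact Or.inl h1
  | st j m =>
    obtain ⟨hj, hm'⟩ : j < P ∧ m < 2 * n := he
    have hz' : z ∈ segment ℝ (rp Y x (posS n P sg j m)) (p j) := by
      rw [segment_symm]
      exact hz
    rcases seg_hull (rp_cHull hmono (h.pS j m hm')) (h.hM.hullp j hj) hz' with h1 | h1
    · exact Or.inr ⟨_, h.pS j m hm', Or.inr rfl, h1⟩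
    · exact Or.inl h1
  | x1 i k => exact absurd hm id
  | x2 i k => exact absurd hm id
  | y1 i k => exact absurd hm id
  | y2 i k => exact absurd hm id

/-- a vertex of the frame in the polygon -/
theorem Ctx.vert_hull (h : Ctx n P sg Y x V p pos) {v : Fv}
    (hv : Fv.Valid (2 * H n P) (BB n P) v) (hc : InCHull (2 * H n P) Y x (pos v)) :
    ∃ i < 2 * H n P, v = Fv.r i := by
  obtain ⟨t, ht, h1⟩ := exists_edge h.Rpos BB_pos hv
  have h2 : pos v ∈ segment ℝ (pos (fsrc t)) (pos (ftgt (2 * H n P) t)) := by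
    rcases h1 with h1 | h1
    · rw [h1]
      exact left_mem_segment ℝ _ _
    · rw [h1]
      exact right_mem_segment ℝ _ _
  obtain ⟨i, hi, -, h3⟩ := h.hF.hull t ht _ h2 hc
  refine ⟨i, hi, h.hF.inj v (Fv.r i) hv hi ?_⟩
  rw [h3, h.hF.rim i hi]

theorem Ctx.vert_not (h : Ctx n P sg Y x V p pos) {v : Fv}
    (hv : Fv.Valid (2 * H n P) (BB n P) v) : ¬ InHull (2 * H n P) Y x (pos v) := by
  intro h1
  obtain ⟨i, hi, rfl⟩ := h.vert_hull hv h1.cl
  rw [h.hF.rim i hi] at h1
  exact rp_not_hull hi h1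

/-- the drawing is injective on the vertices -/
theorem Ctx.inj (h : Ctx n P sg Y x V p pos) : ∀ u ∈ vts n P, ∀ v ∈ vts n P,
    aphi n P p pos u = aphi n P p pos v → u = v := by
  intro u hu v hv huv
  have key : ∀ (w : Fv) (j : ℕ), Fv.Valid (2 * H n P) (BB n P) w → j < P → pos w ≠ p j := by
    intro w j hw hj h1
    have h2 := h.hM.hullp j hj
    rw [← h1] at h2
    exact h.vert_not hw h2
  rcases mem_vts_imp hu with ⟨a, ha, rfl⟩ | ⟨j, hj, rfl⟩
  · rcases mem_vts_imp hv with ⟨b, hb, rfl⟩ | ⟨j, hj, rfl⟩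
    · rw [aphi_code a ha, aphi_code b hb] at huv
      rw [h.hF.inj a b ha hb huv]
    · rw [aphi_code a ha, aphi_P] at huv
      exact absurd huv (key a j ha hj)
  · rcases mem_vts_imp hv with ⟨b, hb, rfl⟩ | ⟨j', hj', rfl⟩
    · rw [aphi_code b hb, aphi_P] at huv
      exact absurd huv.symm (key b j hb hj)
    · rw [aphi_P, aphi_P] at huv
      by_contra hne
      have hjj : j ≠ j' := fun h1 => hne (by rw [h1])
      have h1 := h.hM.pst j hj j' hj' hjj 0 (by have := h.hn; omega)
      rw [← huv] at h1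
      exact h1 (left_mem_segment ℝ _ _)

/-- no edge passes through a vertex -/
theorem Ctx.avoid (h : Ctx n P sg Y x V p pos) {e : Ed} (he : e.Valid n P) {w : ℕ}
    (hw : w ∈ vts n P) (h1 : w ≠ e.src n P) (h2 : w ≠ e.tgt n P sg) :
    aphi n P p pos w ∉ aD n P sg Y x V p pos e := by
  intro hz
  rcases mem_vts_imp hw with ⟨v, hv, rfl⟩ | ⟨j, hj, rfl⟩
  · rw [aphi_code v hv] at hz
    by_cases hm : e.Main
    · rcases h.main_hull he hm hz with h3 | ⟨i, hi, h3, h4⟩
      · exact h.vert_not hv h3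
      · have h5 : v = Fv.r i := h.hF.inj v (Fv.r i) hv hi (by rw [h4, h.hF.rim i hi])
        rw [h5] at h1 h2
        rcases h3 with h3 | h3
        · exact h1 h3
        · exact h2 h3
    · obtain ⟨t, ht, h3⟩ := exists_edge h.Rpos BB_pos hv
      have h4 : v ≠ fsrc e.ft := fun h5 => h1 (by rw [ft_src hm, h5])
      have h5 : v ≠ ftgt (2 * H n P) e.ft := fun h5 => h2 (by rw [ft_tgt hm, h5])
      have h6 : e.ft ≠ t := by
        rintro rfl
        rcases h3 with h3 | h3
        · exact h4 h3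
        · exact h5 h3
      have h7 : pos v ∈ segment ℝ (pos (fsrc t)) (pos (ftgt (2 * H n P) t)) := by
        rcases h3 with h3 | h3
        · rw [h3]
          exact left_mem_segment ℝ _ _
        · rw [h3]
          exact right_mem_segment ℝ _ _
      rw [ft_D hm] at hz
      obtain ⟨v', h8, -, h9⟩ := h.hF.pair e.ft t (ft_val he hm) ht h6 _ hz h7
      have hv' : Fv.Valid (2 * H n P) (BB n P) v' := by
        rcases h8 with h8 | h8
        · rw [h8]
          exact fv_src (ft_val he hm)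
        · rw [h8]
          exact fv_tgt (ft_val he hm)
      have h10 := h.hF.inj v v' hv hv' h9
      rw [← h10] at h8
      rcases h8 with h8 | h8
      · exact h4 h8
      · exact h5 h8
  · rw [aphi_P] at hz
    by_cases hm : e.Main
    · cases e with
      | ch u => exact h.hM.pch j hj u he hz
      | st j' m =>
        obtain ⟨hj', hm'⟩ : j' < P ∧ m < 2 * n := he
        have hjj : j' ≠ j := fun h3 => h1 (by rw [h3]; rfl)
        exact h.hM.pst j' hj' j hj hjj m hm' hz
      | x1 i k => exact absurd hm id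
      | x2 i k => exact absurd hm id
      | y1 i k => exact absurd hm id
      | y2 i k => exact absurd hm id
    · obtain ⟨i, hi, -, h3⟩ := h.frame_hull he hm hz (h.hM.hullp j hj).cl
      have h4 := h.hM.hullp j hj
      rw [h3] at h4
      exact rp_not_hull hi h4

/-- a frame edge meets another edge in a common end only -/
theorem Ctx.frame_meet (h : Ctx n P sg Y x V p pos) {e f : Ed} (he : e.Valid n P)
    (hf : f.Valid n P) (hm : ¬ e.Main) (hef : e ≠ f) {z : ℝ × ℝ}
    (hz : z ∈ aD n P sg Y x V p pos e) (hz' : z ∈ aD n P sg Y x V p pos f) :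
    ∃ w, (w = e.src n P ∨ w = e.tgt n P sg) ∧ (w = f.src n P ∨ w = f.tgt n P sg) ∧
      z = aphi n P p pos w := by
  by_cases hm' : f.Main
  · rcases h.main_hull hf hm' hz' with h1 | ⟨i, hi, h1, h2⟩
    · obtain ⟨i, hi, -, h3⟩ := h.frame_hull he hm hz h1.cl
      rw [h3] at h1
      exact absurd h1 (rp_not_hull hi)
    · have hc : InCHull (2 * H n P) Y x z := by
        rw [h2]
        exact rp_cHull h.hM.mono hi
      obtain ⟨i', hi', h3, h4⟩ := h.frame_hull he hm hz hc
      have h5 : i' = i := rp_inj h.hM.mono hi' hi (h4.symm.trans h2)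
      rw [h5] at h3
      exact ⟨vR i, h3, h1, by rw [aphi_R, h.hF.rim i hi, h2]⟩
  · rw [ft_D hm] at hz
    rw [ft_D hm'] at hz'
    obtain ⟨v, h1, h2, h3⟩ := h.hF.pair e.ft f.ft (ft_val he hm) (ft_val hf hm')
      (fun h4 => hef (ft_inj hm hm' h4)) z hz hz'
    have hv : Fv.Valid (2 * H n P) (BB n P) v := by
      rcases h1 with h1 | h1
      · rw [h1]
        exact fv_src (ft_val he hm)
      · rw [h1]
        exact fv_tgt (ft_val he hm)
    refine ⟨fcode n P v, ?_, ?_, by rw [aphi_code v hv, h3]⟩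
    · rw [ft_src hm, ft_tgt hm]
      rcases h1 with h1 | h1
      · exact Or.inl (by rw [h1])
      · exact Or.inr (by rw [h1])
    · rw [ft_src hm', ft_tgt hm']
      rcases h2 with h2 | h2
      · exact Or.inl (by rw [h2])
      · exact Or.inr (by rw [h2])

/-- two main edges have at most one common point -/
theorem Ctx.main_meet (h : Ctx n P sg Y x V p pos) {e f : Ed} (he : e.Valid n P)
    (hf : f.Valid n P) (hm : e.Main) (hm' : f.Main) (hef : e ≠ f) :
    (aD n P sg Y x V p pos e ∩ aD n P sg Y x V p pos f).Subsingleton := by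
  cases e with
  | ch u =>
    cases f with
    | ch u' => exact (h.hM.chch u he u' hf (fun h1 => hef (by rw [h1]))).1
    | st j m =>
      rw [Set.inter_comm]
      exact (h.hM.stch j hf.1 m hf.2 u he).1
    | x1 i k => exact absurd hm' id
    | x2 i k => exact absurd hm' id
    | y1 i k => exact absurd hm' id
    | y2 i k => exact absurd hm' id
  | st j m =>
    cases f with
    | ch u' => exact (h.hM.stch j he.1 m he.2 u' hf).1
    | st j' m' =>
      exact h.hM.stst j he.1 m he.2 j' hf.1 m' hf.2 (fun h1 => hef (by rw [h1.1, h1.2]))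
    | x1 i k => exact absurd hm' id
    | x2 i k => exact absurd hm' id
    | y1 i k => exact absurd hm' id
    | y2 i k => exact absurd hm' id
  | x1 i k => exact absurd hm id
  | x2 i k => exact absurd hm id
  | y1 i k => exact absurd hm id
  | y2 i k => exact absurd hm id

theorem main_finite : {e : Ed | e.Valid n P ∧ e.Main}.Finite := by
  have h1 : {e : Ed | e.Valid n P ∧ e.Main} ⊆
      (Ed.ch '' (Set.Iio (NN n P))) ∪ ((fun a : ℕ × ℕ => Ed.st a.1 a.2) ''
        (Set.Iio P ×ˢ Set.Iio (2 * n))) := by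
    rintro e ⟨he, hm⟩
    cases e with
    | ch u => exact Or.inl ⟨u, he, rfl⟩
    | st j m => exact Or.inr ⟨(j, m), ⟨he.1, he.2⟩, rfl⟩
    | x1 i k => exact absurd hm id
    | x2 i k => exact absurd hm id
    | y1 i k => exact absurd hm id
    | y2 i k => exact absurd hm id
  refine Set.Finite.subset ?_ h1
  exact ((Set.finite_Iio _).image _).union (((Set.finite_Iio _).prod (Set.finite_Iio _)).image _)

theorem open_infinite {a c : ℝ × ℝ} (hac : a ≠ c) : (openSegment ℝ a c).Infinite := by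
  rw [openSegment_eq_image]
  refine Set.Infinite.image ?_ (Set.Ioo_infinite one_pos)
  intro s _ t _ hst
  have h1 : (s - t) • (c - a) = 0 := by
    have h2 : (1 - s) • a + s • c - ((1 - t) • a + t • c) = (s - t) • (c - a) := by
      ext
      · simp only [Prod.fst_sub, Prod.fst_add, Prod.smul_fst, smul_eq_mul]
        ring
      · simp only [Prod.snd_sub, Prod.snd_add, Prod.smul_snd, smul_eq_mul]
        ring
    rw [← h2]
    exact sub_eq_zero.2 hst
  rcases smul_eq_zero.1 h1 with h2 | h2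
  · exact sub_eq_zero.1 h2
  · exact absurd (sub_eq_zero.1 h2).symm hac

/-- the bend of a star edge -/
theorem Ctx.exists_bend (h : Ctx n P sg Y x V p pos) {j m : ℕ} (hj : j < P) (hm : m < 2 * n) :
    ∃ b ∈ openSegment ℝ (p j) (rp Y x (posS n P sg j m)), ∀ f : Ed, f.Valid n P → f.Main →
      f ≠ Ed.st j m → b ∉ aD n P sg Y x V p pos f := by
  have hne : p j ≠ rp Y x (posS n P sg j m) := by
    intro h1
    have h2 := h.hM.hullp j hj
    rw [h1] at h2
    exact rp_not_hull (h.pS j m hm) h2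
  have hfin : (⋃ f ∈ {f : Ed | f.Valid n P ∧ f.Main} \ {Ed.st j m},
      (aD n P sg Y x V p pos (Ed.st j m) ∩ aD n P sg Y x V p pos f)).Finite := by
    refine Set.Finite.biUnion (main_finite.subset Set.sdiff_subset) fun f hf => ?_
    exact (h.main_meet (show (Ed.st j m).Valid n P from ⟨hj, hm⟩) hf.1.1 trivial hf.1.2
      (Ne.symm hf.2)).finite
  obtain ⟨b, hb, hb2⟩ := (open_infinite hne).exists_notMem_finite hfin
  refine ⟨b, hb, fun f hf hfm hne' hbf => hb2 ?_⟩
  rw [Set.mem_iUnion₂]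
  exact ⟨f, ⟨⟨hf, hfm⟩, hne'⟩, openSegment_subset_segment ℝ _ _ hb, hbf⟩

open Classical in
variable (n P sg Y x V p pos) in
/-- The bend of an edge. -/
noncomputable def bend : Ed → ℝ × ℝ
  | Ed.ch u => V u
  | Ed.st j m => if h : ∃ b ∈ openSegment ℝ (p j) (rp Y x (posS n P sg j m)), ∀ f : Ed,
      f.Valid n P → f.Main → f ≠ Ed.st j m → b ∉ aD n P sg Y x V p pos f then h.choose else 0
  | e => (1 / 2 : ℝ) • pos (fsrc e.ft) + (1 / 2 : ℝ) • pos (ftgt (2 * H n P) e.ft)

theorem Ctx.bend_st (h : Ctx n P sg Y x V p pos) {j m : ℕ} (hj : j < P) (hm : m < 2 * n) :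
    bend n P sg Y x V p pos (Ed.st j m) ∈ openSegment ℝ (p j) (rp Y x (posS n P sg j m)) ∧
    ∀ f : Ed, f.Valid n P → f.Main → f ≠ Ed.st j m →
      bend n P sg Y x V p pos (Ed.st j m) ∉ aD n P sg Y x V p pos f := by
  have h1 := h.exists_bend hj hm
  have h2 : bend n P sg Y x V p pos (Ed.st j m) = h1.choose := dif_pos h1
  rw [h2]
  exact h1.choose_spec

theorem bend_frame {e : Ed} (hm : ¬ e.Main) : bend n P sg Y x V p pos e =
    (1 / 2 : ℝ) • pos (fsrc e.ft) + (1 / 2 : ℝ) • pos (ftgt (2 * H n P) e.ft) := by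
  cases e with
  | ch u => exact absurd trivial hm
  | st j m => exact absurd trivial hm
  | x1 i k => rfl
  | x2 i k => rfl
  | y1 i k => rfl
  | y2 i k => rfl

theorem mid_open (a c : ℝ × ℝ) : (1 / 2 : ℝ) • a + (1 / 2 : ℝ) • c ∈ openSegment ℝ a c :=
  ⟨1 / 2, 1 / 2, by norm_num, by norm_num, by norm_num, rfl⟩

/-- the path of an edge -/
theorem Ctx.path_eq (h : Ctx n P sg Y x V p pos) {e : Ed} (he : e.Valid n P) :
    G3 (aphi n P p pos (e.src n P)) (bend n P sg Y x V p pos e)
      (aphi n P p pos (e.tgt n P sg)) ∧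
    segment ℝ (aphi n P p pos (e.src n P)) (bend n P sg Y x V p pos e) ∪
      segment ℝ (bend n P sg Y x V p pos e) (aphi n P p pos (e.tgt n P sg)) =
      aD n P sg Y x V p pos e := by
  by_cases hm : e.Main
  · cases e with
    | ch u =>
      have hu : u < NN n P := he
      have h1 : aphi n P p pos ((Ed.ch u).src n P) = rp Y x (posA n P u) := by
        rw [← h.hF.rim _ (h.pA u hu)]
        exact aphi_R _
      have h2 : aphi n P p pos ((Ed.ch u).tgt n P sg) = rp Y x (posB n P u) := by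
        rw [← h.hF.rim _ (h.pB u hu)]
        exact aphi_R _
      rw [h1, h2]
      exact ⟨G3.of_fst (h.hM.mid u hu).1 (h.hM.mid u hu).2, rfl⟩
    | st j m =>
      obtain ⟨hj, hm'⟩ : j < P ∧ m < 2 * n := he
      have h1 : aphi n P p pos ((Ed.st j m).src n P) = p j := aphi_P _
      have h2 : aphi n P p pos ((Ed.st j m).tgt n P sg) = rp Y x (posS n P sg j m) := by
        rw [← h.hF.rim _ (h.pS j m hm')]
        exact aphi_R _
      rw [h1, h2]
      have hne : p j ≠ rp Y x (posS n P sg j m) := by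
        intro h1
        have h2 := h.hM.hullp j hj
        rw [h1] at h2
        exact rp_not_hull (h.pS j m hm') h2
      have h3 := (h.bend_st hj hm').1
      exact ⟨G3.of_open hne h3, seg_open h3⟩
    | x1 i k => exact absurd hm id
    | x2 i k => exact absurd hm id
    | y1 i k => exact absurd hm id
    | y2 i k => exact absurd hm id
  · rw [ft_src hm, ft_tgt hm, aphi_code _ (fv_src (ft_val he hm)),
      aphi_code _ (fv_tgt (ft_val he hm)), bend_frame hm, ft_D hm]
    refine ⟨G3.of_open (fun h1 => ?_) (mid_open _ _), seg_open (mid_open _ _)⟩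
    exact fv_ne (ft_val he hm) (h.hF.inj _ _ (fv_src (ft_val he hm)) (fv_tgt (ft_val he hm)) h1)

/-- the bends are not on other edges -/
theorem Ctx.bend_not (h : Ctx n P sg Y x V p pos) {e f : Ed} (he : e.Valid n P)
    (hf : f.Valid n P) (hef : e ≠ f) :
    bend n P sg Y x V p pos e ∉ aD n P sg Y x V p pos f := by
  intro hz
  have hself : bend n P sg Y x V p pos e ∈ aD n P sg Y x V p pos e := by
    rw [← (h.path_eq he).2]
    exact Or.inl (right_mem_segment ℝ _ _)
  by_cases hm : e.Main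
  · by_cases hm' : f.Main
    · cases e with
      | ch u =>
        cases f with
        | ch u' => exact (h.hM.chch u he u' hf (fun h1 => hef (by rw [h1]))).2 hz
        | st j m => exact (h.hM.stch j hf.1 m hf.2 u he).2.1 hz
        | x1 i k => exact absurd hm' id
        | x2 i k => exact absurd hm' id
        | y1 i k => exact absurd hm' id
        | y2 i k => exact absurd hm' id
      | st j m => exact (h.bend_st he.1 he.2).2 f hf hm' hef.symm hz
      | x1 i k => exact absurd hm id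
      | x2 i k => exact absurd hm id
      | y1 i k => exact absurd hm id
      | y2 i k => exact absurd hm id
    · obtain ⟨w, -, h2, h3⟩ := h.frame_meet hf he hm' hef.symm hz hself
      have h4 := (h.path_eq he).1
      rcases h2 with h2 | h2
      · rw [h2] at h3
        exact h4.1 h3.symm
      · rw [h2] at h3
        exact h4.2.1 h3
  · obtain ⟨w, h2, -, h3⟩ := h.frame_meet he hf hm hef hself hz
    have h4 := (h.path_eq he).1
    rcases h2 with h2 | h2
    · rw [h2] at h3
      exact h4.1 h3.symm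
    · rw [h2] at h3
      exact h4.2.1 h3

open Classical in
variable (n P sg Y x V p pos) in
/-- The nodes of the edges. -/
noncomputable def aq (f : ℕ × ℕ) (i : ℕ) : ℝ × ℝ :=
  if i = 0 then aphi n P p pos f.1 else if i = 1 then
    (if h : ∃ e : Ed, e.Valid n P ∧ e.pair n P sg = f then bend n P sg Y x V p pos h.choose else 0)
  else aphi n P p pos f.2

theorem Ctx.aq_path (h : Ctx n P sg Y x V p pos) (hinj : S_INJ) {e : Ed} (he : e.Valid n P) :
    G3 (aq n P sg Y x V p pos (e.pair n P sg) 0) (aq n P sg Y x V p pos (e.pair n P sg) 1)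
      (aq n P sg Y x V p pos (e.pair n P sg) 2) ∧
    path 2 (aq n P sg Y x V p pos (e.pair n P sg)) = aD n P sg Y x V p pos e ∧
    aq n P sg Y x V p pos (e.pair n P sg) 1 = bend n P sg Y x V p pos e := by
  have hex : ∃ e' : Ed, e'.Valid n P ∧ e'.pair n P sg = e.pair n P sg := ⟨e, he, rfl⟩
  have hch : hex.choose = e := hinj n P sg h.hn _ _ hex.choose_spec.1 he hex.choose_spec.2
  have h1 : aq n P sg Y x V p pos (e.pair n P sg) 1 = bend n P sg Y x V p pos e := by
    unfold aq
    rw [if_neg one_ne_zero, if_pos rfl, dif_pos hex, hch]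
  have h0 : aq n P sg Y x V p pos (e.pair n P sg) 0 =
      aphi n P p pos (min (e.src n P) (e.tgt n P sg)) := rfl
  have h2 : aq n P sg Y x V p pos (e.pair n P sg) 2 =
      aphi n P p pos (max (e.src n P) (e.tgt n P sg)) := rfl
  obtain ⟨h3, h4⟩ := h.path_eq he
  rw [path_two, h0, h1, h2]
  rcases le_total (e.src n P) (e.tgt n P sg) with h5 | h5
  · rw [min_eq_left h5, max_eq_right h5]
    exact ⟨h3, h4, rfl⟩
  · rw [min_eq_right h5, max_eq_left h5]
    refine ⟨h3.symm, ?_, rfl⟩
    rw [← h4, Set.union_comm, segment_symm ℝ _ (aphi n P p pos (e.src n P)),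
      segment_symm ℝ (aphi n P p pos (e.tgt n P sg))]

theorem pr_mem {a b w : ℕ} (h : w = a ∨ w = b) : w = (pr a b).1 ∨ w = (pr a b).2 := by
  unfold pr
  rcases le_total a b with h1 | h1
  · rw [min_eq_left h1, max_eq_right h1]
    exact h
  · rw [min_eq_right h1, max_eq_left h1]
    exact h.symm

theorem pr_ne {a b w : ℕ} (h1 : w ≠ (pr a b).1) (h2 : w ≠ (pr a b).2) : w ≠ a ∧ w ≠ b :=
  ⟨fun h => (pr_mem (Or.inl h)).elim h1 h2, fun h => (pr_mem (Or.inr h)).elim h1 h2⟩

open Classical in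
variable (n P sg) in
/-- The pairs of edges which may cross. -/
noncomputable def cpairs : Finset (Ed × Ed) :=
  (((Finset.range (NN n P)).sigma fun u' => Finset.range u').image
    (fun a => (Ed.ch a.2, Ed.ch a.1)) ∪
  ((Finset.range P ×ˢ Finset.range (NN n P)).sigma fun a => (Finset.range (2 * n)).filter
    (fun m => ab n sg a.1 m (a.2 / W n P) ≠ sg a.1 (a.2 / W n P))).image
    (fun a => (Ed.st a.1.1 a.2, Ed.ch a.1.2))) ∪
  ((Finset.range P ×ˢ Finset.range (2 * n)) ×ˢ (Finset.range P ×ˢ Finset.range (2 * n))).image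
    (fun a => (Ed.st a.1.1 a.1.2, Ed.st a.2.1 a.2.2))

theorem cpairs_card (hmin : S_MIN) : (cpairs n P sg).card ≤ KK n P := by
  classical
  unfold cpairs KK
  refine (Finset.card_union_le _ _).trans (add_le_add ((Finset.card_union_le _ _).trans
    (add_le_add ?_ ?_)) ?_)
  · refine Finset.card_image_le.trans ?_
    rw [Finset.card_sigma]
    simp only [Finset.card_range]
    rw [Finset.sum_range_id]
  · refine Finset.card_image_le.trans ?_
    rw [Finset.card_sigma]
    have h1 : ∀ a ∈ Finset.range P ×ˢ Finset.range (NN n P), ((Finset.range (2 * n)).filter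
        (fun m => ab n sg a.1 m (a.2 / W n P) ≠ sg a.1 (a.2 / W n P))).card = n - 1 := by
      intro a ha
      rw [Finset.mem_product, Finset.mem_range, Finset.mem_range] at ha
      refine hmin n sg a.1 (a.2 / W n P) ?_
      refine Nat.div_lt_of_lt_mul ?_
      have := ha.2
      unfold NN at this
      rwa [mul_comm] at this
    rw [Finset.sum_congr rfl h1, Finset.sum_const, Finset.card_product, Finset.card_range,
      Finset.card_range, smul_eq_mul]
  · refine Finset.card_image_le.trans ?_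
    rw [Finset.card_product, Finset.card_product, Finset.card_range, Finset.card_range]
    apply le_of_eq
    ring

/-- the crossings -/
theorem Ctx.cross (h : Ctx n P sg Y x V p pos) (heds : S_EDS) (hinj : S_INJ) :
    ∃ g : Ed × Ed → Sym2 (ℕ × ℕ) × (ℝ × ℝ),
    crossings 2 (eds n P sg) (aphi n P p pos) (aq n P sg Y x V p pos) ⊆
      g '' (cpairs n P sg : Set (Ed × Ed)) := by
  classical
  refine ⟨fun a => (s(a.1.pair n P sg, a.2.pair n P sg),
    if h : (aD n P sg Y x V p pos a.1 ∩ aD n P sg Y x V p pos a.2).Nonempty then h.some else 0),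
    ?_⟩
  rintro ⟨c, z⟩ ⟨e', he', f', hf', hef', hc, hze, hzf, hcom⟩
  dsimp only at hc hze hzf hcom
  obtain ⟨e, he, rfl⟩ := (heds n P sg h.hn e').1 he'
  obtain ⟨f, hf, rfl⟩ := (heds n P sg h.hn f').1 hf'
  have hef : e ≠ f := fun h1 => hef' (by rw [h1])
  rw [(h.aq_path hinj he).2.1] at hze
  rw [(h.aq_path hinj hf).2.1] at hzf
  have hm : e.Main := by
    by_contra hm
    obtain ⟨w, h1, h2, h3⟩ := h.frame_meet he hf hm hef hze hzf
    exact hcom ⟨w, pr_mem h1, pr_mem h2, h3⟩
  have hm' : f.Main := by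
    by_contra hm'
    obtain ⟨w, h1, h2, h3⟩ := h.frame_meet hf he hm' hef.symm hzf hze
    exact hcom ⟨w, pr_mem h2, pr_mem h1, h3⟩
  have hval : ∀ a b : Ed, a.Valid n P → b.Valid n P → a.Main → b.Main → a ≠ b →
      z ∈ aD n P sg Y x V p pos a → z ∈ aD n P sg Y x V p pos b →
      (if h : (aD n P sg Y x V p pos a ∩ aD n P sg Y x V p pos b).Nonempty then h.some else 0) =
        z := by
    intro a b ha hb hma hmb hab hza hzb
    have hne : (aD n P sg Y x V p pos a ∩ aD n P sg Y x V p pos b).Nonempty := ⟨z, hza, hzb⟩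
    rw [dif_pos hne]
    exact h.main_meet ha hb hma hmb hab hne.some_mem ⟨hza, hzb⟩
  have hfin : (e, f) ∈ cpairs n P sg ∨ (f, e) ∈ cpairs n P sg := by
    unfold cpairs
    simp only [Finset.mem_union, Finset.mem_image, Finset.mem_sigma, Finset.mem_range,
      Finset.mem_product, Finset.mem_filter]
    cases e with
    | ch u =>
      cases f with
      | ch u' =>
        rcases Nat.lt_trichotomy u u' with h1 | h1 | h1
        · exact Or.inl (Or.inl (Or.inl ⟨⟨u', u⟩, ⟨hf, h1⟩, rfl⟩))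
        · exact absurd (by rw [h1]) hef
        · exact Or.inr (Or.inl (Or.inl ⟨⟨u, u'⟩, ⟨he, h1⟩, rfl⟩))
      | st j m =>
        refine Or.inr (Or.inl (Or.inr ⟨⟨(j, u), m⟩, ⟨⟨hf.1, he⟩, hf.2, fun h1 => ?_⟩, rfl⟩))
        have h2 := (h.hM.stch j hf.1 m hf.2 u he).2.2 h1
        exact Set.eq_empty_iff_forall_notMem.1 h2 z ⟨hzf, hze⟩
      | x1 i k => exact absurd hm' id
      | x2 i k => exact absurd hm' id
      | y1 i k => exact absurd hm' id
      | y2 i k => exact absurd hm' id
    | st j m =>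
      cases f with
      | ch u =>
        refine Or.inl (Or.inl (Or.inr ⟨⟨(j, u), m⟩, ⟨⟨he.1, hf⟩, he.2, fun h1 => ?_⟩, rfl⟩))
        have h2 := (h.hM.stch j he.1 m he.2 u hf).2.2 h1
        exact Set.eq_empty_iff_forall_notMem.1 h2 z ⟨hze, hzf⟩
      | st j' m' =>
        exact Or.inl (Or.inr ⟨((j, m), (j', m')), ⟨⟨he.1, he.2⟩, hf.1, hf.2⟩, rfl⟩)
      | x1 i k => exact absurd hm' id
      | x2 i k => exact absurd hm' id
      | y1 i k => exact absurd hm' id
      | y2 i k => exact absurd hm' id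
    | x1 i k => exact absurd hm id
    | x2 i k => exact absurd hm id
    | y1 i k => exact absurd hm id
    | y2 i k => exact absurd hm id
  rcases hfin with h1 | h1
  · refine ⟨(e, f), h1, ?_⟩
    rw [hc]
    exact Prod.ext rfl (hval e f he hf hm hm' hef hze hzf)
  · refine ⟨(f, e), h1, ?_⟩
    rw [hc]
    exact Prod.ext Sym2.eq_swap (hval f e hf he hm' hm hef.symm hzf hze)

end

theorem t_ASM (heds : S_EDS) (hinj : S_INJ) (hpos : S_POS) (hmin : S_MIN) : S_ASM := by
  intro n P sg hn hex hfr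
  obtain ⟨Y, x, V, p, hM⟩ := hex
  obtain ⟨pos, hF⟩ := hfr (BB n P) Y x hM.mono
  obtain ⟨h1, -, h2, -⟩ := hpos n P sg hn
  have h : Ctx n P sg Y x V p pos := ⟨hn, hM, hF, fun u hu => (h1 u hu).1.trans_le (by omega),
    fun u hu => (h1 u hu).2.2, fun j m hm => (h2 j m hm).1⟩
  obtain ⟨g, hg⟩ := h.cross heds hinj
  have hfin : (g '' (cpairs n P sg : Set (Ed × Ed))).Finite :=
    (Finset.finite_toSet _).image g
  refine ⟨aphi n P p pos, aq n P sg Y x V p pos, ⟨h.inj, fun e _ => rfl, fun e _ => rfl,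
    fun e he => ?_, fun e he w hw hw1 hw2 => ?_⟩, fun e he f hf hef i hi hi2 => ?_,
    hfin.subset hg, ?_⟩
  · obtain ⟨e, hv, rfl⟩ := (heds n P sg hn e).1 he
    exact (h.aq_path hinj hv).1.simple
  · obtain ⟨e, hv, rfl⟩ := (heds n P sg hn e).1 he
    rw [(h.aq_path hinj hv).2.1]
    obtain ⟨h3, h4⟩ := pr_ne hw1 hw2
    exact h.avoid hv hw h3 h4
  · obtain ⟨e, hv, rfl⟩ := (heds n P sg hn e).1 he
    obtain ⟨f, hv', rfl⟩ := (heds n P sg hn f).1 hf
    have hi1 : i = 1 := by omega
    rw [hi1, (h.aq_path hinj hv).2.2, (h.aq_path hinj hv').2.1]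
    exact h.bend_not hv hv' fun h3 => hef (by rw [h3])
  · refine (Set.ncard_le_ncard hg hfin).trans ?_
    refine (Set.ncard_image_le (Finset.finite_toSet _)).trans ?_
    rw [Set.ncard_coe_finset]
    exact cpairs_card hmin

end Pool.Agent.K1H23.PC
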