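import Pool.Agent.K1H23.PC.Stm

/-!
# Completeness of the pattern of a program: the quadrilaterals are far apart
-/

namespace Pool.Agent.K1H23.PC

open Pool.Agent.NPC Pool.Agent.NPC.ER Pool.Agent.NPC.ER.Oslp

theorem ba_lidx {N g z r : ℕ} (hN : 0 < N) (hz : z < 6) (hr : r < 12 * N) :
    ((g * 6 + z) * (12 * N) + r) / (12 * N) / 6 = g ∧
      ((g * 6 + z) * (12 * N) + r) % (12 * N) = r := by
  have h1 : ((g * 6 + z) * (12 * N) + r) / (12 * N) = g * 6 + z := by
    rw [mul_comm, Nat.mul_add_div (by omega), Nat.div_eq_of_lt hr, add_zero]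
  have h2 : ((g * 6 + z) * (12 * N) + r) % (12 * N) = r := by
    rw [mul_comm, Nat.mul_add_mod, Nat.mod_eq_of_lt hr]
  refine ⟨by rw [h1]; omega, h2⟩

theorem ba_zn (b u : ℕ) : zn b u < 6 := by
  unfold zn
  split_ifs <;> omega

theorem ba_unif (n : ℕ) (Pr : ℕ → ℝ → ℝ → Prop)
    (hmono : ∀ k δ B δ' B', Pr k δ B → 0 < δ' → δ' ≤ δ → B ≤ B' → Pr k δ' B')
    (h : ∀ k < n, ∃ δ B, 0 < δ ∧ 0 < B ∧ Pr k δ B) :
    ∃ δ B, 0 < δ ∧ 0 < B ∧ ∀ k < n, Pr k δ B := by
  induction n with
  | zero => exact ⟨1, 1, one_pos, one_pos, by simp⟩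
  | succ n ih =>
    obtain ⟨δ, B, h1, h2, h3⟩ := ih (fun k hk => h k (by omega))
    obtain ⟨δ', B', h1', h2', h3'⟩ := h n (by omega)
    refine ⟨min δ δ', max B B', lt_min h1 h1', lt_max_of_lt_left h2, ?_⟩
    intro k hk
    rcases Nat.lt_succ_iff_lt_or_eq.1 hk with h | rfl
    · exact hmono _ _ _ _ _ (h3 k h) (lt_min h1 h1') (min_le_left _ _) (le_max_left _ _)
    · exact hmono _ _ _ _ _ h3' (lt_min h1 h1') (min_le_right _ _) (le_max_right _ _)

/-- The index of a line of a quadrilateral. -/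
theorem ba_qidx {p : List Ins} {k b u : ℕ} (c : ℕ × ℕ × ℕ × ℕ) (hk : k < Ng p) (hb : b < 2)
    (hu : u < 6) :
    qidx p c k b u / (12 * Ng p) / 6 = grp p (lab c k u) ∧
      qidx p c k b u % (12 * Ng p) = 6 * (2 * k + b) + u := by
  have hN : 0 < Ng p := by unfold Ng; omega
  unfold qidx lidx
  exact ba_lidx hN (ba_zn _ _) (by omega)

theorem ba_grp {p : List Ins} {a : ℕ} (ha : a < Ng p) : grp p a < Ng p := by
  unfold grp Ng at *
  split_ifs <;> omega

theorem ba_qidx_lt {p : List Ins} {k b u : ℕ} (c : ℕ × ℕ × ℕ × ℕ) (hk : k < Ng p) (hb : b < 2)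
    (hu : u < 6) (hl : lab c k u < Ng p) : qidx p c k b u < bN p := by
  have hg := ba_grp hl
  have hz := ba_zn b u
  unfold qidx lidx bN
  generalize grp p (lab c k u) = g at *
  generalize zn b u = z at *
  have h1 : (g * 6 + z) * (12 * Ng p) + (6 * (2 * k + b) + u) < (g * 6 + z + 1) * (12 * Ng p) := by
    have : 6 * (2 * k + b) + u < 12 * Ng p := by omega
    nlinarith
  have h2 : (g * 6 + z + 1) * (12 * Ng p) ≤ (6 * Ng p) * (12 * Ng p) :=
    Nat.mul_le_mul_right _ (by omega)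
  calc _ < _ := h1
    _ ≤ _ := h2
    _ = 72 * Ng p * Ng p := by ring

theorem ba_lab {p : List Ins} (hp : WF 2 p) {k : ℕ} {c : ℕ × ℕ × ℕ × ℕ}
    (h : Sgn.opd p k = some c) (u : ℕ) : k < Ng p ∧ lab c k u < Ng p := by
  obtain ⟨o, l, i, j⟩ := c
  obtain ⟨h1, h2, h3, h4, h5, h6, h7⟩ := Sgn.opd_wf hp h
  unfold lab Ng
  refine ⟨h2, ?_⟩
  simp only
  split_ifs <;> omega

/-- The line `x` is a line of the quadrilateral which it names. -/
theorem ba_real {p : List Ins} {x : ℕ} (h : isReal p x = true) :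
    ∃ c, Sgn.opd p (x % (12 * Ng p) / 6 / 2) = some c ∧
      x = qidx p c (x % (12 * Ng p) / 6 / 2) (x % (12 * Ng p) / 6 % 2)
      (x % (12 * Ng p) % 6) := by
  unfold isReal at h
  rcases hc : Sgn.opd p (x % (12 * Ng p) / 6 / 2) with _ | c
  · rw [hc] at h
    simp at h
  · rw [hc] at h
    exact ⟨c, rfl, of_decide_eq_true h⟩

theorem ba_sign {U D E m y r : ℝ} (hD : 0 < D) (hU : E < U * D) (hU0 : 0 < U) (hm : 1 ≤ m)
    (hy : D < y) (hr : |r| ≤ E) : 0 < m * U * y + r := by
  have h1 := (abs_le.1 hr).1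
  have h2 : U * D ≤ m * U * y := by
    have : U * D ≤ U * y := mul_le_mul_of_nonneg_left hy.le hU0.le
    have h3 : U * y ≤ m * (U * y) := by
      have : 0 ≤ U * y := mul_nonneg hU0.le (hD.trans hy).le
      nlinarith
    nlinarith
  linarith

theorem t_BA : S_BA := by
  intro hBQ p hp ⟨σ, hσ1, hσ2, hσ3⟩
  have hN : 2 ≤ Ng p := by unfold Ng; omega
  -- the local statement
  obtain ⟨δ0, B, hδ0, hB, hloc⟩ := ba_unif (2 * Ng p) (fun kap δ B =>
    ∀ c, Sgn.opd p (kap / 2) = some c → ∀ s : ℕ → ℝ,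
      (∀ u < 6, |s u - σ (grp p (lab c (kap / 2) u))| < δ) →
      0 < sgn (decide (c.1 = 0)) (kap % 2) * Phi s →
      ∃ (t : ℕ → ℝ) (q : ℕ → ℝ × ℝ), (∀ u < 6, |t u| ≤ B) ∧
        (∀ i < 5, |(q i).1| ≤ B ∧ |(q i).2| ≤ B) ∧
        ∀ i < 5, ∀ u < 6, if tab (decide (c.1 = 0)) (kap % 2) i u = true then
          s u * (q i).1 + t u < (q i).2 else (q i).2 < s u * (q i).1 + t u)
    (by
      intro k δ B δ' B' h hδ' hδ hB c hc s hs hs'
      obtain ⟨t, q, h1, h2, h3⟩ := h c hc s (fun u hu => (hs u hu).trans_le hδ) hs'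
      exact ⟨t, q, fun u hu => (h1 u hu).trans hB,
        fun i hi => ⟨(h2 i hi).1.trans hB, (h2 i hi).2.trans hB⟩, h3⟩)
    (by
      intro kap hkap
      rcases hc : Sgn.opd p (kap / 2) with _ | c
      · exact ⟨1, 1, one_pos, one_pos, by simp⟩
      · obtain ⟨o, l, i, j⟩ := c
        obtain ⟨h1, h2, h3, h4, h5, h6, h7⟩ := Sgn.opd_wf hp hc
        obtain ⟨δ, B, hδ, hB, h⟩ := hBQ (decide ((o, l, i, j).1 = 0)) (kap % 2)
          (fun u => σ (grp p (lab (o, l, i, j) (kap / 2) u))) (Nat.mod_lt _ (by norm_num))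
          (by
            refine hσ1 _ _ ?_ ?_ <;> simp only [lab, grp, Ng] <;> norm_num <;>
              (try split_ifs) <;> omega)
          (by
            refine hσ1 _ _ ?_ ?_ <;> simp only [lab, grp, Ng] <;> norm_num <;>
              (try split_ifs) <;> omega)
          (by
            refine hσ1 _ _ ?_ ?_ <;> simp only [lab, grp, Ng] <;> norm_num <;>
              (try split_ifs) <;> omega)
          (by
            refine hσ1 _ _ ?_ ?_ <;> simp only [lab, grp, Ng] <;> norm_num <;>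
              (try split_ifs) <;> omega)
          (by
            refine hσ1 _ _ ?_ ?_ <;> simp only [lab, grp, Ng] <;> norm_num <;>
              (try split_ifs) <;> omega)
          (by
            intro ho
            have ho' : o ≠ 0 := by simpa using ho
            refine hσ1 _ _ ?_ ?_ <;> simp only [lab, grp, Ng] <;> norm_num <;>
              (try split_ifs) <;> omega)
          (by
            intro ho
            have ho' : o = 0 := by simpa using ho
            simp [lab, ho'])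
          (hσ2 _ _ hc)
        refine ⟨δ, B, hδ, hB, ?_⟩
        intro c hc' s hs hs'
        rw [Option.some.injEq] at hc'
        subst hc'
        exact h s hs hs')
  -- the gap below the last group
  have hgap : σ (Ng p - 2) < σ (Ng p - 1) := hσ1 _ _ (by omega) (by omega)
  obtain ⟨h, hh⟩ : ∃ h, h = (σ (Ng p - 2) + σ (Ng p - 1)) / 2 := ⟨_, rfl⟩
  obtain ⟨d, hd⟩ : ∃ d, d = (σ (Ng p - 1) - σ (Ng p - 2)) / 4 := ⟨_, rfl⟩
  have hd0 : 0 < d := by rw [hd]; linarith
  obtain ⟨s, hs1, hs2, hs3⟩ := hσ3 (min δ0 d) (lt_min hδ0 hd0)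
  have hgN : ∀ x < bN p, x / (12 * Ng p) / 6 < Ng p := by
    intro x hx
    rw [Nat.div_div_eq_div_mul]
    refine Nat.div_lt_of_lt_mul ?_
    unfold bN at hx
    calc x < 72 * Ng p * Ng p := hx
      _ = 12 * Ng p * 6 * Ng p := by ring
  have hlow : ∀ x < bN p, x / (12 * Ng p) / 6 < Ng p - 1 → d < h - s x := by
    intro x hx hg
    have h1 := (abs_lt.1 (hs2 x hx)).2
    have h2 : σ (x / (12 * Ng p) / 6) ≤ σ (Ng p - 2) := by
      rcases Nat.lt_or_ge (x / (12 * Ng p) / 6) (Ng p - 2) with h3 | h3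
      · exact (hσ1 _ _ h3 (by omega)).le
      · rw [show x / (12 * Ng p) / 6 = Ng p - 2 by omega]
    have h3 := min_le_right δ0 d
    rw [hh, hd] at *
    linarith
  have hhigh : ∀ x < bN p, ¬ x / (12 * Ng p) / 6 < Ng p - 1 → d < s x - h := by
    intro x hx hg
    have h1 := (abs_lt.1 (hs2 x hx)).1
    have h2 := hgN x hx
    have h3 := min_le_right δ0 d
    rw [show x / (12 * Ng p) / 6 = Ng p - 1 by omega] at h1
    rw [hh, hd] at *
    linarith
  -- the local solutions
  have hsol : ∀ kap, ∃ (t : ℕ → ℝ) (q : ℕ → ℝ × ℝ), kap < 2 * Ng p → ∀ c,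
      Sgn.opd p (kap / 2) = some c →
      (∀ u < 6, |t u| ≤ B) ∧ (∀ i < 5, |(q i).1| ≤ B ∧ |(q i).2| ≤ B) ∧
        ∀ i < 5, ∀ u < 6, if tab (decide (c.1 = 0)) (kap % 2) i u = true then
          s (qidx p c (kap / 2) (kap % 2) u) * (q i).1 + t u < (q i).2
          else (q i).2 < s (qidx p c (kap / 2) (kap % 2) u) * (q i).1 + t u := by
    intro kap
    by_cases hkap : kap < 2 * Ng p
    · rcases hc : Sgn.opd p (kap / 2) with _ | c
      · exact ⟨0, 0, by simp⟩
      · have hb : kap % 2 < 2 := Nat.mod_lt _ (by norm_num)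
        obtain ⟨t, q, h1, h2, h3⟩ := hloc kap hkap c hc
          (fun u => s (qidx p c (kap / 2) (kap % 2) u))
          (by
            intro u hu
            obtain ⟨g1, g2⟩ := ba_lab hp hc u
            have h1 := hs2 _ (ba_qidx_lt c g1 hb hu g2)
            rw [(ba_qidx c g1 hb hu).1] at h1
            exact h1.trans_le (min_le_left _ _))
          (hs3 _ c hc _ hb)
        refine ⟨t, q, fun _ c' hc' => ?_⟩
        rw [Option.some.injEq] at hc'
        subst hc'
        exact ⟨h1, h2, h3⟩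
    · exact ⟨0, 0, fun hk => absurd hk hkap⟩
  choose T Q hTQ using hsol
  -- a bound for the slopes
  obtain ⟨S, hS⟩ : ∃ S : ℝ, S = ∑ x ∈ Finset.range (bN p), |s x| := ⟨_, rfl⟩
  have hS1 : ∀ x < bN p, |s x| ≤ S := by
    intro x hx
    rw [hS]
    exact Finset.single_le_sum (f := fun x => |s x|) (fun _ _ => abs_nonneg _)
      (Finset.mem_range.2 hx)
  have hS0 : 0 ≤ S := by
    rw [hS]; exact Finset.sum_nonneg fun _ _ => abs_nonneg _
  obtain ⟨E, hE⟩ : ∃ E : ℝ, E = B + S * B + B := ⟨_, rfl⟩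
  have hE0 : 0 < E := by rw [hE]; positivity
  obtain ⟨U, hU⟩ : ∃ U : ℝ, U = E / d + 1 := ⟨_, rfl⟩
  have hU0 : 0 < U := by rw [hU]; positivity
  have hUd : E < U * d := by
    rw [hU, add_mul, div_mul_cancel₀ _ hd0.ne']
    linarith
  -- the intercepts
  obtain ⟨T', hT'⟩ : ∃ T' : ℕ → ℝ, T' = fun x => if isReal p x = true then
    T (x % (12 * Ng p) / 6) (x % (12 * Ng p) % 6) else 0 := ⟨_, rfl⟩
  have hkx : ∀ x, x % (12 * Ng p) / 6 < 2 * Ng p := by
    intro x
    have : x % (12 * Ng p) < 12 * Ng p := Nat.mod_lt _ (by omega)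
    omega
  have hTb : ∀ x, |T' x| ≤ B := by
    intro x
    rw [hT']
    simp only
    split_ifs with hr
    · obtain ⟨c, hc, -⟩ := ba_real hr
      exact (hTQ _ (hkx x) c hc).1 _ (Nat.mod_lt _ (by norm_num))
    · rw [abs_zero]; exact hB.le
  obtain ⟨t, ht⟩ : ∃ t : ℕ → ℝ, t = fun x => T' x + (cen p x : ℝ) * h * U -
    s x * (cen p x : ℝ) * U := ⟨_, rfl⟩
  obtain ⟨M, hM⟩ : ∃ M : ℝ, M = 1 + ∑ x ∈ Finset.range (bN p), |t x| := ⟨_, rfl⟩
  have hM1 : ∀ x < bN p, t x < M := by
    intro x hx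
    have h1 : |t x| ≤ ∑ x ∈ Finset.range (bN p), |t x| :=
      Finset.single_le_sum (f := fun x => |t x|) (fun _ _ => abs_nonneg _) (Finset.mem_range.2 hx)
    have h2 := le_abs_self (t x)
    rw [hM]; linarith
  refine ⟨s, t, fun j => if (Sgn.opd p (j / 5 / 2)).isSome = true then
    (((j / 5 : ℕ) + 1 : ℝ) * U + (Q (j / 5) (j % 5)).1,
      ((j / 5 : ℕ) + 1 : ℝ) * h * U + (Q (j / 5) (j % 5)).2) else (0, M), hs1, ?_⟩
  intro j hj x hx
  have hj5 : j / 5 < 2 * Ng p := by
    unfold bP at hj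
    omega
  rcases hc : Sgn.opd p (j / 5 / 2) with _ | c
  · have h1 : bsg p j x = true := by
      unfold bsg
      rw [hc]
    rw [if_pos h1]
    simp only [hc, Option.isSome_none, Bool.false_eq_true, if_false, mul_zero, zero_add]
    exact hM1 x hx
  · simp only [hc, Option.isSome_some, if_true]
    obtain ⟨hq1, hq2, hq3⟩ := hTQ _ hj5 c hc
    have hi5 : j % 5 < 5 := Nat.mod_lt _ (by norm_num)
    have hbs : bsg p j x = if cen p x = j / 5 + 1 then
        tab (decide (c.1 = 0)) (j / 5 % 2) (j % 5) (x % (12 * Ng p) % 6)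
        else if cen p x < j / 5 + 1 then decide (x / (12 * Ng p) / 6 < Ng p - 1)
        else decide (x / (12 * Ng p) / 6 = Ng p - 1) := by
      unfold bsg
      rw [hc]
    obtain ⟨a, ha⟩ : ∃ a, a = (Q (j / 5) (j % 5)).1 := ⟨_, rfl⟩
    obtain ⟨b, hb⟩ : ∃ b, b = (Q (j / 5) (j % 5)).2 := ⟨_, rfl⟩
    have hab := hq2 _ hi5
    rw [← ha, ← hb] at hab ⊢
    have herr : |b - s x * a - T' x| ≤ E := by
      have e1 := abs_sub (b - s x * a) (T' x)
      have e2 := abs_sub b (s x * a)
      have e3 : |s x * a| ≤ S * B := by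
        rw [abs_mul]
        exact mul_le_mul (hS1 x hx) hab.1 (abs_nonneg _) hS0
      have e4 := hTb x
      rw [hE]
      linarith [hab.2]
    rw [hbs]
    by_cases hcen : cen p x = j / 5 + 1
    · rw [if_pos hcen]
      have hr : isReal p x = true := by
        by_contra hr
        unfold cen at hcen
        rw [if_neg hr] at hcen
        omega
      have hkap : x % (12 * Ng p) / 6 = j / 5 := by
        unfold cen at hcen
        rw [if_pos hr] at hcen
        omega
      obtain ⟨c', hc', hx'⟩ := ba_real hr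
      rw [hkap] at hc' hx'
      rw [hc, Option.some.injEq] at hc'
      subst hc'
      have h1 := hq3 _ hi5 (x % (12 * Ng p) % 6) (Nat.mod_lt _ (by norm_num))
      rw [← hx', ← ha, ← hb] at h1
      have ht1 : t x = T (j / 5) (x % (12 * Ng p) % 6) + (((j / 5 : ℕ) : ℝ) + 1) * h * U -
          s x * (((j / 5 : ℕ) : ℝ) + 1) * U := by
        rw [ht]
        simp only
        rw [hT', hcen]
        simp only
        rw [if_pos hr, hkap]
        push_cast
        ring
      rw [ht1]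
      by_cases htab : tab (decide (c.1 = 0)) (j / 5 % 2) (j % 5) (x % (12 * Ng p) % 6) = true
      · rw [if_pos htab] at h1 ⊢
        nlinarith
      · rw [if_neg htab] at h1 ⊢
        nlinarith
    · rw [if_neg hcen]
      have hdiff : ((((j / 5 : ℕ) : ℝ) + 1) * h * U + b) -
          (s x * ((((j / 5 : ℕ) : ℝ) + 1) * U + a) + t x) =
          ((((j / 5 : ℕ) : ℝ) + 1) - (cen p x : ℝ)) * U * (h - s x) + (b - s x * a - T' x) := by
        rw [ht]
        ring
      by_cases hlt : cen p x < j / 5 + 1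
      · rw [if_pos hlt]
        have hm : (1 : ℝ) ≤ (((j / 5 : ℕ) : ℝ) + 1) - (cen p x : ℝ) := by
          have : (cen p x : ℝ) + 1 ≤ ((j / 5 + 1 : ℕ) : ℝ) := by exact_mod_cast hlt
          push_cast at this
          linarith
        by_cases hg : x / (12 * Ng p) / 6 < Ng p - 1
        · rw [if_pos (decide_eq_true hg)]
          have h1 := ba_sign hd0 hUd hU0 hm (hlow x hx hg) herr
          rw [← hdiff] at h1
          linarith
        · rw [if_neg (by simpa using hg)]
          have h1 := ba_sign (r := -(b - s x * a - T' x)) hd0 hUd hU0 hm (hhigh x hx hg)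
            (by rw [abs_neg]; exact herr)
          have h2 : ((((j / 5 : ℕ) : ℝ) + 1) - (cen p x : ℝ)) * U * (s x - h) +
              -(b - s x * a - T' x) = - (((((j / 5 : ℕ) : ℝ) + 1) * h * U + b) -
          (s x * ((((j / 5 : ℕ) : ℝ) + 1) * U + a) + t x)) := by
            rw [hdiff]; ring
          rw [h2] at h1
          linarith
      · rw [if_neg hlt]
        have hm : (1 : ℝ) ≤ (cen p x : ℝ) - (((j / 5 : ℕ) : ℝ) + 1) := by
          have h3 : j / 5 + 1 < cen p x := by omega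
          have : ((j / 5 + 1 : ℕ) : ℝ) + 1 ≤ (cen p x : ℝ) := by exact_mod_cast h3
          push_cast at this
          linarith
        by_cases hg : x / (12 * Ng p) / 6 < Ng p - 1
        · rw [if_neg (by
            rw [decide_eq_true_eq]
            omega)]
          have h1 := ba_sign (r := -(b - s x * a - T' x)) hd0 hUd hU0 hm (hlow x hx hg)
            (by rw [abs_neg]; exact herr)
          have h2 : ((cen p x : ℝ) - (((j / 5 : ℕ) : ℝ) + 1)) * U * (h - s x) +
              -(b - s x * a - T' x) = - (((((j / 5 : ℕ) : ℝ) + 1) * h * U + b) -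
          (s x * ((((j / 5 : ℕ) : ℝ) + 1) * U + a) + t x)) := by
            rw [hdiff]; ring
          rw [h2] at h1
          linarith
        · rw [if_pos (by
            rw [decide_eq_true_eq]
            have := hgN x hx
            omega)]
          have h1 := ba_sign hd0 hUd hU0 hm (hhigh x hx hg) herr
          have h2 : ((cen p x : ℝ) - (((j / 5 : ℕ) : ℝ) + 1)) * U * (s x - h) +
              (b - s x * a - T' x) = ((((j / 5 : ℕ) : ℝ) + 1) * h * U + b) -
          (s x * ((((j / 5 : ℕ) : ℝ) + 1) * U + a) + t x) := by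
            rw [hdiff]; ring
          rw [h2] at h1
          linarith

end Pool.Agent.K1H23.PC
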