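import Pool.Agent.K1H23.PC.Stm

/-!
# The slopes of the pattern of a program (by helper65)
-/

set_option autoImplicit false

namespace Pool.Agent.K1H23.PC

open Pool.Agent.NPC Pool.Agent.NPC.ER Pool.Agent.NPC.ER.Oslp

namespace BM

/-! ### Estimates for `Phi` -/

lemma prod3 {x y z x' y' z' η : ℝ} (_hx : |x| ≤ 4) (hy : |y| ≤ 4) (hz : |z| ≤ 4)
    (hx' : |x'| ≤ 4) (hy' : |y'| ≤ 4) (_hz' : |z'| ≤ 4) (h1 : |x - x'| ≤ η) (h2 : |y - y'| ≤ η)
    (h3 : |z - z'| ≤ η) : |x * y * z - x' * y' * z'| ≤ 48 * η := by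
  have hη : 0 ≤ η := (abs_nonneg _).trans h1
  have e : x * y * z - x' * y' * z' =
      (x - x') * y * z + x' * (y - y') * z + x' * y' * (z - z') := by ring
  rw [e]
  have a1 : |(x - x') * y * z| ≤ η * 4 * 4 := by
    rw [abs_mul, abs_mul]
    exact mul_le_mul (mul_le_mul h1 hy (abs_nonneg _) hη) hz (abs_nonneg _) (by positivity)
  have a2 : |x' * (y - y') * z| ≤ 4 * η * 4 := by
    rw [abs_mul, abs_mul]
    exact mul_le_mul (mul_le_mul hx' h2 (abs_nonneg _) (by norm_num)) hz (abs_nonneg _)
      (by positivity)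
  have a3 : |x' * y' * (z - z')| ≤ 4 * 4 * η := by
    rw [abs_mul, abs_mul]
    exact mul_le_mul (mul_le_mul hx' hy' (abs_nonneg _) (by norm_num)) h3 (abs_nonneg _)
      (by positivity)
  have b1 := abs_add_le ((x - x') * y * z + x' * (y - y') * z) (x' * y' * (z - z'))
  have b2 := abs_add_le ((x - x') * y * z) (x' * (y - y') * z)
  linarith

lemma sub4 {a b : ℝ} (ha : |a| ≤ 2) (hb : |b| ≤ 2) : |a - b| ≤ 4 := by
  rw [abs_le] at *
  constructor <;> linarith [ha.1, ha.2, hb.1, hb.2]

lemma subη {a b a' b' η : ℝ} (ha : |a - a'| ≤ η) (hb : |b - b'| ≤ η) :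
    |(a - b) - (a' - b')| ≤ 2 * η := by
  rw [abs_le] at *
  constructor <;> linarith [ha.1, ha.2, hb.1, hb.2]

lemma Phi_lip {s a : ℕ → ℝ} {η : ℝ} (hs : ∀ u < 6, |s u| ≤ 2) (ha : ∀ u < 6, |a u| ≤ 2)
    (h : ∀ u < 6, |s u - a u| ≤ η) : |Phi s - Phi a| ≤ 192 * η := by
  have p1 : |(s 5 - s 2) * (s 3 - s 4) * (s 0 - s 1) - (a 5 - a 2) * (a 3 - a 4) * (a 0 - a 1)| ≤
      48 * (2 * η) :=
    prod3 (sub4 (hs 5 (by norm_num)) (hs 2 (by norm_num)))
      (sub4 (hs 3 (by norm_num)) (hs 4 (by norm_num)))
      (sub4 (hs 0 (by norm_num)) (hs 1 (by norm_num)))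
      (sub4 (ha 5 (by norm_num)) (ha 2 (by norm_num)))
      (sub4 (ha 3 (by norm_num)) (ha 4 (by norm_num)))
      (sub4 (ha 0 (by norm_num)) (ha 1 (by norm_num)))
      (subη (h 5 (by norm_num)) (h 2 (by norm_num)))
      (subη (h 3 (by norm_num)) (h 4 (by norm_num)))
      (subη (h 0 (by norm_num)) (h 1 (by norm_num)))
  have p2 : |(s 5 - s 4) * (s 0 - s 2) * (s 3 - s 1) - (a 5 - a 4) * (a 0 - a 2) * (a 3 - a 1)| ≤
      48 * (2 * η) :=
    prod3 (sub4 (hs 5 (by norm_num)) (hs 4 (by norm_num)))
      (sub4 (hs 0 (by norm_num)) (hs 2 (by norm_num)))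
      (sub4 (hs 3 (by norm_num)) (hs 1 (by norm_num)))
      (sub4 (ha 5 (by norm_num)) (ha 4 (by norm_num)))
      (sub4 (ha 0 (by norm_num)) (ha 2 (by norm_num)))
      (sub4 (ha 3 (by norm_num)) (ha 1 (by norm_num)))
      (subη (h 5 (by norm_num)) (h 4 (by norm_num)))
      (subη (h 0 (by norm_num)) (h 2 (by norm_num)))
      (subη (h 3 (by norm_num)) (h 1 (by norm_num)))
  unfold Phi
  rw [abs_le] at *
  constructor <;> linarith [p1.1, p1.2, p2.1, p2.2]

/-- the derivative in the last variable -/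
def D0 (a : ℕ → ℝ) : ℝ := (a 3 - a 4) * (a 0 - a 1) - (a 0 - a 2) * (a 3 - a 1)

lemma Phi_sign {s a : ℕ → ℝ} {η m d : ℝ} (hs : ∀ u < 6, |s u| ≤ 2) (ha : ∀ u < 6, |a u| ≤ 2)
    (h : ∀ u < 5, |s u - a u| ≤ η) (h0 : Phi a = 0) (hη : 0 ≤ η) (hm : 0 < m)
    (hd : d ≤ |D0 a|) (hsmall : 192 * η < m * d / 2) :
    (0 < D0 a → m / 2 ≤ s 5 - a 5 → 0 < Phi s) ∧ (D0 a < 0 → m / 2 ≤ s 5 - a 5 → Phi s < 0) ∧
    (0 < D0 a → s 5 - a 5 ≤ - (m / 2) → Phi s < 0) ∧
    (D0 a < 0 → s 5 - a 5 ≤ - (m / 2) → 0 < Phi s) := by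
  let b : ℕ → ℝ := fun u => if u = 5 then s 5 else a u
  have hb : ∀ u < 6, |b u| ≤ 2 := by
    intro u hu
    change |if u = 5 then s 5 else a u| ≤ 2
    split_ifs with h5
    · exact hs 5 (by norm_num)
    · exact ha u hu
  have hsb : ∀ u < 6, |s u - b u| ≤ η := by
    intro u hu
    change |s u - if u = 5 then s 5 else a u| ≤ η
    split_ifs with h5
    · rw [h5, sub_self, abs_zero]
      exact hη
    · exact h u (by omega)
  have h1 := Phi_lip hs hb hsb
  have h2 : Phi b = (s 5 - a 5) * D0 a := by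
    have : Phi b = Phi a + (s 5 - a 5) * D0 a := by
      change (s 5 - a 2) * (a 3 - a 4) * (a 0 - a 1) - (s 5 - a 4) * (a 0 - a 2) * (a 3 - a 1) = _
      unfold Phi D0
      ring
    rw [this, h0, zero_add]
  rw [h2, abs_le] at h1
  refine ⟨fun hD hs5 => ?_, fun hD hs5 => ?_, fun hD hs5 => ?_, fun hD hs5 => ?_⟩
  · rw [abs_of_pos hD] at hd
    nlinarith [h1.1, h1.2]
  · rw [abs_of_neg hD] at hd
    nlinarith [h1.1, h1.2]
  · rw [abs_of_pos hD] at hd
    nlinarith [h1.1, h1.2]
  · rw [abs_of_neg hD] at hd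
    nlinarith [h1.1, h1.2]

/-! ### Indices -/

lemma lidx_div {p : List Ins} {g z r : ℕ} (hz : z < 6) (hr : r < 12 * Ng p) :
    lidx p g z r / (72 * Ng p) = g ∧ lidx p g z r % (72 * Ng p) = z * (12 * Ng p) + r := by
  have h1 : lidx p g z r = 72 * Ng p * g + (z * (12 * Ng p) + r) := by
    unfold lidx
    ring
  have h2 : z * (12 * Ng p) + r < 72 * Ng p := by
    have : z * (12 * Ng p) ≤ 5 * (12 * Ng p) := Nat.mul_le_mul_right _ (by omega)
    omega
  have h3 : 0 < 72 * Ng p := by omega
  rw [h1]
  constructor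
  · rw [Nat.mul_add_div h3, Nat.div_eq_of_lt h2, add_zero]
  · rw [Nat.mul_add_mod, Nat.mod_eq_of_lt h2]

lemma fin_min (f : ℕ → ℝ) : ∀ n : ℕ, (∀ k < n, 0 < f k) → ∃ d > 0, ∀ k < n, d ≤ f k
  | 0, _ => ⟨1, one_pos, fun k hk => by omega⟩
  | n + 1, h => by
    obtain ⟨d, hd, hf⟩ := fin_min f n fun k hk => h k (by omega)
    refine ⟨min d (f n), lt_min hd (h n (by omega)), fun k hk => ?_⟩
    rcases Nat.lt_or_ge k n with h1 | h1
    · exact (min_le_left _ _).trans (hf k h1)
    · have : k = n := by omega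
      subst this
      exact min_le_right _ _

end BM

open BM

theorem t_BM : S_BM := by
  intro p hp hsat
  obtain ⟨v, hv⟩ := hsat
  rw [Sgn.run_iff] at hv
  have hNdef : Ng p = p.length + 2 := rfl
  -- the values
  let w : ℕ → ℝ := fun a => v a - v 1 + 1
  have hmono1 : ∀ a, 1 ≤ a → a + 1 < Ng p → v a < v (a + 1) := by
    intro a ha hb
    have := (hv (a + 1) (by omega) (by omega)).1
    simpa using this
  have hmono : ∀ b a, 1 ≤ a → a < b → b < Ng p → v a < v b := by
    intro b
    induction b with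
    | zero => intro a _ h; omega
    | succ b ih =>
      intro a ha hab hb
      rcases Nat.lt_or_ge a b with h | h
      · exact (ih a ha h (by omega)).trans (hmono1 b (by omega) hb)
      · have : a = b := by omega
        subst this
        exact hmono1 a ha hb
  have hw1 : ∀ a, 1 ≤ a → a < Ng p → 1 ≤ w a := by
    intro a ha hb
    change 1 ≤ v a - v 1 + 1
    rcases Nat.lt_or_ge 1 a with h | h
    · have := hmono a 1 le_rfl h hb
      linarith
    · have : a = 1 := by omega
      subst this
      linarith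
  let σ : ℕ → ℝ := fun g => if g < Ng p - 1 then -(1 / w (g + 1)) else 0
  have hσlast : σ (Ng p - 1) = 0 := if_neg (lt_irrefl _)
  have hσ : ∀ a, 1 ≤ a → a < Ng p → σ (a - 1) = -(1 / w a) := by
    intro a ha hb
    change (if a - 1 < Ng p - 1 then -(1 / w (a - 1 + 1)) else 0) = _
    rw [if_pos (by omega), Nat.sub_add_cancel ha]
  have hσneg : ∀ g, g < Ng p - 1 → σ g < 0 := by
    intro g hg
    have h1 := hw1 (g + 1) (by omega) (by omega)
    change (if g < Ng p - 1 then -(1 / w (g + 1)) else 0) < 0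
    rw [if_pos hg]
    have : 0 < 1 / w (g + 1) := by positivity
    linarith
  have hσmono : ∀ a b, a < b → b < Ng p → σ a < σ b := by
    intro a b hab hb
    rcases Nat.lt_or_ge b (Ng p - 1) with h | h
    · have ha1 := hw1 (a + 1) (by omega) (by omega)
      have hb1 := hw1 (b + 1) (by omega) (by omega)
      have hlt : w (a + 1) < w (b + 1) := by
        have := hmono (b + 1) (a + 1) (by omega) (by omega) (by omega)
        change v (a + 1) - v 1 + 1 < v (b + 1) - v 1 + 1
        linarith
      change (if a < Ng p - 1 then -(1 / w (a + 1)) else 0) <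
        (if b < Ng p - 1 then -(1 / w (b + 1)) else 0)
      rw [if_pos (by omega), if_pos h, neg_lt_neg_iff]
      exact one_div_lt_one_div_of_lt (by linarith) hlt
    · have : b = Ng p - 1 := by omega
      rw [this, hσlast]
      exact hσneg a (by omega)
  have hσabs : ∀ g, |σ g| ≤ 1 := by
    intro g
    change |if g < Ng p - 1 then -(1 / w (g + 1)) else 0| ≤ 1
    split_ifs with h
    · have h1 := hw1 (g + 1) (by omega) (by omega)
      rw [abs_neg, abs_of_pos (by positivity)]
      rw [div_le_one (by linarith)]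
      exact h1
    · simp
  -- groups of the labels
  have hgrp : ∀ a, 1 ≤ a → grp p a = a - 1 := fun a ha => if_neg (by omega)
  have hgrp0 : grp p 0 = Ng p - 1 := if_pos rfl
  have hPhi0 : ∀ k c, Sgn.opd p k = some c → Phi (fun u => σ (grp p (lab c k u))) = 0 := by
    intro k c hc
    obtain ⟨o, l, i, j⟩ := c
    obtain ⟨hk2, hkN, hol, hli, hlj, hik, hjk⟩ := Sgn.opd_wf hp hc
    have hH := (hv k hk2 hkN).2
    rw [hc] at hH
    obtain ⟨hadd, hmul⟩ := hH
    have e0 : σ (grp p (lab (o, l, i, j) k 0)) = -(1 / w i) := by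
      rw [show lab (o, l, i, j) k 0 = i from rfl, hgrp i (by omega), hσ i (by omega) (by omega)]
    have e1 : σ (grp p (lab (o, l, i, j) k 1)) = -(1 / w l) := by
      rw [show lab (o, l, i, j) k 1 = l from rfl, hgrp l (by omega), hσ l (by omega) (by omega)]
    have e3 : σ (grp p (lab (o, l, i, j) k 3)) = 0 := by
      rw [show lab (o, l, i, j) k 3 = 0 from rfl, hgrp0, hσlast]
    have e4 : σ (grp p (lab (o, l, i, j) k 4)) = -(1 / w j) := by
      rw [show lab (o, l, i, j) k 4 = j from rfl, hgrp j (by omega), hσ j (by omega) (by omega)]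
    have e5 : σ (grp p (lab (o, l, i, j) k 5)) = -(1 / w k) := by
      rw [show lab (o, l, i, j) k 5 = k from rfl, hgrp k (by omega), hσ k (by omega) (by omega)]
    have wi := hw1 i (by omega) (by omega)
    have wl := hw1 l (by omega) (by omega)
    have wj := hw1 j (by omega) (by omega)
    have wk := hw1 k (by omega) (by omega)
    have ni : w i ≠ 0 := by linarith
    have nl : w l ≠ 0 := by linarith
    have nj : w j ≠ 0 := by linarith
    have nk : w k ≠ 0 := by linarith
    rcases Nat.eq_zero_or_pos o with ho | ho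
    · subst ho
      have e2 : σ (grp p (lab (0, l, i, j) k 2)) = 0 := by
        rw [show lab (0, l, i, j) k 2 = 0 from rfl, hgrp0, hσlast]
      have hsum : w k + w l = w i + w j := by
        have := hadd rfl
        change (v k - v 1 + 1) + (v l - v 1 + 1) = (v i - v 1 + 1) + (v j - v 1 + 1)
        linarith
      change (σ (grp p (lab (0, l, i, j) k 5)) - σ (grp p (lab (0, l, i, j) k 2))) *
        (σ (grp p (lab (0, l, i, j) k 3)) - σ (grp p (lab (0, l, i, j) k 4))) *
        (σ (grp p (lab (0, l, i, j) k 0)) - σ (grp p (lab (0, l, i, j) k 1))) -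
        (σ (grp p (lab (0, l, i, j) k 5)) - σ (grp p (lab (0, l, i, j) k 4))) *
        (σ (grp p (lab (0, l, i, j) k 0)) - σ (grp p (lab (0, l, i, j) k 2))) *
        (σ (grp p (lab (0, l, i, j) k 3)) - σ (grp p (lab (0, l, i, j) k 1))) = 0
      rw [e0, e1, e2, e3, e4, e5]
      have hk' : w k = w i + w j - w l := by linarith
      rw [hk'] at nk ⊢
      field_simp
      ring
    · have e2 : σ (grp p (lab (o, l, i, j) k 2)) = -(1 / w o) := by
        rw [show lab (o, l, i, j) k 2 = o from rfl, hgrp o (by omega), hσ o (by omega) (by omega)]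
      have wo := hw1 o (by omega) (by omega)
      have no : w o ≠ 0 := by linarith
      have hprod : (w k - w o) * (w l - w o) = (w i - w o) * (w j - w o) := by
        have := hmul ho
        change ((v k - v 1 + 1) - (v o - v 1 + 1)) * ((v l - v 1 + 1) - (v o - v 1 + 1)) =
          ((v i - v 1 + 1) - (v o - v 1 + 1)) * ((v j - v 1 + 1) - (v o - v 1 + 1))
        linear_combination this
      change (σ (grp p (lab (o, l, i, j) k 5)) - σ (grp p (lab (o, l, i, j) k 2))) *
        (σ (grp p (lab (o, l, i, j) k 3)) - σ (grp p (lab (o, l, i, j) k 4))) *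
        (σ (grp p (lab (o, l, i, j) k 0)) - σ (grp p (lab (o, l, i, j) k 1))) -
        (σ (grp p (lab (o, l, i, j) k 5)) - σ (grp p (lab (o, l, i, j) k 4))) *
        (σ (grp p (lab (o, l, i, j) k 0)) - σ (grp p (lab (o, l, i, j) k 2))) *
        (σ (grp p (lab (o, l, i, j) k 3)) - σ (grp p (lab (o, l, i, j) k 1))) = 0
      rw [e0, e1, e2, e3, e4, e5]
      have : (-(1 / w k) - -(1 / w o)) * (0 - -(1 / w j)) * (-(1 / w i) - -(1 / w l)) -
          (-(1 / w k) - -(1 / w j)) * (-(1 / w i) - -(1 / w o)) * (0 - -(1 / w l)) =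
          ((w k - w o) * (w i - w l) - (w k - w j) * (w i - w o)) /
            (w k * w o * w j * w i * w l) := by
        field_simp
        ring
      rw [this, div_eq_zero_iff]
      left
      linear_combination -hprod
  refine ⟨σ, hσmono, hPhi0, ?_⟩
  · intro δ hδ
    have hN2 : (2 : ℝ) ≤ (Ng p : ℝ) := by
      rw [hNdef]
      push_cast
      linarith [Nat.cast_nonneg (α := ℝ) p.length]
    -- signs of the derivatives
    have hD : ∀ k o l i j, Sgn.opd p k = some (o, l, i, j) →
        (o = 0 → 0 < D0 fun u => σ (grp p (lab (o, l, i, j) k u))) ∧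
        (0 < o → (D0 fun u => σ (grp p (lab (o, l, i, j) k u))) < 0) := by
      intro k o l i j hc
      obtain ⟨hk2, hkN, hol, hli, hlj, hik, hjk⟩ := Sgn.opd_wf hp hc
      have m1 : σ (l - 1) < σ (i - 1) := hσmono _ _ (by omega) (by omega)
      have m2 : σ (l - 1) < σ (j - 1) := hσmono _ _ (by omega) (by omega)
      have m3 : σ (i - 1) < σ (Ng p - 1) := hσmono _ _ (by omega) (by omega)
      have m4 : σ (j - 1) < σ (Ng p - 1) := hσmono _ _ (by omega) (by omega)
      have m5 : σ (l - 1) < σ (Ng p - 1) := hσmono _ _ (by omega) (by omega)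
      have e : (D0 fun u => σ (grp p (lab (o, l, i, j) k u))) =
          (σ (grp p 0) - σ (grp p j)) * (σ (grp p i) - σ (grp p l)) -
            (σ (grp p i) - σ (grp p o)) * (σ (grp p 0) - σ (grp p l)) := rfl
      rw [e, hgrp0, hgrp j (by omega), hgrp i (by omega), hgrp l (by omega)]
      constructor
      · intro ho
        rw [ho, hgrp0]
        nlinarith [mul_pos (sub_pos.mpr m4) (sub_pos.mpr m1), mul_pos (sub_pos.mpr m3)
          (sub_pos.mpr m5)]
      · intro ho
        have m6 : σ (o - 1) < σ (l - 1) := hσmono _ _ (by omega) (by omega)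
        rw [hgrp o (by omega)]
        nlinarith [mul_pos (sub_pos.mpr m1) (sub_pos.mpr m2), mul_pos (sub_pos.mpr m6)
          (sub_pos.mpr m5)]
    obtain ⟨d₁, hd₁, hd₁'⟩ := fin_min (fun k => match Sgn.opd p k with
      | none => 1
      | some c => |D0 fun u => σ (grp p (lab c k u))|) (Ng p) (by
        intro k _
        change 0 < (match Sgn.opd p k with
          | none => 1
          | some c => |D0 fun u => σ (grp p (lab c k u))|)
        rcases hc : Sgn.opd p k with _ | ⟨o, l, i, j⟩
        · exact one_pos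
        · have h1 := hD k o l i j hc
          rcases Nat.eq_zero_or_pos o with ho | ho
          · exact abs_pos.mpr (h1.1 ho).ne'
          · exact abs_pos.mpr (h1.2 ho).ne)
    have hd1 : ∀ k o l i j, Sgn.opd p k = some (o, l, i, j) →
        d₁ ≤ |D0 fun u => σ (grp p (lab (o, l, i, j) k u))| := by
      intro k o l i j hc
      obtain ⟨hk2, hkN, -⟩ := Sgn.opd_wf hp hc
      have h1 := hd₁' k (by omega)
      simp only [hc] at h1
      exact h1
    obtain ⟨d₂, hd₂, hd₂'⟩ := fin_min (fun a => σ (a + 1) - σ a) (Ng p - 1) (by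
      intro a ha
      exact sub_pos.mpr (hσmono _ _ (by omega) (by omega)))
    have hd2 : ∀ a b, a < b → b < Ng p → d₂ ≤ σ b - σ a := by
      intro a b hab hb
      have h1 := hd₂' a (by omega)
      rcases Nat.lt_or_ge (a + 1) b with h | h
      · have := hσmono (a + 1) b h hb
        linarith
      · have : b = a + 1 := by omega
        rw [this]
        exact h1
    -- the small number
    let c₀ : ℝ := min (min d₁ d₂) (min δ 1)
    have hc₀ : 0 < c₀ := lt_min (lt_min hd₁ hd₂) (lt_min hδ one_pos)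
    have hc1 : c₀ ≤ d₁ := (min_le_left _ _).trans (min_le_left _ _)
    have hc2 : c₀ ≤ d₂ := (min_le_left _ _).trans (min_le_right _ _)
    have hc3 : c₀ ≤ δ := (min_le_right _ _).trans (min_le_left _ _)
    have hc4 : c₀ ≤ 1 := (min_le_right _ _).trans (min_le_right _ _)
    let ν : ℝ := c₀ / (20000 * Ng p)
    have hν : 0 < ν := by positivity
    have hνN : ν * Ng p = c₀ / 20000 := by
      change c₀ / (20000 * Ng p) * Ng p = _
      field_simp
    have hν1 : ν ≤ 1 := by nlinarith
    let μ : ℕ → ℝ := fun g => if g < Ng p - 1 then ν ^ (Ng p - g) else ν ^ (Ng p + 1)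
    have hμ0 : ∀ g, 0 < μ g := by
      intro g
      change 0 < (if g < Ng p - 1 then ν ^ (Ng p - g) else ν ^ (Ng p + 1))
      split_ifs <;> positivity
    have hμν : ∀ g, μ g ≤ ν := by
      intro g
      change (if g < Ng p - 1 then ν ^ (Ng p - g) else ν ^ (Ng p + 1)) ≤ ν
      split_ifs with h
      · exact pow_le_of_le_one hν.le hν1 (by omega)
      · exact pow_le_of_le_one hν.le hν1 (by omega)
    let off : ℕ → ℝ := fun x => ((x % (72 * Ng p) : ℕ) : ℝ) - 36 * Ng p + 1 / 2
    have hoff : ∀ x, |off x| ≤ 36 * Ng p := by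
      intro x
      have h1 : x % (72 * Ng p) + 1 ≤ 72 * Ng p := Nat.mod_lt _ (by omega)
      have h2 : ((x % (72 * Ng p) : ℕ) : ℝ) + 1 ≤ 72 * Ng p := by exact_mod_cast h1
      have h3 : (0 : ℝ) ≤ ((x % (72 * Ng p) : ℕ) : ℝ) := Nat.cast_nonneg _
      change |((x % (72 * Ng p) : ℕ) : ℝ) - 36 * Ng p + 1 / 2| ≤ _
      rw [abs_le]
      constructor <;> linarith
    let s : ℕ → ℝ := fun x => σ (x / (72 * Ng p)) + μ (x / (72 * Ng p)) * off x
    have hs : ∀ x, |s x - σ (x / (72 * Ng p))| ≤ μ (x / (72 * Ng p)) * (36 * Ng p) := by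
      intro x
      change |σ (x / (72 * Ng p)) + μ (x / (72 * Ng p)) * off x - σ (x / (72 * Ng p))| ≤ _
      rw [add_sub_cancel_left, abs_mul, abs_of_pos (hμ0 _)]
      exact mul_le_mul_of_nonneg_left (hoff x) (hμ0 _).le
    have hs' : ∀ x, |s x - σ (x / (72 * Ng p))| ≤ 36 * c₀ / 20000 := by
      intro x
      refine (hs x).trans ?_
      have h1 : μ (x / (72 * Ng p)) * (36 * Ng p) ≤ ν * (36 * Ng p) :=
        mul_le_mul_of_nonneg_right (hμν _) (by positivity)
      linarith
    have hdd : ∀ x, x / (12 * Ng p) / 6 = x / (72 * Ng p) := by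
      intro x
      rw [Nat.div_div_eq_div_mul]
      congr 1
      ring
    refine ⟨s, ?_, ?_, ?_⟩
    · intro a b hab hb
      have hle : a / (72 * Ng p) ≤ b / (72 * Ng p) := Nat.div_le_div_right hab.le
      have hbN : b / (72 * Ng p) < Ng p := by
        apply Nat.div_lt_of_lt_mul
        exact hb
      rcases Nat.lt_or_ge (a / (72 * Ng p)) (b / (72 * Ng p)) with h | h
      · have h1 := hd2 _ _ h hbN
        have h2 := hs' a
        have h3 := hs' b
        rw [abs_le] at h2 h3
        linarith [h2.2, h3.1]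
      · have heq : a / (72 * Ng p) = b / (72 * Ng p) := le_antisymm hle h
        have h1 : a % (72 * Ng p) < b % (72 * Ng p) := by
          have h2 := Nat.div_add_mod a (72 * Ng p)
          have h3 := Nat.div_add_mod b (72 * Ng p)
          rw [heq] at h2
          omega
        have h2 : ((a % (72 * Ng p) : ℕ) : ℝ) < ((b % (72 * Ng p) : ℕ) : ℝ) := by
          exact_mod_cast h1
        change σ (a / (72 * Ng p)) + μ (a / (72 * Ng p)) * off a <
          σ (b / (72 * Ng p)) + μ (b / (72 * Ng p)) * off b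
        rw [heq]
        have h3 : off a < off b := by
          change ((a % (72 * Ng p) : ℕ) : ℝ) - 36 * Ng p + 1 / 2 <
            ((b % (72 * Ng p) : ℕ) : ℝ) - 36 * Ng p + 1 / 2
          linarith
        have h4 := mul_lt_mul_of_pos_left h3 (hμ0 (b / (72 * Ng p)))
        linarith
    · intro x _
      rw [hdd]
      refine (hs' x).trans_lt ?_
      linarith
    · intro k c hc b hb
      obtain ⟨o, l, i, j⟩ := c
      obtain ⟨hk2, hkN, hol, hli, hlj, hik, hjk⟩ := Sgn.opd_wf hp hc
      have hzn : ∀ u, zn b u < 6 := by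
        intro u
        unfold zn
        split_ifs <;> omega
      have hr : ∀ u < 6, 6 * (2 * k + b) + u < 12 * Ng p := by
        intro u hu
        omega
      have hdiv : ∀ u < 6, qidx p (o, l, i, j) k b u / (72 * Ng p) =
          grp p (lab (o, l, i, j) k u) := fun u hu => (lidx_div (hzn u) (hr u hu)).1
      have hmod : ∀ u < 6, qidx p (o, l, i, j) k b u % (72 * Ng p) =
          zn b u * (12 * Ng p) + (6 * (2 * k + b) + u) :=
        fun u hu => (lidx_div (hzn u) (hr u hu)).2
      have hk1 : μ (k - 1) = ν ^ (Ng p - k + 1) := by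
        change (if k - 1 < Ng p - 1 then ν ^ (Ng p - (k - 1)) else ν ^ (Ng p + 1)) = _
        rw [if_pos (by omega)]
        congr 1
        omega
      have hμle : ∀ g, (g < k - 1 ∨ g = Ng p - 1) → μ g ≤ ν * μ (k - 1) := by
        intro g hg
        rw [hk1, ← pow_succ']
        change (if g < Ng p - 1 then ν ^ (Ng p - g) else ν ^ (Ng p + 1)) ≤ _
        split_ifs with h
        · exact pow_le_pow_of_le_one hν.le hν1 (by omega)
        · exact pow_le_pow_of_le_one hν.le hν1 (by omega)
      have hgu : ∀ u < 5, grp p (lab (o, l, i, j) k u) < k - 1 ∨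
          grp p (lab (o, l, i, j) k u) = Ng p - 1 := by
        intro u hu
        have hcase : ∀ a, a < k → grp p a < k - 1 ∨ grp p a = Ng p - 1 := by
          intro a ha
          rcases Nat.eq_zero_or_pos a with h | h
          · right
            rw [h, hgrp0]
          · left
            rw [hgrp a h]
            omega
        interval_cases u
        · exact hcase i hik
        · exact hcase l (by omega)
        · exact hcase o (by omega)
        · exact hcase 0 (by omega)
        · exact hcase j hjk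
      have habs : ∀ u < 6, |s (qidx p (o, l, i, j) k b u)| ≤ 2 := by
        intro u _
        have h1 := hs' (qidx p (o, l, i, j) k b u)
        have h2 := hσabs (qidx p (o, l, i, j) k b u / (72 * Ng p))
        rw [abs_le] at h1 h2 ⊢
        constructor <;> linarith [h1.1, h1.2, h2.1, h2.2]
      have hsmall : ∀ u < 5, |s (qidx p (o, l, i, j) k b u) - σ (grp p (lab (o, l, i, j) k u))| ≤
          36 * Ng p * ν * μ (k - 1) := by
        intro u hu
        have h1 := hs (qidx p (o, l, i, j) k b u)
        rw [hdiv u (by omega)] at h1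
        refine h1.trans ?_
        have h2 := hμle _ (hgu u hu)
        have h3 := mul_le_mul_of_nonneg_right h2 (show (0 : ℝ) ≤ 36 * Ng p by positivity)
        linarith
      have hm := hμ0 (k - 1)
      have hP := Phi_sign (s := fun u => s (qidx p (o, l, i, j) k b u))
        (a := fun u => σ (grp p (lab (o, l, i, j) k u))) (η := 36 * Ng p * ν * μ (k - 1))
        (m := μ (k - 1)) (d := d₁) habs (fun u _ => (hσabs _).trans (by norm_num)) hsmall
        (hPhi0 k _ hc) (by positivity) hm (hd1 k o l i j hc) (by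
          have h1 : 192 * (36 * Ng p * ν * μ (k - 1)) = (6912 * (ν * Ng p)) * μ (k - 1) := by ring
          rw [h1, hνN]
          have h2 : 6912 * (c₀ / 20000) < d₁ / 2 := by linarith
          have h3 := mul_lt_mul_of_pos_right h2 hm
          linarith)
      have hs5 : s (qidx p (o, l, i, j) k b 5) - σ (grp p (lab (o, l, i, j) k 5)) =
          μ (k - 1) * off (qidx p (o, l, i, j) k b 5) := by
        change σ (qidx p (o, l, i, j) k b 5 / (72 * Ng p)) +
          μ (qidx p (o, l, i, j) k b 5 / (72 * Ng p)) * off (qidx p (o, l, i, j) k b 5) - _ = _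
        rw [hdiv 5 (by norm_num), add_sub_cancel_left]
        rw [show lab (o, l, i, j) k 5 = k from rfl, hgrp k (by omega)]
      have hoff5 : off (qidx p (o, l, i, j) k b 5) =
          ((zn b 5 * (12 * Ng p) + (6 * (2 * k + b) + 5) : ℕ) : ℝ) - 36 * Ng p + 1 / 2 := by
        change ((qidx p (o, l, i, j) k b 5 % (72 * Ng p) : ℕ) : ℝ) - 36 * Ng p + 1 / 2 = _
        rw [hmod 5 (by norm_num)]
      have hDo := hD k o l i j hc
      have hlow : b = 0 → s (qidx p (o, l, i, j) k b 5) - σ (grp p (lab (o, l, i, j) k 5)) ≤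
          -(μ (k - 1) / 2) := by
        intro hb0
        rw [hs5, hoff5]
        have h1 : (zn b 5 * (12 * Ng p) + (6 * (2 * k + b) + 5) : ℕ) + 1 ≤ 36 * Ng p := by
          rw [hb0, show zn 0 5 = 2 from rfl]
          omega
        have h2 : ((zn b 5 * (12 * Ng p) + (6 * (2 * k + b) + 5) : ℕ) : ℝ) + 1 ≤ 36 * Ng p := by
          exact_mod_cast h1
        nlinarith
      have hup : b = 1 → μ (k - 1) / 2 ≤
          s (qidx p (o, l, i, j) k b 5) - σ (grp p (lab (o, l, i, j) k 5)) := by
        intro hb1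
        rw [hs5, hoff5]
        have h1 : 36 * Ng p ≤ (zn b 5 * (12 * Ng p) + (6 * (2 * k + b) + 5) : ℕ) := by
          rw [hb1, show zn 1 5 = 3 from rfl]
          omega
        have h2 : 36 * (Ng p : ℝ) ≤
            ((zn b 5 * (12 * Ng p) + (6 * (2 * k + b) + 5) : ℕ) : ℝ) := by
          exact_mod_cast h1
        nlinarith
      obtain ⟨q1, q2, q3, q4⟩ := hP
      rcases Nat.eq_zero_or_pos o with ho | ho
      · have hDp := hDo.1 ho
        rcases (show b = 0 ∨ b = 1 by omega) with hb0 | hb1
        · have h1 := q3 hDp (hlow hb0)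
          have h2 : sgn (decide ((o, l, i, j).1 = 0)) b = -1 := by
            subst ho hb0
            simp [sgn]
          rw [h2]
          linarith
        · have h1 := q1 hDp (hup hb1)
          have h2 : sgn (decide ((o, l, i, j).1 = 0)) b = 1 := by
            subst ho hb1
            simp [sgn]
          rw [h2]
          linarith
      · have hDn := hDo.2 ho
        have ho' : o ≠ 0 := by omega
        rcases (show b = 0 ∨ b = 1 by omega) with hb0 | hb1
        · have h1 := q4 hDn (hlow hb0)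
          have h2 : sgn (decide ((o, l, i, j).1 = 0)) b = 1 := by
            subst hb0
            simp [sgn, ho']
          rw [h2]
          linarith
        · have h1 := q2 hDn (hup hb1)
          have h2 : sgn (decide ((o, l, i, j).1 = 0)) b = -1 := by
            subst hb1
            simp [sgn, ho']
          rw [h2]
          linarith

end Pool.Agent.K1H23.PC
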