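import Pool.Agent.K1H23.PC.Stm

/-!
Quadrilaterals near an exact one: the piece `S_BQ`.
-/

namespace Pool.Agent.K1H23.PC

namespace BQ

open Pool.Agent.K1H23.PC Filter Topology

/-- the intercepts -/
noncomputable def qt (e f : ℝ) (s : ℕ → ℝ) (a : ℝ) (u : ℕ) : ℝ :=
  if u = 0 then -(e * a) else if u = 1 then s 1 - s 3 + e * a
  else if u = 2 then -((s 5 - s 2) * (s 3 - s 4) / (s 5 - s 4)) - e * f * a
  else if u = 4 then s 4 - s 3 else 0

theorem qt0 (e f : ℝ) (s : ℕ → ℝ) (a : ℝ) : qt e f s a 0 = -(e * a) := by simp [qt]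
theorem qt1 (e f : ℝ) (s : ℕ → ℝ) (a : ℝ) : qt e f s a 1 = s 1 - s 3 + e * a := by simp [qt]
theorem qt2 (e f : ℝ) (s : ℕ → ℝ) (a : ℝ) : qt e f s a 2 =
    -((s 5 - s 2) * (s 3 - s 4) / (s 5 - s 4)) - e * f * a := by simp [qt]
theorem qt3 (e f : ℝ) (s : ℕ → ℝ) (a : ℝ) : qt e f s a 3 = 0 := by simp [qt]
theorem qt4 (e f : ℝ) (s : ℕ → ℝ) (a : ℝ) : qt e f s a 4 = s 4 - s 3 := by simp [qt]
theorem qt5 (e f : ℝ) (s : ℕ → ℝ) (a : ℝ) : qt e f s a 5 = 0 := by simp [qt]

/-- the abscissae -/
noncomputable def qx (add : Bool) (e f : ℝ) (s : ℕ → ℝ) (a : ℝ) (i : ℕ) : ℝ :=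
  if i = 0 then -(e * a) / (s 3 - s 0)
  else if i = 1 then (if add = true then (qt e f s a 1 - qt e f s a 2) / (s 2 - s 1)
    else (qt e f s a 2 - qt e f s a 0) / (s 0 - s 2))
  else if i = 2 then (if add = true then (qt e f s a 4 - qt e f s a 2) / (s 2 - s 4)
    else qt e f s a 2 / (s 5 - s 2))
  else if i = 3 then qt e f s a 1 / (s 3 - s 1)
  else -(4 * a / (s 5 + s 3 - 2 * s 0))

/-- the ordinates -/
noncomputable def qy (add : Bool) (e f : ℝ) (s : ℕ → ℝ) (a : ℝ) (i : ℕ) : ℝ :=
  if i = 0 then (s 3 * qx add e f s a 0 + s 5 * qx add e f s a 0) / 2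
  else if i = 1 then ((s 0 * qx add e f s a 1 + qt e f s a 0) +
    (s 1 * qx add e f s a 1 + qt e f s a 1)) / 2
  else if i = 2 then (s 5 * qx add e f s a 2 + (s 4 * qx add e f s a 2 + qt e f s a 4)) / 2
  else if i = 3 then (s 3 * qx add e f s a 3 + (s 4 * qx add e f s a 3 + qt e f s a 4)) / 2
  else (s 5 + s 3) / 2 * qx add e f s a 4

/-- the heights of the points above the lines -/
noncomputable def qE (add : Bool) (e f : ℝ) (s : ℕ → ℝ) (a : ℝ) (i u : ℕ) : ℝ :=
  qy add e f s a i - (s u * qx add e f s a i + qt e f s a u)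

/-- the factors of the signs -/
def qS (e f : ℝ) (i u : ℕ) : ℝ :=
  if i = 0 then (if u = 0 ∨ u = 3 then e else if u = 5 then -e else if u = 2 then f else 1)
  else if i = 1 then (if u = 0 then -e else if u = 1 then e else if u = 2 then -(e * f) else 1)
  else if i = 2 then (if u = 0 ∨ u = 1 then -1 else if u = 2 then e * f else if u = 4 then -e
    else if u = 5 then e else 1)
  else if i = 3 then (if u = 1 ∨ u = 3 then -e else if u = 4 then e else if u = 2 then f else -1)
  else (if u = 0 ∨ u = 5 then -1 else if u = 2 then f else 1)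

theorem qS_tab (add : Bool) (b : ℕ) (hb : b < 2) (i u : ℕ) (hi : i < 5) (hu : u < 6) (x : ℝ)
    (h : 0 < qS (if b = 1 then 1 else -1) (if add = true then -1 else 1) i u * x) :
    if tab add b i u = true then 0 < x else x < 0 := by
  interval_cases b <;> cases add <;> interval_cases i <;> interval_cases u <;>
    simp [qS, tab, ent, tabU, tabL] at h ⊢ <;> exact h


section near

variable {add : Bool} {e f a : ℝ} {s : ℕ → ℝ}

theorem near0 (he : e = 1 ∨ e = -1) (h1 : s 0 < s 3) (h2 : s 5 < s 3) (ha : 0 < a) :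
    0 < e * qE add e f s a 0 0 ∧ 0 < e * qE add e f s a 0 3 ∧ 0 < -e * qE add e f s a 0 5 := by
  have hx : (s 3 - s 0) * qx add e f s a 0 = -(e * a) := by
    have : s 3 - s 0 ≠ 0 := by linarith
    simp only [qx, if_true]
    field_simp
  set x := qx add e f s a 0 with hxd
  have key : 0 < -(e * x) := by
    have h3 : 0 < (s 3 - s 0) * (-(e * x)) := by
      have : (s 3 - s 0) * (-(e * x)) = e * e * a := by linear_combination (-e) * hx
      rw [this]
      rcases he with rfl | rfl <;> simpa using ha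
    exact (mul_pos_iff_of_pos_left (by linarith)).1 h3
  have e0 : qE add e f s a 0 0 = (s 5 - s 3) / 2 * x := by
    simp only [qE, qy, if_true, qt0, ← hxd]; linear_combination hx
  have e3 : qE add e f s a 0 3 = (s 5 - s 3) / 2 * x := by
    simp only [qE, qy, if_true, qt3, ← hxd]; ring
  have e5 : qE add e f s a 0 5 = (s 3 - s 5) / 2 * x := by
    simp only [qE, qy, if_true, qt5, ← hxd]; ring
  have h4 : 0 < (s 3 - s 5) / 2 * (-(e * x)) := mul_pos (by linarith) key
  rw [e0, e3, e5]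
  refine ⟨?_, ?_, ?_⟩ <;> linarith

theorem near3 (he : e = 1 ∨ e = -1) (h1 : s 1 < s 3) (h2 : s 4 < s 3) (ha : 0 < a) :
    0 < -e * qE add e f s a 3 1 ∧ 0 < -e * qE add e f s a 3 3 ∧ 0 < e * qE add e f s a 3 4 := by
  have hx : (s 3 - s 1) * qx add e f s a 3 = s 1 - s 3 + e * a := by
    have : s 3 - s 1 ≠ 0 := by linarith
    simp only [qx, qt1]
    norm_num
    field_simp
  set x := qx add e f s a 3 with hxd
  have key : 0 < e * (x + 1) := by
    have h3 : 0 < (s 3 - s 1) * (e * (x + 1)) := by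
      have : (s 3 - s 1) * (e * (x + 1)) = e * e * a := by linear_combination e * hx
      rw [this]
      rcases he with rfl | rfl <;> simpa using ha
    exact (mul_pos_iff_of_pos_left (by linarith)).1 h3
  have hy : qy add e f s a 3 = (s 3 * x + (s 4 * x + (s 4 - s 3))) / 2 := by
    simp only [qy, ← hxd, qt4]; norm_num
  have e1 : qE add e f s a 3 1 = -((s 3 - s 4) / 2 * (x + 1)) := by
    simp only [qE, hy, qt1, ← hxd]; linear_combination hx
  have e3 : qE add e f s a 3 3 = -((s 3 - s 4) / 2 * (x + 1)) := by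
    simp only [qE, hy, qt3, ← hxd]; ring
  have e4 : qE add e f s a 3 4 = (s 3 - s 4) / 2 * (x + 1) := by
    simp only [qE, hy, qt4, ← hxd]; ring
  have h4 : 0 < (s 3 - s 4) / 2 * (e * (x + 1)) := mul_pos (by linarith) key
  rw [e1, e3, e4]
  refine ⟨?_, ?_, ?_⟩ <;> linarith

theorem near2 (he : e = 1 ∨ e = -1) (hf : f = if add = true then -1 else 1) (h1 : s 4 < s 5)
    (h2 : add = false → s 2 < s 5) (h3 : add = true → s 4 < s 2) (ha : 0 < a) :
    0 < e * f * qE add e f s a 2 2 ∧ 0 < -e * qE add e f s a 2 4 ∧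
      0 < e * qE add e f s a 2 5 := by
  have h54 : s 5 - s 4 ≠ 0 := by linarith
  set x := qx add e f s a 2 with hxd
  set V := s 5 * x - (s 4 * x + (s 4 - s 3)) with hV
  have hy : qy add e f s a 2 = (s 5 * x + (s 4 * x + (s 4 - s 3))) / 2 := by
    simp only [qy, ← hxd, qt4]; norm_num
  have e4 : qE add e f s a 2 4 = V / 2 := by
    simp only [qE, hy, qt4, ← hxd]; ring
  have e5 : qE add e f s a 2 5 = -(V / 2) := by
    simp only [qE, hy, qt5, ← hxd]; ring
  have hee : e * e = 1 := by rcases he with rfl | rfl <;> norm_num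
  cases add with
  | false =>
    have h2' := h2 rfl
    simp only [Bool.false_eq_true, if_false] at hf
    subst hf
    have h52 : s 5 - s 2 ≠ 0 := by linarith
    have hx : (s 5 - s 2) * x = qt e 1 s a 2 := by
      rw [hxd]; simp only [qx]; norm_num; field_simp
    have e2 : qE false e 1 s a 2 2 = -(V / 2) := by
      simp only [qE, hy, ← hxd]; rw [← hx, hV]; ring
    have key : 0 < -(e * V) := by
      have h4 : (s 5 - s 2) * (-(e * V)) = (s 5 - s 4) * a := by
        have h5 : (s 5 - s 4) * qt e 1 s a 2 =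
            -((s 5 - s 2) * (s 3 - s 4)) - (s 5 - s 4) * (e * a) := by
          rw [qt2]; field_simp
        rw [← hx] at h5
        rw [hV]
        linear_combination (-e) * h5 + (s 5 - s 4) * a * hee
      have h6 : 0 < (s 5 - s 2) * (-(e * V)) := by rw [h4]; exact mul_pos (by linarith) ha
      exact (mul_pos_iff_of_pos_left (by linarith)).1 h6
    rw [e2, e4, e5]
    refine ⟨?_, ?_, ?_⟩ <;> linarith
  | true =>
    have h3' := h3 rfl
    simp only [if_true] at hf
    subst hf
    have h24 : s 2 - s 4 ≠ 0 := by linarith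
    have hx : (s 2 - s 4) * x = (s 4 - s 3) - qt e (-1) s a 2 := by
      rw [hxd]; simp only [qx, qt4]; norm_num; field_simp
    have e2 : qE true e (-1) s a 2 2 = V / 2 := by
      simp only [qE, hy, ← hxd]; rw [hV]; linear_combination -hx
    have key : 0 < -(e * V) := by
      have h4 : (s 2 - s 4) * (-(e * V)) = (s 5 - s 4) * a := by
        have h5 : (s 5 - s 4) * qt e (-1) s a 2 =
            -((s 5 - s 2) * (s 3 - s 4)) + (s 5 - s 4) * (e * a) := by
          rw [qt2]; field_simp; ring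
        rw [hV]
        linear_combination (-e) * (s 5 - s 4) * hx + e * h5 + (s 5 - s 4) * a * hee
      have h6 : 0 < (s 2 - s 4) * (-(e * V)) := by rw [h4]; exact mul_pos (by linarith) ha
      exact (mul_pos_iff_of_pos_left (by linarith)).1 h6
    rw [e2, e4, e5]
    refine ⟨?_, ?_, ?_⟩ <;> linarith

theorem near1 (he : e = 1 ∨ e = -1) (hf : f = if add = true then -1 else 1) (h1 : s 4 < s 5)
    (h2 : add = false → s 2 < s 0) (h3 : add = true → s 1 < s 2) (ha : 0 < a)
    (hK : (s 5 - s 4) * (|s 0 - s 1| + |s 0 - s 2| + |s 1 - s 2|) * a < -(e * f) * Phi s) :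
    0 < -e * qE add e f s a 1 0 ∧ 0 < e * qE add e f s a 1 1 ∧
      0 < -(e * f) * qE add e f s a 1 2 := by
  have h54 : s 5 - s 4 ≠ 0 := by linarith
  set x := qx add e f s a 1 with hxd
  set V := (s 0 * x + -(e * a)) - (s 1 * x + (s 1 - s 3 + e * a)) with hV
  have hy : qy add e f s a 1 = ((s 0 * x + -(e * a)) + (s 1 * x + (s 1 - s 3 + e * a))) / 2 := by
    simp only [qy, ← hxd, qt0, qt1]; norm_num
  have e0 : qE add e f s a 1 0 = -(V / 2) := by
    simp only [qE, hy, qt0, ← hxd]; ring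
  have e1 : qE add e f s a 1 1 = V / 2 := by
    simp only [qE, hy, qt1, ← hxd]; ring
  have hee : e * e = 1 := by rcases he with rfl | rfl <;> norm_num
  have b1 := neg_abs_le (s 0 - s 1)
  have b1' := le_abs_self (s 0 - s 1)
  have b2 := neg_abs_le (s 0 - s 2)
  have b2' := le_abs_self (s 0 - s 2)
  have b3 := neg_abs_le (s 1 - s 2)
  have b3' := le_abs_self (s 1 - s 2)
  have hka : 0 < (s 5 - s 4) * a := mul_pos (by linarith) ha
  cases add with
  | false =>
    have h2' := h2 rfl
    simp only [Bool.false_eq_true, if_false] at hf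
    subst hf
    have h02 : s 0 - s 2 ≠ 0 := by linarith
    have hx : (s 0 - s 2) * x = qt e 1 s a 2 + e * a := by
      rw [hxd]; simp only [qx, qt0]; norm_num; field_simp
    have e2 : qE false e 1 s a 1 2 = -(V / 2) := by
      simp only [qE, hy, ← hxd]; rw [hV]; linear_combination hx
    have key : 0 < e * V := by
      have h5 : (s 5 - s 4) * qt e 1 s a 2 =
          -((s 5 - s 2) * (s 3 - s 4)) - (s 5 - s 4) * (e * a) := by
        rw [qt2]; field_simp
      have h4 : (s 5 - s 4) * ((s 0 - s 2) * (e * V)) = -e * Phi s -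
          (s 5 - s 4) * a * ((s 0 - s 1) + (s 0 - s 2) + (s 1 - s 2)) := by
        rw [hV]
        unfold Phi
        linear_combination e * (s 5 - s 4) * (s 0 - s 1) * hx + e * (s 0 - s 1) * h5 -
          (s 5 - s 4) * a * ((s 0 - s 1) + (s 0 - s 2) + (s 1 - s 2)) * hee
      have h6 : 0 < (s 5 - s 4) * ((s 0 - s 2) * (e * V)) := by
        rw [h4]
        have h7 : (s 5 - s 4) * a * ((s 0 - s 1) + (s 0 - s 2) + (s 1 - s 2)) ≤
            (s 5 - s 4) * a * (|s 0 - s 1| + |s 0 - s 2| + |s 1 - s 2|) :=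
          mul_le_mul_of_nonneg_left (by linarith) hka.le
        linarith
      have h8 := (mul_pos_iff_of_pos_left (by linarith)).1 h6
      exact (mul_pos_iff_of_pos_left (by linarith)).1 h8
    rw [e0, e1, e2]
    refine ⟨?_, ?_, ?_⟩ <;> linarith
  | true =>
    have h3' := h3 rfl
    simp only [if_true] at hf
    subst hf
    have h21 : s 2 - s 1 ≠ 0 := by linarith
    have hx : (s 2 - s 1) * x = (s 1 - s 3 + e * a) - qt e (-1) s a 2 := by
      rw [hxd]; simp only [qx, qt1]; norm_num; field_simp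
    have e2 : qE true e (-1) s a 1 2 = V / 2 := by
      simp only [qE, hy, ← hxd]; rw [hV]; linear_combination -hx
    have key : 0 < e * V := by
      have h5 : (s 5 - s 4) * qt e (-1) s a 2 =
          -((s 5 - s 2) * (s 3 - s 4)) + (s 5 - s 4) * (e * a) := by
        rw [qt2]; field_simp; ring
      have h4 : (s 5 - s 4) * ((s 2 - s 1) * (e * V)) = e * Phi s -
          (s 5 - s 4) * a * ((s 0 - s 1) - (s 0 - s 2) - (s 1 - s 2)) := by
        rw [hV]
        unfold Phi
        linear_combination e * (s 5 - s 4) * (s 0 - s 1) * hx - e * (s 0 - s 1) * h5 -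
          (s 5 - s 4) * a * ((s 0 - s 1) - (s 0 - s 2) - (s 1 - s 2)) * hee
      have h6 : 0 < (s 5 - s 4) * ((s 2 - s 1) * (e * V)) := by
        rw [h4]
        have h7 : (s 5 - s 4) * a * ((s 0 - s 1) - (s 0 - s 2) - (s 1 - s 2)) ≤
            (s 5 - s 4) * a * (|s 0 - s 1| + |s 0 - s 2| + |s 1 - s 2|) :=
          mul_le_mul_of_nonneg_left (by linarith) hka.le
        linarith
      have h8 := (mul_pos_iff_of_pos_left (by linarith)).1 h6
      exact (mul_pos_iff_of_pos_left (by linarith)).1 h8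
    rw [e0, e1, e2]
    refine ⟨?_, ?_, ?_⟩ <;> linarith

theorem near4 (he : e = 1 ∨ e = -1) (h1 : s 0 < s 5) (h2 : s 5 < s 3) (ha : 0 < a) :
    0 < -1 * qE add e f s a 4 0 ∧ 0 < 1 * qE add e f s a 4 3 ∧ 0 < -1 * qE add e f s a 4 5 := by
  have hx : (s 5 + s 3 - 2 * s 0) * qx add e f s a 4 = -(4 * a) := by
    have : s 5 + s 3 - 2 * s 0 ≠ 0 := by linarith
    simp only [qx]
    norm_num
    field_simp
  set x := qx add e f s a 4 with hxd
  have key : 0 < -x := by
    have h3 : 0 < (s 5 + s 3 - 2 * s 0) * (-x) := by linarith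
    exact (mul_pos_iff_of_pos_left (by linarith)).1 h3
  have hy : qy add e f s a 4 = (s 5 + s 3) / 2 * x := by
    simp only [qy, ← hxd]; norm_num
  have e0 : qE add e f s a 4 0 = -(2 * a) + e * a := by
    simp only [qE, hy, qt0, ← hxd]; linear_combination hx / 2
  have e3 : qE add e f s a 4 3 = (s 3 - s 5) / 2 * (-x) := by
    simp only [qE, hy, qt3, ← hxd]; ring
  have e5 : qE add e f s a 4 5 = -((s 3 - s 5) / 2 * (-x)) := by
    simp only [qE, hy, qt5, ← hxd]; ring
  have h4 : 0 < (s 3 - s 5) / 2 * (-x) := mul_pos (by linarith) key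
  rw [e0, e3, e5]
  refine ⟨?_, ?_, ?_⟩
  · rcases he with rfl | rfl <;> linarith
  · linarith
  · linarith

end near

section far

variable {add : Bool} {e f : ℝ} {s : ℕ → ℝ}

/-- the abscissae of the exact points -/
theorem far_x (h10 : s 1 < s 0) (_h14 : s 1 < s 4) (h05 : s 0 < s 5) (h45 : s 4 < s 5)
    (h53 : s 5 < s 3) (h0 : add = false → s 2 < s 1) (h1 : add = true → s 2 = s 3)
    (hf : f = if add = true then -1 else 1) (hΦ : Phi s = 0) :
    qx add e f s 0 0 = 0 ∧ (s 0 - s 1) * qx add e f s 0 1 = -(s 3 - s 1) ∧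
    (s 5 - s 4) * qx add e f s 0 2 = -(s 3 - s 4) ∧ qx add e f s 0 3 = -1 ∧
    qx add e f s 0 4 = 0 := by
  have h54 : s 5 - s 4 ≠ 0 := by linarith
  have h01 : s 0 - s 1 ≠ 0 := by linarith
  have h31 : s 3 - s 1 ≠ 0 := by linarith
  have ht2 : (s 5 - s 4) * qt e f s 0 2 = -((s 5 - s 2) * (s 3 - s 4)) := by
    rw [qt2]; field_simp; ring
  unfold Phi at hΦ
  refine ⟨by simp [qx], ?_, ?_, ?_, by simp [qx]⟩
  · cases add with
    | false =>
      have h0' := h0 rfl
      have h02 : s 0 - s 2 ≠ 0 := by linarith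
      have hx : (s 0 - s 2) * qx false e f s 0 1 = qt e f s 0 2 := by
        simp only [qx, qt0]; norm_num; field_simp
      have h3 : (s 5 - s 4) * (s 0 - s 2) * ((s 0 - s 1) * qx false e f s 0 1 + (s 3 - s 1)) = 0 := by
        linear_combination (s 5 - s 4) * (s 0 - s 1) * hx + (s 0 - s 1) * ht2 - hΦ
      have h4 := (mul_eq_zero.1 h3).resolve_left (mul_ne_zero h54 h02)
      linarith
    | true =>
      have h1' := h1 rfl
      have h21 : s 2 - s 1 ≠ 0 := by linarith
      have hx : (s 2 - s 1) * qx true e f s 0 1 = (s 1 - s 3) - qt e f s 0 2 := by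
        simp only [qx, qt1]; norm_num; field_simp
      have h3 : (s 5 - s 4) * (s 2 - s 1) * ((s 0 - s 1) * qx true e f s 0 1 + (s 3 - s 1)) = 0 := by
        linear_combination (s 5 - s 4) * (s 0 - s 1) * hx - (s 0 - s 1) * ht2 + hΦ
      have h4 := (mul_eq_zero.1 h3).resolve_left (mul_ne_zero h54 h21)
      linarith
  · cases add with
    | false =>
      have h0' := h0 rfl
      have h52 : s 5 - s 2 ≠ 0 := by linarith
      have hx : (s 5 - s 2) * qx false e f s 0 2 = qt e f s 0 2 := by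
        simp only [qx]; norm_num; field_simp
      have h3 : (s 5 - s 2) * ((s 5 - s 4) * qx false e f s 0 2 + (s 3 - s 4)) = 0 := by
        linear_combination (s 5 - s 4) * hx + ht2
      have h4 := (mul_eq_zero.1 h3).resolve_left h52
      linarith
    | true =>
      have h1' := h1 rfl
      have h24 : s 2 - s 4 ≠ 0 := by linarith
      have hx : (s 2 - s 4) * qx true e f s 0 2 = (s 4 - s 3) - qt e f s 0 2 := by
        simp only [qx, qt4]; norm_num; field_simp
      have h3 : (s 2 - s 4) * ((s 5 - s 4) * qx true e f s 0 2 + (s 3 - s 4)) = 0 := by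
        linear_combination (s 5 - s 4) * hx - ht2
      have h4 := (mul_eq_zero.1 h3).resolve_left h24
      linarith
  · simp only [qx, qt1]
    norm_num
    rw [div_eq_iff h31]; ring

theorem far (h10 : s 1 < s 0) (h14 : s 1 < s 4) (h05 : s 0 < s 5) (h45 : s 4 < s 5)
    (h53 : s 5 < s 3) (h0 : add = false → s 2 < s 1) (h1 : add = true → s 2 = s 3)
    (hf : f = if add = true then -1 else 1) (hΦ : Phi s = 0) :
    (0 < 1 * qE add e f s 0 0 1 ∧ 0 < f * qE add e f s 0 0 2 ∧ 0 < 1 * qE add e f s 0 0 4) ∧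
    (0 < 1 * qE add e f s 0 1 3 ∧ 0 < 1 * qE add e f s 0 1 4 ∧ 0 < 1 * qE add e f s 0 1 5) ∧
    (0 < -1 * qE add e f s 0 2 0 ∧ 0 < -1 * qE add e f s 0 2 1 ∧ 0 < 1 * qE add e f s 0 2 3) ∧
    (0 < -1 * qE add e f s 0 3 0 ∧ 0 < f * qE add e f s 0 3 2 ∧ 0 < -1 * qE add e f s 0 3 5) ∧
    (0 < 1 * qE add e f s 0 4 1 ∧ 0 < f * qE add e f s 0 4 2 ∧ 0 < 1 * qE add e f s 0 4 4) := by
  obtain ⟨x0, x1, x2, x3, x4⟩ := far_x (e := e) h10 h14 h05 h45 h53 h0 h1 hf hΦ
  have h54 : 0 < s 5 - s 4 := by linarith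
  have h01 : 0 < s 0 - s 1 := by linarith
  have h54' := h54.ne'
  have t2 : (s 5 - s 4) * qt e f s 0 2 = -((s 5 - s 2) * (s 3 - s 4)) := by
    rw [qt2]; field_simp; ring
  have y0 : qy add e f s 0 0 = 0 := by simp [qy, x0]
  have y4 : qy add e f s 0 4 = 0 := by simp [qy, x4]
  have y3 : qy add e f s 0 3 = -s 3 := by simp only [qy, x3, qt4]; norm_num; ring
  have y2 : qy add e f s 0 2 = s 5 * qx add e f s 0 2 := by
    simp only [qy, qt4]; norm_num; linear_combination -x2 / 2
  have y1 : qy add e f s 0 1 = s 0 * qx add e f s 0 1 := by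
    simp only [qy, qt0, qt1]; norm_num; linear_combination -x1 / 2
  have p31 : 0 < s 3 - s 1 := by linarith
  have p34 : 0 < s 3 - s 4 := by linarith
  have p1 : 0 < -qx add e f s 0 1 := by
    have : 0 < (s 0 - s 1) * (-qx add e f s 0 1) := by linarith
    exact (mul_pos_iff_of_pos_left h01).1 this
  have p2 : 0 < -qx add e f s 0 2 := by
    have : 0 < (s 5 - s 4) * (-qx add e f s 0 2) := by linarith
    exact (mul_pos_iff_of_pos_left h54).1 this
  have f2 : 0 < -f * qt e f s 0 2 := by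
    have h3 : 0 < (s 5 - s 4) * (-f * qt e f s 0 2) := by
      have h4 : (s 5 - s 4) * (-f * qt e f s 0 2) = f * (s 5 - s 2) * (s 3 - s 4) := by
        linear_combination -f * t2
      rw [h4]
      refine mul_pos ?_ p34
      cases add with
      | false => have := h0 rfl; simp at hf; subst hf; linarith
      | true => have := h1 rfl; simp at hf; subst hf; linarith
    exact (mul_pos_iff_of_pos_left h54).1 h3
  refine ⟨⟨?_, ?_, ?_⟩, ⟨?_, ?_, ?_⟩, ⟨?_, ?_, ?_⟩, ⟨?_, ?_, ?_⟩, ⟨?_, ?_, ?_⟩⟩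
  · simp only [qE, x0, y0, qt1]; linarith
  · simp only [qE, x0, y0]; linarith
  · simp only [qE, x0, y0, qt4]; linarith
  · simp only [qE, y1, qt3]
    have := mul_pos (show 0 < s 3 - s 0 by linarith) p1
    linarith
  · simp only [qE, y1, qt4]
    have h3 : 0 < (s 0 - s 1) * (1 * (s 0 * qx add e f s 0 1 -
        (s 4 * qx add e f s 0 1 + (s 4 - s 3)))) := by
      have h4 : (s 0 - s 1) * (1 * (s 0 * qx add e f s 0 1 -
        (s 4 * qx add e f s 0 1 + (s 4 - s 3)))) = (s 3 - s 0) * (s 4 - s 1) := by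
        linear_combination (s 0 - s 4) * x1
      rw [h4]
      exact mul_pos (by linarith) (by linarith)
    exact (mul_pos_iff_of_pos_left h01).1 h3
  · simp only [qE, y1, qt5]
    have := mul_pos (show 0 < s 5 - s 0 by linarith) p1
    linarith
  · simp only [qE, y2, qt0]
    have := mul_pos (show 0 < s 5 - s 0 by linarith) p2
    linarith
  · simp only [qE, y2, qt1]
    have h3 : 0 < (s 5 - s 4) * (-1 * (s 5 * qx add e f s 0 2 -
        (s 1 * qx add e f s 0 2 + (s 1 - s 3 + e * 0)))) := by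
      have h4 : (s 5 - s 4) * (-1 * (s 5 * qx add e f s 0 2 -
        (s 1 * qx add e f s 0 2 + (s 1 - s 3 + e * 0)))) = (s 3 - s 5) * (s 4 - s 1) := by
        linear_combination (s 1 - s 5) * x2
      rw [h4]
      exact mul_pos (by linarith) (by linarith)
    exact (mul_pos_iff_of_pos_left h54).1 h3
  · simp only [qE, y2, qt3]
    have := mul_pos (show 0 < s 3 - s 5 by linarith) p2
    linarith
  · simp only [qE, y3, x3, qt0]; linarith
  · simp only [qE, y3, x3]
    have h3 : 0 < (s 5 - s 4) * (f * (-s 3 - (s 2 * -1 + qt e f s 0 2))) := by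
      have h4 : (s 5 - s 4) * (f * (-s 3 - (s 2 * -1 + qt e f s 0 2))) =
          (s 3 - s 5) * (f * (s 4 - s 2)) := by
        linear_combination -f * t2
      rw [h4]
      refine mul_pos (by linarith) ?_
      cases add with
      | false => have := h0 rfl; simp at hf; subst hf; linarith
      | true => have := h1 rfl; simp at hf; subst hf; linarith
    exact (mul_pos_iff_of_pos_left h54).1 h3
  · simp only [qE, y3, x3, qt5]; linarith
  · simp only [qE, x4, y4, qt1]; linarith
  · simp only [qE, x4, y4]; linarith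
  · simp only [qE, x4, y4, qt4]; linarith

end far

end BQ

open BQ Filter Topology in
theorem t_BQ : S_BQ := by
  intro add b σ hb h10 h14 h05 h45 h53 h0 h1 hΦ
  set e : ℝ := if b = 1 then 1 else -1 with he
  set f : ℝ := if add = true then -1 else 1 with hf
  have he2 : e = 1 ∨ e = -1 := by rw [he]; split_ifs <;> simp
  let π : (ℕ → ℝ) × ℝ → (Fin 6 → ℝ) × ℝ := fun x => (fun u => x.1 u, x.2)
  set F : Filter ((ℕ → ℝ) × ℝ) := comap π (𝓝 (π (σ, 0))) with hF
  have hs : ∀ u < 6, Tendsto (fun x : (ℕ → ℝ) × ℝ => x.1 u) F (𝓝 (σ u)) := by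
    intro u hu
    have h : Continuous fun y : (Fin 6 → ℝ) × ℝ => y.1 ⟨u, hu⟩ := by fun_prop
    exact (h.tendsto (π (σ, 0))).comp tendsto_comap
  have ha : Tendsto (fun x : (ℕ → ℝ) × ℝ => x.2) F (𝓝 0) :=
    (continuous_snd.tendsto (π (σ, 0))).comp tendsto_comap
  have s0 := hs 0 (by norm_num)
  have s1 := hs 1 (by norm_num)
  have s2 := hs 2 (by norm_num)
  have s3 := hs 3 (by norm_num)
  have s4 := hs 4 (by norm_num)
  have s5 := hs 5 (by norm_num)
  have h54 : σ 5 - σ 4 ≠ 0 := by linarith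
  have ht : ∀ u < 6, Tendsto (fun x : (ℕ → ℝ) × ℝ => qt e f x.1 x.2 u) F (𝓝 (qt e f σ 0 u)) := by
    intro u hu
    interval_cases u
    · simp only [qt0]; exact (ha.const_mul e).neg
    · simp only [qt1]; exact (s1.sub s3).add (ha.const_mul e)
    · simp only [qt2]
      exact ((((s5.sub s2).mul (s3.sub s4)).div (s5.sub s4) h54).neg).sub (ha.const_mul (e * f))
    · simp only [qt3]; exact tendsto_const_nhds
    · simp only [qt4]; exact s4.sub s3
    · simp only [qt5]; exact tendsto_const_nhds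
  have t0 := ht 0 (by norm_num)
  have t1 := ht 1 (by norm_num)
  have t2 := ht 2 (by norm_num)
  have t4 := ht 4 (by norm_num)
  have hx : ∀ i < 5, Tendsto (fun x : (ℕ → ℝ) × ℝ => qx add e f x.1 x.2 i) F
      (𝓝 (qx add e f σ 0 i)) := by
    intro i hi
    interval_cases i
    · exact (ha.const_mul e).neg.div (s3.sub s0) (by linarith)
    · cases add with
      | false => have := h0 rfl; exact (t2.sub t0).div (s0.sub s2) (by linarith)
      | true => have := h1 rfl; exact (t1.sub t2).div (s2.sub s1) (by linarith)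
    · cases add with
      | false => have := h0 rfl; exact t2.div (s5.sub s2) (by linarith)
      | true => have := h1 rfl; exact (t4.sub t2).div (s2.sub s4) (by linarith)
    · exact t1.div (s3.sub s1) (by linarith)
    · exact ((ha.const_mul 4).div ((s5.add s3).sub (s0.const_mul 2)) (by linarith)).neg
  have hy : ∀ i < 5, Tendsto (fun x : (ℕ → ℝ) × ℝ => qy add e f x.1 x.2 i) F
      (𝓝 (qy add e f σ 0 i)) := by
    intro i hi
    have x0 := hx 0 (by norm_num)
    have x1 := hx 1 (by norm_num)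
    have x2 := hx 2 (by norm_num)
    have x3 := hx 3 (by norm_num)
    have x4 := hx 4 (by norm_num)
    interval_cases i
    · exact ((s3.mul x0).add (s5.mul x0)).div_const 2
    · exact (((s0.mul x1).add t0).add ((s1.mul x1).add t1)).div_const 2
    · exact ((s5.mul x2).add ((s4.mul x2).add t4)).div_const 2
    · exact ((s3.mul x3).add ((s4.mul x3).add t4)).div_const 2
    · exact ((s5.add s3).div_const 2).mul x4
  have hE : ∀ (c : ℝ) (i : ℕ), i < 5 → ∀ u, u < 6 → 0 < c * qE add e f σ 0 i u →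
      ∀ᶠ x in F, 0 < c * qE add e f x.1 x.2 i u := by
    intro c i hi u hu h
    have h2 : Tendsto (fun x : (ℕ → ℝ) × ℝ => qE add e f x.1 x.2 i u) F
        (𝓝 (qE add e f σ 0 i u)) := (hy i hi).sub (((hs u hu).mul (hx i hi)).add (ht u hu))
    exact (h2.const_mul c).eventually (lt_mem_nhds h)
  have hlt : ∀ u v, u < 6 → v < 6 → σ u < σ v → ∀ᶠ x in F, x.1 u < x.1 v := fun u v hu hv h =>
    (hs u hu).eventually_lt (hs v hv) h
  obtain ⟨⟨f01, f02, f04⟩, ⟨f13, f14, f15⟩, ⟨f20, f21, f23⟩, ⟨f30, f32, f35⟩, ⟨f41, f42, f44⟩⟩ :=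
    far (e := e) h10 h14 h05 h45 h53 h0 h1 hf hΦ
  -- the bounds
  set B : ℝ := 1 + ∑ u ∈ Finset.range 6, |qt e f σ 0 u| +
    ∑ i ∈ Finset.range 5, (|qx add e f σ 0 i| + |qy add e f σ 0 i|) with hB
  have hS1 : 0 ≤ ∑ u ∈ Finset.range 6, |qt e f σ 0 u| := Finset.sum_nonneg fun u _ => abs_nonneg _
  have hS2 : 0 ≤ ∑ i ∈ Finset.range 5, (|qx add e f σ 0 i| + |qy add e f σ 0 i|) :=
    Finset.sum_nonneg fun u _ => by positivity
  have bt : ∀ᶠ x in F, ∀ u ∈ Finset.range 6, |qt e f x.1 x.2 u| ≤ B := by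
    rw [eventually_all_finset]
    intro u hu
    have h2 : |qt e f σ 0 u| < B := by
      have := Finset.single_le_sum (f := fun u => |qt e f σ 0 u|) (fun u _ => abs_nonneg _) hu
      linarith
    exact ((ht u (Finset.mem_range.1 hu)).abs.eventually (gt_mem_nhds h2)).mono fun x hx => hx.le
  have bp : ∀ᶠ x in F, ∀ i ∈ Finset.range 5, |qx add e f x.1 x.2 i| ≤ B ∧
      |qy add e f x.1 x.2 i| ≤ B := by
    rw [eventually_all_finset]
    intro i hi
    have h2 := Finset.single_le_sum (f := fun i => |qx add e f σ 0 i| + |qy add e f σ 0 i|)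
      (fun u _ => by positivity) hi
    have h3 : |qx add e f σ 0 i| < B := by
      have := abs_nonneg (qy add e f σ 0 i)
      linarith
    have h4 : |qy add e f σ 0 i| < B := by
      have := abs_nonneg (qx add e f σ 0 i)
      linarith
    filter_upwards [(hx i (Finset.mem_range.1 hi)).abs.eventually (gt_mem_nhds h3),
      (hy i (Finset.mem_range.1 hi)).abs.eventually (gt_mem_nhds h4)] with x hx hy
    exact ⟨hx.le, hy.le⟩
  set K : ℝ := (σ 5 - σ 4) * (|σ 0 - σ 1| + |σ 0 - σ 2| + |σ 1 - σ 2|) + 1 with hK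
  have bK : ∀ᶠ x in F, (x.1 5 - x.1 4) * (|x.1 0 - x.1 1| + |x.1 0 - x.1 2| + |x.1 1 - x.1 2|)
      < K := by
    have h2 := (s5.sub s4).mul (((s0.sub s1).abs.add (s0.sub s2).abs).add (s1.sub s2).abs)
    exact h2.eventually (gt_mem_nhds (by rw [hK]; linarith))
  have hKpos : 0 < K := by
    have : 0 ≤ (σ 5 - σ 4) * (|σ 0 - σ 1| + |σ 0 - σ 2| + |σ 1 - σ 2|) :=
      mul_nonneg (by linarith) (by positivity)
    rw [hK]; linarith
  have badd : ∀ᶠ x in F, (add = false → x.1 2 < x.1 5 ∧ x.1 2 < x.1 0) ∧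
      (add = true → x.1 4 < x.1 2 ∧ x.1 1 < x.1 2) := by
    cases add with
    | false =>
      have := h0 rfl
      filter_upwards [hlt 2 5 (by norm_num) (by norm_num) (by linarith),
        hlt 2 0 (by norm_num) (by norm_num) (by linarith)] with x hx hy
      exact ⟨fun _ => ⟨hx, hy⟩, fun h => by simp at h⟩
    | true =>
      have := h1 rfl
      filter_upwards [hlt 4 2 (by norm_num) (by norm_num) (by linarith),
        hlt 1 2 (by norm_num) (by norm_num) (by linarith)] with x hx hy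
      exact ⟨fun h => by simp at h, fun _ => ⟨hx, hy⟩⟩
  have hev : ∀ᶠ x in F, (∀ a, x.2 = a → 0 < a →
      (x.1 5 - x.1 4) * (|x.1 0 - x.1 1| + |x.1 0 - x.1 2| + |x.1 1 - x.1 2|) * a <
        -(e * f) * Phi x.1 → ∀ i < 5, ∀ u < 6, 0 < qS e f i u * qE add e f x.1 a i u) := by
    filter_upwards [badd, hlt 0 3 (by norm_num) (by norm_num) (by linarith),
      hlt 5 3 (by norm_num) (by norm_num) h53, hlt 1 3 (by norm_num) (by norm_num) (by linarith),
      hlt 4 3 (by norm_num) (by norm_num) (by linarith), hlt 4 5 (by norm_num) (by norm_num) h45,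
      hlt 0 5 (by norm_num) (by norm_num) h05,
      hE _ 0 (by norm_num) 1 (by norm_num) f01, hE _ 0 (by norm_num) 2 (by norm_num) f02,
      hE _ 0 (by norm_num) 4 (by norm_num) f04, hE _ 1 (by norm_num) 3 (by norm_num) f13,
      hE _ 1 (by norm_num) 4 (by norm_num) f14, hE _ 1 (by norm_num) 5 (by norm_num) f15,
      hE _ 2 (by norm_num) 0 (by norm_num) f20, hE _ 2 (by norm_num) 1 (by norm_num) f21,
      hE _ 2 (by norm_num) 3 (by norm_num) f23, hE _ 3 (by norm_num) 0 (by norm_num) f30,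
      hE _ 3 (by norm_num) 2 (by norm_num) f32, hE _ 3 (by norm_num) 5 (by norm_num) f35,
      hE _ 4 (by norm_num) 1 (by norm_num) f41, hE _ 4 (by norm_num) 2 (by norm_num) f42,
      hE _ 4 (by norm_num) 4 (by norm_num) f44] with x hadd o03 o53 o13 o43 o45 o05
      g01 g02 g04 g13 g14 g15 g20 g21 g23 g30 g32 g35 g41 g42 g44
    intro a hxa hapos hPhi
    subst hxa
    obtain ⟨n00, n03, n05⟩ := near0 (add := add) (f := f) he2 o03 o53 hapos
    obtain ⟨n31, n33, n34⟩ := near3 (add := add) (f := f) he2 o13 o43 hapos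
    obtain ⟨n22, n24, n25⟩ := near2 (add := add) he2 hf o45 (fun h => (hadd.1 h).1)
      (fun h => (hadd.2 h).1) hapos
    obtain ⟨n10, n11, n12⟩ := near1 (add := add) he2 hf o45 (fun h => (hadd.1 h).2)
      (fun h => (hadd.2 h).2) hapos hPhi
    obtain ⟨n40, n43, n45⟩ := near4 (add := add) (f := f) he2 o05 o53 hapos
    intro i hi u hu
    interval_cases i <;> interval_cases u
    exacts [n00, g01, g02, n03, g04, n05, n10, n11, n12, g13, g14, g15, g20, g21, n22, g23, n24,
      n25, g30, n31, g32, n33, n34, g35, n40, g41, g42, n43, g44, n45]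
  obtain ⟨ε, hε, hεx⟩ := ((Metric.nhds_basis_ball (x := π (σ, 0))).comap π).eventually_iff.1
    (hev.and (bt.and (bp.and bK)))
  refine ⟨ε, B, hε, by linarith, fun s hs hP => ?_⟩
  have hP' : 0 < -(e * f) * Phi s := by
    have : sgn add b = -(e * f) := by
      rw [sgn, he, hf]; split_ifs <;> norm_num
    rwa [this] at hP
  set a : ℝ := min (ε / 2) (-(e * f) * Phi s / K) with haa
  have ha0 : 0 < a := lt_min (by linarith) (div_pos hP' hKpos)
  have ha1 : a < ε := (min_le_left _ _).trans_lt (by linarith)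
  have hmem : (s, a) ∈ π ⁻¹' Metric.ball (π (σ, 0)) ε := by
    rw [Set.mem_preimage, Metric.mem_ball, Prod.dist_eq]
    refine max_lt ?_ ?_
    · rw [dist_pi_lt_iff hε]
      intro u
      rw [Real.dist_eq]
      exact hs u u.2
    · rw [Real.dist_eq]
      change |a - 0| < ε
      rw [sub_zero, abs_of_pos ha0]
      exact ha1
  obtain ⟨q1, q2, q3, q4⟩ := hεx hmem
  have q5 : (s 5 - s 4) * (|s 0 - s 1| + |s 0 - s 2| + |s 1 - s 2|) * a < -(e * f) * Phi s := by
    have h2 : a * K ≤ -(e * f) * Phi s := by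
      have := min_le_right (ε / 2) (-(e * f) * Phi s / K)
      rwa [← haa, le_div_iff₀ hKpos] at this
    have h3 : (s 5 - s 4) * (|s 0 - s 1| + |s 0 - s 2| + |s 1 - s 2|) * a < K * a :=
      mul_lt_mul_of_pos_right q4 ha0
    linarith
  have q6 := q1 a rfl ha0 q5
  refine ⟨qt e f s a, fun i => (qx add e f s a i, qy add e f s a i),
    fun u hu => q2 u (Finset.mem_range.2 hu), fun i hi => q3 i (Finset.mem_range.2 hi),
    fun i hi u hu => ?_⟩
  have q7 := qS_tab add b hb i u hi hu _ (q6 i hi u hu)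
  simp only [qE, sub_pos, sub_neg] at q7
  exact q7

end Pool.Agent.K1H23.PC
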