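import Pool.Agent.K1H23.PC.Stm

/-!
# The piece `S_BS`: soundness of the pattern of a program
-/

namespace Pool.Agent.K1H23.PC

open Pool.Agent.NPC Pool.Agent.NPC.ER Pool.Agent.NPC.ER.Oslp

namespace BS

/-! ### Indices -/

theorem lidx_lt {p : List Ins} {g z r g' z' r' : ℕ} (h : g * 6 + z < g' * 6 + z')
    (hr : r < 12 * Ng p) : lidx p g z r < lidx p g' z' r' := by
  unfold lidx
  have h1 : (g * 6 + z + 1) * (12 * Ng p) ≤ (g' * 6 + z') * (12 * Ng p) :=
    Nat.mul_le_mul_right _ h
  have h2 : (g * 6 + z + 1) * (12 * Ng p) = (g * 6 + z) * (12 * Ng p) + 12 * Ng p := by ring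
  omega

theorem lidx_lt_bN {p : List Ins} {g z r : ℕ} (hg : g < Ng p) (hz : z < 6)
    (hr : r < 12 * Ng p) : lidx p g z r < bN p := by
  have h := lidx_lt (p := p) (g := g) (z := z) (r := r) (g' := Ng p) (z' := 0) (r' := 0)
    (by omega) hr
  have e : lidx p (Ng p) 0 0 = bN p := by unfold lidx bN; ring
  rwa [e] at h

theorem Ng_pos (p : List Ins) : 2 ≤ Ng p := by unfold Ng; omega

theorem lidx_mod {p : List Ins} {g z r : ℕ} (hr : r < 12 * Ng p) :
    lidx p g z r % (12 * Ng p) = r := by
  unfold lidx
  rw [Nat.mul_comm, Nat.mul_add_mod]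
  exact Nat.mod_eq_of_lt hr

theorem r_lt {p : List Ins} {k b u : ℕ} (hk : k < Ng p) (hb : b < 2) (hu : u < 6) :
    6 * (2 * k + b) + u < 12 * Ng p := by omega

theorem qidx_mod {p : List Ins} {c : ℕ × ℕ × ℕ × ℕ} {k b u : ℕ} (hk : k < Ng p) (hb : b < 2)
    (hu : u < 6) : qidx p c k b u % (12 * Ng p) = 6 * (2 * k + b) + u :=
  lidx_mod (r_lt hk hb hu)

theorem qidx_real {p : List Ins} {c : ℕ × ℕ × ℕ × ℕ} {k b u : ℕ} (hk : k < Ng p)
    (hb : b < 2) (hu : u < 6) (hc : Sgn.opd p k = some c) :
    isReal p (qidx p c k b u) = true := by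
  have e1 : (6 * (2 * k + b) + u) / 6 = 2 * k + b := by omega
  have e2 : (2 * k + b) / 2 = k := by omega
  have e3 : (2 * k + b) % 2 = b := by omega
  have e4 : (6 * (2 * k + b) + u) % 6 = u := by omega
  unfold isReal
  rw [qidx_mod hk hb hu, e1, e2, hc, e3, e4]
  simp

theorem bsg_q {p : List Ins} {c : ℕ × ℕ × ℕ × ℕ} {k b u r : ℕ} (hk : k < Ng p) (hb : b < 2)
    (hu : u < 6) (hr : r < 5) (hc : Sgn.opd p k = some c) :
    bsg p (5 * (2 * k + b) + r) (qidx p c k b u) = tab (decide (c.1 = 0)) b r u := by
  have e1 : (5 * (2 * k + b) + r) / 5 = 2 * k + b := by omega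
  have e2 : (2 * k + b) / 2 = k := by omega
  have e3 : (2 * k + b) % 2 = b := by omega
  have e4 : (5 * (2 * k + b) + r) % 5 = r := by omega
  have e5 : (6 * (2 * k + b) + u) / 6 = 2 * k + b := by omega
  have e6 : (6 * (2 * k + b) + u) % 6 = u := by omega
  have e7 : cen p (qidx p c k b u) = 2 * k + b + 1 := by
    unfold cen
    rw [qidx_real hk hb hu hc, qidx_mod hk hb hu, e5]
    simp
  unfold bsg
  rw [e1, e2, hc]
  simp only [e7, if_true, e3, e4, qidx_mod hk hb hu, e6]

/-! ### The sign of `Phi` -/

theorem quad_sign (s t : ℕ → ℝ) (i l o w j k : ℕ) (η : ℝ) (hli : s l < s i) (hjk : s j < s k)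
    (hkw : s k < s w) (h1 : 0 < η * EE s t o l i) (h2 : η * EE s t o j k < 0)
    (h3 : 0 < η * ((s i - s o) * EE s t l j w)) (h4 : η * ((s l - s o) * EE s t i k w) < 0)
    (h5 : EE s t j k w < 0) :
    η * ((s k - s o) * (s w - s j) * (s i - s l) - (s k - s j) * (s i - s o) * (s w - s l)) < 0 := by
  have h := quad_identity s t i l o w j k
  have p1 : 0 < (s k - s j) * (s w - s j) * (s w - s k) :=
    mul_pos (mul_pos (by linarith) (by linarith)) (by linarith)
  have p2 : 0 < (s i - s l) * (s w - s j) * (s w - s k) :=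
    mul_pos (mul_pos (by linarith) (by linarith)) (by linarith)
  have p3 : 0 < (s k - s j) * (s w - s k) := mul_pos (by linarith) (by linarith)
  have p4 : 0 < (s k - s j) * (s w - s j) := mul_pos (by linarith) (by linarith)
  have q1 := mul_pos p1 h1
  have q2 := mul_neg_of_pos_of_neg p2 h2
  have q3 := mul_pos p3 h3
  have q4 := mul_neg_of_pos_of_neg p4 h4
  set X := (s k - s o) * (s w - s j) * (s i - s l) - (s k - s j) * (s i - s o) * (s w - s l)
  have hX : 0 < η * X * EE s t j k w := by
    have e : η * X * EE s t j k w = η * (X * EE s t j k w) := by ring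
    rw [e, ← h]
    have e2 : η * ((s k - s j) * (s w - s j) * (s w - s k) * EE s t o l i -
      (s i - s l) * (s w - s j) * (s w - s k) * EE s t o j k +
      (s i - s o) * (s k - s j) * (s w - s k) * EE s t l j w -
      (s l - s o) * (s k - s j) * (s w - s j) * EE s t i k w) =
      (s k - s j) * (s w - s j) * (s w - s k) * (η * EE s t o l i) -
      (s i - s l) * (s w - s j) * (s w - s k) * (η * EE s t o j k) +
      (s k - s j) * (s w - s k) * (η * ((s i - s o) * EE s t l j w)) -
      (s k - s j) * (s w - s j) * (η * ((s l - s o) * EE s t i k w)) := by ring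
    rw [e2]
    linarith
  by_contra hc
  push Not at hc
  have := mul_nonpos_of_nonneg_of_nonpos hc h5.le
  linarith

theorem EE_cyc (s t : ℕ → ℝ) (a b c : ℕ) : EE s t a b c = EE s t b c a := by
  unfold EE
  ring

/-- The data of a weak realisation. -/
def Dat (p : List Ins) (s t : ℕ → ℝ) : Prop :=
  (∀ a b, a < b → b < bN p → s a < s b) ∧
    ∀ j < bP p, ∀ a b c, a < b → b < c → c < bN p →
      (bsg p j a = false → bsg p j b = true → bsg p j c = false → 0 < EE s t a b c) ∧
      (bsg p j a = true → bsg p j b = false → bsg p j c = true → EE s t a b c < 0)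

theorem phi_sign {p : List Ins} (hp : WF 2 p) {s t : ℕ → ℝ} (hd : Dat p s t) {k o l i j b : ℕ}
    (hc : Sgn.opd p k = some (o, l, i, j)) (hb : b < 2) :
    0 < sgn (decide (o = 0)) b * Phi (fun u => s (qidx p (o, l, i, j) k b u)) := by
  obtain ⟨hk2, hkN, hol, hli, hlj, hik, hjk⟩ := Sgn.opd_wf hp hc
  have hN : Ng p = p.length + 2 := rfl
  have hkN' : k < Ng p := by omega
  obtain ⟨hs, hE⟩ := hd
  set x : ℕ → ℕ := fun u => qidx p (o, l, i, j) k b u with hx
  change 0 < sgn (decide (o = 0)) b * Phi (fun u => s (x u))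
  have hsg : ∀ r < 5, ∀ u < 6, bsg p (5 * (2 * k + b) + r) (x u) = tab (decide (o = 0)) b r u :=
    fun r hr u hu => bsg_q hkN' hb hu hr hc
  have hrow : ∀ r < 5, 5 * (2 * k + b) + r < bP p := by
    intro r hr
    unfold bP
    omega
  have hzn : ∀ u, zn b u < 6 := by
    intro u
    unfold zn
    split_ifs <;> omega
  -- groups
  have g0 : grp p (lab (o, l, i, j) k 0) = i - 1 := by
    simp only [lab, grp, if_true]; rw [if_neg (by omega)]
  have g1 : grp p (lab (o, l, i, j) k 1) = l - 1 := by
    simp only [lab, grp]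
    norm_num
    omega
  have g2 : grp p (lab (o, l, i, j) k 2) = grp p o := rfl
  have g3 : grp p (lab (o, l, i, j) k 3) = Ng p - 1 := by
    simp [lab, grp, Ng]
  have g4 : grp p (lab (o, l, i, j) k 4) = j - 1 := by
    simp only [lab, grp]
    norm_num
    omega
  have g5 : grp p (lab (o, l, i, j) k 5) = k - 1 := by
    simp only [lab, grp]
    norm_num
    omega
  have hlt : ∀ u < 6, ∀ u' < 6, grp p (lab (o, l, i, j) k u) < grp p (lab (o, l, i, j) k u') →
      x u < x u' := by
    intro u hu u' hu' h
    have := hzn u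
    exact lidx_lt (by omega) (r_lt hkN' hb hu)
  have hbd : ∀ u < 6, grp p (lab (o, l, i, j) k u) < Ng p → x u < bN p := by
    intro u hu h
    exact lidx_lt_bN h (hzn u) (r_lt hkN' hb hu)
  clear_value x
  have b0 : x 0 < bN p := hbd 0 (by omega) (by rw [g0]; omega)
  have b3 : x 3 < bN p := hbd 3 (by omega) (by rw [g3]; omega)
  have b5 : x 5 < bN p := hbd 5 (by omega) (by rw [g5]; omega)
  have l10 : x 1 < x 0 := hlt 1 (by omega) 0 (by omega) (by rw [g1, g0]; omega)
  have l14 : x 1 < x 4 := hlt 1 (by omega) 4 (by omega) (by rw [g1, g4]; omega)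
  have l45 : x 4 < x 5 := hlt 4 (by omega) 5 (by omega) (by rw [g4, g5]; omega)
  have l05 : x 0 < x 5 := hlt 0 (by omega) 5 (by omega) (by rw [g0, g5]; omega)
  have l53 : x 5 < x 3 := hlt 5 (by omega) 3 (by omega) (by rw [g5, g3]; omega)
  have s10 := hs _ _ l10 b0
  have s45 := hs _ _ l45 b5
  have s53 := hs _ _ l53 b3
  have s05 := hs _ _ l05 b5
  -- the rows
  have row := fun r (hr : r < 5) => hE (5 * (2 * k + b) + r) (hrow r hr)
  -- main step
  have main : ∀ η : ℝ, 0 < η * EE s t (x 2) (x 1) (x 0) → η * EE s t (x 2) (x 4) (x 5) < 0 →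
      0 < η * ((s (x 0) - s (x 2)) * EE s t (x 1) (x 4) (x 3)) →
      η * ((s (x 1) - s (x 2)) * EE s t (x 0) (x 5) (x 3)) < 0 →
      EE s t (x 4) (x 5) (x 3) < 0 → η * Phi (fun u => s (x u)) < 0 := by
    intro η h1 h2 h3 h4 h5
    exact quad_sign s t (x 0) (x 1) (x 2) (x 3) (x 4) (x 5) η s10 s45 s53 h1 h2 h3 h4 h5
  have r4 : EE s t (x 4) (x 5) (x 3) < 0 := by
    refine (row 4 (by omega) _ _ _ l45 l53 b3).2 ?_ ?_ ?_ <;> rw [hsg 4 (by omega) _ (by omega)] <;>
      interval_cases b <;> by_cases ho : o = 0 <;> simp [ho] <;> decide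
  rcases Nat.eq_zero_or_pos o with ho | ho
  · -- addition
    have g2' : grp p (lab (o, l, i, j) k 2) = Ng p - 1 := by
      rw [g2, ho]; simp [grp, Ng]
    have b2 : x 2 < bN p := hbd 2 (by omega) (by rw [g2']; omega)
    have l02 : x 0 < x 2 := hlt 0 (by omega) 2 (by omega) (by rw [g0, g2']; omega)
    have l52 : x 5 < x 2 := hlt 5 (by omega) 2 (by omega) (by rw [g5, g2']; omega)
    have s02 := hs _ _ l02 b2
    have hdec : decide (o = 0) = true := by simp [ho]
    rw [hdec] at hsg ⊢
    have R0 := row 0 (by omega) _ _ _ l05 l53 b3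
    have R1 := row 1 (by omega) _ _ _ l10 l02 b2
    have R2 := row 2 (by omega) _ _ _ l45 l52 b2
    have R3 := row 3 (by omega) _ _ _ l14 (l45.trans l53) b3
    rw [hsg 0 (by omega) _ (by omega), hsg 0 (by omega) _ (by omega),
      hsg 0 (by omega) _ (by omega)] at R0
    rw [hsg 1 (by omega) _ (by omega), hsg 1 (by omega) _ (by omega),
      hsg 1 (by omega) _ (by omega)] at R1
    rw [hsg 2 (by omega) _ (by omega), hsg 2 (by omega) _ (by omega),
      hsg 2 (by omega) _ (by omega)] at R2
    rw [hsg 3 (by omega) _ (by omega), hsg 3 (by omega) _ (by omega),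
      hsg 3 (by omega) _ (by omega)] at R3
    interval_cases b
    · have e0 := R0.1 (by decide) (by decide) (by decide)
      have e1 := R1.1 (by decide) (by decide) (by decide)
      have e2 := R2.2 (by decide) (by decide) (by decide)
      have e3 := R3.2 (by decide) (by decide) (by decide)
      have := main 1 (by rw [EE_cyc]; linarith) (by rw [EE_cyc]; linarith)
        (by rw [one_mul]; exact mul_pos_of_neg_of_neg (by linarith) e3)
        (by rw [one_mul]; exact mul_neg_of_neg_of_pos (by linarith) e0) r4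
      have hv : sgn true 0 = -1 := by norm_num [sgn]
      rw [hv]
      linarith
    · have e0 := R0.2 (by decide) (by decide) (by decide)
      have e1 := R1.2 (by decide) (by decide) (by decide)
      have e2 := R2.1 (by decide) (by decide) (by decide)
      have e3 := R3.1 (by decide) (by decide) (by decide)
      have t3 : (s (x 0) - s (x 2)) * EE s t (x 1) (x 4) (x 3) < 0 :=
        mul_neg_of_neg_of_pos (by linarith) e3
      have t4 : 0 < (s (x 1) - s (x 2)) * EE s t (x 0) (x 5) (x 3) :=
        mul_pos_of_neg_of_neg (by linarith) e0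
      have := main (-1) (by rw [EE_cyc]; linarith) (by rw [EE_cyc]; linarith)
        (by linarith) (by linarith) r4
      have hv : sgn true 1 = 1 := by norm_num [sgn]
      rw [hv]
      linarith
  · -- multiplication
    have g2' : grp p (lab (o, l, i, j) k 2) = o - 1 := by
      rw [g2]; unfold grp; rw [if_neg (by omega)]
    have l21 : x 2 < x 1 := hlt 2 (by omega) 1 (by omega) (by rw [g1, g2']; omega)
    have l24 : x 2 < x 4 := hlt 2 (by omega) 4 (by omega) (by rw [g4, g2']; omega)
    have b1 : x 1 < bN p := l10.trans b0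
    have s21 := hs _ _ l21 b1
    have hdec : decide (o = 0) = false := by simp; omega
    rw [hdec] at hsg ⊢
    have R0 := row 0 (by omega) _ _ _ l05 l53 b3
    have R1 := row 1 (by omega) _ _ _ l21 l10 b0
    have R2 := row 2 (by omega) _ _ _ l24 l45 b5
    have R3 := row 3 (by omega) _ _ _ l14 (l45.trans l53) b3
    rw [hsg 0 (by omega) _ (by omega), hsg 0 (by omega) _ (by omega),
      hsg 0 (by omega) _ (by omega)] at R0
    rw [hsg 1 (by omega) _ (by omega), hsg 1 (by omega) _ (by omega),
      hsg 1 (by omega) _ (by omega)] at R1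
    rw [hsg 2 (by omega) _ (by omega), hsg 2 (by omega) _ (by omega),
      hsg 2 (by omega) _ (by omega)] at R2
    rw [hsg 3 (by omega) _ (by omega), hsg 3 (by omega) _ (by omega),
      hsg 3 (by omega) _ (by omega)] at R3
    interval_cases b
    · have e0 := R0.1 (by decide) (by decide) (by decide)
      have e1 := R1.2 (by decide) (by decide) (by decide)
      have e2 := R2.1 (by decide) (by decide) (by decide)
      have e3 := R3.2 (by decide) (by decide) (by decide)
      have t3 : (s (x 0) - s (x 2)) * EE s t (x 1) (x 4) (x 3) < 0 :=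
        mul_neg_of_pos_of_neg (by linarith) e3
      have t4 : 0 < (s (x 1) - s (x 2)) * EE s t (x 0) (x 5) (x 3) :=
        mul_pos (by linarith) e0
      have := main (-1) (by linarith) (by linarith) (by linarith) (by linarith) r4
      have hv : sgn false 0 = 1 := by norm_num [sgn]
      rw [hv]
      linarith
    · have e0 := R0.2 (by decide) (by decide) (by decide)
      have e1 := R1.1 (by decide) (by decide) (by decide)
      have e2 := R2.2 (by decide) (by decide) (by decide)
      have e3 := R3.1 (by decide) (by decide) (by decide)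
      have t3 : 0 < (s (x 0) - s (x 2)) * EE s t (x 1) (x 4) (x 3) :=
        mul_pos (by linarith) e3
      have t4 : (s (x 1) - s (x 2)) * EE s t (x 0) (x 5) (x 3) < 0 :=
        mul_neg_of_pos_of_neg (by linarith) e0
      have := main 1 (by linarith) (by linarith) (by linarith) (by linarith) r4
      have hv : sgn false 1 = -1 := by norm_num [sgn]
      rw [hv]
      linarith

/-! ### Monotonicity -/

/-- The form `Phi` as a function of the six slopes. -/
def PH (k o l i j w : ℝ) : ℝ := (k - o) * (w - j) * (i - l) - (k - j) * (i - o) * (w - l)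

/-- `a` is at most a positive multiple of `b`. -/
def Le (a b : ℝ) : Prop := ∃ c : ℝ, 0 < c ∧ a ≤ c * b

theorem Le.trans {a b c : ℝ} (h1 : Le a b) (h2 : Le b c) : Le a c := by
  obtain ⟨x, hx, h1⟩ := h1
  obtain ⟨y, hy, h2⟩ := h2
  refine ⟨x * y, mul_pos hx hy, h1.trans ?_⟩
  have := mul_le_mul_of_nonneg_left h2 hx.le
  calc x * b ≤ x * (y * c) := this
    _ = x * y * c := by ring

theorem Le.neg {a b : ℝ} (h : Le a b) (hb : b < 0) : a < 0 := by
  obtain ⟨x, hx, h⟩ := h
  have := mul_neg_of_pos_of_neg hx hb
  linarith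

theorem Le.pos {a b : ℝ} (h : Le a b) (ha : 0 < a) : 0 < b := by
  obtain ⟨x, hx, h⟩ := h
  by_contra hb
  push Not at hb
  have := mul_nonpos_of_nonneg_of_nonpos hx.le hb
  linarith

theorem step {a b α β x y x' y' : ℝ} (ha : a = α * y' - β * x') (hb : b = α * y - β * x)
    (hβ : 0 < β) (hy : 0 < y) (hy' : 0 < y') (h : x * y' ≤ x' * y) : Le a b := by
  refine ⟨y' / y, div_pos hy' hy, ?_⟩
  rw [ha, hb]
  have e : y' / y * (α * y - β * x) = α * y' - β * (x * y' / y) := by
    field_simp
  rw [e]
  have h2 : x * y' / y ≤ x' := by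
    rw [div_le_iff₀ hy]
    exact h
  have := mul_le_mul_of_nonneg_left h2 hβ.le
  linarith

theorem mono1 {k o l i j w o' l' i' j' w' : ℝ} (h1 : o' ≤ o) (h2 : o < l) (h3 : l ≤ l')
    (h4 : l' < i') (h5 : i' ≤ i) (h6 : i < k) (h7 : l' < j') (h8 : j' ≤ j) (h9 : j < k)
    (h10 : k < w') (h11 : w' ≤ w) : Le (PH k o' l' i' j' w') (PH k o l i j w) := by
  have A : Le (PH k o' l' i' j' w') (PH k o' l' i' j' w) := by
    refine step (α := (k - o') * (i' - l')) (β := (k - j') * (i' - o')) (x := w - l')
      (y := w - j') (x' := w' - l') (y' := w' - j') (by unfold PH; ring) (by unfold PH; ring)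
      (mul_pos (by linarith) (by linarith)) (by linarith) (by linarith) ?_
    nlinarith [mul_nonneg (sub_nonneg.mpr h11) (sub_nonneg.mpr h7.le)]
  have B : Le (PH k o' l' i' j' w) (PH k o l' i' j' w) := by
    refine step (α := (w - j') * (i' - l')) (β := (k - j') * (w - l')) (x := i' - o)
      (y := k - o) (x' := i' - o') (y' := k - o') (by unfold PH; ring) (by unfold PH; ring)
      (mul_pos (by linarith) (by linarith)) (by linarith) (by linarith) ?_
    nlinarith [mul_nonneg (sub_nonneg.mpr h1) (sub_nonneg.mpr (h5.trans h6.le))]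
  have C : Le (PH k o l' i' j' w) (PH k o l' i j' w) := by
    refine step (α := (k - o) * (w - j')) (β := (k - j') * (w - l')) (x := i - o)
      (y := i - l') (x' := i' - o) (y' := i' - l') (by unfold PH; ring) (by unfold PH; ring)
      (mul_pos (by linarith) (by linarith)) (by linarith) (by linarith) ?_
    nlinarith [mul_nonneg (sub_nonneg.mpr h5) (sub_nonneg.mpr (h2.le.trans h3))]
  have D : Le (PH k o l' i j' w) (PH k o l' i j w) := by
    refine step (α := (k - o) * (i - l')) (β := (i - o) * (w - l')) (x := k - j)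
      (y := w - j) (x' := k - j') (y' := w - j') (by unfold PH; ring) (by unfold PH; ring)
      (mul_pos (by linarith) (by linarith)) (by linarith) (by linarith) ?_
    nlinarith [mul_nonneg (sub_nonneg.mpr h8) (sub_nonneg.mpr (h10.le.trans h11))]
  have E : Le (PH k o l' i j w) (PH k o l i j w) := by
    refine step (α := (k - o) * (w - j)) (β := (k - j) * (i - o)) (x := w - l)
      (y := i - l) (x' := w - l') (y' := i - l') (by unfold PH; ring) (by unfold PH; ring)
      (mul_pos (by linarith) (by linarith)) (by linarith) (by linarith) ?_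
    nlinarith [mul_nonneg (sub_nonneg.mpr h3)
      (sub_nonneg.mpr (h6.le.trans (h10.le.trans h11)))]
  exact A.trans (B.trans (C.trans (D.trans E)))

theorem mono2 {k o l i j w o' l' i' j' w' : ℝ} (h1 : o' ≤ o) (h2 : k < o') (h3 : l ≤ l')
    (h4 : l' < i') (h5 : i' ≤ i) (h6 : i < k) (h7 : l' < j') (h8 : j' ≤ j) (h9 : j < k)
    (h10 : k < w') (h11 : w' ≤ w) : Le (-PH k o' l' i' j' w') (-PH k o l i j w) := by
  have A : Le (-PH k o' l' i' j' w') (-PH k o' l' i' j' w) := by
    refine step (α := (o' - k) * (i' - l')) (β := (k - j') * (o' - i')) (x := w - l')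
      (y := w - j') (x' := w' - l') (y' := w' - j') (by unfold PH; ring) (by unfold PH; ring)
      (mul_pos (by linarith) (by linarith)) (by linarith) (by linarith) ?_
    nlinarith [mul_nonneg (sub_nonneg.mpr h11) (sub_nonneg.mpr h7.le)]
  have B : Le (-PH k o' l' i' j' w) (-PH k o l' i' j' w) := by
    refine step (α := (w - j') * (i' - l')) (β := (k - j') * (w - l')) (x := o - i')
      (y := o - k) (x' := o' - i') (y' := o' - k) (by unfold PH; ring) (by unfold PH; ring)
      (mul_pos (by linarith) (by linarith)) (by linarith) (by linarith) ?_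
    nlinarith [mul_nonneg (sub_nonneg.mpr h1) (sub_nonneg.mpr (h5.trans h6.le))]
  have C : Le (-PH k o l' i' j' w) (-PH k o l' i j' w) := by
    refine step (α := (o - k) * (w - j')) (β := (k - j') * (w - l')) (x := o - i)
      (y := i - l') (x' := o - i') (y' := i' - l') (by unfold PH; ring) (by unfold PH; ring)
      (mul_pos (by linarith) (by linarith)) (by linarith) (by linarith) ?_
    have : l' ≤ o := by linarith
    nlinarith [mul_nonneg (sub_nonneg.mpr h5) (sub_nonneg.mpr this)]
  have D : Le (-PH k o l' i j' w) (-PH k o l' i j w) := by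
    refine step (α := (o - k) * (i - l')) (β := (o - i) * (w - l')) (x := k - j)
      (y := w - j) (x' := k - j') (y' := w - j') (by unfold PH; ring) (by unfold PH; ring)
      (mul_pos (by linarith) (by linarith)) (by linarith) (by linarith) ?_
    nlinarith [mul_nonneg (sub_nonneg.mpr h8) (sub_nonneg.mpr (h10.le.trans h11))]
  have E : Le (-PH k o l' i j w) (-PH k o l i j w) := by
    refine step (α := (o - k) * (w - j)) (β := (k - j) * (o - i)) (x := w - l)
      (y := i - l) (x' := w - l') (y' := i - l') (by unfold PH; ring) (by unfold PH; ring)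
      (mul_pos (by linarith) (by linarith)) (by linarith) (by linarith) ?_
    nlinarith [mul_nonneg (sub_nonneg.mpr h3)
      (sub_nonneg.mpr (h6.le.trans (h10.le.trans h11)))]
  exact A.trans (B.trans (C.trans (D.trans E)))

/-- The coefficient of `k` in `PH`. -/
def kap (o l i j w : ℝ) : ℝ := (w - j) * (i - l) - (i - o) * (w - l)

theorem PH_sub (k x o l i j w : ℝ) : PH k o l i j w - PH x o l i j w = (k - x) * kap o l i j w := by
  unfold PH kap
  ring

theorem root {o l i j w : ℝ} (h : kap o l i j w ≠ 0) : ∃ x : ℝ, PH x o l i j w = 0 := by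
  refine ⟨(o * (w - j) * (i - l) - j * (i - o) * (w - l)) / kap o l i j w, ?_⟩
  have e : ∀ x, PH x o l i j w =
      x * kap o l i j w - (o * (w - j) * (i - l) - j * (i - o) * (w - l)) := by
    intro x
    unfold PH kap
    ring
  rw [e, div_mul_cancel₀ _ h, sub_self]

theorem kap_neg {o l i j w : ℝ} (h1 : o < l) (h2 : l < i) (h3 : l < j) (h4 : j < w) :
    kap o l i j w < 0 := by
  unfold kap
  nlinarith [mul_pos (sub_pos.mpr h1) (sub_pos.mpr (h3.trans h4)),
    mul_pos (sub_pos.mpr h3) (sub_pos.mpr h2)]

theorem kap_pos {l i j w : ℝ} (h1 : l < i) (h2 : l < w) (h3 : i < w) (h4 : j < w) :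
    0 < kap w l i j w := by
  unfold kap
  nlinarith [mul_pos (sub_pos.mpr h4) (sub_pos.mpr h1), mul_pos (sub_pos.mpr h3) (sub_pos.mpr h2)]

/-! ### The exact values -/

theorem grp_zero (p : List Ins) : grp p 0 = Ng p - 1 := by simp [grp, Ng]

theorem grp_pos (p : List Ins) {a : ℕ} (h : 0 < a) : grp p a = a - 1 := by
  unfold grp
  rw [if_neg (by omega)]

/-- The exact value of index `a` is in the bounds given by its group. -/
def BdX (p : List Ins) (s : ℕ → ℝ) (a : ℕ) (x : ℝ) : Prop :=
  s (lidx p (grp p a) 1 0) < x ∧ x < s (lidx p (grp p a) 4 0)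

theorem lab0 (c : ℕ × ℕ × ℕ × ℕ) (k : ℕ) : lab c k 0 = c.2.2.1 := by simp [lab]
theorem lab1 (c : ℕ × ℕ × ℕ × ℕ) (k : ℕ) : lab c k 1 = c.2.1 := by simp [lab]
theorem lab2 (c : ℕ × ℕ × ℕ × ℕ) (k : ℕ) : lab c k 2 = c.1 := by simp [lab]
theorem lab3 (c : ℕ × ℕ × ℕ × ℕ) (k : ℕ) : lab c k 3 = 0 := by simp [lab]
theorem lab4 (c : ℕ × ℕ × ℕ × ℕ) (k : ℕ) : lab c k 4 = c.2.2.2 := by simp [lab]
theorem lab5 (c : ℕ × ℕ × ℕ × ℕ) (k : ℕ) : lab c k 5 = k := by simp [lab]

theorem exact {p : List Ins} (hp : WF 2 p) {s t : ℕ → ℝ} (hd : Dat p s t) :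
    ∀ M ≤ Ng p, ∃ E : ℕ → ℝ, (∀ a < M, BdX p s a (E a)) ∧
      ∀ k < M, ∀ o l i j, Sgn.opd p k = some (o, l, i, j) →
        PH (E k) (E o) (E l) (E i) (E j) (E 0) = 0
  | 0, _ => ⟨fun _ => 0, fun a ha => absurd ha (Nat.not_lt_zero a),
      fun a ha => absurd ha (Nat.not_lt_zero a)⟩
  | M + 1, hM => by
    obtain ⟨E, h1, h2⟩ := exact hp hd M (by omega)
    have hN : Ng p = p.length + 2 := rfl
    have hs := hd.1
    -- slopes of indices
    have hS : ∀ g z r g' z' r', g * 6 + z < g' * 6 + z' → g' < Ng p → z' < 6 →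
        r < 12 * Ng p → r' < 12 * Ng p → s (lidx p g z r) < s (lidx p g' z' r') :=
      fun g z r g' z' r' h hg' hz' hr hr' => hs _ _ (lidx_lt h hr) (lidx_lt_bN hg' hz' hr')
    have hgM : grp p M < Ng p := by
      unfold grp
      split_ifs <;> omega
    -- extension by a value
    have ext : ∀ x : ℝ, BdX p s M x →
        (∀ o l i j, Sgn.opd p M = some (o, l, i, j) → PH x (E o) (E l) (E i) (E j) (E 0) = 0) →
        ∃ E : ℕ → ℝ, (∀ a < M + 1, BdX p s a (E a)) ∧
      ∀ k < M + 1, ∀ o l i j, Sgn.opd p k = some (o, l, i, j) →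
        PH (E k) (E o) (E l) (E i) (E j) (E 0) = 0 := by
      intro x hx hroot
      refine ⟨Function.update E M x, ?_, ?_⟩
      · intro a ha
        by_cases haM : a = M
        · subst haM
          rw [Function.update_self]
          exact hx
        · rw [Function.update_of_ne haM]
          exact h1 a (by omega)
      · intro k hk o l i j hc
        obtain ⟨w1, w2, w3, w4, w5, w6, w7⟩ := Sgn.opd_wf hp hc
        rw [Function.update_of_ne (by omega : o ≠ M), Function.update_of_ne (by omega : l ≠ M),
          Function.update_of_ne (by omega : i ≠ M), Function.update_of_ne (by omega : j ≠ M),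
          Function.update_of_ne (by omega : 0 ≠ M)]
        by_cases hkM : k = M
        · subst hkM
          rw [Function.update_self]
          exact hroot o l i j hc
        · rw [Function.update_of_ne hkM]
          exact h2 k (by omega) o l i j hc
    rcases hop : Sgn.opd p M with _ | ⟨o, l, i, j⟩
    · refine ext (s (lidx p (grp p M) 2 0)) ⟨?_, ?_⟩ ?_
      · exact hS _ _ _ _ _ _ (by omega) hgM (by omega) (by omega) (by omega)
      · exact hS _ _ _ _ _ _ (by omega) hgM (by omega) (by omega) (by omega)
      · intro o l i j hc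
        rw [hop] at hc
        simp at hc
    · obtain ⟨w1, w2, w3, w4, w5, w6, w7⟩ := Sgn.opd_wf hp hop
      have hMN : M < Ng p := by omega
      -- the values
      have B0 := h1 0 (by omega)
      have Bo := h1 o (by omega)
      have Bl := h1 l (by omega)
      have Bi := h1 i (by omega)
      have Bj := h1 j (by omega)
      unfold BdX at B0 Bo Bl Bi Bj
      rw [grp_zero] at B0
      rw [grp_pos p (by omega : 0 < l)] at Bl
      rw [grp_pos p (by omega : 0 < i)] at Bi
      rw [grp_pos p (by omega : 0 < j)] at Bj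
      have gM : grp p M = M - 1 := grp_pos p (by omega)
      have El : E l < E i := (Bl.2.trans (hS _ _ _ _ _ _ (by omega) (by omega) (by omega)
        (by omega) (by omega))).trans Bi.1
      have El' : E l < E j := (Bl.2.trans (hS _ _ _ _ _ _ (by omega) (by omega) (by omega)
        (by omega) (by omega))).trans Bj.1
      have Ei : E i < E 0 := (Bi.2.trans (hS _ _ _ _ _ _ (by omega) (by omega) (by omega)
        (by omega) (by omega))).trans B0.1
      have Ej : E j < E 0 := (Bj.2.trans (hS _ _ _ _ _ _ (by omega) (by omega) (by omega)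
        (by omega) (by omega))).trans B0.1
      -- the lines of the two quadrilaterals
      have hr : ∀ b < 2, ∀ u < 6, 6 * (2 * M + b) + u < 12 * Ng p :=
        fun b hb u hu => r_lt hMN hb hu
      have P0 := phi_sign hp hd hop (b := 0) (by omega)
      have P1 := phi_sign hp hd hop (b := 1) (by omega)
      have z00 : zn 0 0 = 0 := rfl
      have z01 : zn 0 1 = 5 := rfl
      have z02 : zn 0 2 = 0 := rfl
      have z03 : zn 0 3 = 0 := rfl
      have z04 : zn 0 4 = 0 := rfl
      have z05 : zn 0 5 = 2 := rfl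
      have z10 : zn 1 0 = 5 := rfl
      have z11 : zn 1 1 = 0 := rfl
      have z12 : zn 1 2 = 5 := rfl
      have z13 : zn 1 3 = 5 := rfl
      have z14 : zn 1 4 = 5 := rfl
      have z15 : zn 1 5 = 3 := rfl
      unfold qidx at P0 P1
      simp only [Phi, lab0, lab1, lab2, lab3, lab4, lab5, z00, z01, z02, z03, z04, z05,
        z10, z11, z12, z13, z14, z15, grp_zero, grp_pos p (by omega : 0 < l),
        grp_pos p (by omega : 0 < i), grp_pos p (by omega : 0 < j), gM] at P0 P1
      set a0 := s (lidx p (i - 1) 0 (6 * (2 * M + 0) + 0)) with ha0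
      set a1 := s (lidx p (l - 1) 5 (6 * (2 * M + 0) + 1)) with ha1
      set a2 := s (lidx p (grp p o) 0 (6 * (2 * M + 0) + 2)) with ha2
      set a3 := s (lidx p (Ng p - 1) 0 (6 * (2 * M + 0) + 3)) with ha3
      set a4 := s (lidx p (j - 1) 0 (6 * (2 * M + 0) + 4)) with ha4
      set a5 := s (lidx p (M - 1) 2 (6 * (2 * M + 0) + 5)) with ha5
      set b0 := s (lidx p (i - 1) 5 (6 * (2 * M + 1) + 0)) with hb0
      set b1 := s (lidx p (l - 1) 0 (6 * (2 * M + 1) + 1)) with hb1
      set b2 := s (lidx p (grp p o) 5 (6 * (2 * M + 1) + 2)) with hb2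
      set b3 := s (lidx p (Ng p - 1) 5 (6 * (2 * M + 1) + 3)) with hb3
      set b4 := s (lidx p (j - 1) 5 (6 * (2 * M + 1) + 4)) with hb4
      set b5 := s (lidx p (M - 1) 3 (6 * (2 * M + 1) + 5)) with hb5
      have R0 := hr 0 (by omega)
      have R1 := hr 1 (by omega)
      have hgo : grp p o < Ng p := by
        unfold grp
        split_ifs <;> omega
      -- comparisons with the exact values
      have c0 : a0 < E i := (hS _ _ _ _ _ _ (by omega) (by omega) (by omega)
        (R0 0 (by omega)) (by omega)).trans Bi.1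
      have c1 : E l < a1 := Bl.2.trans (hS _ _ _ _ _ _ (by omega) (by omega) (by omega)
        (by omega) (R0 1 (by omega)))
      have c2 : a2 < E o := (hS _ _ _ _ _ _ (by omega) hgo (by omega)
        (R0 2 (by omega)) (by omega)).trans Bo.1
      have c3 : a3 < E 0 := (hS _ _ _ _ _ _ (by omega) (by omega) (by omega)
        (R0 3 (by omega)) (by omega)).trans B0.1
      have c4 : a4 < E j := (hS _ _ _ _ _ _ (by omega) (by omega) (by omega)
        (R0 4 (by omega)) (by omega)).trans Bj.1
      have c5 : s (lidx p (M - 1) 1 0) < a5 := hS _ _ _ _ _ _ (by omega) (by omega) (by omega)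
        (by omega) (R0 5 (by omega))
      have d0 : E i < b0 := Bi.2.trans (hS _ _ _ _ _ _ (by omega) (by omega) (by omega)
        (by omega) (R1 0 (by omega)))
      have d1 : b1 < E l := (hS _ _ _ _ _ _ (by omega) (by omega) (by omega)
        (R1 1 (by omega)) (by omega)).trans Bl.1
      have d2 : E o < b2 := Bo.2.trans (hS _ _ _ _ _ _ (by omega) hgo (by omega)
        (by omega) (R1 2 (by omega)))
      have d3 : E 0 < b3 := B0.2.trans (hS _ _ _ _ _ _ (by omega) (by omega) (by omega)
        (by omega) (R1 3 (by omega)))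
      have d4 : E j < b4 := Bj.2.trans (hS _ _ _ _ _ _ (by omega) (by omega) (by omega)
        (by omega) (R1 4 (by omega)))
      have d5 : b5 < s (lidx p (M - 1) 4 0) := hS _ _ _ _ _ _ (by omega) (by omega) (by omega)
        (R1 5 (by omega)) (by omega)
      -- comparisons between the groups
      have f1 : a1 < a0 := hS _ _ _ _ _ _ (by omega) (by omega) (by omega)
        (R0 1 (by omega)) (R0 0 (by omega))
      have f2 : a1 < a4 := hS _ _ _ _ _ _ (by omega) (by omega) (by omega)
        (R0 1 (by omega)) (R0 4 (by omega))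
      have f3 : E i < a5 := Bi.2.trans (hS _ _ _ _ _ _ (by omega) (by omega) (by omega)
        (by omega) (R0 5 (by omega)))
      have f4 : E j < a5 := Bj.2.trans (hS _ _ _ _ _ _ (by omega) (by omega) (by omega)
        (by omega) (R0 5 (by omega)))
      have f5 : a5 < a3 := hS _ _ _ _ _ _ (by omega) (by omega) (by omega)
        (R0 5 (by omega)) (R0 3 (by omega))
      have e1 : b0 < b5 := hS _ _ _ _ _ _ (by omega) (by omega) (by omega)
        (R1 0 (by omega)) (R1 5 (by omega))
      have e2 : b4 < b5 := hS _ _ _ _ _ _ (by omega) (by omega) (by omega)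
        (R1 4 (by omega)) (R1 5 (by omega))
      have e3 : b5 < E 0 := (hS _ _ _ _ _ _ (by omega) (by omega) (by omega)
        (R1 5 (by omega)) (by omega)).trans B0.1
      clear_value a0 a1 a2 a3 a4 a5 b0 b1 b2 b3 b4 b5
      rcases Nat.eq_zero_or_pos o with ho | ho
      · -- addition
        subst ho
        have hk : 0 < kap (E 0) (E l) (E i) (E j) (E 0) :=
          kap_pos El (El.trans Ei) Ei Ej
        obtain ⟨x, hx⟩ := root hk.ne'
        have Q0 : 0 < -PH a5 a2 a1 a0 a4 a3 := by
          have hv : sgn (decide ((0 : ℕ) = 0)) 0 = -1 := by norm_num [sgn]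
          rw [hv] at P0
          unfold PH
          linarith
        have Q1 : -PH b5 b2 b1 b0 b4 b3 < 0 := by
          have hv : sgn (decide ((0 : ℕ) = 0)) 1 = 1 := by norm_num [sgn]
          rw [hv] at P1
          unfold PH
          linarith
        have f6 : a5 < a2 := by
          rw [ha2]
          rw [ha5]
          exact hS _ _ _ _ _ _ (by rw [grp_zero]; omega) (by rw [grp_zero]; omega) (by omega)
            (R0 5 (by omega)) (R0 2 (by omega))
        have M0 := (mono2 c2.le f6 c1.le f1 c0.le f3 f2 c4.le f4 f5 c3.le).pos Q0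
        have M1 := (mono2 d2.le e3 d1.le El d0.le e1 El' d4.le e2 e3 d3.le).neg Q1
        have S0 := PH_sub a5 x (E 0) (E l) (E i) (E j) (E 0)
        have S1 := PH_sub b5 x (E 0) (E l) (E i) (E j) (E 0)
        have T0 : a5 < x := by
          by_contra hcon
          push Not at hcon
          have := mul_nonneg (sub_nonneg.mpr hcon) hk.le
          linarith
        have T1 : x < b5 := by
          by_contra hcon
          push Not at hcon
          have := mul_nonpos_of_nonpos_of_nonneg (sub_nonpos.mpr hcon) hk.le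
          linarith
        refine ext x ⟨?_, ?_⟩ ?_
        · rw [gM]; exact c5.trans T0
        · rw [gM]; exact T1.trans d5
        · intro o' l' i' j' hc
          rw [hop] at hc
          simp only [Option.some.injEq, Prod.mk.injEq] at hc
          obtain ⟨rfl, rfl, rfl, rfl⟩ := hc
          exact hx
      · -- multiplication
        have go : grp p o = o - 1 := grp_pos p ho
        rw [go] at Bo ha2 hb2
        have Eo : E o < E l := (Bo.2.trans (hS _ _ _ _ _ _ (by omega) (by omega) (by omega)
          (by omega) (by omega))).trans Bl.1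
        have hk : kap (E o) (E l) (E i) (E j) (E 0) < 0 := kap_neg Eo El El' Ej
        obtain ⟨x, hx⟩ := root hk.ne
        have hdo : decide (o = 0) = false := by simp; omega
        rw [hdo] at P0 P1
        have Q0 : 0 < PH a5 a2 a1 a0 a4 a3 := by
          have hv : sgn false 0 = 1 := by norm_num [sgn]
          rw [hv] at P0
          unfold PH
          linarith
        have Q1 : PH b5 b2 b1 b0 b4 b3 < 0 := by
          have hv : sgn false 1 = -1 := by norm_num [sgn]
          rw [hv] at P1
          unfold PH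
          linarith
        have e4 : b2 < b1 := by
          rw [hb2, hb1]
          exact hS _ _ _ _ _ _ (by omega) (by omega) (by omega)
            (R1 2 (by omega)) (R1 1 (by omega))
        have M0 := (mono1 c2.le Eo c1.le f1 c0.le f3 f2 c4.le f4 f5 c3.le).pos Q0
        have M1 := (mono1 d2.le e4 d1.le El d0.le e1 El' d4.le e2 e3 d3.le).neg Q1
        have S0 := PH_sub a5 x (E o) (E l) (E i) (E j) (E 0)
        have S1 := PH_sub b5 x (E o) (E l) (E i) (E j) (E 0)
        have T0 : a5 < x := by
          by_contra hcon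
          push Not at hcon
          have := mul_nonpos_of_nonneg_of_nonpos (sub_nonneg.mpr hcon) hk.le
          linarith
        have T1 : x < b5 := by
          by_contra hcon
          push Not at hcon
          have := mul_nonneg_of_nonpos_of_nonpos (sub_nonpos.mpr hcon) hk.le
          linarith
        refine ext x ⟨?_, ?_⟩ ?_
        · rw [gM]; exact c5.trans T0
        · rw [gM]; exact T1.trans d5
        · intro o' l' i' j' hc
          rw [hop] at hc
          simp only [Option.some.injEq, Prod.mk.injEq] at hc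
          obtain ⟨rfl, rfl, rfl, rfl⟩ := hc
          exact hx

end BS

open BS in
theorem t_BS : S_BS := by
  intro p hp ⟨s, t, hs, hE⟩
  have hd : Dat p s t := ⟨hs, hE⟩
  obtain ⟨E, h1, h2⟩ := exact hp hd (Ng p) le_rfl
  have hN : Ng p = p.length + 2 := rfl
  have hS : ∀ g z r g' z' r', g * 6 + z < g' * 6 + z' → g' < Ng p → z' < 6 →
      r < 12 * Ng p → r' < 12 * Ng p → s (lidx p g z r) < s (lidx p g' z' r') :=
    fun g z r g' z' r' h hg' hz' hr hr' => hs _ _ (lidx_lt h hr) (lidx_lt_bN hg' hz' hr')
  have B0 := h1 0 (by omega)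
  unfold BdX at B0
  rw [grp_zero] at B0
  have hE0 : ∀ a, 0 < a → a < Ng p → 0 < E 0 - E a := by
    intro a ha haN
    have Ba := h1 a haN
    unfold BdX at Ba
    rw [grp_pos p ha] at Ba
    have := (Ba.2.trans (hS _ _ _ _ _ _ (by omega) (by omega) (by omega)
        (by omega) (by omega))).trans B0.1
    linarith
  have hEE : ∀ a b, 0 < a → a < b → b < Ng p → E a < E b := by
    intro a b ha hab hb
    have Ba := h1 a (by omega)
    have Bb := h1 b hb
    unfold BdX at Ba Bb
    rw [grp_pos p ha] at Ba
    rw [grp_pos p (ha.trans hab)] at Bb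
    exact (Ba.2.trans (hS _ _ _ _ _ _ (by omega) (by omega) (by omega)
        (by omega) (by omega))).trans Bb.1
  refine ⟨fun a => 1 / (E 0 - E a), Sgn.run_iff.mpr fun k hk2 hkN => ⟨?_, ?_⟩⟩
  · have e1 := hE0 k (by omega) (by omega)
    have e2 := hEE (k - 1) k (by omega) (by omega) (by omega)
    exact one_div_lt_one_div_of_lt e1 (by linarith)
  · rcases hop : Sgn.opd p k with _ | ⟨o, l, i, j⟩
    · trivial
    · obtain ⟨w1, w2, w3, w4, w5, w6, w7⟩ := Sgn.opd_wf hp hop
      have hPH := h2 k (by omega) o l i j hop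
      have pk := hE0 k (by omega) (by omega)
      have pl' := hE0 l (by omega) (by omega)
      have pi' := hE0 i (by omega) (by omega)
      have pj := hE0 j (by omega) (by omega)
      refine ⟨fun ho => ?_, fun ho => ?_⟩
      · subst ho
        unfold PH at hPH
        have n1 := pk.ne'
        have n2 := pl'.ne'
        have n3 := pi'.ne'
        have n4 := pj.ne'
        rw [div_add_div _ _ n1 n2, div_add_div _ _ n3 n4, div_eq_div_iff
          (mul_ne_zero n1 n2) (mul_ne_zero n3 n4)]
        linear_combination hPH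
      · have po := hE0 o ho (by omega)
        unfold PH at hPH
        have n1 := pk.ne'
        have n2 := pl'.ne'
        have n3 := pi'.ne'
        have n4 := pj.ne'
        have n5 := po.ne'
        rw [div_sub_div _ _ n1 n5, div_sub_div _ _ n2 n5, div_sub_div _ _ n3 n5,
          div_sub_div _ _ n4 n5, div_mul_div_comm, div_mul_div_comm, div_eq_div_iff
          (mul_ne_zero (mul_ne_zero n1 n5) (mul_ne_zero n2 n5))
          (mul_ne_zero (mul_ne_zero n3 n5) (mul_ne_zero n4 n5))]
        linear_combination -(E 0 - E o) ^ 3 * hPH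

end Pool.Agent.K1H23.PC
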