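import Pool.Agent.K1H23.PC.Stm

/-!
# The count of the crossings
-/

namespace Pool.Agent.K1H23.PC

namespace Cnt

/-- Sets with different labels inside a finite set. -/
theorem sum_le {ι L R : Type*} (s : Finset ι) (lab : ι → L) (X : ι → Set R)
    (hinj : Set.InjOn lab s) : ∀ C : Set (L × R), C.Finite →
    (∀ i ∈ s, ∀ z ∈ X i, (lab i, z) ∈ C) → ∑ i ∈ s, (X i).ncard ≤ C.ncard := by
  classical
  induction s using Finset.induction_on with
  | empty => intro C _ _; simp
  | insert i s hi ih =>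
    intro C hC h
    rw [Finset.sum_insert hi]
    have h1 : (X i).ncard ≤ (C ∩ {z | z.1 = lab i}).ncard := by
      have h2 : ((fun z => (lab i, z)) '' X i).ncard = (X i).ncard :=
        Set.ncard_image_of_injective _ (fun a b hab => (Prod.mk.inj hab).2)
      rw [← h2]
      refine Set.ncard_le_ncard ?_ (hC.inter_of_left _)
      rintro z ⟨y, hy, rfl⟩
      exact ⟨h i (Finset.mem_insert_self i s) y hy, rfl⟩
    have h3 : ∑ k ∈ s, (X k).ncard ≤ (C \ {z | z.1 = lab i}).ncard := by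
      refine ih (fun a ha b hb hab => hinj ?_ ?_ hab) _ (hC.sdiff) ?_
      · exact Finset.mem_coe.2 (Finset.mem_insert_of_mem (Finset.mem_coe.1 ha))
      · exact Finset.mem_coe.2 (Finset.mem_insert_of_mem (Finset.mem_coe.1 hb))
      · intro k hk z hz
        refine ⟨h k (Finset.mem_insert_of_mem hk) z hz, ?_⟩
        intro hc
        have hc' : lab k = lab i := hc
        have : k = i := hinj (Finset.mem_coe.2 (Finset.mem_insert_of_mem hk))
          (Finset.mem_coe.2 (Finset.mem_insert_self i s)) hc'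
        exact hi (this ▸ hk)
    have h4 := Set.ncard_inter_add_ncard_sdiff_eq_ncard C {z | z.1 = lab i} hC
    omega

/-- The number of indices with an excess. -/
theorem cnt {ι : Type*} (s : Finset ι) (f : ι → ℕ) (g : ℕ) (h : ∀ i ∈ s, g ≤ f i) :
    (s.filter fun i => g < f i).card + s.card * g ≤ ∑ i ∈ s, f i := by
  classical
  rw [Finset.card_filter, ← smul_eq_mul s.card g, ← Finset.sum_const, ← Finset.sum_add_distrib]
  refine Finset.sum_le_sum fun i hi => ?_
  have := h i hi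
  split <;> omega

/-- The stars. -/
theorem star {n : ℕ} (hn : 1 ≤ n) (y : ℕ → ℕ) (M : Finset ℕ) (hM : M ⊆ Finset.range (2 * n))
    (hc : M.card = n - 1)
    (h : ∀ m ∈ Finset.range (2 * n) \ M, ∀ m' ∈ M, 1 ≤ y m ∨ 1 ≤ y m') :
    n - 1 ≤ ∑ m ∈ Finset.range (2 * n), y m ∧
      (∑ m ∈ Finset.range (2 * n), y m ≤ n - 1 →
        (∀ m ∈ Finset.range (2 * n) \ M, y m = 0) ∧ ∀ m ∈ M, y m = 1) := by
  have hcc : (Finset.range (2 * n) \ M).card = n + 1 := by
    rw [Finset.card_sdiff_of_subset hM, hc, Finset.card_range]; omega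
  have hs : ∑ m ∈ Finset.range (2 * n) \ M, y m + ∑ m ∈ M, y m =
      ∑ m ∈ Finset.range (2 * n), y m := Finset.sum_sdiff hM
  by_cases h0 : ∃ m ∈ Finset.range (2 * n) \ M, y m = 0
  · obtain ⟨m0, hm0, h00⟩ := h0
    have h1 : ∀ m' ∈ M, 1 ≤ y m' := fun m' hm' => by
      rcases h m0 hm0 m' hm' with h2 | h2
      · omega
      · exact h2
    have h2 := cnt M y 1 h1
    refine ⟨by omega, fun h3 => ?_⟩
    have h4 : ∑ m ∈ Finset.range (2 * n) \ M, y m = 0 := by omega
    have h5 : (M.filter fun i => 1 < y i).card = 0 := by omega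
    refine ⟨fun m hm => Finset.sum_eq_zero_iff.1 h4 m hm, fun m hm => ?_⟩
    have h6 : m ∉ M.filter fun i => 1 < y i := by
      rw [Finset.card_eq_zero.1 h5]; exact Finset.notMem_empty m
    have h7 := h1 m hm
    by_contra h8
    exact h6 (Finset.mem_filter.2 ⟨hm, by omega⟩)
  · push Not at h0
    have h1 : ∀ m' ∈ Finset.range (2 * n) \ M, 1 ≤ y m' := fun m' hm' => by
      have := h0 m' hm'; omega
    have h2 := cnt _ y 1 h1
    refine ⟨by omega, fun h3 => by omega⟩

/-- The first edge of a pair. -/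
def E1 : (ℕ × ℕ) ⊕ (ℕ × ℕ × ℕ) → Ed
  | Sum.inl x => Ed.ch x.1
  | Sum.inr x => Ed.st x.1 x.2.2

/-- The second edge of a pair. -/
def E2 : (ℕ × ℕ) ⊕ (ℕ × ℕ × ℕ) → Ed
  | Sum.inl x => Ed.ch x.2
  | Sum.inr x => Ed.ch x.2.1

/-- The pairs. -/
def Ok (n P : ℕ) : (ℕ × ℕ) ⊕ (ℕ × ℕ × ℕ) → Prop
  | Sum.inl x => x.1 < x.2 ∧ x.2 < NN n P
  | Sum.inr x => x.1 < P ∧ x.2.1 < NN n P ∧ x.2.2 < 2 * n

theorem ok_inj {n P : ℕ} (i k : (ℕ × ℕ) ⊕ (ℕ × ℕ × ℕ)) (hi : Ok n P i) (hk : Ok n P k)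
    (h : (E1 i = E1 k ∧ E2 i = E2 k) ∨ (E1 i = E2 k ∧ E2 i = E1 k)) : i = k := by
  rcases i with ⟨a, b⟩ | ⟨a, b, c⟩ <;> rcases k with ⟨a', b'⟩ | ⟨a', b', c'⟩ <;>
    simp only [E1, E2, Ok, Ed.ch.injEq, Ed.st.injEq, reduceCtorEq, false_and, and_false,
      or_false] at h hi hk ⊢
  · rcases h with ⟨rfl, rfl⟩ | ⟨rfl, rfl⟩
    · rfl
    · omega
  · obtain ⟨⟨rfl, rfl⟩, rfl⟩ := h
    rfl

theorem ok_valid {n P : ℕ} (i : (ℕ × ℕ) ⊕ (ℕ × ℕ × ℕ)) (hi : Ok n P i) :
    (E1 i).Valid n P ∧ (E2 i).Valid n P := by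
  rcases i with ⟨a, b⟩ | ⟨a, b, c⟩ <;> simp only [E1, E2, Ok, Ed.Valid] at hi ⊢ <;> omega

theorem pr_mem {a b w : ℕ} (h : w = (pr a b).1 ∨ w = (pr a b).2) : w = a ∨ w = b := by
  unfold pr at h
  simp only at h
  omega

theorem ok_ends (h1 : S_POS) {n P : ℕ} (sg : ℕ → ℕ → Bool) (hn : 1 ≤ n)
    (i : (ℕ × ℕ) ⊕ (ℕ × ℕ × ℕ)) (hi : Ok n P i) (w : ℕ)
    (hw : w = (E1 i).src n P ∨ w = (E1 i).tgt n P sg)
    (hw' : w = (E2 i).src n P ∨ w = (E2 i).tgt n P sg) : False := by
  obtain ⟨p1, p2, p3, -⟩ := h1 n P sg hn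
  rcases i with ⟨a, b⟩ | ⟨a, b, c⟩
  · simp only [E1, E2, Ok, Ed.src, Ed.tgt, vR] at hi hw hw'
    have q1 := p1 a (by omega)
    have q2 := p1 b (by omega)
    have q3 := p2 a (by omega) b (by omega) hi.1
    have e1 : posB n P a = H n P + posA n P a := rfl
    have e2 : posB n P b = H n P + posA n P b := rfl
    omega
  · simp only [E1, E2, Ok, Ed.src, Ed.tgt, vR, vP] at hi hw hw'
    have q1 := (p3 a c hi.2.2).2.2 b hi.2.1
    have q2 := q1.1
    have q3 := q1.2.1
    omega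

theorem card_A (N : ℕ) :
    (((Finset.range N).sigma fun b => Finset.range b)).card = N * (N - 1) / 2 := by
  rw [Finset.card_sigma]
  simp only [Finset.card_range]
  exact Finset.sum_range_id N

end Cnt

open Cnt in
theorem t_CNT (h1 : S_POS) (h2 : S_EDS) (h3 : S_INJ) (h4 : S_MIN) : S_CNT := by
  classical
  intro n P sg φ q hn hD hcc hst
  set X : (ℕ × ℕ) ⊕ (ℕ × ℕ × ℕ) → Set (ℝ × ℝ) := fun i =>
    pth n P sg q (E1 i) ∩ pth n P sg q (E2 i) with hX
  set lab : (ℕ × ℕ) ⊕ (ℕ × ℕ × ℕ) → Sym2 (ℕ × ℕ) := fun i =>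
    s((E1 i).pair n P sg, (E2 i).pair n P sg) with hlab
  have hWpos : 0 < W n P := by unfold W; omega
  -- the crossings
  have hcr : ∀ i, Ok n P i → ∀ z ∈ X i, (lab i, z) ∈ crossings 2 (eds n P sg) φ q := by
    intro i hi z hz
    obtain ⟨v1, v2⟩ := ok_valid i hi
    refine ⟨(E1 i).pair n P sg, (h2 n P sg hn _).2 ⟨_, v1, rfl⟩, (E2 i).pair n P sg,
      (h2 n P sg hn _).2 ⟨_, v2, rfl⟩, ?_, rfl, hz.1, hz.2, ?_⟩
    · intro he
      have he' := h3 n P sg hn _ _ v1 v2 he
      exact ok_ends h1 sg hn i hi ((E1 i).src n P) (Or.inl rfl) (Or.inl (by rw [he']))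
    · rintro ⟨w, hw, hw', -⟩
      exact ok_ends h1 sg hn i hi w (pr_mem hw) (pr_mem hw')
  have hfin : ∀ i, Ok n P i → (X i).Finite := by
    intro i hi
    have : ((fun z => (lab i, z)) '' X i).Finite := by
      refine hD.fin.subset ?_
      rintro z ⟨y, hy, rfl⟩
      exact hcr i hi y hy
    exact this.of_finite_image (fun a _ b _ hab => (Prod.mk.inj hab).2)
  have hlinj : ∀ i k, Ok n P i → Ok n P k → lab i = lab k → i = k := by
    intro i k hi hk h
    obtain ⟨v1, v2⟩ := ok_valid i hi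
    obtain ⟨v3, v4⟩ := ok_valid k hk
    refine ok_inj i k hi hk ?_
    rcases Sym2.eq_iff.1 h with ⟨e1, e2⟩ | ⟨e1, e2⟩
    · exact Or.inl ⟨h3 n P sg hn _ _ v1 v3 e1, h3 n P sg hn _ _ v2 v4 e2⟩
    · exact Or.inr ⟨h3 n P sg hn _ _ v1 v4 e1, h3 n P sg hn _ _ v2 v3 e2⟩
  -- the sums
  set A : Finset (Σ _ : ℕ, ℕ) := (Finset.range (NN n P)).sigma fun b => Finset.range b with hA
  set B : Finset (ℕ × ℕ) := Finset.range P ×ˢ Finset.range (NN n P) with hB
  set x : (Σ _ : ℕ, ℕ) → ℕ := fun p => (X (Sum.inl (p.2, p.1))).ncard with hx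
  set y : ℕ → ℕ → ℕ → ℕ := fun j u m => (X (Sum.inr (j, u, m))).ncard with hy
  have htot : ∑ p ∈ A, x p + ∑ p ∈ B, ∑ m ∈ Finset.range (2 * n), y p.1 p.2 m ≤ KK n P := by
    refine le_trans ?_ hD.le
    set s : Finset ((ℕ × ℕ) ⊕ (ℕ × ℕ × ℕ)) :=
      (A.image fun p => (p.2, p.1)).disjSum
        ((B ×ˢ Finset.range (2 * n)).image fun p => (p.1.1, p.1.2, p.2)) with hs
    have hok : ∀ i ∈ s, Ok n P i := by
      intro i hi
      rcases i with ⟨a, b⟩ | ⟨a, b, c⟩
      · rw [hs, Finset.inl_mem_disjSum] at hi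
        obtain ⟨⟨b', a'⟩, hp, he⟩ := Finset.mem_image.1 hi
        simp only [Prod.mk.injEq] at he
        rw [hA] at hp
        simp only [Finset.mem_sigma, Finset.mem_range] at hp
        simp only [Ok]
        omega
      · rw [hs, Finset.inr_mem_disjSum] at hi
        obtain ⟨⟨⟨a', b'⟩, c'⟩, hp, he⟩ := Finset.mem_image.1 hi
        simp only [Prod.mk.injEq] at he
        rw [hB] at hp
        simp only [Finset.mem_product, Finset.mem_range] at hp
        simp only [Ok]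
        omega
    have key := sum_le s lab X (fun i hi k hk h => hlinj i k (hok i hi) (hok k hk) h) _ hD.fin
      (fun i hi => hcr i (hok i hi))
    refine le_trans (le_of_eq ?_) key
    rw [hs, Finset.sum_disjSum]
    congr 1
    · rw [Finset.sum_image]
      rintro ⟨a, b⟩ _ ⟨a', b'⟩ _ h
      simp only [Prod.mk.injEq] at h
      obtain ⟨rfl, rfl⟩ := h
      rfl
    · rw [Finset.sum_image]
      · have e : ∀ f : (ℕ × ℕ) × ℕ → ℕ, ∑ z ∈ B, ∑ m ∈ Finset.range (2 * n), f (z, m) =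
            ∑ z ∈ B ×ˢ Finset.range (2 * n), f z := fun f => (Finset.sum_product _ _ _).symm
        exact e fun z => (X (Sum.inr (z.1.1, z.1.2, z.2))).ncard
      · rintro ⟨⟨a, b⟩, c⟩ _ ⟨⟨a', b'⟩, c'⟩ _ h
        simp only [Prod.mk.injEq] at h
        obtain ⟨rfl, rfl, rfl⟩ := h
        rfl
  -- lower bounds
  have hnn : ∀ i, Ok n P i → (X i).Nonempty → 1 ≤ (X i).ncard := fun i hi h =>
    (Set.ncard_pos (hfin i hi)).2 h
  have hxlb : ∀ p ∈ A, 1 ≤ x p := by
    rintro ⟨b, a⟩ hp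
    rw [hA] at hp
    simp only [Finset.mem_sigma, Finset.mem_range] at hp
    exact hnn (Sum.inl (a, b)) ⟨hp.2, hp.1⟩ (hcc a (by omega) b hp.1 (by omega))
  have hstar : ∀ j < P, ∀ u < NN n P,
      n - 1 ≤ ∑ m ∈ Finset.range (2 * n), y j u m ∧
      (∑ m ∈ Finset.range (2 * n), y j u m ≤ n - 1 →
        (∀ m ∈ Finset.range (2 * n) \
          ((Finset.range (2 * n)).filter fun m => ab n sg j m (u / W n P) ≠ sg j (u / W n P)),
          y j u m = 0) ∧ ∀ m ∈
          ((Finset.range (2 * n)).filter fun m => ab n sg j m (u / W n P) ≠ sg j (u / W n P)),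
          y j u m = 1) := by
    intro j hj u hu
    refine star hn (y j u) _ (Finset.filter_subset _ _) (h4 n sg j (u / W n P) ?_) ?_
    · rw [Nat.div_lt_iff_lt_mul hWpos]; exact hu
    · intro m hm m' hm'
      simp only [Finset.mem_sdiff, Finset.mem_filter, Finset.mem_range, not_and, not_not] at hm hm'
      have hm2 := hm.2 hm.1
      have key : (X (Sum.inr (j, u, m))).Nonempty ∨ (X (Sum.inr (j, u, m'))).Nonempty := by
        cases hs : sg j (u / W n P)
        · rw [hs] at hm2 hm'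
          exact (hst j hj u hu m' hm'.1 m hm.1 (by simpa using hm'.2) hm2).symm
        · rw [hs] at hm2 hm'
          exact hst j hj u hu m hm.1 m' hm'.1 hm2 (by simpa using hm'.2)
      rcases key with h | h
      · exact Or.inl (hnn _ ⟨hj, hu, hm.1⟩ h)
      · exact Or.inr (hnn _ ⟨hj, hu, hm'.1⟩ h)
  -- the excess
  have hcA := cnt A x 1 hxlb
  have hcB := cnt B (fun p => ∑ m ∈ Finset.range (2 * n), y p.1 p.2 m) (n - 1) (by
    rintro ⟨j, u⟩ hp
    rw [hB] at hp
    simp only [Finset.mem_product, Finset.mem_range] at hp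
    exact (hstar j hp.1 u hp.2).1)
  have hcardA : A.card = NN n P * (NN n P - 1) / 2 := card_A (NN n P)
  have hcardB : B.card = P * NN n P := by
    rw [hB, Finset.card_product, Finset.card_range, Finset.card_range]
  rw [hcardA] at hcA
  rw [hcardB] at hcB
  have hKK : KK n P = NN n P * (NN n P - 1) / 2 + P * NN n P * (n - 1) +
    (2 * n * P) * (2 * n * P) := rfl
  have hW : W n P = (2 * n * P) * (2 * n * P) + 1 := rfl
  set FA := A.filter fun p => 1 < x p with hFA
  set FB := B.filter fun p => n - 1 < ∑ m ∈ Finset.range (2 * n), y p.1 p.2 m with hFB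
  have hlt : (FA.image (fun p => p.2 % W n P) ∪ FB.image (fun p => p.2 % W n P)).card <
      (Finset.range (W n P)).card := by
    have a1 := Finset.card_union_le (FA.image (fun p => p.2 % W n P))
      (FB.image (fun p => p.2 % W n P))
    have a2 : (FA.image (fun p => p.2 % W n P)).card ≤ FA.card := Finset.card_image_le
    have a3 : (FB.image (fun p => p.2 % W n P)).card ≤ FB.card := Finset.card_image_le
    rw [Finset.card_range]
    omega
  obtain ⟨w, hw, hwn⟩ := Finset.exists_mem_notMem_of_card_lt_card hlt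
  rw [Finset.mem_range] at hw
  rw [Finset.mem_union, not_or] at hwn
  obtain ⟨hwA, hwB⟩ := hwn
  refine ⟨w, hw, ?_⟩
  have hmod : ∀ c, (c * W n P + w) % W n P = w := fun c => by
    rw [Nat.mul_add_mod', Nat.mod_eq_of_lt hw]
  have hdiv : ∀ c, (c * W n P + w) / W n P = c := fun c => by
    rw [mul_comm, Nat.mul_add_div hWpos, Nat.div_eq_of_lt hw, add_zero]
  have hlt' : ∀ c < n, c * W n P + w < NN n P := fun c hc => by
    have : (c + 1) * W n P ≤ n * W n P := Nat.mul_le_mul_right _ hc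
    unfold NN
    rw [add_mul, one_mul] at this
    omega
  have hone : ∀ S : Set (ℝ × ℝ), S.ncard = 1 → ∃! z, z ∈ S := by
    intro S hS
    obtain ⟨a, rfl⟩ := Set.ncard_eq_one.1 hS
    exact ⟨a, rfl, fun b hb => hb⟩
  have hpair : ∀ c c', c < c' → c' < n → (pth n P sg q (Ed.ch (c * W n P + w)) ∩
      pth n P sg q (Ed.ch (c' * W n P + w))).ncard = 1 := by
    intro c c' hc hc'
    have u1 : c * W n P + w < c' * W n P + w := by
      have := Nat.mul_lt_mul_of_pos_right hc hWpos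
      omega
    have u2 := hlt' c' hc'
    have hmemA : (⟨c' * W n P + w, c * W n P + w⟩ : Σ _ : ℕ, ℕ) ∈ A := by
      rw [hA]
      simp only [Finset.mem_sigma, Finset.mem_range]
      exact ⟨u2, u1⟩
    have hge := hxlb _ hmemA
    have hle : x ⟨c' * W n P + w, c * W n P + w⟩ ≤ 1 := by
      by_contra hcon
      refine hwA (Finset.mem_image.2 ⟨_, Finset.mem_filter.2 ⟨hmemA, not_le.1 hcon⟩, hmod c⟩)
    exact le_antisymm hle hge
  constructor
  · intro c hc c' hc' hne
    rcases lt_or_gt_of_ne hne with h | h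
    · exact hone _ (hpair c c' h hc')
    · rw [Set.inter_comm]
      exact hone _ (hpair c' c h hc)
  · intro j hj c hc m hm
    have u2 := hlt' c hc
    have hle : ∑ m ∈ Finset.range (2 * n), y j (c * W n P + w) m ≤ n - 1 := by
      by_contra hcon
      refine hwB (Finset.mem_image.2 ⟨(j, c * W n P + w), Finset.mem_filter.2 ⟨?_, not_le.1 hcon⟩,
        hmod c⟩)
      rw [hB]
      simp only [Finset.mem_product, Finset.mem_range]
      exact ⟨hj, u2⟩
    obtain ⟨g1, g2⟩ := (hstar j hj _ u2).2 hle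
    rw [hdiv c] at g1 g2
    constructor
    · intro hab
      have h0 : y j (c * W n P + w) m = 0 := g1 m (by
        simp only [Finset.mem_sdiff, Finset.mem_filter, Finset.mem_range, not_and, not_not]
        exact ⟨hm, fun _ => hab⟩)
      exact (Set.ncard_eq_zero (hfin (Sum.inr (j, c * W n P + w, m)) ⟨hj, u2, hm⟩)).1 h0
    · intro hab
      have h0 : y j (c * W n P + w) m = 1 := g2 m (by
        simp only [Finset.mem_filter, Finset.mem_range]
        exact ⟨hm, hab⟩)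
      exact hone _ h0

end Pool.Agent.K1H23.PC

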