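import Pool.Agent.K1H23.PC.Stm

/-! # Copies of bent lines; insertion of the clusters -/

set_option autoImplicit false

namespace Pool.Agent.K1H23.PC

open Filter Topology

lemma evlt (l : Filter ℝ) (N : ℕ) (p : ℕ → ℝ → Prop) (h : ∀ i < N, ∀ᶠ x in l, p i x) :
    ∀ᶠ x in l, ∀ i < N, p i x :=
  (Filter.eventually_all_finite (Set.finite_lt_nat N)).mpr h

lemma evp (A B : ℝ) (h : 0 < A) : ∀ᶠ d in 𝓝[>] (0 : ℝ), 0 < A + d * B := by
  have h1 : Tendsto (fun d : ℝ => A + d * B) (𝓝[>] 0) (𝓝 (A + 0 * B)) :=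
    (Continuous.tendsto (by fun_prop) 0).mono_left nhdsWithin_le_nhds
  rw [zero_mul, add_zero] at h1
  exact h1.eventually (lt_mem_nhds h)

lemma evn (A B : ℝ) (h : A ≠ 0) : ∀ᶠ d in 𝓝[>] (0 : ℝ), A + d * B ≠ 0 := by
  have h1 : Tendsto (fun d : ℝ => A + d * B) (𝓝[>] 0) (𝓝 (A + 0 * B)) :=
    (Continuous.tendsto (by fun_prop) 0).mono_left nhdsWithin_le_nhds
  rw [zero_mul, add_zero] at h1
  exact h1.eventually (eventually_ne_nhds h)

lemma cf_add (lo hi ξ τ x e x0 : ℝ) :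
    cf (lo + e) (hi + e) ξ (τ + e * (ξ - x0)) x = cf lo hi ξ τ x + e * (x - x0) := by
  unfold cf
  have h : min (x - ξ) 0 + max (x - ξ) 0 = x - ξ := by
    rw [min_add_max, add_zero]
  linear_combination e * h

lemma cf_self (lo hi ξ τ : ℝ) : cf lo hi ξ τ ξ = τ := by
  unfold cf
  simp

lemma IsConfig.lt' {n P : ℕ} {sg : ℕ → ℕ → Bool} {lo hi ξ τ : ℕ → ℝ} {p : ℕ → ℝ × ℝ}
    (h : IsConfig n P sg lo hi ξ τ p) {c c' : ℕ} (hc : c < c') (hn : c' < n) : hi c < lo c' := by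
  induction c', hc using Nat.le_induction with
  | base => exact h.lt c hn
  | succ m hm ih =>
    have h1 := ih (by omega)
    have h2 := h.le m (by omega)
    have h3 := h.lt m hn
    linarith

theorem t_CPY : S_CPY := by
  intro n P w sg hw hconf
  obtain ⟨lo, hi, ξ, τ, p, h⟩ := hconf
  obtain ⟨x0, hx0⟩ : ∃ x0 : ℝ, ∀ c < n, ξ c ≠ x0 := by
    obtain ⟨x0, hx⟩ := ((Finset.range n).image ξ).exists_notMem
    refine ⟨x0, fun c hc h1 => hx ?_⟩
    rw [Finset.mem_image]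
    exact ⟨c, Finset.mem_range.mpr hc, h1⟩
  have hdiv : ∀ u, u < n * w → u / w < n := fun u hu => Nat.div_lt_of_lt_mul (by rwa [mul_comm] at hu)
  -- the conditions
  have e1 : ∀ᶠ e in 𝓝[>] (0 : ℝ), ∀ u < n * w, ∀ u' < n * w, u / w < u' / w →
      hi (u / w) + e * (u % w : ℕ) < lo (u' / w) + e * (u' % w : ℕ) := by
    refine evlt _ _ _ fun u hu => evlt _ _ _ fun u' hu' => ?_
    by_cases hlt : u / w < u' / w
    · have h1 := h.lt' hlt (hdiv u' hu')
      filter_upwards [evp (lo (u' / w) - hi (u / w)) (((u' % w : ℕ) : ℝ) - ((u % w : ℕ) : ℝ))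
        (by linarith)] with e he _
      linarith
    · exact Eventually.of_forall fun e h1 => absurd h1 hlt
  have e2 : ∀ᶠ e in 𝓝[>] (0 : ℝ), ∀ u < n * w, ∀ u' < n * w, u / w ≠ u' / w →
      cf (lo (u' / w)) (hi (u' / w)) (ξ (u' / w)) (τ (u' / w)) (ξ (u / w)) +
        e * (u' % w : ℕ) * (ξ (u / w) - x0) ≠ τ (u / w) + e * (u % w : ℕ) * (ξ (u / w) - x0) := by
    refine evlt _ _ _ fun u hu => evlt _ _ _ fun u' hu' => ?_
    by_cases hne : u / w ≠ u' / w
    · have h1 := h.ne _ (hdiv u hu) _ (hdiv u' hu') hne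
      filter_upwards [evn (cf (lo (u' / w)) (hi (u' / w)) (ξ (u' / w)) (τ (u' / w)) (ξ (u / w)) -
        τ (u / w)) ((((u' % w : ℕ) : ℝ) - ((u % w : ℕ) : ℝ)) * (ξ (u / w) - x0))
        (sub_ne_zero.mpr h1)] with e he _ h2
      apply he
      linear_combination h2
    · exact Eventually.of_forall fun e h1 => absurd h1 hne
  have e3 : ∀ᶠ e in 𝓝[>] (0 : ℝ), ∀ j < P, ∀ u < n * w, if sg j (u / w) = true then
      cf (lo (u / w)) (hi (u / w)) (ξ (u / w)) (τ (u / w)) (p j).1 +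
        e * (u % w : ℕ) * ((p j).1 - x0) < (p j).2
      else (p j).2 < cf (lo (u / w)) (hi (u / w)) (ξ (u / w)) (τ (u / w)) (p j).1 +
        e * (u % w : ℕ) * ((p j).1 - x0) := by
    refine evlt _ _ _ fun j hj => evlt _ _ _ fun u hu => ?_
    have h1 := h.side j hj _ (hdiv u hu)
    split_ifs with hs
    · rw [if_pos hs] at h1
      filter_upwards [evp ((p j).2 - cf (lo (u / w)) (hi (u / w)) (ξ (u / w)) (τ (u / w)) (p j).1)
        (-(((u % w : ℕ) : ℝ) * ((p j).1 - x0))) (by linarith)] with e he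
      linarith
    · rw [if_neg hs] at h1
      filter_upwards [evp (cf (lo (u / w)) (hi (u / w)) (ξ (u / w)) (τ (u / w)) (p j).1 - (p j).2)
        (((u % w : ℕ) : ℝ) * ((p j).1 - x0)) (by linarith)] with e he
      linarith
  obtain ⟨e, he1, he2, he3, he0⟩ := (e1.and (e2.and (e3.and self_mem_nhdsWithin))).exists
  have he0' : 0 < e := he0
  have key : ∀ u x, cf (lo (u / w) + e * (u % w : ℕ)) (hi (u / w) + e * (u % w : ℕ)) (ξ (u / w))
      (τ (u / w) + e * (u % w : ℕ) * (ξ (u / w) - x0)) x =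
      cf (lo (u / w)) (hi (u / w)) (ξ (u / w)) (τ (u / w)) x + e * (u % w : ℕ) * (x - x0) :=
    fun u x => cf_add _ _ _ _ _ _ _
  refine ⟨fun u => lo (u / w) + e * (u % w : ℕ), fun u => hi (u / w) + e * (u % w : ℕ),
    fun u => ξ (u / w), fun u => τ (u / w) + e * (u % w : ℕ) * (ξ (u / w) - x0), p, ?_⟩
  refine ⟨fun u hu => ?_, fun u u' h1 h2 h3 => ?_, fun u u' h1 h2 => ?_, fun u hu u' hu' hne => ?_,
    fun j hj u hu => ?_⟩
  · have := h.le _ (hdiv u hu)
    linarith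
  · have h4 : u % w < u' % w := by
      have a1 := Nat.div_add_mod u w
      have a2 := Nat.div_add_mod u' w
      rw [h3] at a1
      omega
    have h5 : ((u % w : ℕ) : ℝ) < ((u' % w : ℕ) : ℝ) := by exact_mod_cast h4
    have h6 := mul_lt_mul_of_pos_left h5 he0'
    simp only [h3]
    refine ⟨trivial, ?_, ?_⟩ <;> linarith
  · refine he1 u ?_ u' h1 h2
    by_contra hcon
    push Not at hcon
    have := Nat.div_le_div_right (c := w) (h1.le.trans hcon)
    omega
  · rw [key]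
    by_cases hc : u / w = u' / w
    · rw [← hc, cf_self]
      intro h1
      have h4 : ((u % w : ℕ) : ℝ) ≠ ((u' % w : ℕ) : ℝ) := by
        intro h5
        have h6 : u % w = u' % w := by exact_mod_cast h5
        apply hne
        rw [← Nat.div_add_mod u w, ← Nat.div_add_mod u' w, hc, h6]
      have h5 : ξ (u / w) - x0 ≠ 0 := sub_ne_zero.mpr (hx0 _ (hdiv u hu))
      have h6 : e * (ξ (u / w) - x0) * (((u' % w : ℕ) : ℝ) - ((u % w : ℕ) : ℝ)) = 0 := by
        linear_combination h1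
      rcases mul_eq_zero.mp h6 with h7 | h7
      · rcases mul_eq_zero.mp h7 with h8 | h8
        · exact he0'.ne' h8
        · exact h5 h8
      · exact h4 (sub_eq_zero.mp h7).symm
    · exact he2 u hu u' hu' hc
  · rw [key]
    exact he3 j hj u hu

end Pool.Agent.K1H23.PC
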