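import Pool.Agent.K1H23.PC.Stm

namespace Pool.Agent.K1H23.PC.FRM

/-- positions -/
noncomputable def ps (R : ℕ) (Y : ℝ) (x : ℕ → ℝ) (δ Z : ℝ) : Fv → ℝ × ℝ
  | .r i => rp Y x i
  | .X i k => if i + 1 < R then
      ((x i + x (i + 1)) / 2, ((x i ^ 2 - Y) + (x (i + 1) ^ 2 - Y)) / 2 - (k + 1))
      else ((x 0 + x i) / 2, ((x 0 ^ 2 - Y) + (x i ^ 2 - Y)) / 2 + (k + 1))
  | .Y i k => (x i + (k + 1) * δ, - Z)
  | .h => (x 0, - Z - 1)

/-- the conditions on the numbers -/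
structure Dat (R B : ℕ) (Y : ℝ) (x : ℕ → ℝ) (δ Z : ℝ) : Prop where
  hR : 3 ≤ R
  mono : ∀ i j, i < j → j < R → x i < x j
  δpos : 0 < δ
  δlt : ∀ i k, i + 1 < R → k < B → (k + 1 : ℝ) * δ < (x (i + 1) - x i) / 2
  z1 : ∀ i < R, - Z < x i ^ 2 - Y
  z2 : ∀ i < R, ∀ k < B, - Z < (ps R Y x δ Z (.X i k)).2
  z3 : ∀ i < R, ∀ k < B,
    - Z < (x 0 + x (R - 1)) * (x i + (k + 1) * δ) - x 0 * x (R - 1) - Y
  z4 : ∀ j, j + 1 < R → ∀ i < R, ∀ k < B,
    - Z < (x j + x (j + 1)) * (x i + (k + 1) * δ) - x j * x (j + 1) - Y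

/-- the parametrisation of an edge by `s ∈ [0, 1]` -/
def En (R : ℕ) (Y : ℝ) (x : ℕ → ℝ) (δ Z : ℝ) (t i k : ℕ) (z : ℝ × ℝ) (s : ℝ) : Prop :=
  0 ≤ s ∧ s ≤ 1 ∧
  ((t < 2 ∧ i + 1 < R ∧ ∃ l : ℝ, ((t = 0 ∧ l = s / 2) ∨ (t = 1 ∧ l = 1 - s / 2)) ∧
      z.1 = x i + l * (x (i + 1) - x i) ∧
      z.2 = (1 - l) * (x i ^ 2 - Y) + l * (x (i + 1) ^ 2 - Y) - (k + 1) * s) ∨
   (t < 2 ∧ i + 1 = R ∧ ∃ l : ℝ, ((t = 0 ∧ l = s / 2) ∨ (t = 1 ∧ l = 1 - s / 2)) ∧
      z.1 = x i + l * (x 0 - x i) ∧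
      z.2 = (1 - l) * (x i ^ 2 - Y) + l * (x 0 ^ 2 - Y) + (k + 1) * s) ∨
   (t = 2 ∧ z.1 = x 0 + s * (x i + (k + 1) * δ - x 0) ∧ z.2 = - Z - 1 + s) ∨
   (t = 3 ∧ z.1 = x i + s * ((k + 1) * δ) ∧ z.2 = (x i ^ 2 - Y) - s * (Z + (x i ^ 2 - Y))))

lemma seg {a b z : ℝ × ℝ} (h : z ∈ segment ℝ a b) :
    ∃ s : ℝ, 0 ≤ s ∧ s ≤ 1 ∧ z.1 = a.1 + s * (b.1 - a.1) ∧ z.2 = a.2 + s * (b.2 - a.2) := by
  rw [segment_eq_image'] at h
  obtain ⟨s, hs, rfl⟩ := h
  exact ⟨s, hs.1, hs.2, by simp, by simp⟩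

variable {R B : ℕ} {Y : ℝ} {x : ℕ → ℝ} {δ Z : ℝ}

lemma exists_En (hR : 3 ≤ R) (t i k : ℕ) (hv : FVal R B (t, i, k)) {z : ℝ × ℝ}
    (hz : z ∈ segment ℝ (ps R Y x δ Z (fsrc (t, i, k))) (ps R Y x δ Z (ftgt R (t, i, k)))) :
    ∃ s, En R Y x δ Z t i k z s ∧ (s = 0 ∨ s = 1 →
      ∃ v, (v = fsrc (t, i, k) ∨ v = ftgt R (t, i, k)) ∧ Fv.Valid R B v ∧
        z = ps R Y x δ Z v) ∧
      (s = 0 → t ≠ 2 → ∃ j < R, (fsrc (t, i, k) = Fv.r j ∨ ftgt R (t, i, k) = Fv.r j) ∧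
        z = rp Y x j) := by
  obtain ⟨ht, hi, hk⟩ := hv
  simp only at ht hi hk
  obtain ⟨s, hs0, hs1, h1, h2⟩ := seg hz
  have hmod : (i + 1) % R < R := Nat.mod_lt _ (by omega)
  -- reduce to `t`
  have h0 : t = 0 ∨ t = 1 ∨ t = 2 ∨ t = 3 := by omega
  have hiR : i + 1 < R ∨ i + 1 = R := by omega
  rcases h0 with rfl | rfl | rfl | rfl
  · -- kind 0
    have e1 : fsrc (0, i, k) = Fv.r i := rfl
    have e2 : ftgt R (0, i, k) = Fv.X i k := rfl
    rw [e1, e2] at h1 h2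
    refine ⟨s, ?_, ?_, ?_⟩
    · refine ⟨hs0, hs1, ?_⟩
      rcases hiR with hiR | hiR
      · left
        simp only [ps, if_pos hiR, rp] at h1 h2
        exact ⟨by omega, hiR, s / 2, Or.inl ⟨rfl, rfl⟩, by rw [h1]; ring, by rw [h2]; ring⟩
      · right; left
        simp only [ps, if_neg (show ¬ (i + 1 < R) by omega), rp] at h1 h2
        exact ⟨by omega, hiR, s / 2, Or.inl ⟨rfl, rfl⟩, by rw [h1]; ring, by rw [h2]; ring⟩
    · rintro (h | h)
      · exact ⟨Fv.r i, Or.inl rfl, hi, Prod.ext (by rw [h1, h]; ring) (by rw [h2, h]; ring)⟩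
      · exact ⟨Fv.X i k, Or.inr rfl, ⟨hi, hk⟩,
          Prod.ext (by rw [h1, h]; ring) (by rw [h2, h]; ring)⟩
    · intro h _
      exact ⟨i, hi, Or.inl rfl, Prod.ext (by rw [h1, h]; simp [ps]) (by rw [h2, h]; simp [ps])⟩
  · -- kind 1
    have e1 : fsrc (1, i, k) = Fv.X i k := rfl
    have e2 : ftgt R (1, i, k) = Fv.r ((i + 1) % R) := rfl
    rw [e1, e2] at h1 h2
    refine ⟨1 - s, ?_, ?_, ?_⟩
    · refine ⟨by linarith, by linarith, ?_⟩
      rcases hiR with hiR | hiR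
      · left
        simp only [ps, if_pos hiR, rp, Nat.mod_eq_of_lt hiR] at h1 h2
        exact ⟨by omega, hiR, 1 - (1 - s) / 2, Or.inr ⟨rfl, rfl⟩, by rw [h1]; ring,
          by rw [h2]; ring⟩
      · right; left
        simp only [ps, rp, hiR, Nat.mod_self, lt_irrefl, if_false] at h1 h2
        exact ⟨by omega, hiR, 1 - (1 - s) / 2, Or.inr ⟨rfl, rfl⟩, by rw [h1]; ring,
          by rw [h2]; ring⟩
    · rintro (h | h)
      · have hs : s = 1 := by linarith
        exact ⟨Fv.r ((i + 1) % R), Or.inr rfl, hmod,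
          Prod.ext (by rw [h1, hs]; ring) (by rw [h2, hs]; ring)⟩
      · have hs : s = 0 := by linarith
        exact ⟨Fv.X i k, Or.inl rfl, ⟨hi, hk⟩,
          Prod.ext (by rw [h1, hs]; ring) (by rw [h2, hs]; ring)⟩
    · intro h _
      have hs : s = 1 := by linarith
      exact ⟨(i + 1) % R, hmod, Or.inr rfl,
        Prod.ext (by rw [h1, hs]; simp [ps]) (by rw [h2, hs]; simp [ps])⟩
  · -- kind 2
    have e1 : fsrc (2, i, k) = Fv.h := rfl
    have e2 : ftgt R (2, i, k) = Fv.Y i k := rfl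
    rw [e1, e2] at h1 h2
    refine ⟨s, ?_, ?_, ?_⟩
    · refine ⟨hs0, hs1, Or.inr (Or.inr (Or.inl ⟨rfl, ?_, ?_⟩))⟩
      · rw [h1]; simp [ps]
      · rw [h2]; simp [ps]
    · rintro (h | h)
      · exact ⟨Fv.h, Or.inl rfl, trivial, Prod.ext (by rw [h1, h]; ring) (by rw [h2, h]; ring)⟩
      · exact ⟨Fv.Y i k, Or.inr rfl, ⟨hi, hk⟩,
          Prod.ext (by rw [h1, h]; ring) (by rw [h2, h]; ring)⟩
    · intro _ h; exact absurd rfl h
  · -- kind 3
    have e1 : fsrc (3, i, k) = Fv.Y i k := rfl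
    have e2 : ftgt R (3, i, k) = Fv.r i := rfl
    rw [e1, e2] at h1 h2
    refine ⟨1 - s, ?_, ?_, ?_⟩
    · refine ⟨by linarith, by linarith, Or.inr (Or.inr (Or.inr ⟨rfl, ?_, ?_⟩))⟩
      · rw [h1]; simp only [ps, rp]; ring
      · rw [h2]; simp only [ps, rp]; ring
    · rintro (h | h)
      · have hs : s = 1 := by linarith
        exact ⟨Fv.r i, Or.inr rfl, hi,
          Prod.ext (by rw [h1, hs]; ring) (by rw [h2, hs]; ring)⟩
      · have hs : s = 0 := by linarith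
        exact ⟨Fv.Y i k, Or.inl rfl, ⟨hi, hk⟩,
          Prod.ext (by rw [h1, hs]; ring) (by rw [h2, hs]; ring)⟩
    · intro h _
      have hs : s = 1 := by linarith
      exact ⟨i, hi, Or.inr rfl,
        Prod.ext (by rw [h1, hs]; simp [ps]) (by rw [h2, hs]; simp [ps])⟩

/-- the height over the top line -/
lemma top_le (hD : Dat R B Y x δ Z) {i : ℕ} (hi : i < R) :
    x i ^ 2 - Y ≤ (x 0 + x (R - 1)) * x i - x 0 * x (R - 1) - Y := by
  have h0 : x 0 ≤ x i := by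
    rcases Nat.eq_zero_or_pos i with h | h
    · rw [h]
    · exact (hD.mono 0 i h hi).le
  have h1 : x i ≤ x (R - 1) := by
    rcases Nat.lt_or_ge i (R - 1) with h | h
    · exact (hD.mono i (R - 1) h (by have := hD.hR; omega)).le
    · rw [show i = R - 1 by omega]
  nlinarith [mul_nonneg (sub_nonneg.mpr h0) (sub_nonneg.mpr h1)]

/-- an edge of kind `0, 1` below the top line -/
lemma A_top (hD : Dat R B Y x δ Z) {i k : ℕ} (hi : i + 1 < R) {l s : ℝ} {z : ℝ × ℝ}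
    (hs : 0 ≤ s) (hl0 : 0 ≤ l) (hl1 : l ≤ 1)
    (h1 : z.1 = x i + l * (x (i + 1) - x i))
    (h2 : z.2 = (1 - l) * (x i ^ 2 - Y) + l * (x (i + 1) ^ 2 - Y) - (k + 1) * s) :
    z.2 + s ≤ (x 0 + x (R - 1)) * z.1 - x 0 * x (R - 1) - Y := by
  have e1 := top_le hD (show i < R by omega)
  have e2 := top_le hD hi
  have hk : (0 : ℝ) ≤ k := Nat.cast_nonneg k
  have e3 := mul_le_mul_of_nonneg_left e1 (sub_nonneg.mpr hl1)
  have e4 := mul_le_mul_of_nonneg_left e2 hl0
  rw [h1, h2]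
  nlinarith [mul_nonneg hk hs]

/-- a closing edge is above the top line -/
lemma B_top (hD : Dat R B Y x δ Z) {i k : ℕ} (hi : i + 1 = R) {l s : ℝ} {z : ℝ × ℝ}
    (hs : 0 ≤ s)
    (h1 : z.1 = x i + l * (x 0 - x i))
    (h2 : z.2 = (1 - l) * (x i ^ 2 - Y) + l * (x 0 ^ 2 - Y) + (k + 1) * s) :
    (x 0 + x (R - 1)) * z.1 - x 0 * x (R - 1) - Y + s ≤ z.2 := by
  have hi' : R - 1 = i := by omega
  have hk : (0 : ℝ) ≤ k := Nat.cast_nonneg k
  rw [h1, h2, hi']
  nlinarith [mul_nonneg hk hs]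

/-- the main statement on pairs of edges: first coordinate -/
lemma A_low (hD : Dat R B Y x δ Z) {t i k : ℕ} (hi : i + 1 < R) (hk : k < B) {l s : ℝ}
    {z : ℝ × ℝ} (hs : 0 ≤ s) (hs1 : s ≤ 1)
    (hl : (t = 0 ∧ l = s / 2) ∨ (t = 1 ∧ l = 1 - s / 2))
    (h2 : z.2 = (1 - l) * (x i ^ 2 - Y) + l * (x (i + 1) ^ 2 - Y) - (k + 1) * s) :
    - Z < z.2 := by
  have e1 := hD.z1 i (by omega)
  have e2 := hD.z1 (i + 1) hi
  have e3 := hD.z2 i (by omega) k hk
  simp only [ps, if_pos hi] at e3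
  rcases hl with ⟨-, hl⟩ | ⟨-, hl⟩
  · rw [h2, hl]
    rcases hs.lt_or_eq with h | h
    · nlinarith [mul_lt_mul_of_pos_left e3 h, mul_nonneg (sub_nonneg.mpr hs1) (sub_nonneg.mpr e1.le)]
    · rw [← h]; linarith
  · rw [h2, hl]
    rcases hs.lt_or_eq with h | h
    · nlinarith [mul_lt_mul_of_pos_left e3 h, mul_nonneg (sub_nonneg.mpr hs1) (sub_nonneg.mpr e2.le)]
    · rw [← h]; linarith

lemma B_low (hD : Dat R B Y x δ Z) {t i k : ℕ} (hi : i + 1 = R) (hk : k < B) {l s : ℝ}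
    {z : ℝ × ℝ} (hs : 0 ≤ s) (hs1 : s ≤ 1)
    (hl : (t = 0 ∧ l = s / 2) ∨ (t = 1 ∧ l = 1 - s / 2))
    (h2 : z.2 = (1 - l) * (x i ^ 2 - Y) + l * (x 0 ^ 2 - Y) + (k + 1) * s) :
    - Z < z.2 := by
  have e1 := hD.z1 i (by omega)
  have e2 := hD.z1 0 (by have := hD.hR; omega)
  have e3 := hD.z2 i (by omega) k hk
  simp only [ps, if_neg (show ¬ (i + 1 < R) by omega)] at e3
  rcases hl with ⟨-, hl⟩ | ⟨-, hl⟩
  · rw [h2, hl]
    rcases hs.lt_or_eq with h | h
    · nlinarith [mul_lt_mul_of_pos_left e3 h, mul_nonneg (sub_nonneg.mpr hs1) (sub_nonneg.mpr e1.le)]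
    · rw [← h]; linarith
  · rw [h2, hl]
    rcases hs.lt_or_eq with h | h
    · nlinarith [mul_lt_mul_of_pos_left e3 h, mul_nonneg (sub_nonneg.mpr hs1) (sub_nonneg.mpr e2.le)]
    · rw [← h]; linarith

/-- same path of a bundle or different paths between the same rim vertices -/
lemma same_bundle {t t' k k' : ℕ} {l l' s s' c : ℝ} (hs : 0 ≤ s) (hs' : 0 ≤ s')
    (hl : (t = 0 ∧ l = s / 2) ∨ (t = 1 ∧ l = 1 - s / 2))
    (hl' : (t' = 0 ∧ l' = s' / 2) ∨ (t' = 1 ∧ l' = 1 - s' / 2))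
    (hs1 : s ≤ 1) (hs1' : s' ≤ 1) (hll : l = l') (hc : ((k : ℝ) + 1) * s = (k' + 1) * s')
    (hne : ¬ (t = t' ∧ k = k')) : (s = 0 ∨ s = 1) ∧ (s' = 0 ∨ s' = 1) := by
  have hk : (0 : ℝ) ≤ k := Nat.cast_nonneg k
  have hk' : (0 : ℝ) ≤ k' := Nat.cast_nonneg k'
  have hss : s = s' ∧ (t = t' ∨ s = 1) := by
    rcases hl with ⟨h1, h2⟩ | ⟨h1, h2⟩ <;> rcases hl' with ⟨h3, h4⟩ | ⟨h3, h4⟩
    · exact ⟨by linarith, Or.inl (by omega)⟩
    · exact ⟨by linarith, Or.inr (by linarith)⟩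
    · exact ⟨by linarith, Or.inr (by linarith)⟩
    · exact ⟨by linarith, Or.inl (by omega)⟩
  obtain ⟨e, h⟩ := hss
  subst e
  rcases h with h | h
  · have hkk : (k : ℝ) ≠ k' := fun e => hne ⟨h, by exact_mod_cast e⟩
    have h5 : ((k : ℝ) - k') * s = 0 := by linarith
    rcases mul_eq_zero.mp h5 with h6 | h6
    · exact absurd (by linarith) hkk
    · exact ⟨Or.inl h6, Or.inl h6⟩
  · exact ⟨Or.inr h, Or.inr h⟩

lemma lrange {t : ℕ} {l s : ℝ} (hs : 0 ≤ s) (hs1 : s ≤ 1)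
    (hl : (t = 0 ∧ l = s / 2) ∨ (t = 1 ∧ l = 1 - s / 2)) :
    0 ≤ l ∧ l ≤ 1 ∧ (l = 0 → s = 0) ∧ (l = 1 → s = 0) := by
  rcases hl with ⟨-, h⟩ | ⟨-, h⟩ <;> refine ⟨by linarith, by linarith, fun e => by linarith, fun e => by linarith⟩

/-- pairs of edges of the kinds `0, 1` of different bundles, not closing -/
lemma AA (hD : Dat R B Y x δ Z) {t t' i i' : ℕ} (hii : i < i') (hi' : i' + 1 < R)
    {l l' s s' : ℝ} (hs : 0 ≤ s) (hs' : 0 ≤ s') (hs1 : s ≤ 1) (hs1' : s' ≤ 1)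
    (hl : (t = 0 ∧ l = s / 2) ∨ (t = 1 ∧ l = 1 - s / 2))
    (hl' : (t' = 0 ∧ l' = s' / 2) ∨ (t' = 1 ∧ l' = 1 - s' / 2))
    (h : x i + l * (x (i + 1) - x i) = x i' + l' * (x (i' + 1) - x i')) :
    s = 0 ∧ s' = 0 := by
  obtain ⟨a1, a2, a3, a4⟩ := lrange hs hs1 hl
  obtain ⟨b1, b2, b3, b4⟩ := lrange hs' hs1' hl'
  have e1 := hD.mono i (i + 1) (by omega) (by omega)
  have e2 := hD.mono i' (i' + 1) (by omega) (by omega)
  have e3 : x (i + 1) ≤ x i' := by
    rcases Nat.lt_or_ge (i + 1) i' with h | h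
    · exact (hD.mono _ _ h (by omega)).le
    · rw [show i + 1 = i' by omega]
  have f1 : (1 - l) * (x (i + 1) - x i) + l' * (x (i' + 1) - x i') ≤ 0 := by linarith
  have f2 := mul_nonneg (sub_nonneg.mpr a2) (sub_nonneg.mpr e1.le)
  have f3 := mul_nonneg b1 (sub_nonneg.mpr e2.le)
  have g1 : (1 - l) * (x (i + 1) - x i) = 0 := by linarith
  have g2 : l' * (x (i' + 1) - x i') = 0 := by linarith
  have g3 : l = 1 := by
    rcases mul_eq_zero.mp g1 with h | h
    · linarith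
    · linarith
  have g4 : l' = 0 := by
    rcases mul_eq_zero.mp g2 with h | h
    · exact h
    · linarith
  exact ⟨a4 g3, b3 g4⟩

/-- the points `Y i k` of a smaller index are on the left -/
lemma Y_lt (hD : Dat R B Y x δ Z) {i i' k : ℕ} (hii : i < i') (hi' : i' < R) (hk : k < B) {s : ℝ}
    (hs : 0 ≤ s) (hs1 : s ≤ 1) : x i + s * ((k + 1) * δ) < x i' := by
  have e0 := hD.δlt i k (by omega) hk
  have e1 := hD.mono i (i + 1) (by omega) (by omega)
  have e3 : x (i + 1) ≤ x i' := by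
    rcases Nat.lt_or_ge (i + 1) i' with h | h
    · exact (hD.mono _ _ h (by omega)).le
    · rw [show i + 1 = i' by omega]
  have hk : (0 : ℝ) ≤ k := Nat.cast_nonneg k
  have e4 : 0 < ((k : ℝ) + 1) * δ := mul_pos (by linarith) hD.δpos
  nlinarith [mul_le_mul_of_nonneg_right hs1 e4.le]

lemma Y_ge (hD : Dat R B Y x δ Z) {i k : ℕ} {s : ℝ} (hs : 0 ≤ s) :
    x i ≤ x i + s * ((k + 1) * δ) := by
  have hk : (0 : ℝ) ≤ k := Nat.cast_nonneg k
  have e4 : 0 < ((k : ℝ) + 1) * δ := mul_pos (by linarith) hD.δpos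
  nlinarith [mul_nonneg hs e4.le]

lemma Y_inj (hD : Dat R B Y x δ Z) {i i' k k' : ℕ} (hi : i < R) (hi' : i' < R) (hk : k < B)
    (hk' : k' < B) (h : x i + (k + 1) * δ = x i' + (k' + 1) * δ) : i = i' ∧ k = k' := by
  have hii : i = i' := by
    rcases Nat.lt_trichotomy i i' with h1 | h1 | h1
    · have e1 := Y_lt hD h1 hi' hk zero_le_one le_rfl
      have e2 := Y_ge hD (i := i') (k := k') zero_le_one
      linarith
    · exact h1
    · have e1 := Y_lt hD h1 hi hk' zero_le_one le_rfl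
      have e2 := Y_ge hD (i := i) (k := k) zero_le_one
      linarith
  refine ⟨hii, ?_⟩
  subst hii
  have h2 : ((k : ℝ) - k') * δ = 0 := by linarith
  rcases mul_eq_zero.mp h2 with h3 | h3
  · exact_mod_cast (sub_eq_zero.mp h3)
  · exact absurd h3 hD.δpos.ne'

/-- spokes -/
lemma DD (hD : Dat R B Y x δ Z) {i i' k k' : ℕ} (hi : i < R) (hi' : i' < R) (hk : k < B)
    (hk' : k' < B) (hne : ¬ (i = i' ∧ k = k')) {z : ℝ × ℝ} {s s' : ℝ} (hs : 0 ≤ s) (hs1 : s ≤ 1)
    (hs' : 0 ≤ s') (hs1' : s' ≤ 1)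
    (h1 : z.1 = x i + s * ((k + 1) * δ)) (h2 : z.2 = (x i ^ 2 - Y) - s * (Z + (x i ^ 2 - Y)))
    (h1' : z.1 = x i' + s' * ((k' + 1) * δ))
    (h2' : z.2 = (x i' ^ 2 - Y) - s' * (Z + (x i' ^ 2 - Y))) : s = 0 ∧ s' = 0 := by
  rcases Nat.lt_trichotomy i i' with h | h | h
  · have e1 := Y_lt hD h hi' hk hs hs1
    have e2 := Y_ge hD (i := i') (k := k') hs'
    linarith
  · subst h
    have e0 := hD.z1 i hi
    have e1 : (s - s') * (Z + (x i ^ 2 - Y)) = 0 := by linarith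
    have e2 : s = s' := by
      rcases mul_eq_zero.mp e1 with h | h
      · linarith
      · linarith
    subst e2
    have e3 : s * (((k : ℝ) - k') * δ) = 0 := by linarith
    rcases mul_eq_zero.mp e3 with h | h
    · exact ⟨h, h⟩
    · exfalso
      rcases mul_eq_zero.mp h with h | h
      · exact hne ⟨rfl, by exact_mod_cast (sub_eq_zero.mp h)⟩
      · exact hD.δpos.ne' h
  · have e1 := Y_lt hD h hi hk' hs' hs1'
    have e2 := Y_ge hD (i := i) (k := k) hs
    linarith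

/-- spokes and paths of the rim -/
lemma AD (hD : Dat R B Y x δ Z) {t i i' k k' : ℕ} (hi : i + 1 < R) (hi' : i' < R) (hk : k < B)
    (hk' : k' < B) {z : ℝ × ℝ} {l s s' : ℝ} (hs : 0 ≤ s) (hs1 : s ≤ 1)
    (hs' : 0 ≤ s') (hs1' : s' ≤ 1)
    (hl : (t = 0 ∧ l = s / 2) ∨ (t = 1 ∧ l = 1 - s / 2))
    (h1 : z.1 = x i + l * (x (i + 1) - x i))
    (h2 : z.2 = (1 - l) * (x i ^ 2 - Y) + l * (x (i + 1) ^ 2 - Y) - (k + 1) * s)
    (h1' : z.1 = x i' + s' * ((k' + 1) * δ))
    (h2' : z.2 = (x i' ^ 2 - Y) - s' * (Z + (x i' ^ 2 - Y))) : s = 0 ∧ s' = 0 := by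
  obtain ⟨a1, a2, a3, a4⟩ := lrange hs hs1 hl
  have e1 := hD.mono i (i + 1) (by omega) (by omega)
  have hkk : (0 : ℝ) ≤ k' := Nat.cast_nonneg k'
  have eδ : 0 < ((k' : ℝ) + 1) * δ := mul_pos (by linarith) hD.δpos
  rcases Nat.lt_trichotomy i' i with h | h | h
  · have e2 := Y_lt hD h (by omega) hk' hs' hs1'
    nlinarith [mul_nonneg a1 (sub_nonneg.mpr e1.le)]
  · subst h
    have e0 := hD.δlt i' k' hi hk'
    rcases hl with ⟨-, hl⟩ | ⟨-, hl⟩
    · -- kind 0
      have e3 : s' * (((k' : ℝ) + 1) * δ) = s * ((x (i' + 1) - x i') / 2) := by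
        rw [hl] at h1; linarith
      have e4 := hD.z2 i' hi' k hk
      simp only [ps, if_pos hi] at e4
      have e5 : s' * (Z + (x i' ^ 2 - Y)) =
          s * ((x i' ^ 2 - Y) - ((x i' ^ 2 - Y + (x (i' + 1) ^ 2 - Y)) / 2 - (k + 1))) := by
        rw [hl] at h2; linarith
      rcases hs.lt_or_eq with hs0 | hs0
      · exfalso
        -- `s' ≥ s` from the first coordinate, `s' < s` from the second
        have e6 : s' * (Z + (x i' ^ 2 - Y)) < s * (Z + (x i' ^ 2 - Y)) := by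
          rw [e5]
          exact mul_lt_mul_of_pos_left (by linarith) hs0
        have e7 : s' < s := lt_of_mul_lt_mul_right e6 (by have := hD.z1 i' hi'; linarith)
        have e8 : s' * (((k' : ℝ) + 1) * δ) < s * ((x (i' + 1) - x i') / 2) := by
          calc s' * (((k' : ℝ) + 1) * δ) ≤ s * (((k' : ℝ) + 1) * δ) :=
                mul_le_mul_of_nonneg_right e7.le eδ.le
            _ < s * ((x (i' + 1) - x i') / 2) := mul_lt_mul_of_pos_left e0 hs0
        linarith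
      · refine ⟨hs0.symm, ?_⟩
        rw [← hs0, zero_mul] at e3
        rcases mul_eq_zero.mp e3 with h | h
        · exact h
        · exact absurd h eδ.ne'
    · -- kind 1
      exfalso
      have e3 : s' * (((k' : ℝ) + 1) * δ) ≤ ((k' : ℝ) + 1) * δ := by
        nlinarith [mul_le_mul_of_nonneg_right hs1' eδ.le]
      have e4 : (x (i' + 1) - x i') / 2 ≤ l * (x (i' + 1) - x i') := by
        rw [hl]
        nlinarith [mul_nonneg (sub_nonneg.mpr hs1) (sub_nonneg.mpr e1.le)]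
      linarith
  · -- `i < i'`
    have e3 : x (i + 1) ≤ x i' := by
      rcases Nat.lt_or_ge (i + 1) i' with h | h
      · exact (hD.mono _ _ h (by omega)).le
      · rw [show i + 1 = i' by omega]
    have f1 : (1 - l) * (x (i + 1) - x i) + s' * (((k' : ℝ) + 1) * δ) ≤ 0 := by linarith
    have f2 := mul_nonneg (sub_nonneg.mpr a2) (sub_nonneg.mpr e1.le)
    have f3 := mul_nonneg hs' eδ.le
    have g1 : (1 - l) * (x (i + 1) - x i) = 0 := by linarith
    have g2 : s' * (((k' : ℝ) + 1) * δ) = 0 := by linarith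
    have g3 : l = 1 := by
      rcases mul_eq_zero.mp g1 with h | h
      · linarith
      · linarith
    refine ⟨a4 g3, ?_⟩
    rcases mul_eq_zero.mp g2 with h | h
    · exact h
    · exact absurd h eδ.ne'

/-- spokes and closing paths -/
lemma BD (hD : Dat R B Y x δ Z) {i i' k k' : ℕ} (hi : i + 1 = R) (hi' : i' < R)
    (hk' : k' < B) {z : ℝ × ℝ} {l s s' : ℝ} (hs : 0 ≤ s) (hs' : 0 ≤ s')
    (h1 : z.1 = x i + l * (x 0 - x i))
    (h2 : z.2 = (1 - l) * (x i ^ 2 - Y) + l * (x 0 ^ 2 - Y) + (k + 1) * s)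
    (hs1' : s' ≤ 1)
    (h1' : z.1 = x i' + s' * ((k' + 1) * δ))
    (h2' : z.2 = (x i' ^ 2 - Y) - s' * (Z + (x i' ^ 2 - Y))) : s = 0 ∧ s' = 0 := by
  have e1 := B_top hD hi hs h1 h2
  have e2 := top_le hD hi'
  have e3 := hD.z3 i' hi' k' hk'
  have e4 : (1 - s') * (x i' ^ 2 - Y) ≤
      (1 - s') * ((x 0 + x (R - 1)) * x i' - x 0 * x (R - 1) - Y) :=
    mul_le_mul_of_nonneg_left e2 (sub_nonneg.mpr hs1')
  rcases hs'.lt_or_eq with h | h
  · exfalso
    have e5 := mul_lt_mul_of_pos_left e3 h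
    rw [h1', h2'] at e1
    nlinarith
  · refine ⟨?_, h.symm⟩
    rw [h1', h2', ← h] at e1
    nlinarith

/-- two different edges meet in common ends -/
lemma pair_aux (hD : Dat R B Y x δ Z) {t t' i i' k k' : ℕ} (hi : i < R) (hi' : i' < R) (hk : k < B)
    (hk' : k' < B) (hne : ¬ (t = t' ∧ i = i' ∧ k = k')) {z : ℝ × ℝ} {s s' : ℝ}
    (h : En R Y x δ Z t i k z s) (h' : En R Y x δ Z t' i' k' z s') :
    (s = 0 ∨ s = 1) ∧ (s' = 0 ∨ s' = 1) := by
  obtain ⟨hs, hs1, h⟩ := h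
  obtain ⟨hs', hs1', h'⟩ := h'
  have hR := hD.hR
  -- both of the kinds `0, 1`
  have case_AC : ∀ {u : ℝ}, - Z < z.2 → z.2 = - Z - 1 + u → u ≤ 1 → False := by
    intro u h1 h2 h3; linarith
  rcases h with ⟨ht, hiR, l, hl, h1, h2⟩ | ⟨ht, hiR, l, hl, h1, h2⟩ | ⟨ht, h1, h2⟩ | ⟨ht, h1, h2⟩ <;>
  rcases h' with ⟨ht', hiR', l', hl', h1', h2'⟩ | ⟨ht', hiR', l', hl', h1', h2'⟩ |
    ⟨ht', h1', h2'⟩ | ⟨ht', h1', h2'⟩
  · -- AA
    rcases Nat.lt_trichotomy i i' with hii | hii | hii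
    · have := AA hD hii hiR' hs hs' hs1 hs1' hl hl' (by rw [← h1, ← h1'])
      exact ⟨Or.inl this.1, Or.inl this.2⟩
    · subst hii
      have e1 := hD.mono i (i + 1) (by omega) (by omega)
      have e2 : l = l' := by
        have e3 : (l - l') * (x (i + 1) - x i) = 0 := by linarith
        rcases mul_eq_zero.mp e3 with h | h
        · linarith
        · linarith
      refine same_bundle (c := 0) hs hs' hl hl' hs1 hs1' e2 ?_ (fun e => hne ⟨e.1, rfl, e.2⟩)
      rw [← e2] at h2'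
      linarith
    · have := AA hD hii hiR hs' hs hs1' hs1 hl' hl (by rw [← h1, ← h1'])
      exact ⟨Or.inl this.2, Or.inl this.1⟩
  · -- AB
    obtain ⟨a1, a2, a3, a4⟩ := lrange hs hs1 hl
    have e1 := A_top hD hiR hs a1 a2 h1 h2
    have e2 := B_top hD hiR' hs' h1' h2'
    exact ⟨Or.inl (by linarith), Or.inl (by linarith)⟩
  · exact (case_AC (A_low hD hiR hk hs hs1 hl h2) h2' hs1').elim
  · have := AD hD hiR hi' hk hk' hs hs1 hs' hs1' hl h1 h2 h1' h2'
    exact ⟨Or.inl this.1, Or.inl this.2⟩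
  · -- BA
    obtain ⟨a1, a2, a3, a4⟩ := lrange hs' hs1' hl'
    have e1 := A_top hD hiR' hs' a1 a2 h1' h2'
    have e2 := B_top hD hiR hs h1 h2
    exact ⟨Or.inl (by linarith), Or.inl (by linarith)⟩
  · -- BB
    have hii : i = i' := by omega
    subst hii
    have e1 := hD.mono 0 i (by omega) (by omega)
    have e2 : l = l' := by
      have e3 : (l - l') * (x 0 - x i) = 0 := by linarith
      rcases mul_eq_zero.mp e3 with h | h
      · linarith
      · linarith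
    refine same_bundle (c := 0) hs hs' hl hl' hs1 hs1' e2 ?_ (fun e => hne ⟨e.1, rfl, e.2⟩)
    rw [← e2] at h2'
    linarith
  · exact (case_AC (B_low hD hiR hk hs hs1 hl h2) h2' hs1').elim
  · have := BD hD hiR hi' hk' hs hs' h1 h2 hs1' h1' h2'
    exact ⟨Or.inl this.1, Or.inl this.2⟩
  · exact (case_AC (A_low hD hiR' hk' hs' hs1' hl' h2') h2 hs1).elim
  · exact (case_AC (B_low hD hiR' hk' hs' hs1' hl' h2') h2 hs1).elim
  · -- CC
    have e1 : s = s' := by linarith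
    subst e1
    have e2 : s * ((x i + (k + 1) * δ) - (x i' + (k' + 1) * δ)) = 0 := by linarith
    rcases mul_eq_zero.mp e2 with h | h
    · exact ⟨Or.inl h, Or.inl h⟩
    · exfalso
      have := Y_inj hD hi hi' hk hk' (sub_eq_zero.mp h)
      exact hne ⟨by omega, this.1, this.2⟩
  · -- CD
    have e1 := hD.z1 i' hi'
    have e2 : 0 ≤ (1 - s') * (Z + (x i' ^ 2 - Y)) :=
      mul_nonneg (by linarith) (by linarith)
    have e3 : s = 1 := by linarith
    have e4 : (1 - s') * (Z + (x i' ^ 2 - Y)) = 0 := by linarith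
    have e5 : s' = 1 := by
      rcases mul_eq_zero.mp e4 with h | h
      · linarith
      · linarith
    exact ⟨Or.inr e3, Or.inr e5⟩
  · have := AD hD hiR' hi hk' hk hs' hs1' hs hs1 hl' h1' h2' h1 h2
    exact ⟨Or.inl this.2, Or.inl this.1⟩
  · have := BD hD hiR' hi hk hs' hs h1' h2' hs1 h1 h2
    exact ⟨Or.inl this.2, Or.inl this.1⟩
  · -- DC
    have e1 := hD.z1 i hi
    have e2 : 0 ≤ (1 - s) * (Z + (x i ^ 2 - Y)) :=
      mul_nonneg (by linarith) (by linarith)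
    have e3 : s' = 1 := by linarith
    have e4 : (1 - s) * (Z + (x i ^ 2 - Y)) = 0 := by linarith
    have e5 : s = 1 := by
      rcases mul_eq_zero.mp e4 with h | h
      · linarith
      · linarith
    exact ⟨Or.inr e5, Or.inr e3⟩
  · have := DD hD hi hi' hk hk' (fun e => hne ⟨by omega, e.1, e.2⟩) hs hs1 hs' hs1' h1 h2 h1' h2'
    exact ⟨Or.inl this.1, Or.inl this.2⟩

/-- the positions are distinct -/
lemma ps_inj (hD : Dat R B Y x δ Z) (v v' : Fv) (hv : Fv.Valid R B v) (hv' : Fv.Valid R B v')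
    (h : ps R Y x δ Z v = ps R Y x δ Z v') : v = v' := by
  have hR := hD.hR
  have xinj : ∀ i i', i < R → i' < R → x i = x i' → i = i' := by
    intro i i' hi hi' e
    rcases Nat.lt_trichotomy i i' with h1 | h1 | h1
    · have := hD.mono i i' h1 hi'; linarith
    · exact h1
    · have := hD.mono i' i h1 hi; linarith
  -- the first coordinate of `X i k`, `i + 1 < R`
  have rX : ∀ i j k, i < R → j < R → k < B → rp Y x i ≠ ps R Y x δ Z (.X j k) := by
    intro i j k hi hj hk e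
    by_cases hj1 : j + 1 < R
    · simp only [ps, if_pos hj1, rp] at e
      have e1 : x i = (x j + x (j + 1)) / 2 := congrArg Prod.fst e
      have e2 := hD.mono j (j + 1) (by omega) hj1
      rcases Nat.lt_or_ge j i with h1 | h1
      · have : x (j + 1) ≤ x i := by
          rcases Nat.lt_or_ge (j + 1) i with h | h
          · exact (hD.mono _ _ h hi).le
          · rw [show j + 1 = i by omega]
        linarith
      · have : x i ≤ x j := by
          rcases Nat.lt_or_ge i j with h | h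
          · exact (hD.mono _ _ h hj).le
          · rw [show i = j by omega]
        linarith
    · simp only [ps, if_neg hj1, rp] at e
      have e1 : x i = (x 0 + x j) / 2 := congrArg Prod.fst e
      have e2 : x i ^ 2 - Y = ((x 0 ^ 2 - Y) + (x j ^ 2 - Y)) / 2 + (k + 1) := congrArg Prod.snd e
      have e3 := top_le hD hi
      have hjR : R - 1 = j := by omega
      rw [hjR] at e3
      have hk0 : (0 : ℝ) ≤ k := Nat.cast_nonneg k
      have e4 : (x 0 + x j) * x i = (x 0 + x j) * ((x 0 + x j) / 2) := congrArg _ e1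
      linarith
  have XX : ∀ i k j l, i < R → k < B → j < R → l < B →
      ps R Y x δ Z (.X i k) = ps R Y x δ Z (.X j l) → i = j ∧ k = l := by
    -- via the parametrisation
    intro i k j l hi hk hj hl e
    have hEn : ∀ i k, i < R → k < B → En R Y x δ Z 0 i k (ps R Y x δ Z (.X i k)) 1 := by
      intro i k hi hk
      refine ⟨zero_le_one, le_rfl, ?_⟩
      by_cases h1 : i + 1 < R
      · left
        refine ⟨by omega, h1, 1 / 2, Or.inl ⟨rfl, by norm_num⟩, ?_, ?_⟩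
        · simp only [ps, if_pos h1]; ring
        · simp only [ps, if_pos h1]; ring
      · right; left
        refine ⟨by omega, by omega, 1 / 2, Or.inl ⟨rfl, by norm_num⟩, ?_, ?_⟩
        · simp only [ps, if_neg h1]; ring
        · simp only [ps, if_neg h1]; ring
    by_contra hne
    have e1 := hEn i k hi hk
    have e2 := hEn j l hj hl
    rw [← e] at e2
    -- the coordinates
    obtain ⟨-, -, e1⟩ := e1
    obtain ⟨-, -, e2⟩ := e2
    rcases e1 with ⟨-, hiR, l1, hl1, h1, h2⟩ | ⟨-, hiR, l1, hl1, h1, h2⟩ | ⟨ht, -⟩ | ⟨ht, -⟩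
    · rcases e2 with ⟨-, hjR, l2, hl2, h1', h2'⟩ | ⟨-, hjR, l2, hl2, h1', h2'⟩ | ⟨ht, -⟩ | ⟨ht, -⟩
      · have a1 : l1 = 1 / 2 := by rcases hl1 with ⟨-, h⟩ | ⟨h, -⟩ <;> [exact h; omega]
        have a2 : l2 = 1 / 2 := by rcases hl2 with ⟨-, h⟩ | ⟨h, -⟩ <;> [exact h; omega]
        have hij : i = j := by
          rcases Nat.lt_trichotomy i j with h | h | h
          · have := AA hD h hjR zero_le_one zero_le_one le_rfl le_rfl hl1 hl2 (by rw [← h1, ← h1'])
            linarith [this.1]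
          · exact h
          · have := AA hD h hiR zero_le_one zero_le_one le_rfl le_rfl hl2 hl1 (by rw [← h1, ← h1'])
            linarith [this.1]
        subst hij
        apply hne
        refine ⟨rfl, ?_⟩
        rw [a1] at h2
        rw [a2] at h2'
        have : (k : ℝ) = l := by linarith
        exact_mod_cast this
      · have b1 := A_top hD hiR zero_le_one (lrange zero_le_one le_rfl hl1).1
          (lrange zero_le_one le_rfl hl1).2.1 h1 h2
        have b2 := B_top hD hjR zero_le_one h1' h2'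
        linarith
      · omega
      · omega
    · rcases e2 with ⟨-, hjR, l2, hl2, h1', h2'⟩ | ⟨-, hjR, l2, hl2, h1', h2'⟩ | ⟨ht, -⟩ | ⟨ht, -⟩
      · have b1 := A_top hD hjR zero_le_one (lrange zero_le_one le_rfl hl2).1
          (lrange zero_le_one le_rfl hl2).2.1 h1' h2'
        have b2 := B_top hD hiR zero_le_one h1 h2
        linarith
      · have a1 : l1 = 1 / 2 := by rcases hl1 with ⟨-, h⟩ | ⟨h, -⟩ <;> [exact h; omega]
        have a2 : l2 = 1 / 2 := by rcases hl2 with ⟨-, h⟩ | ⟨h, -⟩ <;> [exact h; omega]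
        have hij : i = j := by omega
        subst hij
        apply hne
        refine ⟨rfl, ?_⟩
        rw [a1] at h2
        rw [a2] at h2'
        have : (k : ℝ) = l := by linarith
        exact_mod_cast this
      · omega
      · omega
    · omega
    · omega
  -- heights
  have hr : ∀ i < R, - Z < (rp Y x i).2 := fun i hi => hD.z1 i hi
  cases v with
  | r i =>
    cases v' with
    | r j =>
      have e1 : x i = x j := congrArg Prod.fst h
      rw [xinj i j hv hv' e1]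
    | X j k => exact absurd h (rX i j k hv hv'.1 hv'.2)
    | Y j k =>
      have e1 : (rp Y x i).2 = - Z := congrArg Prod.snd h
      have := hr i hv
      linarith
    | h =>
      have e1 : (rp Y x i).2 = - Z - 1 := congrArg Prod.snd h
      have := hr i hv
      linarith
  | X i k =>
    cases v' with
    | r j => exact absurd h.symm (rX j i k hv' hv.1 hv.2)
    | X j l =>
      have := XX i k j l hv.1 hv.2 hv'.1 hv'.2 h
      rw [this.1, this.2]
    | Y j l =>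
      have e1 : (ps R Y x δ Z (.X i k)).2 = - Z := congrArg Prod.snd h
      have := hD.z2 i hv.1 k hv.2
      linarith
    | h =>
      have e1 : (ps R Y x δ Z (.X i k)).2 = - Z - 1 := congrArg Prod.snd h
      have := hD.z2 i hv.1 k hv.2
      linarith
  | Y i k =>
    cases v' with
    | r j =>
      have e1 : - Z = (rp Y x j).2 := congrArg Prod.snd h
      have := hr j hv'
      linarith
    | X j l =>
      have e1 : - Z = (ps R Y x δ Z (.X j l)).2 := congrArg Prod.snd h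
      have := hD.z2 j hv'.1 l hv'.2
      linarith
    | Y j l =>
      have e1 : x i + (k + 1) * δ = x j + (l + 1) * δ := congrArg Prod.fst h
      have := Y_inj hD hv.1 hv'.1 hv.2 hv'.2 e1
      rw [this.1, this.2]
    | h =>
      have e1 : - Z = - Z - 1 := congrArg Prod.snd h
      linarith
  | h =>
    cases v' with
    | r j =>
      have e1 : - Z - 1 = (rp Y x j).2 := congrArg Prod.snd h
      have := hr j hv'
      linarith
    | X j l =>
      have e1 : - Z - 1 = (ps R Y x δ Z (.X j l)).2 := congrArg Prod.snd h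
      have := hD.z2 j hv'.1 l hv'.2
      linarith
    | Y j l =>
      have e1 : - Z - 1 = - Z := congrArg Prod.snd h
      linarith
    | h => rfl

/-- an edge meets the polygon only in its rim vertex -/
lemma hull_aux (hD : Dat R B Y x δ Z) {t i k : ℕ} (hi : i < R) (hk : k < B) {z : ℝ × ℝ} {s : ℝ}
    (h : En R Y x δ Z t i k z s) (hz : InCHull R Y x z) : s = 0 ∧ t ≠ 2 := by
  obtain ⟨hs, hs1, h⟩ := h
  have hR := hD.hR
  have hk0 : (0 : ℝ) ≤ k := Nat.cast_nonneg k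
  have fin : (k + 1 : ℝ) * s ≤ 0 → s = 0 := by
    intro h1
    nlinarith [mul_nonneg hk0 hs]
  rcases h with ⟨ht, hiR, l, hl, h1, h2⟩ | ⟨ht, hiR, l, hl, h1, h2⟩ | ⟨ht, h1, h2⟩ | ⟨ht, h1, h2⟩
  · refine ⟨fin ?_, by omega⟩
    have e1 := hz.1 i hiR
    rw [h1, h2] at e1
    nlinarith
  · refine ⟨fin ?_, by omega⟩
    have e1 := hz.2
    have hiR' : R - 1 = i := by omega
    rw [h1, h2, hiR'] at e1
    nlinarith
  · exfalso
    have e1 := hz.1 0 (by omega)
    have e2 := hD.z4 0 (by omega) i hi k hk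
    have e3 := hD.z1 0 (by omega)
    rw [h1, h2] at e1
    rcases hs.lt_or_eq with h | h
    · have e5 := mul_lt_mul_of_pos_left e2 h
      have e6 := mul_le_mul_of_nonneg_left e3.le (sub_nonneg.mpr hs1)
      nlinarith
    · rw [← h] at e1
      nlinarith
  · refine ⟨?_, by omega⟩
    -- the chord next to `i`
    obtain ⟨j, hj, hji⟩ : ∃ j, j + 1 < R ∧ (j = i ∨ j + 1 = i) := by
      rcases Nat.lt_or_ge (i + 1) R with h | h
      · exact ⟨i, h, Or.inl rfl⟩
      · exact ⟨i - 1, by omega, Or.inr (by omega)⟩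
    have e1 := hz.1 j hj
    have e2 := hD.z4 j hj i hi k hk
    have e4 : (x j + x (j + 1)) * x i - x j * x (j + 1) - Y = x i ^ 2 - Y := by
      rcases hji with h | h
      · rw [h]; ring
      · rw [h]; ring
    rw [h1, h2] at e1
    rcases hs.lt_or_eq with h | h
    · exfalso
      have e5 := mul_lt_mul_of_pos_left e2 h
      nlinarith
    · exact h.symm

/-- with the data, there is a frame -/
lemma isFrame (hD : Dat R B Y x δ Z) : IsFrame R B Y x (ps R Y x δ Z) where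
  rim i _ := rfl
  inj v v' hv hv' h := ps_inj hD v v' hv hv' h
  pair := by
    rintro ⟨t, i, k⟩ ⟨t', i', k'⟩ he he' hne z hz hz'
    obtain ⟨s, h1, h2, -⟩ := exists_En (Z := Z) hD.hR t i k he hz
    obtain ⟨s', h1', h2', -⟩ := exists_En (Z := Z) hD.hR t' i' k' he' hz'
    have h3 := pair_aux hD he.2.1 he'.2.1 he.2.2 he'.2.2 (by
      rintro ⟨rfl, rfl, rfl⟩; exact hne rfl) h1 h1'
    obtain ⟨v, hv, hvV, hvz⟩ := h2 h3.1
    obtain ⟨v', hv', hvV', hvz'⟩ := h2' h3.2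
    have e : v = v' := ps_inj hD v v' hvV hvV' (hvz.symm.trans hvz')
    exact ⟨v, hv, by rw [e]; exact hv', hvz⟩
  hull := by
    rintro ⟨t, i, k⟩ he z hz hc
    obtain ⟨s, h1, -, h3⟩ := exists_En (Z := Z) hD.hR t i k he hz
    have h4 := hull_aux hD he.2.1 he.2.2 h1 hc
    exact h3 h4.1 h4.2

/-- a bound for finitely many numbers -/
lemma exists_bd {α : Type*} (s : Finset α) (f : α → ℝ) : ∃ Z, ∀ a ∈ s, f a < Z := by
  classical
  obtain ⟨M, hM⟩ := (s.image f).exists_le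
  exact ⟨M + 1, fun a ha => by
    have := hM (f a) (Finset.mem_image_of_mem f ha)
    linarith⟩

lemma exists_pos_lt {α : Type*} (s : Finset α) (f : α → ℝ) (hf : ∀ a ∈ s, 0 < f a) :
    ∃ δ, 0 < δ ∧ ∀ a ∈ s, δ < f a := by
  classical
  obtain ⟨M, hM⟩ := exists_bd s (fun a => (f a)⁻¹)
  have hM1 : 0 < max M 1 := lt_max_of_lt_right one_pos
  refine ⟨(max M 1)⁻¹, inv_pos.mpr hM1, fun a ha => ?_⟩
  have h1 : (f a)⁻¹ < max M 1 := lt_max_of_lt_left (hM a ha)
  rw [inv_lt_comm₀ hM1 (hf a ha)]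
  exact h1

end Pool.Agent.K1H23.PC.FRM

namespace Pool.Agent.K1H23.PC

open FRM

theorem t_FRM : S_FRM := by
  intro R B Y x hR hmono'
  have hmono : ∀ i j, i < j → j < R → x i < x j := by
    intro i j hij hj
    induction j with
    | zero => omega
    | succ j ih =>
      rcases Nat.lt_or_ge i j with h | h
      · exact (ih h (by omega)).trans (hmono' j hj)
      · rw [show i = j by omega]; exact hmono' j hj
  obtain ⟨δ₀, hδ₀, hδ⟩ := exists_pos_lt (Finset.range (R - 1)) (fun i => (x (i + 1) - x i) / 2)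
    (by
      intro i hi
      have := hmono i (i + 1) (by omega) (by have := Finset.mem_range.mp hi; omega)
      linarith)
  set δ : ℝ := δ₀ / (B + 1) with hδdef
  have hB : (0 : ℝ) ≤ B := Nat.cast_nonneg B
  have hδpos : 0 < δ := div_pos hδ₀ (by linarith)
  have hδlt : ∀ i k, i + 1 < R → k < B → (k + 1 : ℝ) * δ < (x (i + 1) - x i) / 2 := by
    intro i k hi hk
    have h1 : (k + 1 : ℝ) ≤ B := by exact_mod_cast hk
    have h2 := hδ i (Finset.mem_range.mpr (by omega))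
    have h3 : (k + 1 : ℝ) * δ ≤ δ₀ := by
      calc (k + 1 : ℝ) * δ ≤ (B + 1) * δ := mul_le_mul_of_nonneg_right (by linarith) hδpos.le
        _ = δ₀ := by rw [hδdef]; field_simp
    linarith
  obtain ⟨Z1, hZ1⟩ := exists_bd (Finset.range R) (fun i => - (x i ^ 2 - Y))
  obtain ⟨Z2, hZ2⟩ := exists_bd (Finset.range R ×ˢ Finset.range B)
    (fun p => - (ps R Y x δ 0 (.X p.1 p.2)).2)
  obtain ⟨Z3, hZ3⟩ := exists_bd (Finset.range R ×ˢ Finset.range B)
    (fun p => - ((x 0 + x (R - 1)) * (x p.1 + (p.2 + 1) * δ) - x 0 * x (R - 1) - Y))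
  obtain ⟨Z4, hZ4⟩ := exists_bd (Finset.range R ×ˢ Finset.range R ×ˢ Finset.range B)
    (fun p => - ((x p.1 + x (p.1 + 1)) * (x p.2.1 + (p.2.2 + 1) * δ) -
      x p.1 * x (p.1 + 1) - Y))
  set Z : ℝ := max (max Z1 Z2) (max Z3 Z4) with hZdef
  have l1 : Z1 ≤ Z := (le_max_left _ _).trans (le_max_left _ _)
  have l2 : Z2 ≤ Z := (le_max_right _ _).trans (le_max_left _ _)
  have l3 : Z3 ≤ Z := (le_max_left _ _).trans (le_max_right _ _)
  have l4 : Z4 ≤ Z := (le_max_right _ _).trans (le_max_right _ _)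
  refine ⟨ps R Y x δ Z, isFrame ⟨hR, hmono, hδpos, hδlt, ?_, ?_, ?_, ?_⟩⟩
  · intro i hi
    have := hZ1 i (Finset.mem_range.mpr hi)
    linarith
  · intro i hi k hk
    have h1 := hZ2 (i, k) (Finset.mem_product.mpr ⟨Finset.mem_range.mpr hi, Finset.mem_range.mpr hk⟩)
    have h2 : (ps R Y x δ Z (.X i k)).2 = (ps R Y x δ 0 (.X i k)).2 := rfl
    simp only at h1
    rw [h2]
    linarith
  · intro i hi k hk
    have h1 := hZ3 (i, k) (Finset.mem_product.mpr ⟨Finset.mem_range.mpr hi, Finset.mem_range.mpr hk⟩)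
    simp only at h1
    linarith
  · intro j hj i hi k hk
    have h1 := hZ4 (j, i, k) (Finset.mem_product.mpr ⟨Finset.mem_range.mpr (by omega),
      Finset.mem_product.mpr ⟨Finset.mem_range.mpr hi, Finset.mem_range.mpr hk⟩⟩)
    simp only at h1
    linarith

end Pool.Agent.K1H23.PC
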