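import Pool.Agent.K1H23.PC.Stm

set_option autoImplicit false

/-! # Points in general position (task 2314, helper10) -/

namespace Pool.Agent.K1H23.PC

/-- a point near `p` outside finitely many lines -/
theorem gen_avoid (L : Finset (ℝ × ℝ × ℝ)) (hL : ∀ l ∈ L, l.1 ≠ 0 ∨ l.2.1 ≠ 0) (p : ℝ × ℝ)
    (ε : ℝ) (hε : 0 < ε) : ∃ x : ℝ × ℝ, |x.1 - p.1| < ε ∧ |x.2 - p.2| < ε ∧
      ∀ l ∈ L, l.1 * x.1 + l.2.1 * x.2 + l.2.2 ≠ 0 := by
  classical
  open Polynomial in
  set f : ℝ × ℝ × ℝ → ℝ[X] := fun l =>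
    C l.2.1 * X ^ 2 + C l.1 * X + C (l.1 * p.1 + l.2.1 * p.2 + l.2.2) with hf
  have hf0 : ∀ l ∈ L, f l ≠ 0 := by
    intro l hl h
    have h1 : (f l).coeff 2 = l.2.1 := by
      simp [hf]
    have h2 : (f l).coeff 1 = l.1 := by
      simp [hf, Polynomial.coeff_C]
    rw [h, Polynomial.coeff_zero] at h1 h2
    rcases hL l hl with h3 | h3
    · exact h3 h2.symm
    · exact h3 h1.symm
  have hF : ∏ l ∈ L, f l ≠ 0 := Finset.prod_ne_zero_iff.2 hf0
  have hfin : {t : ℝ | (∏ l ∈ L, f l).IsRoot t}.Finite := Polynomial.finite_setOfPred_isRoot hF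
  have hinf : (Set.Ioo (0 : ℝ) (min ε 1)).Infinite := Set.Ioo_infinite (lt_min hε one_pos)
  obtain ⟨t, ⟨ht0, ht1⟩, ht⟩ := hinf.exists_notMem_finite hfin
  have ht2 : t < ε := ht1.trans_le (min_le_left _ _)
  have ht3 : t < 1 := ht1.trans_le (min_le_right _ _)
  refine ⟨(p.1 + t, p.2 + t ^ 2), ?_, ?_, fun l hl h => ht ?_⟩
  · rw [add_sub_cancel_left, abs_of_pos ht0]
    exact ht2
  · rw [add_sub_cancel_left, abs_of_pos (by positivity)]
    nlinarith
  · rw [Set.mem_ofPred_eq, Polynomial.IsRoot.def, Polynomial.eval_prod]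
    refine Finset.prod_eq_zero hl ?_
    simp only [hf, Polynomial.eval_add, Polynomial.eval_mul, Polynomial.eval_C,
      Polynomial.eval_pow, Polynomial.eval_X]
    dsimp only at h
    linear_combination h

theorem t_GEN : S_GEN := by
  classical
  intro P p ε Z hε
  induction P with
  | zero =>
    exact ⟨p, fun j hj => absurd hj (Nat.not_lt_zero j), fun j hj => absurd hj (Nat.not_lt_zero j),
      fun j hj => absurd hj (Nat.not_lt_zero j)⟩
  | succ P ih =>
    obtain ⟨p', h1, h2, h3⟩ := ih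
    set L : Finset (ℝ × ℝ × ℝ) :=
      (Z.image fun z => ((1 : ℝ), (0 : ℝ), -z.1)) ∪
      (((Z ×ˢ Z).filter fun z => z.1 ≠ z.2).image fun z =>
        (z.2.2 - z.1.2, -(z.2.1 - z.1.1), -z.1.1 * (z.2.2 - z.1.2) + z.1.2 * (z.2.1 - z.1.1))) ∪
      ((Finset.range P).image fun j => ((1 : ℝ), (0 : ℝ), -(p' j).1)) ∪
      ((Z ×ˢ Finset.range P).image fun w =>
        ((p' w.2).2 - w.1.2, -((p' w.2).1 - w.1.1),
          -w.1.1 * ((p' w.2).2 - w.1.2) + w.1.2 * ((p' w.2).1 - w.1.1))) with hLd
    have hL : ∀ l ∈ L, l.1 ≠ 0 ∨ l.2.1 ≠ 0 := by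
      intro l hl
      simp only [hLd, Finset.mem_union, Finset.mem_image, Finset.mem_filter, Finset.mem_product,
        Finset.mem_range] at hl
      rcases hl with ((⟨z, hz, rfl⟩ | ⟨⟨z, z'⟩, ⟨-, hne⟩, rfl⟩) | ⟨j, hj, rfl⟩) |
        ⟨⟨z, j⟩, ⟨hz, hj⟩, rfl⟩
      · exact Or.inl one_ne_zero
      · by_contra hcon
        push Not at hcon
        obtain ⟨h4, h5⟩ := hcon
        dsimp only at h4 h5 hne
        apply hne
        refine Prod.ext ?_ ?_
        · linarith
        · linarith
      · exact Or.inl one_ne_zero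
      · by_contra hcon
        push Not at hcon
        obtain ⟨h4, h5⟩ := hcon
        dsimp only at h4 h5 hz hj
        apply (h2 j hj).1
        have : p' j = z := Prod.ext (by linarith) (by linarith)
        rw [this]
        exact hz
    obtain ⟨x, hx1, hx2, hx3⟩ := gen_avoid L hL (p P) ε hε
    have hxL : ∀ a b c : ℝ, (a, b, c) ∈ L → a * x.1 + b * x.2 + c ≠ 0 := fun a b c h =>
      hx3 (a, b, c) h
    have hnew : ∀ j < P, (Function.update p' P x) j = p' j := fun j hj =>
      Function.update_of_ne (ne_of_lt hj) _ _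
    have hP : (Function.update p' P x) P = x := Function.update_self _ _ _
    have key1 : x ∉ Z ∧ ∀ z ∈ Z, ∀ z' ∈ Z, z ≠ z' → cr (x - z) (z' - z) ≠ 0 := by
      constructor
      · intro hx
        refine hxL 1 0 (-x.1) ?_ (by ring)
        simp only [hLd, Finset.mem_union, Finset.mem_image]
        exact Or.inl (Or.inl (Or.inl ⟨x, hx, rfl⟩))
      · intro z hz z' hz' hne h
        refine hxL (z'.2 - z.2) (-(z'.1 - z.1)) (-z.1 * (z'.2 - z.2) + z.2 * (z'.1 - z.1)) ?_ ?_
        · simp only [hLd, Finset.mem_union, Finset.mem_image]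
          exact Or.inl (Or.inl (Or.inr ⟨(z, z'), by
            rw [Finset.mem_filter, Finset.mem_product]
            exact ⟨⟨hz, hz'⟩, hne⟩, rfl⟩))
        · unfold cr at h
          simp only [Prod.fst_sub, Prod.snd_sub] at h
          linear_combination h
    have key2 : ∀ j < P, x ≠ p' j ∧ ∀ z ∈ Z, cr (x - z) (p' j - z) ≠ 0 := by
      intro j hj
      constructor
      · intro hx
        refine hxL 1 0 (-(p' j).1) ?_ (by rw [hx]; ring)
        simp only [hLd, Finset.mem_union, Finset.mem_image]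
        exact Or.inl (Or.inr ⟨j, Finset.mem_range.2 hj, rfl⟩)
      · intro z hz h
        refine hxL ((p' j).2 - z.2) (-((p' j).1 - z.1))
          (-z.1 * ((p' j).2 - z.2) + z.2 * ((p' j).1 - z.1)) ?_ ?_
        · simp only [hLd, Finset.mem_union, Finset.mem_image]
          exact Or.inr ⟨(z, j), by
            rw [Finset.mem_product]
            exact ⟨hz, Finset.mem_range.2 hj⟩, rfl⟩
        · unfold cr at h
          simp only [Prod.fst_sub, Prod.snd_sub] at h
          linear_combination h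
    refine ⟨Function.update p' P x, fun j hj => ?_, fun j hj => ?_, fun j hj j' hj' hne => ?_⟩
    · rcases Nat.lt_succ_iff_lt_or_eq.1 hj with h | rfl
      · rw [hnew j h]
        exact h1 j h
      · rw [hP]
        exact ⟨hx1, hx2⟩
    · rcases Nat.lt_succ_iff_lt_or_eq.1 hj with h | rfl
      · rw [hnew j h]
        exact h2 j h
      · rw [hP]
        exact key1
    · rcases Nat.lt_succ_iff_lt_or_eq.1 hj with h | h
      · rcases Nat.lt_succ_iff_lt_or_eq.1 hj' with h' | h'
        · rw [hnew j h, hnew j' h']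
          exact h3 j h j' h' hne
        · rw [h', hnew j h, hP]
          refine ⟨(key2 j h).1.symm, fun z hz h4 => (key2 j h).2 z hz ?_⟩
          unfold cr at h4 ⊢
          linear_combination -h4
      · rcases Nat.lt_succ_iff_lt_or_eq.1 hj' with h' | h'
        · rw [h, hP, hnew j' h']
          exact key2 j' h'
        · exact absurd (h.trans h'.symm) hne

end Pool.Agent.K1H23.PC
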