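import Pool.Agent.K1H23.PC.Stm

/-!
# From the orders of the crossings to real lines
-/

namespace Pool.Agent.K1H23.PC

theorem k12_low : ∀ a < 11, ∀ b < 12, ent k12 a b = decide (a < b) := by decide

theorem k12_mid (y : ℕ) (hy : y < 11) (z : ℕ) (hz : z < 12) (h0 : 0 < y) (h1 : y < z) :
    ent k12 (10 + y) 0 = true ∧ ent k12 (10 + y) y = false ∧ ent k12 (10 + y) z = true := by
  have h : ∀ y < 11, ∀ z < 12, (0 < y ∧ y < z) → (ent k12 (10 + y) 0 = true ∧
      ent k12 (10 + y) y = false ∧ ent k12 (10 + y) z = true) := by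
    intro y hy
    interval_cases y <;> decide
  exact h y hy z hz ⟨h0, h1⟩

theorem sg2_old {k : ℕ → ℕ → Bool} {P : ℕ} {sg : ℕ → ℕ → Bool} {i c : ℕ} (hi : i < P) :
    sg2 k P sg i c = sg i (c / 12) := by
  unfold sg2
  rw [if_pos hi]

theorem sg2_new {k : ℕ → ℕ → Bool} {P : ℕ} {sg : ℕ → ℕ → Bool} {j r c : ℕ} (hr : r < 31) :
    sg2 k P sg (P + 31 * j + r) c = if c / 12 < j then true else if j < c / 12 then false
      else k r (c % 12) := by
  unfold sg2
  have h1 : (P + 31 * j + r - P) / 31 = j := by omega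
  have h2 : (P + 31 * j + r - P) % 31 = r := by omega
  rw [if_neg (by omega), h1, h2]

theorem t_GEO (hL : S_LINE) (hK : S_K12) : S_GEO := by
  rintro n P sg ⟨q, τ, -, hcr, hτ⟩
  obtain ⟨P1, hP1⟩ : ∃ P1, P1 = P + (n - 1) := ⟨_, rfl⟩
  rw [← hP1] at hτ
  -- the crossings with the other clusters come first
  have ha : ∀ j < n + 1, ∀ a b, a < b → b < 12 → ∀ l < 12 * (n + 1), l / 12 ≠ j →
      τ (12 * j + a) l < τ (12 * j + a) (12 * j + b) ∧
      τ (12 * j + b) l < τ (12 * j + b) (12 * j + a) := by
    intro j hj a b hab hb l hl hlj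
    have hi : P1 + 31 * j + a < P1 + 31 * (n + 1) := by omega
    have e1 : sg2 (ent k12) P1 (sg1 P sg) (P1 + 31 * j + a) (12 * j + a) = false := by
      rw [sg2_new (by omega), if_neg (by omega), if_neg (by omega),
        show (12 * j + a) % 12 = a by omega, k12_low a (by omega) a (by omega)]
      simp
    have e2 : sg2 (ent k12) P1 (sg1 P sg) (P1 + 31 * j + a) (12 * j + b) = true := by
      rw [sg2_new (by omega), if_neg (by omega), if_neg (by omega),
        show (12 * j + b) % 12 = b by omega, k12_low a (by omega) b (by omega)]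
      simpa using hab
    rcases Nat.lt_or_gt_of_ne hlj with h | h
    · have e3 : sg2 (ent k12) P1 (sg1 P sg) (P1 + 31 * j + a) l = true := by
        rw [sg2_new (by omega), if_pos h]
      have := (hτ _ hi l (12 * j + a) (12 * j + b) (by omega) (by omega) (by omega)).2 e3 e1 e2
      exact ⟨this.2.1, this.2.2⟩
    · have e3 : sg2 (ent k12) P1 (sg1 P sg) (P1 + 31 * j + a) l = false := by
        rw [sg2_new (by omega), if_neg (by omega), if_pos h]
      have := (hτ _ hi (12 * j + a) (12 * j + b) l (by omega) (by omega) (by omega)).1 e1 e2 e3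
      exact ⟨this.1, this.2.1⟩
  -- every cluster has a path which is straight up to its last crossing with another cluster
  have hb : ∀ j < n + 1, ∃ a < 12, ∀ l < 12 * (n + 1), l / 12 ≠ j → τ (12 * j + a) l < 1 := by
    intro j hj
    by_contra hcon
    push Not at hcon
    have h1 : ∀ a < 12, ∀ b < 12, a ≠ b → 1 < τ (12 * j + a) (12 * j + b) := by
      intro a ha' b hb' hab
      obtain ⟨l, hl, hlj, h2⟩ := hcon a ha'
      rcases Nat.lt_or_gt_of_ne hab with h | h
      · exact lt_of_le_of_lt h2 (ha j hj a b h hb' l hl hlj).1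
      · exact lt_of_le_of_lt h2 (ha j hj b a h ha' l hl hlj).2
    refine hK ?_
    suffices h : ∃ s t : ℕ → ℝ, (∀ a b, a < b → b < 12 → s a < s b) ∧
        ∀ x y z, x < y → y < z → z < 12 →
          ((∃ r < 31, ent k12 r x = false ∧ ent k12 r y = !false ∧ ent k12 r z = false) →
            0 < EE s t x y z) ∧
          ((∃ r < 31, ent k12 r x = true ∧ ent k12 r y = !true ∧ ent k12 r z = true) →
            EE s t x y z < 0) by
      obtain ⟨s, t, hs, hst⟩ := h
      refine ⟨s, t, hs, fun r hr x y z hxy hyz hz => ⟨fun e1 e2 e3 => ?_, fun e1 e2 e3 => ?_⟩⟩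
      · exact (hst x y z hxy hyz hz).1 ⟨r, hr, e1, by simpa using e2, e3⟩
      · exact (hst x y z hxy hyz hz).2 ⟨r, hr, e1, by simpa using e2, e3⟩
    refine hL 12 (fun a => q (12 * j + a) 1)
      (fun a => q (12 * j + a) 2 - q (12 * j + a) 1)
      (fun a b => τ (12 * j + a) (12 * j + b) - 1)
      (fun x y z b => ∃ r < 31, ent k12 r x = b ∧ ent k12 r y = !b ∧ ent k12 r z = b)
      ?_ ?_ ?_ ?_
    · intro a ha' b hb' hab
      obtain ⟨h2, -, h3⟩ := hcr (12 * j + a) (by omega) (12 * j + b) (by omega) (by omega)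
      have h4 := h1 a ha' b hb' hab
      have h5 := h1 b hb' a ha' (Ne.symm hab)
      refine ⟨h3 h4 h5, ?_⟩
      unfold pl at h2
      rw [if_neg (by linarith), if_neg (by linarith)] at h2
      exact h2
    · rintro x y z hxy hyz hz ⟨r, hr, e1, e2, e3⟩
      have := (hτ (P1 + 31 * j + r) (by omega) (12 * j + x) (12 * j + y) (12 * j + z) (by omega)
        (by omega) (by omega)).1
        (by rw [sg2_new hr, if_neg (by omega), if_neg (by omega),
          show (12 * j + x) % 12 = x by omega, e1])
        (by rw [sg2_new hr, if_neg (by omega), if_neg (by omega),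
          show (12 * j + y) % 12 = y by omega, e2]; rfl)
        (by rw [sg2_new hr, if_neg (by omega), if_neg (by omega),
          show (12 * j + z) % 12 = z by omega, e3])
      obtain ⟨g1, g2, g3⟩ := this
      exact ⟨by linarith, by linarith, by linarith⟩
    · rintro x y z hxy hyz hz ⟨r, hr, e1, e2, e3⟩
      have := (hτ (P1 + 31 * j + r) (by omega) (12 * j + x) (12 * j + y) (12 * j + z) (by omega)
        (by omega) (by omega)).2
        (by rw [sg2_new hr, if_neg (by omega), if_neg (by omega),
          show (12 * j + x) % 12 = x by omega, e1])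
        (by rw [sg2_new hr, if_neg (by omega), if_neg (by omega),
          show (12 * j + y) % 12 = y by omega, e2]; rfl)
        (by rw [sg2_new hr, if_neg (by omega), if_neg (by omega),
          show (12 * j + z) % 12 = z by omega, e3])
      obtain ⟨g1, g2, g3⟩ := this
      exact ⟨by linarith, by linarith, by linarith⟩
    · intro y z h0 hyz hz
      obtain ⟨g1, g2, g3⟩ := k12_mid y (by omega) z hz h0 hyz
      exact ⟨10 + y, by omega, g1, by simpa using g2, g3⟩
  choose! f hf12 hf using hb
  have hfd : ∀ j < n + 1, (12 * j + f j) / 12 = j := fun j hj => by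
    have := hf12 j hj
    omega
  suffices h : ∃ s t : ℕ → ℝ, (∀ a b, a < b → b < n + 1 → s a < s b) ∧
      ∀ x y z, x < y → y < z → z < n + 1 →
        ((∃ i < P1, sg1 P sg i x = false ∧ sg1 P sg i y = !false ∧ sg1 P sg i z = false) →
          0 < EE s t x y z) ∧
        ((∃ i < P1, sg1 P sg i x = true ∧ sg1 P sg i y = !true ∧ sg1 P sg i z = true) →
          EE s t x y z < 0) by
    obtain ⟨s, t, hs, hst⟩ := h
    refine ⟨fun c => s (c + 1), fun c => t (c + 1),
      fun a b hab hb' => hs _ _ (by omega) (by omega), fun i hi x y z hxy hyz hz => ?_⟩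
    have key : ∀ c, sg1 P sg i (c + 1) = sg i c := by
      intro c
      unfold sg1
      rw [if_pos hi, if_neg (by omega)]
      rfl
    have h1 := hst (x + 1) (y + 1) (z + 1) (by omega) (by omega) (by omega)
    refine ⟨fun e1 e2 e3 => ?_, fun e1 e2 e3 => ?_⟩
    · exact h1.1 ⟨i, by omega, by rw [key, e1], by rw [key, e2]; rfl, by rw [key, e3]⟩
    · exact h1.2 ⟨i, by omega, by rw [key, e1], by rw [key, e2]; rfl, by rw [key, e3]⟩
  refine hL (n + 1) (fun j => q (12 * j + f j) 0)
    (fun j => q (12 * j + f j) 1 - q (12 * j + f j) 0)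
    (fun a b => τ (12 * a + f a) (12 * b + f b))
    (fun x y z b => ∃ i < P1, sg1 P sg i x = b ∧ sg1 P sg i y = !b ∧ sg1 P sg i z = b)
    ?_ ?_ ?_ ?_
  · intro a ha' b hb' hab
    have ga := hf12 a ha'
    have gb := hf12 b hb'
    obtain ⟨h2, h3, -⟩ := hcr (12 * a + f a) (by omega) (12 * b + f b) (by omega) (by omega)
    have h4 := hf a ha' (12 * b + f b) (by omega) (by rw [hfd b hb']; exact Ne.symm hab)
    have h5 := hf b hb' (12 * a + f a) (by omega) (by rw [hfd a ha']; exact hab)
    refine ⟨h3 h4 h5, ?_⟩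
    unfold pl at h2
    rw [if_pos (by linarith), if_pos (by linarith)] at h2
    exact h2
  · rintro x y z hxy hyz hz ⟨i, hi, e1, e2, e3⟩
    have gx := hf12 x (by omega)
    have gy := hf12 y (by omega)
    have gz := hf12 z (by omega)
    exact (hτ i (by omega) (12 * x + f x) (12 * y + f y) (12 * z + f z) (by omega)
        (by omega) (by omega)).1
        (by rw [sg2_old hi, hfd x (by omega), e1])
        (by rw [sg2_old hi, hfd y (by omega), e2]; rfl)
        (by rw [sg2_old hi, hfd z (by omega), e3])
  · rintro x y z hxy hyz hz ⟨i, hi, e1, e2, e3⟩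
    have gx := hf12 x (by omega)
    have gy := hf12 y (by omega)
    have gz := hf12 z (by omega)
    exact (hτ i (by omega) (12 * x + f x) (12 * y + f y) (12 * z + f z) (by omega)
        (by omega) (by omega)).2
        (by rw [sg2_old hi, hfd x (by omega), e1])
        (by rw [sg2_old hi, hfd y (by omega), e2]; rfl)
        (by rw [sg2_old hi, hfd z (by omega), e3])
  · intro y z h0 hyz hz
    refine ⟨P + (y - 1), by omega, ?_, ?_, ?_⟩
    · unfold sg1
      rw [if_neg (by omega), if_pos rfl]
    · unfold sg1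
      rw [if_neg (by omega), if_neg (by omega), show P + (y - 1) - P + 1 = y by omega]
      simp
    · unfold sg1
      rw [if_neg (by omega), if_neg (by omega), show P + (y - 1) - P + 1 = y by omega]
      simpa using hyz

end Pool.Agent.K1H23.PC
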