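import Pool.Agent.K1H23.PC.Stm

/-!
# Lists and positions of the graph
-/

namespace Pool.Agent.K1H23.PC

theorem W_pos (n P : ℕ) : 0 < W n P := by unfold W; omega

theorem BB_pos (n P : ℕ) : 0 < BB n P := by unfold BB; omega

theorem blk {w c c' r : ℕ} (h : c < c') (hr : r < w + 2) : c * (w + 2) + r < c' * (w + 2) := by
  have : (c + 1) * (w + 2) ≤ c' * (w + 2) := Nat.mul_le_mul_right _ h
  rw [Nat.add_mul, Nat.one_mul] at this
  omega

theorem cls_lt {n P u : ℕ} (hu : u < NN n P) : u / W n P < n :=
  Nat.div_lt_of_lt_mul (by rw [Nat.mul_comm]; exact hu)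

theorem posA_eq (n P u : ℕ) : posA n P u = u / W n P * (W n P + 2) + (1 + u % W n P) := by
  unfold posA; ring

theorem mod_lt' (n P u : ℕ) : u % W n P < W n P := Nat.mod_lt _ (W_pos n P)

theorem posA_lt {n P u : ℕ} (hu : u < NN n P) : posA n P u < H n P := by
  rw [posA_eq]
  exact blk (cls_lt hu) (by have := mod_lt' n P u; omega)

theorem posA_mono {n P u u' : ℕ} (h : u < u') : posA n P u < posA n P u' := by
  rw [posA_eq, posA_eq]
  have h1 := mod_lt' n P u
  have h2 := mod_lt' n P u'
  have h3 : u / W n P ≤ u' / W n P := Nat.div_le_div_right h.le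
  rcases h3.lt_or_eq with h4 | h4
  · have := blk (w := W n P) h4 (r := 1 + u % W n P) (by omega)
    omega
  · have e1 := Nat.div_add_mod u (W n P)
    have e2 := Nat.div_add_mod u' (W n P)
    rw [h4] at e1 ⊢
    omega

theorem posS_left {n P : ℕ} {sg : ℕ → ℕ → Bool} {j m : ℕ} (hm : m < n) :
    posS n P sg j m = m * (W n P + 2) + (if sg j m = true then 0 else W n P + 1) := by
  unfold posS
  rw [if_pos hm]

theorem posS_right {n P : ℕ} {sg : ℕ → ℕ → Bool} {j c : ℕ} :
    posS n P sg j (n + c) = H n P + (c * (W n P + 2) +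
      (if sg j c = true then W n P + 1 else 0)) := by
  unfold posS
  rw [if_neg (by omega), show n + c - n = c by omega]

theorem fin_iff {b : Bool} {A B : Prop} (h : b = true → A) (h' : b = false → B)
    (hAB : ¬ (A ∧ B)) : (b = true ↔ A) ∧ (b = false ↔ B) := by
  cases b with
  | true => exact ⟨⟨fun _ => h rfl, fun _ => rfl⟩, ⟨fun h1 => absurd h1 (by simp),
      fun h1 => absurd ⟨h rfl, h1⟩ hAB⟩⟩
  | false => exact ⟨⟨fun h1 => absurd h1 (by simp), fun h1 => absurd ⟨h1, h' rfl⟩ hAB⟩,
      ⟨fun _ => h' rfl, fun _ => rfl⟩⟩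

theorem t_POS : S_POS := by
  intro n P sg hn
  have hW := W_pos n P
  refine ⟨fun u hu => ⟨posA_lt hu, by unfold posB; omega, by
    unfold posB; have := posA_lt hu; omega⟩, fun u _ u' _ h => posA_mono h, ?_, ?_⟩
  · intro j m hm
    rcases lt_or_ge m n with h | h
    · have hp := posS_left (P := P) (sg := sg) (j := j) h
      have h1 : (if sg j m = true then 0 else W n P + 1) < W n P + 2 := by split_ifs <;> omega
      have h2 : m * (W n P + 2) + (if sg j m = true then 0 else W n P + 1) < H n P := blk h h1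
      have h2' : posS n P sg j m < H n P := by omega
      refine ⟨by omega, ⟨fun _ => by omega, fun _ => h⟩, fun u hu => ?_⟩
      have g1 := posA_lt hu
      have g2 : posB n P u = H n P + posA n P u := rfl
      have g3 := mod_lt' n P u
      obtain ⟨c, hc⟩ : ∃ c, c = u / W n P := ⟨_, rfl⟩
      have g4 : posA n P u = c * (W n P + 2) + (1 + u % W n P) := by rw [posA_eq, hc]
      rw [← hc]
      rcases Nat.lt_trichotomy m c with k | k | k
      · have k1 := blk (w := W n P) k h1
        have hb : ab n sg j m c = true := by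
          unfold ab; rw [if_neg (by omega), if_pos h]; simpa using k
        exact ⟨by omega, by omega, fin_iff (fun _ => by omega)
          (fun h3 => by rw [hb] at h3; exact absurd h3 (by simp)) (by omega)⟩
      · rw [← k] at g4 ⊢
        have hb : ab n sg j m m = sg j m := by unfold ab; rw [if_pos (Or.inl rfl)]
        cases hs : sg j m with
        | true =>
          rw [hs, if_pos rfl] at hp
          rw [hb, hs]
          exact ⟨by omega, by omega, fin_iff (fun _ => by omega)
            (fun h3 => absurd h3 (by simp)) (by omega)⟩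
        | false =>
          rw [hs, if_neg (by simp)] at hp
          rw [hb, hs]
          exact ⟨by omega, by omega, fin_iff (fun h3 => absurd h3 (by simp))
            (fun _ => by omega) (by omega)⟩
      · have k1 := blk (w := W n P) k (r := 1 + u % W n P) (by omega)
        have hb : ab n sg j m c = false := by
          unfold ab; rw [if_neg (by omega), if_pos h]; simp; omega
        exact ⟨by omega, by omega, fin_iff
          (fun h3 => by rw [hb] at h3; exact absurd h3 (by simp)) (fun _ => by omega) (by omega)⟩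
    · obtain ⟨c', rfl⟩ : ∃ c', m = n + c' := ⟨m - n, by omega⟩
      have hp := posS_right (n := n) (P := P) (sg := sg) (j := j) (c := c')
      have h0 : c' < n := by omega
      have h1 : (if sg j c' = true then W n P + 1 else 0) < W n P + 2 := by split_ifs <;> omega
      have h2 : c' * (W n P + 2) + (if sg j c' = true then W n P + 1 else 0) < H n P := blk h0 h1
      have h2' : posS n P sg j (n + c') < 2 * H n P := by omega
      have h2'' : H n P ≤ posS n P sg j (n + c') := by omega
      refine ⟨by omega, ⟨fun h3 => by omega, fun h3 => by omega⟩, fun u hu => ?_⟩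
      have g1 := posA_lt hu
      have g3 := mod_lt' n P u
      obtain ⟨c, hc⟩ : ∃ c, c = u / W n P := ⟨_, rfl⟩
      have g4 : posA n P u = c * (W n P + 2) + (1 + u % W n P) := by rw [posA_eq, hc]
      have g5 : posB n P u = H n P + posA n P u := rfl
      have g6 : c < n := by rw [hc]; exact cls_lt hu
      rw [← hc]
      rcases Nat.lt_trichotomy c c' with k | k | k
      · have k1 := blk (w := W n P) k (r := 1 + u % W n P) (by omega)
        have hb : ab n sg j (n + c') c = true := by
          unfold ab; rw [if_neg (by omega), if_neg (by omega)]; simpa using k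
        exact ⟨by omega, by omega, fin_iff (fun _ => by omega)
          (fun h3 => by rw [hb] at h3; exact absurd h3 (by simp)) (by omega)⟩
      · rw [← k] at hp ⊢
        have hb : ab n sg j (n + c) c = sg j c := by unfold ab; rw [if_pos (Or.inr rfl)]
        cases hs : sg j c with
        | true =>
          rw [hs, if_pos rfl] at hp
          rw [hb, hs]
          exact ⟨by omega, by omega, fin_iff (fun _ => by omega)
            (fun h3 => absurd h3 (by simp)) (by omega)⟩
        | false =>
          rw [hs, if_neg (by simp)] at hp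
          rw [hb, hs]
          exact ⟨by omega, by omega, fin_iff (fun h3 => absurd h3 (by simp))
            (fun _ => by omega) (by omega)⟩
      · have k1 := blk (w := W n P) k h1
        have hb : ab n sg j (n + c') c = false := by
          unfold ab; rw [if_neg (by omega), if_neg (by omega)]; simp; omega
        exact ⟨by omega, by omega, fin_iff
          (fun h3 => by rw [hb] at h3; exact absurd h3 (by simp)) (fun _ => by omega) (by omega)⟩
  · intro j m m' h hm'
    rcases lt_or_ge m n with h1 | h1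
    · have g1 : (if sg j m = true then 0 else W n P + 1) < W n P + 2 := by split_ifs <;> omega
      rw [posS_left h1]
      rcases lt_or_ge m' n with h2 | h2
      · rw [posS_left h2]
        have := blk (w := W n P) h g1
        omega
      · obtain ⟨c', rfl⟩ : ∃ c', m' = n + c' := ⟨m' - n, by omega⟩
        rw [posS_right]
        have : m * (W n P + 2) + (if sg j m = true then 0 else W n P + 1) < H n P := blk h1 g1
        omega
    · obtain ⟨c, rfl⟩ : ∃ c, m = n + c := ⟨m - n, by omega⟩
      obtain ⟨c', rfl⟩ : ∃ c', m' = n + c' := ⟨m' - n, by omega⟩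
      rw [posS_right, posS_right]
      have g1 : (if sg j c = true then W n P + 1 else 0) < W n P + 2 := by split_ifs <;> omega
      have := blk (w := W n P) (c := c) (c' := c') (by omega) g1
      omega

theorem t_MIN : S_MIN := by
  intro n sg j c hc
  -- the wrong ends are `m < c` or `n + c' > n + c` (if `sg j c = false`), and the others else
  cases hs : sg j c with
  | true =>
    have : ((Finset.range (2 * n)).filter fun m => ab n sg j m c ≠ true) =
        Finset.Ioo c n ∪ Finset.Ico n (n + c) := by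
      ext m
      simp only [Finset.mem_filter, Finset.mem_range, Finset.mem_union, Finset.mem_Ioo,
        Finset.mem_Ico, ne_eq, Bool.not_eq_true]
      unfold ab
      constructor
      · rintro ⟨h1, h2⟩
        split_ifs at h2 with h3 h4
        · rw [hs] at h2; exact absurd h2 (by simp)
        · left
          rw [decide_eq_false_iff_not] at h2
          omega
        · right
          rw [decide_eq_false_iff_not] at h2
          omega
      · intro h
        refine ⟨by omega, ?_⟩
        rw [if_neg (by omega)]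
        split_ifs with h4
        · rw [decide_eq_false_iff_not]; omega
        · rw [decide_eq_false_iff_not]; omega
    rw [this, Finset.card_union_of_disjoint]
    · simp only [Nat.card_Ioo, Nat.card_Ico]
      omega
    · rw [Finset.disjoint_left]
      intro m h1 h2
      rw [Finset.mem_Ioo] at h1
      rw [Finset.mem_Ico] at h2
      omega
  | false =>
    have : ((Finset.range (2 * n)).filter fun m => ab n sg j m c ≠ false) =
        Finset.range c ∪ Finset.Ioo (n + c) (2 * n) := by
      ext m
      simp only [Finset.mem_filter, Finset.mem_range, Finset.mem_union, Finset.mem_Ioo,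
        ne_eq, Bool.not_eq_false]
      unfold ab
      constructor
      · rintro ⟨h1, h2⟩
        split_ifs at h2 with h3 h4
        · rw [hs] at h2; exact absurd h2 (by simp)
        · left
          rw [decide_eq_true_eq] at h2
          omega
        · right
          rw [decide_eq_true_eq] at h2
          omega
      · intro h
        refine ⟨by omega, ?_⟩
        rw [if_neg (by omega)]
        split_ifs with h4
        · rw [decide_eq_true_eq]; omega
        · rw [decide_eq_true_eq]; omega
    rw [this, Finset.card_union_of_disjoint]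
    · simp only [Finset.card_range, Nat.card_Ioo]
      omega
    · rw [Finset.disjoint_left]
      intro m h1 h2
      rw [Finset.mem_range] at h1
      rw [Finset.mem_Ioo] at h2
      omega

theorem t_EDS : S_EDS := by
  intro n P sg _ f
  unfold eds
  simp only [List.mem_append, List.mem_map, List.mem_flatMap, List.mem_range, List.mem_cons,
    List.not_mem_nil, or_false]
  constructor
  · rintro ((⟨u, hu, rfl⟩ | ⟨j, hj, m, hm, rfl⟩) | ⟨i, hi, k, hk, rfl | rfl | rfl | rfl⟩)
    · exact ⟨Ed.ch u, hu, rfl⟩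
    · exact ⟨Ed.st j m, ⟨hj, hm⟩, rfl⟩
    · exact ⟨Ed.x1 i k, ⟨hi, hk⟩, rfl⟩
    · exact ⟨Ed.x2 i k, ⟨hi, hk⟩, rfl⟩
    · exact ⟨Ed.y1 i k, ⟨hi, hk⟩, rfl⟩
    · exact ⟨Ed.y2 i k, ⟨hi, hk⟩, rfl⟩
  · rintro ⟨e, he, rfl⟩
    cases e with
    | ch u => exact Or.inl (Or.inl ⟨u, he, rfl⟩)
    | st j m => exact Or.inl (Or.inr ⟨j, he.1, m, he.2, rfl⟩)
    | x1 i k => exact Or.inr ⟨i, he.1, k, he.2, Or.inl rfl⟩
    | x2 i k => exact Or.inr ⟨i, he.1, k, he.2, Or.inr (Or.inl rfl)⟩
    | y1 i k => exact Or.inr ⟨i, he.1, k, he.2, Or.inr (Or.inr (Or.inl rfl))⟩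
    | y2 i k => exact Or.inr ⟨i, he.1, k, he.2, Or.inr (Or.inr (Or.inr rfl))⟩

theorem pr_eq {a b c d : ℕ} (h : pr a b = pr c d) : (a = c ∧ b = d) ∨ (a = d ∧ b = c) := by
  unfold pr at h
  rw [Prod.mk.injEq] at h
  omega

theorem mul_add_inj {B i k i' k' : ℕ} (hk : k < B) (hk' : k' < B) (h : i * B + k = i' * B + k') :
    i = i' ∧ k = k' := by
  have h1 : (i * B + k) / B = i := by
    rw [Nat.mul_comm, Nat.mul_add_div (by omega), Nat.div_eq_of_lt hk]; omega
  have h2 : (i' * B + k') / B = i' := by
    rw [Nat.mul_comm, Nat.mul_add_div (by omega), Nat.div_eq_of_lt hk']; omega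
  rw [h, h2] at h1
  subst h1
  exact ⟨rfl, by omega⟩

theorem H_pos {n P : ℕ} (hn : 1 ≤ n) : 3 ≤ H n P := by
  have := W_pos n P
  have h1 : 1 * (W n P + 2) ≤ n * (W n P + 2) := Nat.mul_le_mul_right _ hn
  unfold H
  omega

theorem t_INJ : S_INJ := by
  intro n P sg hn e e' he he' h
  have hB := BB_pos n P
  have hH := H_pos (P := P) hn
  obtain ⟨-, hA, hS, hSm⟩ := t_POS n P sg hn
  have h := pr_eq h
  have nx : ∀ i, i < 2 * H n P → i ≠ (i + 1) % (2 * H n P) := by
    intro i hi h
    rcases Nat.lt_or_ge (i + 1) (2 * H n P) with h1 | h1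
    · rw [Nat.mod_eq_of_lt h1] at h; omega
    · rw [show i + 1 = 2 * H n P by omega, Nat.mod_self] at h; omega
  cases e with
  | ch u =>
    cases e' with
    | ch u' =>
      simp only [Ed.src, Ed.tgt, vR, posB] at h
      have h1 := posA_lt (n := n) (P := P) (u := u) he
      have h2 := posA_lt (n := n) (P := P) (u := u') he'
      have h3 : posA n P u = posA n P u' := by omega
      rcases Nat.lt_trichotomy u u' with k | k | k
      · have := hA u he u' he' k; omega
      · rw [k]
      · have := hA u' he' u he k; omega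
    | st j m => simp only [Ed.src, Ed.tgt, vR, vP] at h; omega
    | x1 i k => simp only [Ed.src, Ed.tgt, vR, vX] at h; omega
    | x2 i k => simp only [Ed.src, Ed.tgt, vR, vX] at h; omega
    | y1 i k => simp only [Ed.src, Ed.tgt, vR, vY] at h; omega
    | y2 i k => simp only [Ed.src, Ed.tgt, vR, vY] at h; omega
  | st j m =>
    cases e' with
    | ch u => simp only [Ed.src, Ed.tgt, vR, vP] at h; omega
    | st j' m' =>
      simp only [Ed.src, Ed.tgt, vR, vP] at h
      have h1 : j = j' := by omega
      subst h1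
      have h2 : posS n P sg j m = posS n P sg j m' := by omega
      rcases Nat.lt_trichotomy m m' with k | k | k
      · have := hSm j m m' k he'.2; omega
      · rw [k]
      · have := hSm j m' m k he.2; omega
    | x1 i k => simp only [Ed.src, Ed.tgt, vR, vX, vP] at h; omega
    | x2 i k => simp only [Ed.src, Ed.tgt, vR, vX, vP] at h; omega
    | y1 i k => simp only [Ed.src, Ed.tgt, vR, vY, vP] at h; omega
    | y2 i k => simp only [Ed.src, Ed.tgt, vR, vY, vP] at h; omega
  | x1 i k =>
    cases e' with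
    | ch u => simp only [Ed.src, Ed.tgt, vR, vX] at h; omega
    | st j m => simp only [Ed.src, Ed.tgt, vR, vX, vP] at h; omega
    | x1 i' k' =>
      simp only [Ed.src, Ed.tgt, vR, vX] at h
      have h1 : i * BB n P + k = i' * BB n P + k' := by omega
      obtain ⟨rfl, rfl⟩ := mul_add_inj he.2 he'.2 h1
      rfl
    | x2 i' k' =>
      simp only [Ed.src, Ed.tgt, vR, vX] at h
      have h1 : i * BB n P + k = i' * BB n P + k' := by omega
      obtain ⟨rfl, rfl⟩ := mul_add_inj he.2 he'.2 h1
      have h2 : i = (i + 1) % (2 * H n P) := by omega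
      exact absurd h2 (nx i he.1)
    | y1 i' k' => simp only [Ed.src, Ed.tgt, vR, vX, vY] at h; omega
    | y2 i' k' => simp only [Ed.src, Ed.tgt, vR, vX, vY] at h; omega
  | x2 i k =>
    cases e' with
    | ch u => simp only [Ed.src, Ed.tgt, vR, vX] at h; omega
    | st j m => simp only [Ed.src, Ed.tgt, vR, vX, vP] at h; omega
    | x1 i' k' =>
      simp only [Ed.src, Ed.tgt, vR, vX] at h
      have h1 : i * BB n P + k = i' * BB n P + k' := by omega
      obtain ⟨rfl, rfl⟩ := mul_add_inj he.2 he'.2 h1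
      have h2 : i = (i + 1) % (2 * H n P) := by omega
      exact absurd h2 (nx i he.1)
    | x2 i' k' =>
      simp only [Ed.src, Ed.tgt, vR, vX] at h
      have h1 : i * BB n P + k = i' * BB n P + k' := by omega
      obtain ⟨rfl, rfl⟩ := mul_add_inj he.2 he'.2 h1
      rfl
    | y1 i' k' => simp only [Ed.src, Ed.tgt, vR, vX, vY] at h; omega
    | y2 i' k' => simp only [Ed.src, Ed.tgt, vR, vX, vY] at h; omega
  | y1 i k =>
    cases e' with
    | ch u => simp only [Ed.src, Ed.tgt, vR, vY] at h; omega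
    | st j m => simp only [Ed.src, Ed.tgt, vR, vY, vP] at h; omega
    | x1 i' k' => simp only [Ed.src, Ed.tgt, vR, vX, vY] at h; omega
    | x2 i' k' => simp only [Ed.src, Ed.tgt, vR, vX, vY] at h; omega
    | y1 i' k' =>
      simp only [Ed.src, Ed.tgt, vY] at h
      have h1 : i * BB n P + k = i' * BB n P + k' := by omega
      obtain ⟨rfl, rfl⟩ := mul_add_inj he.2 he'.2 h1
      rfl
    | y2 i' k' => simp only [Ed.src, Ed.tgt, vR, vY] at h; omega
  | y2 i k =>
    cases e' with
    | ch u => simp only [Ed.src, Ed.tgt, vR, vY] at h; omega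
    | st j m => simp only [Ed.src, Ed.tgt, vR, vY, vP] at h; omega
    | x1 i' k' => simp only [Ed.src, Ed.tgt, vR, vX, vY] at h; omega
    | x2 i' k' => simp only [Ed.src, Ed.tgt, vR, vX, vY] at h; omega
    | y1 i' k' => simp only [Ed.src, Ed.tgt, vR, vY] at h; omega
    | y2 i' k' =>
      simp only [Ed.src, Ed.tgt, vR, vY] at h
      have h1 : i * BB n P + k = i' * BB n P + k' := by omega
      obtain ⟨rfl, rfl⟩ := mul_add_inj he.2 he'.2 h1
      rfl

/-- The list of the edges, with their kinds. -/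
def edl (n P : ℕ) : List Ed :=
  (List.range (NN n P)).map Ed.ch ++
  (List.range P).flatMap (fun j => (List.range (2 * n)).map fun m => Ed.st j m) ++
  (List.range (2 * H n P)).flatMap (fun i => (List.range (BB n P)).flatMap fun k =>
    [Ed.x1 i k, Ed.x2 i k, Ed.y1 i k, Ed.y2 i k])

theorem eds_eq (n P : ℕ) (sg : ℕ → ℕ → Bool) : eds n P sg = (edl n P).map (Ed.pair n P sg) := by
  unfold eds edl
  simp only [List.map_append, List.map_map, List.map_flatMap, List.map_cons, List.map_nil]
  rfl

theorem mem_edl {n P : ℕ} {e : Ed} : e ∈ edl n P ↔ e.Valid n P := by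
  unfold edl
  simp only [List.mem_append, List.mem_map, List.mem_flatMap, List.mem_range, List.mem_cons,
    List.not_mem_nil, or_false]
  constructor
  · rintro ((⟨u, hu, rfl⟩ | ⟨j, hj, m, hm, rfl⟩) | ⟨i, hi, k, hk, rfl | rfl | rfl | rfl⟩)
    · exact hu
    · exact ⟨hj, hm⟩
    · exact ⟨hi, hk⟩
    · exact ⟨hi, hk⟩
    · exact ⟨hi, hk⟩
    · exact ⟨hi, hk⟩
  · intro he
    cases e with
    | ch u => exact Or.inl (Or.inl ⟨u, he, rfl⟩)
    | st j m => exact Or.inl (Or.inr ⟨j, he.1, m, he.2, rfl⟩)
    | x1 i k => exact Or.inr ⟨i, he.1, k, he.2, Or.inl rfl⟩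
    | x2 i k => exact Or.inr ⟨i, he.1, k, he.2, Or.inr (Or.inl rfl)⟩
    | y1 i k => exact Or.inr ⟨i, he.1, k, he.2, Or.inr (Or.inr (Or.inl rfl))⟩
    | y2 i k => exact Or.inr ⟨i, he.1, k, he.2, Or.inr (Or.inr (Or.inr rfl))⟩

theorem nodup_edl (n P : ℕ) : (edl n P).Nodup := by
  unfold edl
  refine List.Nodup.append (List.Nodup.append ?_ ?_ ?_) ?_ ?_
  · exact List.nodup_range.map fun a b h => by simpa using h
  · rw [List.nodup_flatMap]
    refine ⟨fun j _ => List.nodup_range.map fun a b h => by simpa using h, ?_⟩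
    refine List.Pairwise.imp ?_ List.nodup_range
    intro a b hab e h1 h2
    simp only [List.mem_map] at h1 h2
    obtain ⟨_, _, rfl⟩ := h1
    obtain ⟨_, _, h⟩ := h2
    rw [Ed.st.injEq] at h
    exact hab h.1.symm
  · intro e h1 h2
    simp only [List.mem_map, List.mem_flatMap] at h1 h2
    obtain ⟨_, _, rfl⟩ := h1
    obtain ⟨_, _, _, _, h⟩ := h2
    exact absurd h (by simp)
  · rw [List.nodup_flatMap]
    refine ⟨fun i _ => ?_, ?_⟩
    · rw [List.nodup_flatMap]
      refine ⟨fun k _ => by simp, ?_⟩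
      refine List.Pairwise.imp ?_ List.nodup_range
      intro a b hab e h1 h2
      simp only [List.mem_cons, List.not_mem_nil, or_false] at h1 h2
      rcases h1 with rfl | rfl | rfl | rfl <;> rcases h2 with h | h | h | h <;>
        first | (cases h; exact hab rfl) | cases h
    · refine List.Pairwise.imp ?_ List.nodup_range
      intro a b hab e h1 h2
      simp only [List.mem_flatMap, List.mem_cons, List.not_mem_nil, or_false] at h1 h2
      obtain ⟨_, _, h1⟩ := h1
      obtain ⟨_, _, h2⟩ := h2
      rcases h1 with rfl | rfl | rfl | rfl <;> rcases h2 with h | h | h | h <;>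
        first | (cases h; exact hab rfl) | cases h
  · intro e h1 h2
    simp only [List.mem_append, List.mem_map, List.mem_flatMap, List.mem_cons,
      List.not_mem_nil, or_false] at h1 h2
    obtain ⟨_, _, _, _, h2⟩ := h2
    rcases h1 with ⟨_, _, rfl⟩ | ⟨_, _, _, _, rfl⟩ <;>
      rcases h2 with h | h | h | h <;> exact absurd h (by simp)

theorem mem_vts {n P v : ℕ} : v ∈ vts n P ↔ v = 0 ∨ (∃ i < 2 * H n P, v = vR i) ∨
    (∃ j < P, v = vP j) ∨ (∃ a < 2 * H n P * BB n P, v = 5 * a + 3) ∨
    ∃ a < 2 * H n P * BB n P, v = 5 * a + 4 := by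
  unfold vts
  simp only [List.mem_cons, List.mem_append, List.mem_map, List.mem_range]
  constructor
  · rintro (h | ((⟨i, hi, h⟩ | ⟨i, hi, h⟩) | ⟨i, hi, h⟩) | ⟨i, hi, h⟩)
    · exact Or.inl h
    · exact Or.inr (Or.inl ⟨i, hi, h.symm⟩)
    · exact Or.inr (Or.inr (Or.inl ⟨i, hi, h.symm⟩))
    · exact Or.inr (Or.inr (Or.inr (Or.inl ⟨i, hi, h.symm⟩)))
    · exact Or.inr (Or.inr (Or.inr (Or.inr ⟨i, hi, h.symm⟩)))
  · rintro (h | ⟨i, hi, h⟩ | ⟨i, hi, h⟩ | ⟨i, hi, h⟩ | ⟨i, hi, h⟩)
    · exact Or.inl h
    · exact Or.inr (Or.inl (Or.inl (Or.inl ⟨i, hi, h.symm⟩)))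
    · exact Or.inr (Or.inl (Or.inl (Or.inr ⟨i, hi, h.symm⟩)))
    · exact Or.inr (Or.inl (Or.inr ⟨i, hi, h.symm⟩))
    · exact Or.inr (Or.inr ⟨i, hi, h.symm⟩)

theorem nodup_vts (n P : ℕ) : (vts n P).Nodup := by
  unfold vts
  rw [List.nodup_cons]
  constructor
  · simp only [List.mem_append, List.mem_map, List.mem_range, not_or, vR, vP]
    refine ⟨⟨⟨?_, ?_⟩, ?_⟩, ?_⟩ <;> · rintro ⟨a, -, h⟩; omega
  · refine List.Nodup.append (List.Nodup.append (List.Nodup.append ?_ ?_ ?_) ?_ ?_) ?_ ?_
    · exact List.nodup_range.map fun a b h => by simp only [vR] at h; omega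
    · exact List.nodup_range.map fun a b h => by simp only [vP] at h; omega
    · intro v h1 h2
      simp only [List.mem_map, vR, vP] at h1 h2
      obtain ⟨a, -, h1⟩ := h1
      obtain ⟨b, -, h2⟩ := h2
      omega
    · exact List.nodup_range.map fun a b h => by omega
    · intro v h1 h2
      simp only [List.mem_append, List.mem_map, vR, vP] at h1 h2
      obtain ⟨b, -, h2⟩ := h2
      rcases h1 with ⟨a, -, h1⟩ | ⟨a, -, h1⟩ <;> omega
    · exact List.nodup_range.map fun a b h => by omega
    · intro v h1 h2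
      simp only [List.mem_append, List.mem_map, vR, vP] at h1 h2
      obtain ⟨b, -, h2⟩ := h2
      rcases h1 with (⟨a, -, h1⟩ | ⟨a, -, h1⟩) | ⟨a, -, h1⟩ <;> omega

theorem idx_lt {R B i k : ℕ} (hi : i < R) (hk : k < B) : i * B + k < R * B := by
  have : (i + 1) * B ≤ R * B := Nat.mul_le_mul_right _ hi
  rw [Nat.add_mul, Nat.one_mul] at this
  omega

theorem ends_mem {n P : ℕ} {sg : ℕ → ℕ → Bool} (hn : 1 ≤ n) {e : Ed} (he : e.Valid n P) :
    e.src n P ∈ vts n P ∧ e.tgt n P sg ∈ vts n P ∧ e.src n P ≠ e.tgt n P sg := by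
  have hH := H_pos (P := P) hn
  obtain ⟨hC, -, hS, -⟩ := t_POS n P sg hn
  rw [mem_vts, mem_vts]
  have hmod : ∀ i, (i + 1) % (2 * H n P) < 2 * H n P := fun i => Nat.mod_lt _ (by omega)
  cases e with
  | ch u =>
    obtain ⟨h1, h2, h3⟩ := hC u he
    exact ⟨Or.inr (Or.inl ⟨_, by omega, rfl⟩), Or.inr (Or.inl ⟨_, h3, rfl⟩), by
      simp only [Ed.src, Ed.tgt, vR]; omega⟩
  | st j m =>
    obtain ⟨h1, -⟩ := hS j m he.2
    exact ⟨Or.inr (Or.inr (Or.inl ⟨_, he.1, rfl⟩)), Or.inr (Or.inl ⟨_, h1, rfl⟩), by
      simp only [Ed.src, Ed.tgt, vR, vP]; omega⟩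
  | x1 i k => exact ⟨Or.inr (Or.inl ⟨_, he.1, rfl⟩),
      Or.inr (Or.inr (Or.inr (Or.inl ⟨_, idx_lt he.1 he.2, rfl⟩))), by
      simp only [Ed.src, Ed.tgt, vR, vX]; omega⟩
  | x2 i k => exact ⟨Or.inr (Or.inr (Or.inr (Or.inl ⟨_, idx_lt he.1 he.2, rfl⟩))),
      Or.inr (Or.inl ⟨_, hmod i, rfl⟩), by
      simp only [Ed.src, Ed.tgt, vR, vX]; omega⟩
  | y1 i k => exact ⟨Or.inl rfl,
      Or.inr (Or.inr (Or.inr (Or.inr ⟨_, idx_lt he.1 he.2, rfl⟩))), by
      simp only [Ed.src, Ed.tgt, vY]; omega⟩
  | y2 i k => exact ⟨Or.inr (Or.inr (Or.inr (Or.inr ⟨_, idx_lt he.1 he.2, rfl⟩))),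
      Or.inr (Or.inl ⟨_, he.1, rfl⟩), by
      simp only [Ed.src, Ed.tgt, vR, vY]; omega⟩

theorem t_INST : S_INST := by
  intro n P sg hn
  refine ⟨nodup_vts n P, ?_, ?_⟩
  · change (eds n P sg).Nodup
    rw [eds_eq]
    exact List.Nodup.map_on (fun e he e' he' h =>
      t_INJ n P sg hn e e' (mem_edl.1 he) (mem_edl.1 he') h) (nodup_edl n P)
  · intro f hf
    obtain ⟨e, he, rfl⟩ := (t_EDS n P sg hn f).1 hf
    obtain ⟨h1, h2, h3⟩ := ends_mem (sg := sg) hn he
    change (pr _ _).1 ∈ vts n P ∧ (pr _ _).2 ∈ vts n P ∧ (pr _ _).1 < (pr _ _).2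
    unfold pr
    simp only
    rcases Nat.lt_or_gt_of_ne h3 with h | h
    · rw [min_eq_left h.le, max_eq_right h.le]
      exact ⟨h1, h2, h⟩
    · rw [min_eq_right h.le, max_eq_left h.le]
      exact ⟨h2, h1, h⟩

end Pool.Agent.K1H23.PC
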