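import Pool.Agent.K1H23.PC.T_CPY

/-! # Insertion of the clusters -/

set_option autoImplicit false

namespace Pool.Agent.K1H23.PC

open Filter Topology

lemma cf_aff (lo hi ξ τ s t d X x : ℝ) :
    cf (s + d * lo) (s + d * hi) (X + ξ) (s * (X + ξ) + t + d * τ) x =
      s * x + t + d * cf lo hi ξ τ (x - X) := by
  unfold cf
  have e1 : x - (X + ξ) = x - X - ξ := by ring
  rw [e1]
  have h : min (x - X - ξ) 0 + max (x - X - ξ) 0 = x - X - ξ := by
    rw [min_add_max, add_zero]
  linear_combination s * h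

lemma ev_line (s t s' t' a : ℝ) (h : s < s') :
    ∀ᶠ X in atTop, s * (X + a) + t < s' * (X + a) + t' := by
  have h1 : Tendsto (fun X : ℝ => (s' - s) * (X + a) + (t' - t)) atTop atTop :=
    tendsto_atTop_add_const_right _ _
      (Tendsto.const_mul_atTop (sub_pos.mpr h) (tendsto_atTop_add_const_right _ _ tendsto_id))
  filter_upwards [h1.eventually_gt_atTop 0] with X hX
  linarith

theorem t_INS : S_INS := by
  intro k n P sg hn hconf hreal
  obtain ⟨lo, hi, ξ, τ, p', h⟩ := hconf
  obtain ⟨s, t, p, hs, hside⟩ := hreal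
  -- choice of X
  have x1 : ∀ᶠ X in atTop, ∀ j < n, ∀ j' < n, ∀ r < 31, j < j' →
      s j * (X + (p' r).1) + t j < s j' * (X + (p' r).1) + t j' := by
    refine evlt _ _ _ fun j hj => evlt _ _ _ fun j' hj' => evlt _ _ _ fun r hr => ?_
    by_cases hlt : j < j'
    · filter_upwards [ev_line (s j) (t j) (s j') (t j') (p' r).1 (hs j j' hlt hj')] with X hX _
      exact hX
    · exact Eventually.of_forall fun X h1 => absurd h1 hlt
  have x2 : ∀ᶠ X in atTop, ∀ j < n, ∀ j' < n, ∀ c < 12, j < j' →
      s j * (X + ξ c) + t j < s j' * (X + ξ c) + t j' := by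
    refine evlt _ _ _ fun j hj => evlt _ _ _ fun j' hj' => evlt _ _ _ fun c hc => ?_
    by_cases hlt : j < j'
    · filter_upwards [ev_line (s j) (t j) (s j') (t j') (ξ c) (hs j j' hlt hj')] with X hX _
      exact hX
    · exact Eventually.of_forall fun X h1 => absurd h1 hlt
  obtain ⟨X, hX1, hX2⟩ := (x1.and x2).exists
  have hdiv : ∀ u, u < 12 * n → u / 12 < n := fun u hu => Nat.div_lt_of_lt_mul hu
  have hmod : ∀ u, u % 12 < 12 := fun u => Nat.mod_lt _ (by norm_num)
  have hmod31 : ∀ u, u % 31 < 31 := fun u => Nat.mod_lt _ (by norm_num)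
  -- choice of d
  have e1 : ∀ᶠ d in 𝓝[>] (0 : ℝ), ∀ j < n, j + 1 < n →
      s j + d * hi 11 < s (j + 1) + d * lo 0 := by
    refine evlt _ _ _ fun j hj => ?_
    by_cases hlt : j + 1 < n
    · have h1 := hs j (j + 1) (by omega) hlt
      filter_upwards [evp (s (j + 1) - s j) (lo 0 - hi 11) (by linarith)] with d hd _
      linarith
    · exact Eventually.of_forall fun d h1 => absurd h1 hlt
  have e2 : ∀ᶠ d in 𝓝[>] (0 : ℝ), ∀ u < 12 * n, ∀ u' < 12 * n, u / 12 ≠ u' / 12 →
      s (u' / 12) * (X + ξ (u % 12)) + t (u' / 12) +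
        d * cf (lo (u' % 12)) (hi (u' % 12)) (ξ (u' % 12)) (τ (u' % 12)) (ξ (u % 12)) ≠
      s (u / 12) * (X + ξ (u % 12)) + t (u / 12) + d * τ (u % 12) := by
    refine evlt _ _ _ fun u hu => evlt _ _ _ fun u' hu' => ?_
    by_cases hne : u / 12 ≠ u' / 12
    · have h1 : s (u' / 12) * (X + ξ (u % 12)) + t (u' / 12) -
          (s (u / 12) * (X + ξ (u % 12)) + t (u / 12)) ≠ 0 := by
        rcases Nat.lt_or_gt_of_ne hne with hlt | hlt
        · have := hX2 _ (hdiv u hu) _ (hdiv u' hu') _ (hmod u) hlt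
          linarith
        · have := hX2 _ (hdiv u' hu') _ (hdiv u hu) _ (hmod u) hlt
          intro h0
          linarith
      filter_upwards [evn _ (cf (lo (u' % 12)) (hi (u' % 12)) (ξ (u' % 12)) (τ (u' % 12))
        (ξ (u % 12)) - τ (u % 12)) h1] with d hd _ h2
      apply hd
      linear_combination h2
    · exact Eventually.of_forall fun d h1 => absurd h1 hne
  have e3 : ∀ᶠ d in 𝓝[>] (0 : ℝ), ∀ i < P, ∀ u < 12 * n, if sg i (u / 12) = true then
      s (u / 12) * (p i).1 + t (u / 12) +
        d * cf (lo (u % 12)) (hi (u % 12)) (ξ (u % 12)) (τ (u % 12)) ((p i).1 - X) < (p i).2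
      else (p i).2 < s (u / 12) * (p i).1 + t (u / 12) +
        d * cf (lo (u % 12)) (hi (u % 12)) (ξ (u % 12)) (τ (u % 12)) ((p i).1 - X) := by
    refine evlt _ _ _ fun i hi' => evlt _ _ _ fun u hu => ?_
    have h1 := hside i hi' _ (hdiv u hu)
    split_ifs with hs'
    · rw [if_pos hs'] at h1
      filter_upwards [evp ((p i).2 - (s (u / 12) * (p i).1 + t (u / 12)))
        (-cf (lo (u % 12)) (hi (u % 12)) (ξ (u % 12)) (τ (u % 12)) ((p i).1 - X)) (by linarith)]
        with d hd
      linarith
    · rw [if_neg hs'] at h1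
      filter_upwards [evp (s (u / 12) * (p i).1 + t (u / 12) - (p i).2)
        (cf (lo (u % 12)) (hi (u % 12)) (ξ (u % 12)) (τ (u % 12)) ((p i).1 - X)) (by linarith)]
        with d hd
      linarith
  have e4 : ∀ᶠ d in 𝓝[>] (0 : ℝ), ∀ j < n, ∀ r < 31, ∀ u < 12 * n,
      (u / 12 < j → s (u / 12) * (X + (p' r).1) + t (u / 12) +
        d * cf (lo (u % 12)) (hi (u % 12)) (ξ (u % 12)) (τ (u % 12)) (p' r).1 <
          s j * (X + (p' r).1) + t j + d * (p' r).2) ∧
      (j < u / 12 → s j * (X + (p' r).1) + t j + d * (p' r).2 <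
        s (u / 12) * (X + (p' r).1) + t (u / 12) +
        d * cf (lo (u % 12)) (hi (u % 12)) (ξ (u % 12)) (τ (u % 12)) (p' r).1) := by
    refine evlt _ _ _ fun j hj => evlt _ _ _ fun r hr => evlt _ _ _ fun u hu => ?_
    refine Filter.Eventually.and ?_ ?_
    · by_cases hlt : u / 12 < j
      · have h1 := hX1 _ (hdiv u hu) j hj r hr hlt
        filter_upwards [evp (s j * (X + (p' r).1) + t j -
          (s (u / 12) * (X + (p' r).1) + t (u / 12))) ((p' r).2 -
          cf (lo (u % 12)) (hi (u % 12)) (ξ (u % 12)) (τ (u % 12)) (p' r).1) (by linarith)]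
          with d hd _
        linarith
      · exact Eventually.of_forall fun d h1 => absurd h1 hlt
    · by_cases hlt : j < u / 12
      · have h1 := hX1 j hj _ (hdiv u hu) r hr hlt
        filter_upwards [evp (s (u / 12) * (X + (p' r).1) + t (u / 12) -
          (s j * (X + (p' r).1) + t j)) (
          cf (lo (u % 12)) (hi (u % 12)) (ξ (u % 12)) (τ (u % 12)) (p' r).1 - (p' r).2)
          (by linarith)] with d hd _
        linarith
      · exact Eventually.of_forall fun d h1 => absurd h1 hlt
  obtain ⟨d, hd1, hd2, hd3, hd4, hd0⟩ :=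
    (e1.and (e2.and (e3.and (e4.and self_mem_nhdsWithin)))).exists
  have hd0' : 0 < d := hd0
  have key : ∀ u x, cf (s (u / 12) + d * lo (u % 12)) (s (u / 12) + d * hi (u % 12))
      (X + ξ (u % 12)) (s (u / 12) * (X + ξ (u % 12)) + t (u / 12) + d * τ (u % 12)) x =
      s (u / 12) * x + t (u / 12) +
        d * cf (lo (u % 12)) (hi (u % 12)) (ξ (u % 12)) (τ (u % 12)) (x - X) :=
    fun u x => cf_aff _ _ _ _ _ _ _ _ _
  refine ⟨fun u => s (u / 12) + d * lo (u % 12), fun u => s (u / 12) + d * hi (u % 12),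
    fun u => X + ξ (u % 12), fun u => s (u / 12) * (X + ξ (u % 12)) + t (u / 12) + d * τ (u % 12),
    fun i => if i < P then p i else (X + (p' ((i - P) % 31)).1,
      s ((i - P) / 31) * (X + (p' ((i - P) % 31)).1) + t ((i - P) / 31) +
        d * (p' ((i - P) % 31)).2), ?_⟩
  refine ⟨fun u hu => ?_, fun u hu => ?_, fun u hu u' hu' hne => ?_, fun i hi' u hu => ?_⟩
  · have := mul_le_mul_of_nonneg_left (h.le _ (hmod u)) hd0'.le
    linarith
  · by_cases h11 : u % 12 = 11
    · have a1 : (u + 1) / 12 = u / 12 + 1 := by omega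
      have a2 : (u + 1) % 12 = 0 := by omega
      rw [a1, a2, h11]
      refine hd1 _ (hdiv u (by omega)) ?_
      have := hdiv (u + 1) hu
      omega
    · have a1 : (u + 1) / 12 = u / 12 := by omega
      have a2 : (u + 1) % 12 = u % 12 + 1 := by omega
      rw [a1, a2]
      have := mul_lt_mul_of_pos_left (h.lt (u % 12) (by omega)) hd0'
      linarith
  · rw [key]
    have e5 : X + ξ (u % 12) - X = ξ (u % 12) := by ring
    rw [e5]
    by_cases hj : u / 12 = u' / 12
    · have hc : u % 12 ≠ u' % 12 := by omega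
      have h1 := h.ne _ (hmod u) _ (hmod u') hc
      intro h2
      rw [hj] at h2
      have h3 : d * (cf (lo (u' % 12)) (hi (u' % 12)) (ξ (u' % 12)) (τ (u' % 12)) (ξ (u % 12)) -
          τ (u % 12)) = 0 := by linear_combination h2
      rcases mul_eq_zero.mp h3 with h4 | h4
      · exact hd0'.ne' h4
      · exact h1 (sub_eq_zero.mp h4)
    · exact hd2 u hu u' hu' hj
  · rw [key]
    unfold sg2
    by_cases hiP : i < P
    · simp only [if_pos hiP]
      exact hd3 i hiP u hu
    · simp only [if_neg hiP]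
      have hj : (i - P) / 31 < n := by
        rw [Nat.div_lt_iff_lt_mul (by norm_num)]
        omega
      have e5 : X + (p' ((i - P) % 31)).1 - X = (p' ((i - P) % 31)).1 := by ring
      rw [e5]
      have h4 := hd4 _ hj _ (hmod31 (i - P)) u hu
      by_cases c1 : u / 12 < (i - P) / 31
      · simp only [if_pos c1]
        exact h4.1 c1
      · simp only [if_neg c1]
        by_cases c2 : (i - P) / 31 < u / 12
        · simp only [if_pos c2]
          simpa using h4.2 c2
        · simp only [if_neg c2]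
          have hjj : u / 12 = (i - P) / 31 := by omega
          have h5 := h.side _ (hmod31 (i - P)) _ (hmod u)
          rw [hjj]
          split_ifs with hk
          · rw [if_pos hk] at h5
            have := mul_lt_mul_of_pos_left h5 hd0'
            linarith
          · rw [if_neg hk] at h5
            have := mul_lt_mul_of_pos_left h5 hd0'
            linarith

end Pool.Agent.K1H23.PC
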