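import Pool.Agent.K1H23.PC.Stm

/-!
# The cluster pattern is not stretchable
-/

namespace Pool.Agent.K1H23.PC

/-- Monotonicity of the sign of `Φ`. -/
theorem Phi_mono {w o l i j k w' o' l' i' j' : ℝ} (h1 : o' ≤ o) (h2 : o < l) (h3 : l ≤ l')
    (h4 : l' < i') (h5 : i' ≤ i) (h6 : l' < j') (h7 : j' ≤ j) (h8 : i < k) (h9 : j < k)
    (h10 : k < w') (h11 : w' ≤ w)
    (h : (k - o) * (w - j) * (i - l) - (k - j) * (i - o) * (w - l) < 0) :
    (k - o') * (w' - j') * (i' - l') - (k - j') * (i' - o') * (w' - l') < 0 := by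
  -- change `w`
  have a1 : (k - o) * (w' - j) * (i - l) - (k - j) * (i - o) * (w' - l) < 0 := by
    have : ((k - o) * (w' - j) * (i - l) - (k - j) * (i - o) * (w' - l)) * (w - j) =
      ((k - o) * (w - j) * (i - l) - (k - j) * (i - o) * (w - l)) * (w' - j) -
        (k - j) * (i - o) * ((j - l) * (w - w')) := by ring
    have b1 : ((k - o) * (w - j) * (i - l) - (k - j) * (i - o) * (w - l)) * (w' - j) < 0 :=
      mul_neg_of_neg_of_pos h (by linarith)
    have b2 : 0 ≤ (k - j) * (i - o) * ((j - l) * (w - w')) :=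
      mul_nonneg (mul_nonneg (by linarith) (by linarith)) (mul_nonneg (by linarith) (by linarith))
    have b3 : ((k - o) * (w' - j) * (i - l) - (k - j) * (i - o) * (w' - l)) * (w - j) < 0 := by
      rw [this]; linarith
    by_contra hc
    push Not at hc
    have : 0 ≤ ((k - o) * (w' - j) * (i - l) - (k - j) * (i - o) * (w' - l)) * (w - j) :=
      mul_nonneg hc (by linarith)
    linarith
  -- change `o`
  have a2 : (k - o') * (w' - j) * (i - l) - (k - j) * (i - o') * (w' - l) < 0 := by
    have : ((k - o') * (w' - j) * (i - l) - (k - j) * (i - o') * (w' - l)) * (k - o) =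
      ((k - o) * (w' - j) * (i - l) - (k - j) * (i - o) * (w' - l)) * (k - o') -
        (k - j) * (w' - l) * ((k - i) * (o - o')) := by ring
    have b1 : ((k - o) * (w' - j) * (i - l) - (k - j) * (i - o) * (w' - l)) * (k - o') < 0 :=
      mul_neg_of_neg_of_pos a1 (by linarith)
    have b2 : 0 ≤ (k - j) * (w' - l) * ((k - i) * (o - o')) :=
      mul_nonneg (mul_nonneg (by linarith) (by linarith)) (mul_nonneg (by linarith) (by linarith))
    by_contra hc
    push Not at hc
    have : 0 ≤ ((k - o') * (w' - j) * (i - l) - (k - j) * (i - o') * (w' - l)) * (k - o) :=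
      mul_nonneg hc (by linarith)
    linarith
  -- change `l`
  have a3 : (k - o') * (w' - j) * (i - l') - (k - j) * (i - o') * (w' - l') < 0 := by
    have : ((k - o') * (w' - j) * (i - l') - (k - j) * (i - o') * (w' - l')) * (i - l) =
      ((k - o') * (w' - j) * (i - l) - (k - j) * (i - o') * (w' - l)) * (i - l') -
        (k - j) * (i - o') * ((w' - i) * (l' - l)) := by ring
    have b1 : ((k - o') * (w' - j) * (i - l) - (k - j) * (i - o') * (w' - l)) * (i - l') < 0 :=
      mul_neg_of_neg_of_pos a2 (by linarith)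
    have b2 : 0 ≤ (k - j) * (i - o') * ((w' - i) * (l' - l)) :=
      mul_nonneg (mul_nonneg (by linarith) (by linarith)) (mul_nonneg (by linarith) (by linarith))
    by_contra hc
    push Not at hc
    have : 0 ≤ ((k - o') * (w' - j) * (i - l') - (k - j) * (i - o') * (w' - l')) * (i - l) :=
      mul_nonneg hc (by linarith)
    linarith
  -- change `i`
  have a4 : (k - o') * (w' - j) * (i' - l') - (k - j) * (i' - o') * (w' - l') < 0 := by
    have : ((k - o') * (w' - j) * (i' - l') - (k - j) * (i' - o') * (w' - l')) * (i - l') =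
      ((k - o') * (w' - j) * (i - l') - (k - j) * (i - o') * (w' - l')) * (i' - l') -
        (k - j) * (w' - l') * ((l' - o') * (i - i')) := by ring
    have b1 : ((k - o') * (w' - j) * (i - l') - (k - j) * (i - o') * (w' - l')) * (i' - l') < 0 :=
      mul_neg_of_neg_of_pos a3 (by linarith)
    have b2 : 0 ≤ (k - j) * (w' - l') * ((l' - o') * (i - i')) :=
      mul_nonneg (mul_nonneg (by linarith) (by linarith)) (mul_nonneg (by linarith) (by linarith))
    by_contra hc
    push Not at hc
    have : 0 ≤ ((k - o') * (w' - j) * (i' - l') - (k - j) * (i' - o') * (w' - l')) * (i - l') :=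
      mul_nonneg hc (by linarith)
    linarith
  -- change `j`
  have : ((k - o') * (w' - j') * (i' - l') - (k - j') * (i' - o') * (w' - l')) * (k - j) =
      ((k - o') * (w' - j) * (i' - l') - (k - j) * (i' - o') * (w' - l')) * (k - j') -
        (k - o') * (i' - l') * ((w' - k) * (j - j')) := by ring
  have b1 : ((k - o') * (w' - j) * (i' - l') - (k - j) * (i' - o') * (w' - l')) * (k - j') < 0 :=
    mul_neg_of_neg_of_pos a4 (by linarith)
  have b2 : 0 ≤ (k - o') * (i' - l') * ((w' - k) * (j - j')) :=
    mul_nonneg (mul_nonneg (by linarith) (by linarith)) (mul_nonneg (by linarith) (by linarith))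
  by_contra hc
  push Not at hc
  have : 0 ≤ ((k - o') * (w' - j') * (i' - l') - (k - j') * (i' - o') * (w' - l')) * (k - j) :=
    mul_nonneg hc (by linarith)
  linarith

theorem t_K12 : S_K12 := by
  rintro ⟨s, t, hs, h⟩
  have e1 := (h 22 (by norm_num) 2 3 6 (by norm_num) (by norm_num) (by norm_num)).1
    (by decide) (by decide) (by decide)
  have e2 := (h 23 (by norm_num) 2 8 9 (by norm_num) (by norm_num) (by norm_num)).2
    (by decide) (by decide) (by decide)
  have e3 := (h 24 (by norm_num) 3 8 11 (by norm_num) (by norm_num) (by norm_num)).1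
    (by decide) (by decide) (by decide)
  have e4 := (h 21 (by norm_num) 6 9 11 (by norm_num) (by norm_num) (by norm_num)).2
    (by decide) (by decide) (by decide)
  have e5 := (h 25 (by norm_num) 8 9 11 (by norm_num) (by norm_num) (by norm_num)).2
    (by decide) (by decide) (by decide)
  have f1 := (h 27 (by norm_num) 1 4 5 (by norm_num) (by norm_num) (by norm_num)).2
    (by decide) (by decide) (by decide)
  have f2 := (h 28 (by norm_num) 1 7 9 (by norm_num) (by norm_num) (by norm_num)).1
    (by decide) (by decide) (by decide)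
  have f3 := (h 29 (by norm_num) 4 7 10 (by norm_num) (by norm_num) (by norm_num)).2
    (by decide) (by decide) (by decide)
  have f4 := (h 26 (by norm_num) 5 9 10 (by norm_num) (by norm_num) (by norm_num)).1
    (by decide) (by decide) (by decide)
  have f5 := (h 30 (by norm_num) 7 9 10 (by norm_num) (by norm_num) (by norm_num)).2
    (by decide) (by decide) (by decide)
  have s1 := hs 1 2 (by norm_num) (by norm_num)
  have s2 := hs 2 3 (by norm_num) (by norm_num)
  have s3 := hs 3 4 (by norm_num) (by norm_num)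
  have s4 := hs 4 5 (by norm_num) (by norm_num)
  have s5 := hs 5 6 (by norm_num) (by norm_num)
  have s6 := hs 6 7 (by norm_num) (by norm_num)
  have s7 := hs 7 8 (by norm_num) (by norm_num)
  have s8 := hs 8 9 (by norm_num) (by norm_num)
  have s9 := hs 9 10 (by norm_num) (by norm_num)
  have s10 := hs 10 11 (by norm_num) (by norm_num)
  have q1 := quad_identity s t 6 3 2 11 8 9
  have q2 := quad_identity s t 5 4 1 10 7 9
  have p1 : (s 9 - s 2) * (s 11 - s 8) * (s 6 - s 3) - (s 9 - s 8) * (s 6 - s 2) * (s 11 - s 3)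
      < 0 := by
    by_contra hc
    push Not at hc
    have h1 := mul_nonpos_of_nonneg_of_nonpos hc e5.le
    have g1 : 0 < (s 9 - s 8) * (s 11 - s 8) * (s 11 - s 9) * EE s t 2 3 6 :=
      mul_pos (mul_pos (mul_pos (by linarith) (by linarith)) (by linarith)) e1
    have g2 : (s 6 - s 3) * (s 11 - s 8) * (s 11 - s 9) * EE s t 2 8 9 < 0 :=
      mul_neg_of_pos_of_neg (mul_pos (mul_pos (by linarith) (by linarith)) (by linarith)) e2
    have g3 : 0 < (s 6 - s 2) * (s 9 - s 8) * (s 11 - s 9) * EE s t 3 8 11 :=
      mul_pos (mul_pos (mul_pos (by linarith) (by linarith)) (by linarith)) e3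
    have g4 : (s 3 - s 2) * (s 9 - s 8) * (s 11 - s 8) * EE s t 6 9 11 < 0 :=
      mul_neg_of_pos_of_neg (mul_pos (mul_pos (by linarith) (by linarith)) (by linarith)) e4
    linarith
  have p2 : 0 < (s 9 - s 1) * (s 10 - s 7) * (s 5 - s 4) -
      (s 9 - s 7) * (s 5 - s 1) * (s 10 - s 4) := by
    by_contra hc
    push Not at hc
    have h1 := mul_nonneg_of_nonpos_of_nonpos hc f5.le
    have g1 : (s 9 - s 7) * (s 10 - s 7) * (s 10 - s 9) * EE s t 1 4 5 < 0 :=
      mul_neg_of_pos_of_neg (mul_pos (mul_pos (by linarith) (by linarith)) (by linarith)) f1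
    have g2 : 0 < (s 5 - s 4) * (s 10 - s 7) * (s 10 - s 9) * EE s t 1 7 9 :=
      mul_pos (mul_pos (mul_pos (by linarith) (by linarith)) (by linarith)) f2
    have g3 : (s 5 - s 1) * (s 9 - s 7) * (s 10 - s 9) * EE s t 4 7 10 < 0 :=
      mul_neg_of_pos_of_neg (mul_pos (mul_pos (by linarith) (by linarith)) (by linarith)) f3
    have g4 : 0 < (s 4 - s 1) * (s 9 - s 7) * (s 10 - s 7) * EE s t 5 9 10 :=
      mul_pos (mul_pos (mul_pos (by linarith) (by linarith)) (by linarith)) f4
    linarith
  have := Phi_mono (w := s 11) (o := s 2) (l := s 3) (i := s 6) (j := s 8) (k := s 9)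
    (w' := s 10) (o' := s 1) (l' := s 4) (i' := s 5) (j' := s 7) (by linarith) (by linarith)
    (by linarith) (by linarith) (by linarith) (by linarith) (by linarith) (by linarith)
    (by linarith) (by linarith) (by linarith) p1
  linarith

end Pool.Agent.K1H23.PC
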