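import Pool.Agent.K1H23.PC.Stm

/-! # The explicit configuration of the clusters (piece `S_K12C`) -/

set_option autoImplicit false

namespace Pool.Agent.K1H23.PC

namespace K12C

/-- eight times the right slopes -/
def SL (c : ℕ) : ℤ := [-16, -2, 0, 8, 10, 14, 16, 22, 24, 27, 86, 88].getD c 0

/-- eight times the left slopes -/
def SH (c : ℕ) : ℤ := [-16, -2, 0, 8, 10, 14, 16, 22, 24, 42, 86, 88].getD c 0

/-- `150 τ` -/
def TT (c : ℕ) : ℤ :=
  [-3000000, 3918, -4378, -2772, 4947, 4878, -978, 675, -1875, 0, -22125, 1725].getD c 0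

/-- `1000` times the points -/
def PP (j : ℕ) : ℤ × ℤ :=
  [(-20000000, 12513000), (-20000000, 2498000), (-20000000, -10024000), (-20000000, -22493000),
   (-20000000, -29967000), (-20000000, -37487000), (-20000000, -47501000),
   (-20000000, -57504000), (-20000000, -82506000), (-20000000, -160074000),
   (-20000000, -217568000), (-10714000, 1428100), (-8323000, -3353900), (-6412000, -7175900),
   (-5753000, -8493900), (-5170000, -9659900), (-4605000, -10789900), (-4104000, -11791900),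
   (-3378000, -13243900), (-2158000, -15683900), (-1548000, -16903900), (-2002, -10518),
   (-11400, -29600), (-5559, -29180), (-2996, -21482), (-2500, -14000), (20005, 67520),
   (-2500, 29500), (7204, 24312), (18995, 56730), (18500, 61000)].getD j (0, 0)

/-- `24000` times the height of the line `c` -/
def VV (c : ℕ) (x : ℤ) : ℤ := 160 * TT c + 3 * (SH c * min x 0 + SL c * max x 0)

theorem sideZ : ∀ j < 31, ∀ c < 12, if ent k12 j c = true then VV c (PP j).1 < 24 * (PP j).2
    else 24 * (PP j).2 < VV c (PP j).1 := by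
  decide +kernel

theorem leZ : ∀ c < 12, SL c ≤ SH c := by decide +kernel

theorem ltZ : ∀ c < 11, SH c < SL (c + 1) := by decide +kernel

theorem neZ : ∀ c < 12, ∀ c' < 12, c ≠ c' → TT c' ≠ TT c := by decide +kernel

theorem cf_eq (c : ℕ) (x : ℤ) :
    24000 * cf ((SL c : ℝ) / 8) ((SH c : ℝ) / 8) 0 ((TT c : ℝ) / 150) ((x : ℝ) / 1000) =
      ((VV c x : ℤ) : ℝ) := by
  have h1 : min ((x : ℝ) / 1000 - 0) 0 = ((min x 0 : ℤ) : ℝ) / 1000 := by
    rw [sub_zero, Int.cast_min, Int.cast_zero, ← min_div_div_right (by norm_num), zero_div]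
  have h2 : max ((x : ℝ) / 1000 - 0) 0 = ((max x 0 : ℤ) : ℝ) / 1000 := by
    rw [sub_zero, Int.cast_max, Int.cast_zero, ← max_div_div_right (by norm_num), zero_div]
  simp only [cf]
  rw [h1, h2]
  simp only [VV]
  rw [Int.cast_add, Int.cast_mul, Int.cast_mul, Int.cast_add, Int.cast_mul, Int.cast_mul]
  norm_num
  ring

end K12C

open K12C in
theorem t_K12C : S_K12C := by
  refine ⟨fun c => (SL c : ℝ) / 8, fun c => (SH c : ℝ) / 8, fun _ => 0,
    fun c => (TT c : ℝ) / 150, fun j => (((PP j).1 : ℝ) / 1000, ((PP j).2 : ℝ) / 1000), ?_⟩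
  constructor
  · intro c hc
    have : ((SL c : ℤ) : ℝ) ≤ ((SH c : ℤ) : ℝ) := by exact_mod_cast leZ c hc
    linarith
  · intro c hc
    have : ((SH c : ℤ) : ℝ) < ((SL (c + 1) : ℤ) : ℝ) := by exact_mod_cast ltZ c (by omega)
    linarith
  · intro c hc c' hc' hne h
    have h0 : cf ((SL c' : ℝ) / 8) ((SH c' : ℝ) / 8) 0 ((TT c' : ℝ) / 150) 0 =
        (TT c' : ℝ) / 150 := by
      simp [cf]
    rw [h0] at h
    have h1 : ((TT c' : ℤ) : ℝ) = ((TT c : ℤ) : ℝ) := by linarith
    exact neZ c hc c' hc' hne (by exact_mod_cast h1)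
  · intro j hj c hc
    have h := sideZ j hj c hc
    have h1 := cf_eq c (PP j).1
    dsimp only
    split_ifs at h ⊢ with h2
    · have h3 : ((VV c (PP j).1 : ℤ) : ℝ) < 24 * (((PP j).2 : ℤ) : ℝ) := by exact_mod_cast h
      linarith
    · have h3 : 24 * (((PP j).2 : ℤ) : ℝ) < ((VV c (PP j).1 : ℤ) : ℝ) := by exact_mod_cast h
      linarith

end Pool.Agent.K1H23.PC
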