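import Pool.Agent.K1H23.PC.Stm

/-! # The line `0` below everything and the gap points (piece `S_L0`) -/

set_option autoImplicit false

namespace Pool.Agent.K1H23.PC

open Filter

theorem t_L0 : S_L0 := by
  intro n P sg ⟨s, t, p, hs, hp⟩
  have hmono : ∀ a b, a ≤ b → b < n → s a ≤ s b := fun a b hab hb => by
    rcases hab.lt_or_eq with h | h
    · exact (hs a b h hb).le
    · rw [h]
  obtain ⟨s0, hs0⟩ : ∃ s0, s0 = s 0 - 1 := ⟨_, rfl⟩
  obtain ⟨g, hg⟩ : ∃ g : ℕ → ℝ, g = fun y => (s (y - 1) + s y) / 2 := ⟨_, rfl⟩
  have hg1 : ∀ y, 1 ≤ y → y < n → s (y - 1) < g y ∧ g y < s y := by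
    intro y hy hyn
    have := hs (y - 1) y (by omega) hyn
    rw [hg]
    constructor <;> dsimp only <;> linarith
  have hg0 : ∀ y, 1 ≤ y → y < n → 0 < g y - s0 := by
    intro y hy hyn
    have h1 := (hg1 y hy hyn).1
    have h2 := hmono 0 (y - 1) (Nat.zero_le _) (by omega)
    rw [hs0]
    linarith
  have key : ∀ a b : ℝ, 0 < a → ∀ᶠ T : ℝ in atTop, b < T * a := fun a b ha =>
    (tendsto_id.atTop_mul_const ha).eventually_gt_atTop b
  have ev1 : ∀ᶠ T : ℝ in atTop, ∀ j ∈ Finset.range P, s0 * (p j).1 - T < (p j).2 := by
    rw [Filter.eventually_all_finset]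
    intro j _
    filter_upwards [key 1 (s0 * (p j).1 - (p j).2) one_pos] with T hT
    linarith
  have ev2 : ∀ᶠ T : ℝ in atTop, ∀ y ∈ Finset.range n, ∀ c ∈ Finset.range n, 1 ≤ y →
      (c < y → 0 < T * ((g y - s c) / (g y - s0)) + t c - 1) ∧
      (y ≤ c → T * ((g y - s c) / (g y - s0)) + t c - 1 < 0) := by
    rw [Filter.eventually_all_finset]
    intro y hy
    rw [Filter.eventually_all_finset]
    intro c hc
    rw [Finset.mem_range] at hy hc
    by_cases h1 : 1 ≤ y
    · rcases lt_or_ge c y with h2 | h2
      · have h3 : 0 < (g y - s c) / (g y - s0) := by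
          refine div_pos ?_ (hg0 y h1 hy)
          have := hmono c (y - 1) (by omega) (by omega)
          have := (hg1 y h1 hy).1
          linarith
        filter_upwards [key _ (1 - t c) h3] with T hT _
        exact ⟨fun _ => by linarith, fun h => absurd h (by omega)⟩
      · have h3 : 0 < (s c - g y) / (g y - s0) := by
          refine div_pos ?_ (hg0 y h1 hy)
          have := hmono y c h2 hc
          have := (hg1 y h1 hy).2
          linarith
        filter_upwards [key _ (t c - 1) h3] with T hT _
        refine ⟨fun h => absurd h (by omega), fun _ => ?_⟩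
        have h4 : (g y - s c) / (g y - s0) = - ((s c - g y) / (g y - s0)) := by
          rw [← neg_div]
          congr 1
          ring
        rw [h4]
        linarith
    · exact Eventually.of_forall fun T h => absurd h h1
  obtain ⟨T, h1, h2⟩ := (ev1.and ev2).exists
  refine ⟨fun c => if c = 0 then s0 else s (c - 1), fun c => if c = 0 then -T else t (c - 1),
    fun i => if i < P then p i else (-T / (g (i - P + 1) - s0),
      s0 * (-T / (g (i - P + 1) - s0)) - T + 1), ?_, ?_⟩
  · intro a b hab hb
    have hb0 : b ≠ 0 := by omega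
    dsimp only
    rw [if_neg hb0]
    split_ifs with ha
    · have := hmono 0 (b - 1) (Nat.zero_le _) (by omega)
      rw [hs0]
      linarith
    · exact hs _ _ (by omega) (by omega)
  · intro i hi c hc
    dsimp only
    by_cases hiP : i < P
    · simp only [if_pos hiP, sg1]
      by_cases hc0 : c = 0
      · simp only [if_pos hc0, if_true]
        have := h1 i (Finset.mem_range.2 hiP)
        linarith
      · simp only [if_neg hc0]
        exact hp i hiP (c - 1) (by omega)
    · simp only [if_neg hiP, sg1]
      by_cases hc0 : c = 0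
      · simp only [if_pos hc0, if_true]
        linarith
      · simp only [if_neg hc0, decide_eq_true_eq]
        obtain ⟨y, hy⟩ : ∃ y, y = i - P + 1 := ⟨_, rfl⟩
        rw [← hy]
        have hyn : y < n := by omega
        have hy1 : 1 ≤ y := by omega
        have h3 := h2 y (Finset.mem_range.2 hyn) (c - 1) (Finset.mem_range.2 (by omega)) hy1
        have h4 : s (c - 1) * (-T / (g y - s0)) + t (c - 1) - (s0 * (-T / (g y - s0)) - T + 1) =
            T * ((g y - s (c - 1)) / (g y - s0)) + t (c - 1) - 1 := by
          have := (hg0 y hy1 hyn).ne'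
          field_simp
          ring
        split_ifs with h5
        · have := h3.2 (by omega)
          linarith
        · have := h3.1 (by omega)
          linarith

end Pool.Agent.K1H23.PC
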