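import Pool.Agent.K1H23.PC.Stm

/-! PC-LAY (helper92): a family of bent lines meets a low parabola. -/

set_option autoImplicit false

namespace Pool.Agent.K1H23.PC

open Filter Topology

namespace Lay

/-- half of the discriminant root, minus `S` -/
noncomputable def dl (h e S : ℝ) : ℝ := √(h ^ 2 + 4 * S ^ 2 + 4 * e) / 2 - S

theorem ev_nonneg (h e : ℝ) : ∀ᶠ S : ℝ in atTop, 0 ≤ h ^ 2 + 4 * S ^ 2 + 4 * e := by
  filter_upwards [eventually_ge_atTop (|e| + 1)] with S hS
  have h1 := neg_abs_le e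
  have h2 := abs_nonneg e
  nlinarith [sq_nonneg h]

theorem dl_tendsto (h e : ℝ) : Tendsto (dl h e) atTop (𝓝 0) := by
  have h1 : Tendsto (fun S : ℝ => |h ^ 2 + 4 * e| / (4 * S)) atTop (𝓝 0) :=
    Tendsto.div_atTop tendsto_const_nhds (Tendsto.const_mul_atTop (by norm_num) tendsto_id)
  refine squeeze_zero_norm' ?_ h1
  filter_upwards [ev_nonneg h e, eventually_gt_atTop 0] with S hS h0
  set r := √(h ^ 2 + 4 * S ^ 2 + 4 * e) with hr
  have hr0 : 0 ≤ r := Real.sqrt_nonneg _
  have hr2 : r ^ 2 = h ^ 2 + 4 * S ^ 2 + 4 * e := Real.sq_sqrt hS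
  have h2 : dl h e S = (h ^ 2 + 4 * e) / (2 * (r + 2 * S)) := by
    have : (2 * (r + 2 * S)) ≠ 0 := by positivity
    rw [dl, ← hr, eq_div_iff this]
    nlinarith
  rw [h2, Real.norm_eq_abs, abs_div, abs_of_pos (by positivity : 0 < 2 * (r + 2 * S))]
  exact div_le_div_of_nonneg_left (abs_nonneg _) (by positivity) (by nlinarith)

/-- the left zero -/
noncomputable def L (h e S : ℝ) : ℝ := - S + h / 2 - dl h e S

/-- the right zero -/
noncomputable def R (h e S : ℝ) : ℝ := S + h / 2 + dl h e S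

theorem L_eq (h e S : ℝ) : 0 ≤ h ^ 2 + 4 * S ^ 2 + 4 * e → L h e S ^ 2 - S ^ 2 = h * L h e S + e := by
  intro hS
  have hr2 : √(h ^ 2 + 4 * S ^ 2 + 4 * e) ^ 2 = h ^ 2 + 4 * S ^ 2 + 4 * e := Real.sq_sqrt hS
  rw [L, dl]
  linear_combination hr2 / 4

theorem R_eq (h e S : ℝ) : 0 ≤ h ^ 2 + 4 * S ^ 2 + 4 * e → R h e S ^ 2 - S ^ 2 = h * R h e S + e := by
  intro hS
  have hr2 : √(h ^ 2 + 4 * S ^ 2 + 4 * e) ^ 2 = h ^ 2 + 4 * S ^ 2 + 4 * e := Real.sq_sqrt hS
  rw [R, dl]
  linear_combination hr2 / 4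

theorem L_add (h e : ℝ) : Tendsto (fun S => L h e S + S) atTop (𝓝 (h / 2)) := by
  have h1 : Tendsto (fun S => h / 2 - dl h e S) atTop (𝓝 (h / 2 - 0)) :=
    tendsto_const_nhds.sub (dl_tendsto h e)
  rw [sub_zero] at h1
  refine h1.congr fun S => ?_
  rw [L]
  ring

theorem R_sub (h e : ℝ) : Tendsto (fun S => R h e S - S) atTop (𝓝 (h / 2)) := by
  have h1 : Tendsto (fun S => h / 2 + dl h e S) atTop (𝓝 (h / 2 + 0)) :=
    tendsto_const_nhds.add (dl_tendsto h e)
  rw [add_zero] at h1
  refine h1.congr fun S => ?_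
  rw [R]
  ring

theorem L_bot (h e K : ℝ) : ∀ᶠ S in atTop, L h e S < - K := by
  have h1 : Tendsto (fun S => (L h e S + S) + - S) atTop atBot :=
    (L_add h e).add_atBot tendsto_neg_atTop_atBot
  filter_upwards [h1.eventually_lt_atBot (- K)] with S hS
  linarith

theorem R_top (h e K : ℝ) : ∀ᶠ S in atTop, K < R h e S := by
  have h1 : Tendsto (fun S => (R h e S - S) + S) atTop atTop :=
    (R_sub h e).add_atTop tendsto_id
  filter_upwards [h1.eventually_gt_atTop K] with S hS
  linarith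

theorem L_lt {h h' : ℝ} (e e' : ℝ) (hh : h < h') : ∀ᶠ S in atTop, L h e S < L h' e' S := by
  filter_upwards [(L_add h e).eventually_lt (L_add h' e') (by linarith)] with S hS
  linarith

theorem R_lt {h h' : ℝ} (e e' : ℝ) (hh : h < h') : ∀ᶠ S in atTop, R h e S < R h' e' S := by
  filter_upwards [(R_sub h e).eventually_lt (R_sub h' e') (by linarith)] with S hS
  linarith

/-- the middle edge of the polygon is low -/
theorem mid_low {h l : ℝ} (e e' M : ℝ) (hl : l < h) : ∀ᶠ S in atTop, ∀ z : ℝ × ℝ, |z.1| ≤ M →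
    |z.2| ≤ M → (L h e S + R l e' S) * z.1 - L h e S * R l e' S - S ^ 2 < z.2 := by
  have ha := L_add h e
  have hb := R_sub l e'
  have h1 : Tendsto (fun S => (|(L h e S + S) + (R l e' S - S)| * M -
      (L h e S + S) * (R l e' S - S)) + S * ((R l e' S - S) - (L h e S + S))) atTop atBot := by
    refine Tendsto.add_atBot (((ha.add hb).abs.mul_const M).sub (ha.mul hb)) ?_
    exact Tendsto.atTop_mul_neg (by linarith : l / 2 - h / 2 < 0) tendsto_id (hb.sub ha)
  filter_upwards [h1.eventually_lt_atBot (- M)] with S hS z hz1 hz2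
  have h2 : ((L h e S + S) + (R l e' S - S)) * z.1 ≤ |(L h e S + S) + (R l e' S - S)| * M := by
    refine (le_abs_self _).trans ?_
    rw [abs_mul]
    exact mul_le_mul_of_nonneg_left hz1 (abs_nonneg _)
  have h3 := neg_abs_le z.2
  nlinarith

/-- the top edge of the polygon is high -/
theorem top_high {h l : ℝ} (e e' M : ℝ) (hl : h < l) : ∀ᶠ S in atTop, ∀ z : ℝ × ℝ, |z.1| ≤ M →
    |z.2| ≤ M → z.2 < (L h e S + R l e' S) * z.1 - L h e S * R l e' S - S ^ 2 := by
  have ha := L_add h e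
  have hb := R_sub l e'
  have h1 : Tendsto (fun S => (-(|(L h e S + S) + (R l e' S - S)| * M) -
      (L h e S + S) * (R l e' S - S)) + S * ((R l e' S - S) - (L h e S + S))) atTop atTop := by
    refine Tendsto.add_atTop (((ha.add hb).abs.mul_const M).neg.sub (ha.mul hb)) ?_
    exact Tendsto.atTop_mul_pos (by linarith : 0 < l / 2 - h / 2) tendsto_id (hb.sub ha)
  filter_upwards [h1.eventually_gt_atTop M] with S hS z hz1 hz2
  have h2 : -(|(L h e S + S) + (R l e' S - S)| * M) ≤
      ((L h e S + S) + (R l e' S - S)) * z.1 := by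
    refine le_trans (neg_le_neg ?_) (neg_abs_le _)
    rw [abs_mul]
    exact mul_le_mul_of_nonneg_left hz1 (abs_nonneg _)
  have h3 := le_abs_self z.2
  nlinarith

/-- slopes to far points of a line are near the slope of the line -/
theorem slope_near (h t xi M ε : ℝ) (hM : 0 < M) (hxi : |xi| ≤ M) (ht : |t| ≤ M) (hε : 0 < ε) :
    ∃ K : ℝ, ∀ x : ℝ, K < |x| → ∀ z : ℝ × ℝ, |z.1| ≤ M → |z.2| ≤ M →
      |(t + h * (x - xi) - z.2) / (x - z.1) - h| < ε := by
  refine ⟨M + (2 * M + |h| * (2 * M)) / ε, fun x hx z hz1 hz2 => ?_⟩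
  have hC : 0 < 2 * M + |h| * (2 * M) := by positivity
  have h1 : (2 * M + |h| * (2 * M)) / ε < |x - z.1| := by
    have := abs_sub_abs_le_abs_sub x z.1
    linarith
  have h0 : 0 < |x - z.1| := lt_trans (by positivity) h1
  have h2 : x - z.1 ≠ 0 := abs_pos.1 h0
  have h3 : (t + h * (x - xi) - z.2) / (x - z.1) - h = (t - z.2 + h * (z.1 - xi)) / (x - z.1) := by
    field_simp
    ring
  rw [h3, abs_div, div_lt_iff₀ h0]
  have h4 : |t - z.2 + h * (z.1 - xi)| ≤ 2 * M + |h| * (2 * M) := by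
    refine (abs_add_le _ _).trans (add_le_add ?_ ?_)
    · refine (abs_sub _ _).trans (by linarith)
    · rw [abs_mul]
      exact mul_le_mul_of_nonneg_left ((abs_sub _ _).trans (by linarith)) (abs_nonneg _)
  rw [div_lt_iff₀ hε] at h1
  linarith

theorem cf_left {lo hi ξ τ x : ℝ} (h : x ≤ ξ) : cf lo hi ξ τ x = τ + hi * (x - ξ) := by
  rw [cf, min_eq_left (by linarith), max_eq_right (by linarith)]
  ring

theorem cf_right {lo hi ξ τ x : ℝ} (h : ξ ≤ x) : cf lo hi ξ τ x = τ + lo * (x - ξ) := by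
  rw [cf, min_eq_right (by linarith), max_eq_left (by linarith)]
  ring

/-- finitely many conditions -/
theorem ev_lt {P : ℕ → ℝ → Prop} (H : ℕ) (h : ∀ m < H, ∀ᶠ S in atTop, P m S) :
    ∀ᶠ S in atTop, ∀ m < H, P m S := by
  have := (Filter.eventually_all_finset (Finset.range H)).2 fun m hm => h m (Finset.mem_range.1 hm)
  filter_upwards [this] with S hS m hm
  exact hS m (Finset.mem_range.2 hm)

/-- the slopes to the zeros -/
theorem ev_slope {h t xi M c : ℝ} (hM : 0 < M) (hxi : |xi| ≤ M) (ht : |t| ≤ M)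
    {x : ℝ → ℝ} (hx : ∀ K, ∀ᶠ S in atTop, K < |x S|) (hc : h ≠ c) :
    ∀ᶠ S in atTop, ∀ z : ℝ × ℝ, |z.1| ≤ M → |z.2| ≤ M →
      (h < c → (t + h * (x S - xi) - z.2) / (x S - z.1) < c) ∧
      (c < h → c < (t + h * (x S - xi) - z.2) / (x S - z.1)) := by
  obtain ⟨K, hK⟩ := slope_near h t xi M |h - c| hM hxi ht (abs_pos.2 (sub_ne_zero.2 hc))
  filter_upwards [hx K] with S hS z hz1 hz2
  have h1 := hK _ hS z hz1 hz2
  rw [abs_lt] at h1
  constructor
  · intro h2
    rw [abs_of_neg (by linarith : h - c < 0)] at h1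
    linarith
  · intro h2
    rw [abs_of_pos (by linarith : 0 < h - c)] at h1
    linarith

end Lay

open Lay

theorem t_LAY : S_LAY := by
  intro H lo hi ξ τ M hH hM hle hlt h0 hb
  have hhi : ∀ m m', m < m' → m' < H → hi m < hi m' := fun m m' h1 h2 =>
    (hlt m m' h1 h2).elim (fun h => h.trans_le (hle m' h2)) fun h => h.2.1
  have hlo : ∀ m m', m < m' → m' < H → lo m < lo m' := fun m m' h1 h2 =>
    (hlt m m' h1 h2).elim (fun h => (hle m (h1.trans h2)).trans_lt h) fun h => h.2.2
  set eL : ℕ → ℝ := fun m => τ m - hi m * ξ m with heL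
  set eR : ℕ → ℝ := fun m => τ m - lo m * ξ m with heR
  have hH1 : lo 0 < hi (H - 1) := (hle 0 (by omega)).trans_lt (h0.trans_le (hle _ (by omega)))
  have hLtop : ∀ h e K, ∀ᶠ S in atTop, K < |L h e S| := fun h e K => by
    filter_upwards [L_bot h e K] with S hS
    have := neg_le_abs (L h e S)
    linarith
  have hRtop : ∀ h e K, ∀ᶠ S in atTop, K < |R h e S| := fun h e K => by
    filter_upwards [R_top h e K] with S hS
    have := le_abs_self (R h e S)
    linarith
  obtain ⟨S, hS⟩ := ((ev_lt H fun m _ => ev_nonneg (hi m) (eL m)).and <|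
    (ev_lt H fun m _ => ev_nonneg (lo m) (eR m)).and <|
    (ev_lt H fun m _ => L_bot (hi m) (eL m) M).and <|
    (ev_lt H fun m _ => R_top (lo m) (eR m) M).and <|
    (ev_lt H fun m' hm' => ev_lt m' fun m hm => L_lt (eL m) (eL m') (hhi m m' hm hm')).and <|
    (ev_lt H fun m' hm' => ev_lt m' fun m hm => R_lt (eR m) (eR m') (hlo m m' hm hm')).and <|
    (eventually_gt_atTop (M + 1)).and <|
    (mid_low (eL (H - 1)) (eR 0) M hH1).and <| (top_high (eL 0) (eR (H - 1)) M h0).and <|
    (ev_lt H fun m hm => ev_lt H fun m' _ => show ∀ᶠ S in atTop, hi m < lo m' →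
      ∀ z : ℝ × ℝ, |z.1| ≤ M → |z.2| ≤ M →
      (τ m + hi m * (L (hi m) (eL m) S - ξ m) - z.2) / (L (hi m) (eL m) S - z.1) < lo m' by
        by_cases h : hi m < lo m'
        · filter_upwards [ev_slope hM (hb m hm).1 (hb m hm).2 (hLtop (hi m) (eL m)) h.ne]
            with S hS _ z hz1 hz2
          exact (hS z hz1 hz2).1 h
        · exact Eventually.of_forall fun S h' => absurd h' h).and <|
    (ev_lt H fun m hm => ev_lt H fun m' _ => show ∀ᶠ S in atTop, hi m < lo m' →
      ∀ z : ℝ × ℝ, |z.1| ≤ M → |z.2| ≤ M →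
      (τ m + lo m * (R (lo m) (eR m) S - ξ m) - z.2) / (R (lo m) (eR m) S - z.1) < lo m' by
        by_cases h : hi m < lo m'
        · have h' : lo m < lo m' := (hle m hm).trans_lt h
          filter_upwards [ev_slope hM (hb m hm).1 (hb m hm).2 (hRtop (lo m) (eR m)) h'.ne]
            with S hS _ z hz1 hz2
          exact (hS z hz1 hz2).1 h'
        · exact Eventually.of_forall fun S h' => absurd h' h).and <|
    (ev_lt H fun m hm => ev_lt H fun m' hm' => show ∀ᶠ S in atTop, hi m < lo m' →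
      ∀ z : ℝ × ℝ, |z.1| ≤ M → |z.2| ≤ M →
      hi m < (τ m' + hi m' * (L (hi m') (eL m') S - ξ m') - z.2) / (L (hi m') (eL m') S - z.1) by
        by_cases h : hi m < lo m'
        · have h' : hi m < hi m' := h.trans_le (hle m' hm')
          filter_upwards [ev_slope hM (hb m' hm').1 (hb m' hm').2 (hLtop (hi m') (eL m')) h'.ne']
            with S hS _ z hz1 hz2
          exact (hS z hz1 hz2).2 h'
        · exact Eventually.of_forall fun S h' => absurd h' h).and
    (ev_lt H fun m hm => ev_lt H fun m' hm' => show ∀ᶠ S in atTop, hi m < lo m' →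
      ∀ z : ℝ × ℝ, |z.1| ≤ M → |z.2| ≤ M →
      hi m < (τ m' + lo m' * (R (lo m') (eR m') S - ξ m') - z.2) / (R (lo m') (eR m') S - z.1) by
        by_cases h : hi m < lo m'
        · filter_upwards [ev_slope hM (hb m' hm').1 (hb m' hm').2 (hRtop (lo m') (eR m')) h.ne']
            with S hS _ z hz1 hz2
          exact (hS z hz1 hz2).2 h
        · exact Eventually.of_forall fun S h' => absurd h' h)).exists
  obtain ⟨c1, c2, c3, c4, c5, c6, c7, c8, c9, c10, c11, c12, c13⟩ := hS
  have hxL : ∀ m < H, (fun i => if i < H then L (hi i) (eL i) S else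
      R (lo (i - H)) (eR (i - H)) S) m = L (hi m) (eL m) S := fun m hm => if_pos hm
  have hxR : ∀ m, (fun i => if i < H then L (hi i) (eL i) S else
      R (lo (i - H)) (eR (i - H)) S) (H + m) = R (lo m) (eR m) S := fun m => by
    show (if H + m < H then _ else _) = _
    rw [if_neg (by omega), Nat.add_sub_cancel_left]
  generalize (fun i => if i < H then L (hi i) (eL i) S else
      R (lo (i - H)) (eR (i - H)) S) = x at hxL hxR
  have qL : ∀ m < H, x m ^ 2 - S ^ 2 = τ m + hi m * (x m - ξ m) := fun m hm => by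
    rw [hxL m hm, L_eq _ _ _ (c1 m hm)]
    simp only [heL]
    ring
  have qR : ∀ m < H, x (H + m) ^ 2 - S ^ 2 = τ m + lo m * (x (H + m) - ξ m) := fun m hm => by
    rw [hxR m, R_eq _ _ _ (c2 m hm)]
    simp only [heR]
    ring
  have hleft : ∀ m < H, x m < - M := fun m hm => by
    rw [hxL m hm]
    exact c3 m hm
  have hright : ∀ m < H, M < x (H + m) := fun m hm => by
    rw [hxR m]
    exact c4 m hm
  refine ⟨S ^ 2, x, ?_⟩
  constructor
  · intro i hi2
    rcases lt_trichotomy (i + 1) H with h | h | h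
    · rw [hxL i (by omega), hxL (i + 1) h]
      exact c5 (i + 1) h i (by omega)
    · have h1 := hleft i (by omega)
      have h2 := hright 0 (by omega)
      rw [h]
      rw [Nat.add_zero] at h2
      linarith
    · obtain ⟨j, rfl⟩ : ∃ j, i = H + j := ⟨i - H, by omega⟩
      rw [Nat.add_assoc, hxR, hxR]
      exact c6 (j + 1) (by omega) j (by omega)
  · exact hleft
  · exact hright
  · intro m hm
    rw [qL m hm]
    refine cf_left ?_
    have := hleft m hm
    have := neg_abs_le (ξ m)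
    have := (hb m hm).1
    linarith
  · intro m hm
    rw [qR m hm]
    refine cf_right ?_
    have := hright m hm
    have := le_abs_self (ξ m)
    have := (hb m hm).1
    linarith
  · intro z hz1 hz2
    have hz1' := abs_le.1 hz1
    have hz2' := abs_le.1 hz2
    constructor
    · intro i hi2
      rcases lt_trichotomy (i + 1) H with h | h | h
      · have h1 := hleft i (by omega)
        have h2 := hleft (i + 1) h
        nlinarith [mul_pos (by linarith : 0 < z.1 - x i) (by linarith : 0 < z.1 - x (i + 1))]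
      · have h1 := c8 z hz1 hz2
        have e1 : i = H - 1 := by omega
        have e2 := hxR 0
        rw [Nat.add_zero] at e2
        rw [h, e2, e1, hxL (H - 1) (by omega)]
        exact h1
      · obtain ⟨j, rfl⟩ : ∃ j, i = H + j := ⟨i - H, by omega⟩
        have h1 := hright j (by omega)
        have h2 := hright (j + 1) (by omega)
        rw [← Nat.add_assoc] at h2
        nlinarith [mul_pos (by linarith : 0 < x (H + j) - z.1)
          (by linarith : 0 < x (H + j + 1) - z.1)]
    · have h1 := c9 z hz1 hz2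
      have e1 : 2 * H - 1 = H + (H - 1) := by omega
      rw [e1, hxR, hxL 0 (by omega)]
      exact h1
  · intro z hz1 hz2 m hm m' hm' hlt'
    rw [qL m hm, qR m hm, qL m' hm', qR m' hm', hxL m hm, hxR, hxL m' hm', hxR]
    exact ⟨⟨c10 m hm m' hm' hlt' z hz1 hz2, c11 m hm m' hm' hlt' z hz1 hz2⟩,
      c12 m hm m' hm' hlt' z hz1 hz2, c13 m hm m' hm' hlt' z hz1 hz2⟩

end Pool.Agent.K1H23.PC
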