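import Pool.Agent.K1H23.PC.Stm

/-!
# The piece `S_LINE`: straight lines with prescribed orders of the common points
-/

namespace Pool.Agent.K1H23.PC

namespace LineH

/-- The relation between the directions of three lines. -/
theorem dir (d1 d2 d3 : ℝ × ℝ) (α β γ e : ℝ) (h : α • d1 + γ • d3 = β • d2) :
    γ * (e * cr d1 d3) = β * (e * cr d1 d2) ∧ α * (e * cr d1 d3) = β * (e * cr d2 d3) := by
  have h1 : α * d1.1 + γ * d3.1 = β * d2.1 := by
    have := congrArg Prod.fst h
    simpa using this
  have h2 : α * d1.2 + γ * d3.2 = β * d2.2 := by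
    have := congrArg Prod.snd h
    simpa using this
  unfold cr
  constructor
  · linear_combination e * d1.1 * h2 - e * d1.2 * h1
  · linear_combination e * d3.2 * h1 - e * d3.1 * h2

theorem pos_iff_of {x y a b : ℝ} (h : a * x = b * y) (hab : 0 < a * b) : 0 < x ↔ 0 < y := by
  have hx : a * b * x = b * b * y := by
    calc a * b * x = b * (a * x) := by ring
      _ = b * b * y := by rw [h]; ring
  have hb : b ≠ 0 := by
    rintro rfl
    simp at hab
  have hbb : 0 < b * b := mul_self_pos.mpr hb
  constructor
  · intro h0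
    have : 0 < b * b * y := by rw [← hx]; exact mul_pos hab h0
    exact (mul_pos_iff_of_pos_left hbb).mp this
  · intro h0
    have : 0 < a * b * x := by rw [hx]; exact mul_pos hbb h0
    exact (mul_pos_iff_of_pos_left hab).mp this

end LineH

open LineH in
theorem t_LINE : S_LINE := by
  intro m o d τ T hcr hF hT hT0
  by_cases hm : m ≤ 2
  · refine ⟨fun a => a, fun _ => 0, fun a b h _ => Nat.cast_lt.mpr h, ?_⟩
    intro x y z h1 h2 h3
    omega
  push Not at hm
  -- the three differences
  have key : ∀ x y z, x < y → y < z → z < m →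
      (τ x z - τ x y) • d x + (τ z y - τ z x) • d z = (τ y z - τ y x) • d y := by
    intro x y z h1 h2 h3
    have e1 := (hcr x (by omega) y (by omega) (by omega)).2
    have e2 := (hcr x (by omega) z h3 (by omega)).2
    have e3 := (hcr y (by omega) z h3 (by omega)).2
    have a1 := congrArg Prod.fst e1
    have a2 := congrArg Prod.snd e1
    have b1 := congrArg Prod.fst e2
    have b2 := congrArg Prod.snd e2
    have c1 := congrArg Prod.fst e3
    have c2 := congrArg Prod.snd e3
    simp only [Prod.fst_add, Prod.snd_add, Prod.smul_fst, Prod.smul_snd, smul_eq_mul]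
      at a1 a2 b1 b2 c1 c2
    apply Prod.ext
    · simp only [Prod.fst_add, Prod.smul_fst, smul_eq_mul]
      linarith
    · simp only [Prod.snd_add, Prod.smul_snd, smul_eq_mul]
      linarith
  -- the sign
  obtain ⟨e, hee, he⟩ : ∃ e : ℝ, e * e = 1 ∧ 0 < e * cr (d 0) (d 1) := by
    have h := (hcr 0 (by omega) 1 (by omega) (by omega)).1
    rcases lt_or_gt_of_ne h with h | h
    · exact ⟨-1, by norm_num, by linarith⟩
    · exact ⟨1, by norm_num, by linarith⟩
  have h0 : ∀ z, 0 < z → z < m → 0 < e * cr (d 0) (d z) := by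
    intro z hz hzm
    rcases Nat.lt_or_ge z 2 with h | h
    · have : z = 1 := by omega
      subst this
      exact he
    · have hk := dir _ _ _ _ _ _ e (key 0 1 z (by omega) (by omega) hzm)
      obtain ⟨t1, t2, t3⟩ := hT 0 1 z (by omega) (by omega) hzm (hT0 1 z (by omega) (by omega) hzm)
      refine (pos_iff_of hk.1 ?_).mpr he
      exact mul_pos (by linarith) (by linarith)
  have hpos : ∀ a b, a < b → b < m → 0 < e * cr (d a) (d b) := by
    intro a b hab hb
    rcases Nat.eq_zero_or_pos a with ha | ha
    · subst ha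
      exact h0 b hab hb
    · have hk := dir _ _ _ _ _ _ e (key 0 a b ha hab hb)
      obtain ⟨t1, t2, t3⟩ := hT 0 a b ha hab hb (hT0 a b ha hab hb)
      refine (pos_iff_of hk.2 ?_).mp (h0 b (by omega) hb)
      exact mul_pos (by linarith) (by linarith)
  -- the coordinates
  set D : ℝ × ℝ := d (m - 1) with hD
  let f : ℝ × ℝ → ℝ := fun v => e * (cr (d 0) v + cr v D)
  let g : ℝ × ℝ → ℝ := fun v => e * cr (d 0) v
  have hfadd : ∀ (u v : ℝ × ℝ) (r : ℝ), f (u + r • v) = f u + r * f v := by
    intro u v r
    simp only [f, cr, Prod.fst_add, Prod.snd_add, Prod.smul_fst, Prod.smul_snd, smul_eq_mul]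
    ring
  have hgadd : ∀ (u v : ℝ × ℝ) (r : ℝ), g (u + r • v) = g u + r * g v := by
    intro u v r
    simp only [g, cr, Prod.fst_add, Prod.snd_add, Prod.smul_fst, Prod.smul_snd, smul_eq_mul]
    ring
  have hcr0 : ∀ v : ℝ × ℝ, cr v v = 0 := fun v => by unfold cr; ring
  have hfpos : ∀ a, a < m → 0 < f (d a) := by
    intro a ha
    have A : 0 ≤ e * cr (d 0) (d a) := by
      rcases Nat.eq_zero_or_pos a with h | h
      · subst h; rw [hcr0]; simp
      · exact (h0 a h ha).le
    have B : 0 ≤ e * cr (d a) D := by
      rcases Nat.lt_or_ge a (m - 1) with h | h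
      · exact (hpos a (m - 1) h (by omega)).le
      · have : a = m - 1 := by omega
        rw [this, ← hD, hcr0]; simp
    have C : 0 < e * cr (d 0) (d a) ∨ 0 < e * cr (d a) D := by
      rcases Nat.eq_zero_or_pos a with h | h
      · subst h
        exact Or.inr (hpos 0 (m - 1) (by omega) (by omega))
      · exact Or.inl (h0 a h ha)
    have : f (d a) = e * cr (d 0) (d a) + e * cr (d a) D := by simp only [f]; ring
    rw [this]
    rcases C with C | C <;> linarith
  have hD0 : 0 < e * cr (d 0) D := hpos 0 (m - 1) (by omega) (by omega)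
  let s : ℕ → ℝ := fun a => g (d a) / f (d a)
  let t : ℕ → ℝ := fun a => g (o a) - s a * f (o a)
  have hs : ∀ a b, a < b → b < m → s a < s b := by
    intro a b hab hb
    have ha' := hfpos a (by omega)
    have hb' := hfpos b hb
    simp only [s]
    rw [div_lt_div_iff₀ ha' hb']
    have h1 : 0 < (e * cr (d 0) D) * (e * cr (d a) (d b)) := mul_pos hD0 (hpos a b hab hb)
    have h2 : g (d b) * f (d a) - g (d a) * f (d b) =
        (e * cr (d 0) D) * (e * cr (d a) (d b)) := by
      simp only [f, g, cr]
      ring
    linarith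
  have hsd : ∀ a, a < m → g (d a) - s a * f (d a) = 0 := by
    intro a ha
    have := (hfpos a ha).ne'
    simp only [s]
    field_simp
    ring
  -- the points of the line `a`
  have hline : ∀ a, a < m → ∀ r : ℝ, g (o a + r • d a) = s a * f (o a + r • d a) + t a := by
    intro a ha r
    rw [hgadd, hfadd]
    have := hsd a ha
    simp only [t]
    linear_combination r * this
  refine ⟨s, t, hs, ?_⟩
  intro x y z hxy hyz hz
  have hx : x < m := by omega
  have hy : y < m := by omega
  have sxy := hs x y hxy hy
  have syz := hs y z hyz hz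
  have sxz := hs x z (by omega) hz
  -- the main formula
  have hEE : EE s t x y z = (s z - s x) * (s y - s x) * ((τ x y - τ x z) * f (d x)) := by
    have l1 := hline x hx (τ x y)
    have l2 := hline y hy (τ y x)
    have l3 := hline x hx (τ x z)
    have l4 := hline z hz (τ z x)
    rw [← (hcr x hx y hy (by omega)).2] at l2
    rw [← (hcr x hx z hz (by omega)).2] at l4
    have l5 : f (o x + τ x y • d x) - f (o x + τ x z • d x) = (τ x y - τ x z) * f (d x) := by
      rw [hfadd, hfadd]; ring
    rw [← l5]
    have m1 : s x * f (o x + τ x y • d x) + t x = s y * f (o x + τ x y • d x) + t y := by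
      rw [← l1, ← l2]
    have m2 : s x * f (o x + τ x z • d x) + t x = s z * f (o x + τ x z • d x) + t z := by
      rw [← l3, ← l4]
    unfold EE
    generalize f (o x + τ x y • d x) = F1 at *
    generalize f (o x + τ x z • d x) = F2 at *
    linear_combination (s z - s x) * m1 - (s y - s x) * m2
  constructor
  · intro h
    obtain ⟨t1, -, -⟩ := hF x y z hxy hyz hz h
    rw [hEE]
    exact mul_pos (mul_pos (by linarith) (by linarith)) (mul_pos (by linarith) (hfpos x hx))
  · intro h
    obtain ⟨t1, -, -⟩ := hT x y z hxy hyz hz h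
    rw [hEE]
    refine mul_neg_of_pos_of_neg (mul_pos (by linarith) (by linarith)) ?_
    exact mul_neg_of_neg_of_pos (by linarith) (hfpos x hx)

end Pool.Agent.K1H23.PC
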