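import Pool.Agent.K1H23.PC.Stm

/-!
# The drawing inside the polygon
-/

namespace Pool.Agent.K1H23.PC

namespace MainP

/-- Slopes of a bent line are between `lo` and `hi`. -/
theorem cf_lip {lo hi ξ τ x y : ℝ} (h : lo ≤ hi) (hxy : x ≤ y) :
    lo * (y - x) ≤ cf lo hi ξ τ y - cf lo hi ξ τ x ∧
      cf lo hi ξ τ y - cf lo hi ξ τ x ≤ hi * (y - x) := by
  unfold cf
  rcases le_total x ξ with h1 | h1 <;> rcases le_total y ξ with h2 | h2
  · rw [min_eq_left (by linarith), min_eq_left (by linarith), max_eq_right (by linarith),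
      max_eq_right (by linarith)]
    constructor <;> nlinarith
  · rw [min_eq_right (by linarith), min_eq_left (by linarith), max_eq_left (by linarith),
      max_eq_right (by linarith)]
    constructor <;> nlinarith
  · have : x = y := by linarith
    subst this
    constructor <;> nlinarith
  · rw [min_eq_right (by linarith), min_eq_right (by linarith), max_eq_left (by linarith),
      max_eq_left (by linarith)]
    constructor <;> nlinarith

theorem cf_left {lo hi ξ τ x : ℝ} (h : x ≤ ξ) : cf lo hi ξ τ x = τ + hi * (x - ξ) := by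
  unfold cf
  rw [min_eq_left (by linarith), max_eq_right (by linarith)]; ring

theorem cf_right {lo hi ξ τ x : ℝ} (h : ξ ≤ x) : cf lo hi ξ τ x = τ + lo * (x - ξ) := by
  unfold cf
  rw [min_eq_right (by linarith), max_eq_left (by linarith)]; ring

theorem cf_self {lo hi ξ τ : ℝ} : cf lo hi ξ τ ξ = τ := by
  rw [cf_left le_rfl]; ring

/-- The two segments of a bent line. -/
theorem seg_left {lo hi ξ τ : ℝ} {r z : ℝ × ℝ} (hr : r.2 = cf lo hi ξ τ r.1) (hx : r.1 ≤ ξ)
    (hz : z ∈ segment ℝ r (ξ, τ)) : z.2 = cf lo hi ξ τ z.1 := by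
  obtain ⟨a, b, ha, hb, hab, rfl⟩ := hz
  rw [cf_left hx] at hr
  simp only [Prod.fst_add, Prod.snd_add, Prod.smul_fst, Prod.smul_snd, smul_eq_mul]
  have : a * r.1 + b * ξ ≤ ξ := by
    have h1 := mul_le_mul_of_nonneg_left hx ha
    have h2 : a * ξ + b * ξ = ξ := by rw [← add_mul, hab, one_mul]
    linarith
  rw [cf_left this, hr]
  have : b = 1 - a := by linarith
  subst this
  ring

theorem seg_right {lo hi ξ τ : ℝ} {r z : ℝ × ℝ} (hr : r.2 = cf lo hi ξ τ r.1) (hx : ξ ≤ r.1)
    (hz : z ∈ segment ℝ (ξ, τ) r) : z.2 = cf lo hi ξ τ z.1 := by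
  obtain ⟨a, b, ha, hb, hab, rfl⟩ := hz
  rw [cf_right hx] at hr
  simp only [Prod.fst_add, Prod.snd_add, Prod.smul_fst, Prod.smul_snd, smul_eq_mul]
  have : ξ ≤ a * ξ + b * r.1 := by
    have h1 := mul_le_mul_of_nonneg_left hx hb
    have h2 : a * ξ + b * ξ = ξ := by rw [← add_mul, hab, one_mul]
    linarith
  rw [cf_right this, hr]
  have : b = 1 - a := by linarith
  subst this
  ring

/-- A bent line against a bent line with larger slopes. -/
theorem diff_mono {lo hi ξ τ lo' hi' ξ' τ' : ℝ} (h : lo ≤ hi) (h' : lo' ≤ hi') (hd : hi < lo') :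
    StrictMono (fun x => cf lo' hi' ξ' τ' x - cf lo hi ξ τ x) := by
  intro x y hxy
  have h1 := (cf_lip (ξ := ξ) (τ := τ) h hxy.le).2
  have h2 := (cf_lip (ξ := ξ') (τ := τ') h' hxy.le).1
  have h3 : hi * (y - x) < lo' * (y - x) := by
    apply mul_lt_mul_of_pos_right hd; linarith
  dsimp only
  linarith

theorem same_mono {lo hi ξ τ lo' hi' τ' : ℝ} (h1 : lo < lo') (h2 : hi < hi') :
    StrictMono (fun x => cf lo' hi' ξ τ' x - cf lo hi ξ τ x) := by
  intro x y hxy
  dsimp only
  rcases le_total x ξ with h3 | h3 <;> rcases le_total y ξ with h4 | h4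
  · rw [cf_left h3, cf_left h3, cf_left h4, cf_left h4]; nlinarith
  · rw [cf_left h3, cf_left h3, cf_right h4, cf_right h4]
    rcases eq_or_lt_of_le h3 with h5 | h5
    · subst h5; nlinarith
    · nlinarith
  · exfalso; linarith
  · rw [cf_right h3, cf_right h3, cf_right h4, cf_right h4]; nlinarith

/-- A straight line against a bent line. -/
theorem line_mono {lo hi ξ τ κ a b : ℝ} (h : lo ≤ hi) (hκ : κ < lo ∨ hi < κ) :
    StrictMono (fun x => a + κ * (x - b) - cf lo hi ξ τ x) ∨
      StrictAnti (fun x => a + κ * (x - b) - cf lo hi ξ τ x) := by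
  rcases hκ with hκ | hκ
  · right
    intro x y hxy
    have h1 := (cf_lip (ξ := ξ) (τ := τ) h hxy.le).1
    have h3 : κ * (y - x) < lo * (y - x) := by
      apply mul_lt_mul_of_pos_right hκ; linarith
    dsimp only
    nlinarith
  · left
    intro x y hxy
    have h1 := (cf_lip (ξ := ξ) (τ := τ) h hxy.le).2
    have h3 : hi * (y - x) < κ * (y - x) := by
      apply mul_lt_mul_of_pos_right hκ; linarith
    dsimp only
    nlinarith

theorem mono_pos {g : ℝ → ℝ} (hg : StrictMono g ∨ StrictAnti g) {a b t : ℝ}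
    (ht : t ∈ Set.uIcc a b) (ha : 0 < g a) (hb : 0 < g b) : 0 < g t := by
  rcases Set.mem_uIcc.1 ht with ⟨h1, h2⟩ | ⟨h1, h2⟩ <;> rcases hg with hg | hg
  · exact lt_of_lt_of_le ha (hg.monotone h1)
  · exact lt_of_lt_of_le hb (hg.antitone h2)
  · exact lt_of_lt_of_le hb (hg.monotone h1)
  · exact lt_of_lt_of_le ha (hg.antitone h2)

theorem mono_neg {g : ℝ → ℝ} (hg : StrictMono g ∨ StrictAnti g) {a b t : ℝ}
    (ht : t ∈ Set.uIcc a b) (ha : g a < 0) (hb : g b < 0) : g t < 0 := by
  rcases Set.mem_uIcc.1 ht with ⟨h1, h2⟩ | ⟨h1, h2⟩ <;> rcases hg with hg | hg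
  · exact lt_of_le_of_lt (hg.monotone h2) hb
  · exact lt_of_le_of_lt (hg.antitone h1) ha
  · exact lt_of_le_of_lt (hg.monotone h2) ha
  · exact lt_of_le_of_lt (hg.antitone h1) hb

theorem mono_inj {g : ℝ → ℝ} (hg : StrictMono g ∨ StrictAnti g) {a b : ℝ} (h : g a = g b) :
    a = b := by
  rcases hg with hg | hg
  · exact hg.injective h
  · exact hg.injective h

/-- Points of a segment which is not vertical. -/
theorem seg_line {p r z : ℝ × ℝ} (h : z ∈ segment ℝ p r) (hne : r.1 - p.1 ≠ 0) :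
    z.2 = p.2 + (r.2 - p.2) / (r.1 - p.1) * (z.1 - p.1) ∧ z.1 ∈ Set.uIcc p.1 r.1 := by
  obtain ⟨a, b, ha, hb, hab, rfl⟩ := h
  simp only [Prod.fst_add, Prod.snd_add, Prod.smul_fst, Prod.smul_snd, smul_eq_mul]
  have : a = 1 - b := by linarith
  subst this
  constructor
  · field_simp
    ring
  · rw [Set.mem_uIcc]
    rcases le_total p.1 r.1 with h | h
    · left; constructor <;> nlinarith
    · right; constructor <;> nlinarith

/-- The parabola against a chord with the abscissas `a < b` of its ends. -/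
theorem par_out {lo hi ξ τ Y a b t : ℝ} (h : lo ≤ hi) (hab : a < b)
    (ha : cf lo hi ξ τ a = a ^ 2 - Y) (hb : cf lo hi ξ τ b = b ^ 2 - Y) (ht : t < a ∨ b < t)
    (hξ : a ≤ ξ ∧ ξ ≤ b) : cf lo hi ξ τ t < t ^ 2 - Y := by
  rw [cf_left hξ.1] at ha
  rw [cf_right hξ.2] at hb
  have h1 : hi * (ξ - a) + lo * (b - ξ) = (b - a) * (b + a) := by nlinarith
  rcases ht with ht | ht
  · rw [cf_left (by linarith [hξ.1])]
    have h2 : (b - a) * (b + a) ≤ hi * (b - a) := by
      have : lo * (b - ξ) ≤ hi * (b - ξ) := mul_le_mul_of_nonneg_right h (by linarith [hξ.2])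
      nlinarith
    have h3 : b + a ≤ hi := by
      by_contra hc
      push Not at hc
      have := mul_lt_mul_of_pos_left hc (show 0 < b - a by linarith)
      nlinarith
    nlinarith
  · rw [cf_right (by linarith [hξ.2])]
    have h2 : lo * (b - a) ≤ (b - a) * (b + a) := by
      have : lo * (ξ - a) ≤ hi * (ξ - a) := mul_le_mul_of_nonneg_right h (by linarith [hξ.1])
      nlinarith
    have h3 : lo ≤ b + a := by
      by_contra hc
      push Not at hc
      have := mul_lt_mul_of_pos_left hc (show 0 < b - a by linarith)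
      nlinarith
    nlinarith

theorem par_in {lo hi ξ τ Y a b t : ℝ} (h : lo ≤ hi)
    (ha : cf lo hi ξ τ a = a ^ 2 - Y) (hb : cf lo hi ξ τ b = b ^ 2 - Y) (ht : a < t ∧ t < b) :
    t ^ 2 - Y < cf lo hi ξ τ t := by
  -- concavity of the bent line
  have hc : (b - t) * cf lo hi ξ τ a + (t - a) * cf lo hi ξ τ b ≤ (b - a) * cf lo hi ξ τ t := by
    obtain ⟨h1, h2⟩ := ht
    rcases le_total t ξ with h3 | h3
    · have h4 : cf lo hi ξ τ t - cf lo hi ξ τ a = hi * (t - a) := by
        rw [cf_left h3, cf_left (by linarith)]; ring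
      have h5 := (cf_lip (ξ := ξ) (τ := τ) h h2.le).2
      nlinarith [mul_le_mul_of_nonneg_left h5 (show 0 ≤ t - a by linarith)]
    · have h4 : cf lo hi ξ τ b - cf lo hi ξ τ t = lo * (b - t) := by
        rw [cf_right h3, cf_right (by linarith)]; ring
      have h5 := (cf_lip (ξ := ξ) (τ := τ) h h1.le).1
      nlinarith [mul_le_mul_of_nonneg_left h5 (show 0 ≤ b - t by linarith)]
  rw [ha, hb] at hc
  obtain ⟨h1, h2⟩ := ht
  have h6 : (b - t) * (a ^ 2 - Y) + (t - a) * (b ^ 2 - Y) - (b - a) * (t ^ 2 - Y) =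
      (b - a) * ((t - a) * (b - t)) := by ring
  have h7 : 0 < (b - a) * ((t - a) * (b - t)) :=
    mul_pos (by linarith) (mul_pos (by linarith) (by linarith))
  have h8 : (b - a) * (t ^ 2 - Y) < (b - a) * cf lo hi ξ τ t := by linarith
  exact lt_of_mul_lt_mul_left h8 (by linarith)

/-- Two different points in two segments. -/
theorem two_pts {a b c d z z' : ℝ × ℝ} (h1 : z ∈ segment ℝ a b) (h2 : z' ∈ segment ℝ a b)
    (h3 : z ∈ segment ℝ c d) (h4 : z' ∈ segment ℝ c d) (hne : z ≠ z') :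
    cr (a - b) (c - b) = 0 ∧ cr (a - b) (d - b) = 0 := by
  obtain ⟨s, t, hs, ht, hst, rfl⟩ := h1
  obtain ⟨s', t', hs', ht', hst', rfl⟩ := h2
  obtain ⟨u, v, hu, hv, huv, e1⟩ := h3
  obtain ⟨u', v', hu', hv', huv', e2⟩ := h4
  have f1 := congrArg Prod.fst e1
  have f2 := congrArg Prod.snd e1
  have f3 := congrArg Prod.fst e2
  have f4 := congrArg Prod.snd e2
  simp only [Prod.fst_add, Prod.snd_add, Prod.smul_fst, Prod.smul_snd, smul_eq_mul] at f1 f2 f3 f4
  have hs1 : s = 1 - t := by linarith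
  have hs2 : s' = 1 - t' := by linarith
  have hu1 : u = 1 - v := by linarith
  have hu2 : u' = 1 - v' := by linarith
  subst hs1 hs2 hu1 hu2
  have htt : t - t' ≠ 0 := by
    intro h
    apply hne
    have : t = t' := by linarith
    subst this
    rfl
  -- (v - v') (d - c) = (t - t') (b - a)
  have g1 : (v - v') * (d.1 - c.1) = (t - t') * (b.1 - a.1) := by linarith
  have g2 : (v - v') * (d.2 - c.2) = (t - t') * (b.2 - a.2) := by linarith
  simp only [cr, Prod.fst_sub, Prod.snd_sub]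
  -- c - b = (a - b) (1 - t) - v (d - c)
  have k1 : (t - t') * (c.1 - b.1) = (t - t') * (1 - t) * (a.1 - b.1) - v * (t - t') * (d.1 - c.1) := by
    linear_combination (t - t') * f1
  have k2 : (t - t') * (c.2 - b.2) = (t - t') * (1 - t) * (a.2 - b.2) - v * (t - t') * (d.2 - c.2) := by
    linear_combination (t - t') * f2
  have q1 : (t - t') * ((a.1 - b.1) * (d.2 - c.2) - (a.2 - b.2) * (d.1 - c.1)) = 0 := by
    linear_combination (d.2 - c.2) * g1 - (d.1 - c.1) * g2
  have q2 : (a.1 - b.1) * (d.2 - c.2) - (a.2 - b.2) * (d.1 - c.1) = 0 :=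
    (mul_eq_zero.1 q1).resolve_left htt
  have r1 : (a.1 - b.1) * (c.2 - b.2) - (a.2 - b.2) * (c.1 - b.1) = 0 := by
    linear_combination (a.1 - b.1) * f2 - (a.2 - b.2) * f1 - v * q2
  refine ⟨r1, ?_⟩
  linear_combination r1 + q2

theorem col_of_mem {a b z : ℝ × ℝ} (h : z ∈ segment ℝ a b) : cr (a - b) (z - b) = 0 := by
  obtain ⟨s, t, hs, ht, hst, rfl⟩ := h
  have : t = 1 - s := by linarith
  subst this
  simp only [cr, Prod.fst_sub, Prod.snd_sub, Prod.fst_add, Prod.snd_add, Prod.smul_fst,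
    Prod.smul_snd, smul_eq_mul]
  ring

theorem fin_min (N : ℕ) (Q : ℕ → ℝ → Prop)
    (hQ : ∀ i, ∀ a b, 0 < b → b ≤ a → Q i a → Q i b) (h : ∀ i < N, ∃ δ : ℝ, 0 < δ ∧ Q i δ) :
    ∃ δ : ℝ, 0 < δ ∧ ∀ i < N, Q i δ := by
  induction N with
  | zero => exact ⟨1, one_pos, fun i hi => absurd hi (Nat.not_lt_zero _)⟩
  | succ N ih =>
    obtain ⟨δ, hδ, h1⟩ := ih fun i hi => h i (by omega)
    obtain ⟨δ', hδ', h2⟩ := h N (by omega)
    refine ⟨min δ δ', lt_min hδ hδ', fun i hi => ?_⟩
    rcases Nat.lt_succ_iff_lt_or_eq.1 hi with h3 | h3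
    · exact hQ i δ _ (lt_min hδ hδ') (min_le_left _ _) (h1 i h3)
    · subst h3
      exact hQ _ δ' _ (lt_min hδ hδ') (min_le_right _ _) h2

/-- The family of chords and star lines. -/
noncomputable def fam (w : ℕ) (a fi la : ℕ → ℝ) (m : ℕ) : ℝ :=
  if m % (w + 2) = 0 then fi (m / (w + 2)) else if m % (w + 2) = w + 1 then la (m / (w + 2))
  else a (m / (w + 2) * w + (m % (w + 2) - 1))

/-- The star lines. -/
def star (w m : ℕ) : Prop := m % (w + 2) = 0 ∨ m % (w + 2) = w + 1

theorem fam_chord {w : ℕ} (hw : 0 < w) (a fi la : ℕ → ℝ) (u : ℕ) :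
    fam w a fi la (u / w * (w + 2) + 1 + u % w) = a u ∧
      ¬ star w (u / w * (w + 2) + 1 + u % w) := by
  have hr : u % w < w := Nat.mod_lt _ hw
  have h1 : u / w * (w + 2) + 1 + u % w = (1 + u % w) + (w + 2) * (u / w) := by ring
  have h2 : (u / w * (w + 2) + 1 + u % w) % (w + 2) = 1 + u % w := by
    rw [h1, Nat.add_mul_mod_self_left, Nat.mod_eq_of_lt (by omega)]
  have h3 : (u / w * (w + 2) + 1 + u % w) / (w + 2) = u / w := by
    rw [h1, Nat.add_mul_div_left _ _ (by omega), Nat.div_eq_of_lt (by omega), zero_add]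
  constructor
  · unfold fam
    rw [h2, h3, if_neg (by omega), if_neg (by omega)]
    congr 1
    have := Nat.div_add_mod' u w
    omega
  · unfold star
    rw [h2]
    omega

theorem idx_lt {n w c r : ℕ} (hc : c < n) (hr : r < w) : c * w + r < n * w := by
  have : (c + 1) * w ≤ n * w := Nat.mul_le_mul_right _ hc
  nlinarith

theorem idx_div {w c r : ℕ} (hr : r < w) : (c * w + r) / w = c := by
  rw [Nat.add_comm, Nat.add_mul_div_right _ _ (by omega), Nat.div_eq_of_lt hr, zero_add]

section fam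

variable {n P w : ℕ} {sg : ℕ → ℕ → Bool} {lo hi ξ τ : ℕ → ℝ} {p : ℕ → ℝ × ℝ}

theorem cop_same (hC : IsCop n P w sg lo hi ξ τ p) {c r r' : ℕ} (hc : c < n) (h1 : r ≤ r')
    (h2 : r' < w) : lo (c * w + r) ≤ lo (c * w + r') ∧ hi (c * w + r) ≤ hi (c * w + r') := by
  rcases Nat.eq_or_lt_of_le h1 with h | h
  · subst h
    exact ⟨le_rfl, le_rfl⟩
  · have := hC.same (c * w + r) (c * w + r') (by omega) (idx_lt hc h2)
      (by rw [idx_div (by omega), idx_div h2])
    exact ⟨this.2.2.le, this.2.1.le⟩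

theorem fam_bd (hw : 0 < w) (hC : IsCop n P w sg lo hi ξ τ p) (z0 : ℝ) (hz : 0 < z0) (m : ℕ)
    (hm : m < n * (w + 2)) :
    (m % (w + 2) ≠ 0 → lo (m / (w + 2) * w + 0) ≤ fam w lo (fun c => lo (c * w + 0) - z0)
      (fun c => hi (c * w + (w - 1)) + z0) m) ∧
    (m % (w + 2) ≠ w + 1 → fam w hi (fun c => lo (c * w + 0) - z0)
      (fun c => hi (c * w + (w - 1)) + z0) m ≤ hi (m / (w + 2) * w + (w - 1))) ∧
    lo (m / (w + 2) * w + 0) - z0 ≤ fam w lo (fun c => lo (c * w + 0) - z0)
      (fun c => hi (c * w + (w - 1)) + z0) m ∧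
    fam w hi (fun c => lo (c * w + 0) - z0)
      (fun c => hi (c * w + (w - 1)) + z0) m ≤ hi (m / (w + 2) * w + (w - 1)) + z0 ∧
    fam w lo (fun c => lo (c * w + 0) - z0)
      (fun c => hi (c * w + (w - 1)) + z0) m ≤ fam w hi (fun c => lo (c * w + 0) - z0)
      (fun c => hi (c * w + (w - 1)) + z0) m := by
  have hc : m / (w + 2) < n := Nat.div_lt_of_lt_mul (by rw [Nat.mul_comm]; exact hm)
  have hr : m % (w + 2) < w + 2 := Nat.mod_lt _ (by omega)
  set c := m / (w + 2) with hcdef
  set r := m % (w + 2) with hrdef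
  have k1 := cop_same hC hc (show 0 ≤ w - 1 by omega) (show w - 1 < w by omega)
  have k2 := hC.le (c * w + 0) (idx_lt hc (by omega))
  have k3 := hC.le (c * w + (w - 1)) (idx_lt hc (by omega))
  unfold fam
  rw [← hcdef, ← hrdef]
  by_cases h0 : r = 0
  · simp only [h0, ne_eq, not_true_eq_false, false_implies, if_true, true_and]
    refine ⟨fun _ => ?_, ?_, ?_, ?_⟩ <;> linarith
  by_cases h1 : r = w + 1
  · simp only [h1, ne_eq, not_true_eq_false, false_implies, if_true, true_and,
      show (w + 1 = 0) = False by simp, if_false]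
    refine ⟨fun _ => ?_, ?_, ?_, ?_⟩ <;> linarith
  · simp only [if_neg h0, if_neg h1]
    have k4 := cop_same hC hc (show 0 ≤ r - 1 by omega) (show r - 1 < w by omega)
    have k5 := cop_same hC hc (show r - 1 ≤ w - 1 by omega) (show w - 1 < w by omega)
    have k6 := hC.le (c * w + (r - 1)) (idx_lt hc (by omega))
    refine ⟨fun _ => ?_, fun _ => ?_, ?_, ?_, ?_⟩ <;> linarith

theorem fam_sep (hw : 0 < w) (hC : IsCop n P w sg lo hi ξ τ p) (z0 : ℝ) (hz : 0 < z0)
    (hgap : ∀ u' < n * w, ∀ u < n * w, u / w < u' / w → hi u + 3 * z0 < lo u') (m m' : ℕ)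
    (hmm : m < m') (hm : m' < n * (w + 2)) :
    fam w hi (fun c => lo (c * w + 0) - z0) (fun c => hi (c * w + (w - 1)) + z0) m <
      fam w lo (fun c => lo (c * w + 0) - z0) (fun c => hi (c * w + (w - 1)) + z0) m' ∨
    (¬ star w m ∧ ¬ star w m' ∧ fam w ξ (fun _ => 0) (fun _ => 0) m =
      fam w ξ (fun _ => 0) (fun _ => 0) m' ∧
      fam w hi (fun c => lo (c * w + 0) - z0) (fun c => hi (c * w + (w - 1)) + z0) m <
      fam w hi (fun c => lo (c * w + 0) - z0) (fun c => hi (c * w + (w - 1)) + z0) m' ∧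
      fam w lo (fun c => lo (c * w + 0) - z0) (fun c => hi (c * w + (w - 1)) + z0) m <
      fam w lo (fun c => lo (c * w + 0) - z0) (fun c => hi (c * w + (w - 1)) + z0) m') := by
  have hc : m / (w + 2) < n := Nat.div_lt_of_lt_mul (by rw [Nat.mul_comm]; omega)
  have hc' : m' / (w + 2) < n := Nat.div_lt_of_lt_mul (by rw [Nat.mul_comm]; exact hm)
  have hr : m % (w + 2) < w + 2 := Nat.mod_lt _ (by omega)
  have hr' : m' % (w + 2) < w + 2 := Nat.mod_lt _ (by omega)
  have hb := fam_bd hw hC z0 hz m (by omega)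
  have hb' := fam_bd hw hC z0 hz m' hm
  have hcc : m / (w + 2) ≤ m' / (w + 2) := Nat.div_le_div_right hmm.le
  rcases Nat.eq_or_lt_of_le hcc with hcc | hcc
  · have hrr : m % (w + 2) < m' % (w + 2) := by
      have e1 := Nat.div_add_mod m (w + 2)
      have e2 := Nat.div_add_mod m' (w + 2)
      rw [hcc] at e1
      omega
    by_cases h0 : m % (w + 2) = 0
    · left
      have h1 := hb'.1 (by omega)
      refine lt_of_lt_of_le ?_ h1
      unfold fam
      rw [if_pos h0, hcc]
      linarith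
    by_cases h1 : m' % (w + 2) = w + 1
    · left
      have h2 := hb.2.1 (by omega)
      refine lt_of_le_of_lt h2 ?_
      unfold fam
      rw [if_neg (show ¬ m' % (w + 2) = 0 by omega), if_pos h1, hcc]
      linarith
    · right
      have hs := hC.same (m' / (w + 2) * w + (m % (w + 2) - 1))
        (m' / (w + 2) * w + (m' % (w + 2) - 1)) (by omega) (idx_lt hc' (by omega))
        (by rw [idx_div (by omega), idx_div (by omega)])
      refine ⟨by unfold star; omega, by unfold star; omega, ?_, ?_, ?_⟩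
      · unfold fam
        rw [if_neg h0, if_neg (by omega), if_neg (by omega), if_neg h1, hcc]
        exact hs.1
      · unfold fam
        rw [if_neg h0, if_neg (by omega), if_neg (by omega), if_neg h1, hcc]
        exact hs.2.1
      · unfold fam
        rw [if_neg h0, if_neg (by omega), if_neg (by omega), if_neg h1, hcc]
        exact hs.2.2
  · left
    have hg := hgap (m' / (w + 2) * w + 0) (idx_lt hc' (by omega))
      (m / (w + 2) * w + (w - 1)) (idx_lt hc (by omega))
      (by rw [idx_div (by omega), idx_div (by omega)]; exact hcc)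
    have h1 := hb.2.2.2.1
    have h2 := hb'.2.2.1
    linarith

/-- The gap. -/
theorem gap_ex (hC : IsCop n P w sg lo hi ξ τ p) : ∃ z0 : ℝ, 0 < z0 ∧
    ∀ u' < n * w, ∀ u < n * w, u / w < u' / w → hi u + 3 * z0 < lo u' := by
  apply fin_min (n * w) (fun u' z0 => ∀ u < n * w, u / w < u' / w → hi u + 3 * z0 < lo u')
  · intro i a b _ hab h u hu hd
    have := h u hu hd
    linarith
  · intro u' hu'
    apply fin_min (n * w) (fun u z0 => u / w < u' / w → hi u + 3 * z0 < lo u')
    · intro i a b _ hab h hd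
      have := h hd
      linarith
    · intro u hu
      by_cases hd : u / w < u' / w
      · have := hC.diff u u' hu' hd
        exact ⟨(lo u' - hi u) / 6, by linarith, fun _ => by linarith⟩
      · exact ⟨1, one_pos, fun h => absurd h hd⟩

theorem cf_cont (lo hi ξ τ : ℝ) : Continuous (cf lo hi ξ τ) := by
  unfold cf
  fun_prop

/-- The sides are open conditions. -/
theorem side_ex (hC : IsCop n P w sg lo hi ξ τ p) : ∃ ε : ℝ, 0 < ε ∧
    ∀ j < P, ∀ u < n * w, ∀ q : ℝ × ℝ, |q.1 - (p j).1| < ε → |q.2 - (p j).2| < ε →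
      if sg j (u / w) = true then cf (lo u) (hi u) (ξ u) (τ u) q.1 < q.2
        else q.2 < cf (lo u) (hi u) (ξ u) (τ u) q.1 := by
  apply fin_min P (fun j ε => ∀ u < n * w, ∀ q : ℝ × ℝ, |q.1 - (p j).1| < ε →
    |q.2 - (p j).2| < ε → if sg j (u / w) = true then cf (lo u) (hi u) (ξ u) (τ u) q.1 < q.2
        else q.2 < cf (lo u) (hi u) (ξ u) (τ u) q.1)
  · intro j a b _ hab h u hu q h1 h2
    exact h u hu q (by linarith) (by linarith)
  · intro j hj
    apply fin_min (n * w) (fun u ε => ∀ q : ℝ × ℝ, |q.1 - (p j).1| < ε →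
      |q.2 - (p j).2| < ε → if sg j (u / w) = true then cf (lo u) (hi u) (ξ u) (τ u) q.1 < q.2
        else q.2 < cf (lo u) (hi u) (ξ u) (τ u) q.1)
    · intro u a b _ hab h q h1 h2
      exact h q (by linarith) (by linarith)
    · intro u hu
      have hs := hC.side j hj u hu
      have hcont : Continuous fun q : ℝ × ℝ => cf (lo u) (hi u) (ξ u) (τ u) q.1 :=
        (cf_cont _ _ _ _).comp continuous_fst
      by_cases hsg : sg j (u / w) = true
      · rw [if_pos hsg] at hs
        have ho : IsOpen {q : ℝ × ℝ | cf (lo u) (hi u) (ξ u) (τ u) q.1 < q.2} :=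
          isOpen_lt hcont continuous_snd
        obtain ⟨ε, hε, hb⟩ := Metric.isOpen_iff.1 ho (p j) hs
        refine ⟨ε, hε, fun q h1 h2 => ?_⟩
        rw [if_pos hsg]
        apply hb
        rw [Metric.mem_ball, Prod.dist_eq, Real.dist_eq, Real.dist_eq]
        exact max_lt h1 h2
      · rw [if_neg hsg] at hs
        have ho : IsOpen {q : ℝ × ℝ | q.2 < cf (lo u) (hi u) (ξ u) (τ u) q.1} :=
          isOpen_lt continuous_snd hcont
        obtain ⟨ε, hε, hb⟩ := Metric.isOpen_iff.1 ho (p j) hs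
        refine ⟨ε, hε, fun q h1 h2 => ?_⟩
        rw [if_neg hsg]
        apply hb
        rw [Metric.mem_ball, Prod.dist_eq, Real.dist_eq, Real.dist_eq]
        exact max_lt h1 h2

theorem bd_ex (N : ℕ) (a : ℕ → ℝ) : ∃ M : ℝ, 0 < M ∧ ∀ i < N, |a i| ≤ M := by
  refine ⟨1 + ∑ i ∈ Finset.range N, |a i|, ?_, fun i hi => ?_⟩
  · have : 0 ≤ ∑ i ∈ Finset.range N, |a i| := Finset.sum_nonneg fun _ _ => abs_nonneg _
    linarith
  · have := Finset.single_le_sum (f := fun i => |a i|) (s := Finset.range N)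
      (fun _ _ => abs_nonneg _) (Finset.mem_range.2 hi)
    linarith

end fam

theorem strictmono_of {R : ℕ} {x : ℕ → ℝ} (h : ∀ i, i + 1 < R → x i < x (i + 1)) :
    ∀ i j, i < j → j < R → x i < x j := by
  intro i j hij hj
  induction j with
  | zero => omega
  | succ j ih =>
    rcases Nat.lt_succ_iff_lt_or_eq.1 hij with h1 | h1
    · exact lt_trans (ih h1 (by omega)) (h j (by omega))
    · subst h1
      exact h _ (by omega)

/-- The drawing from the parabola and general points. -/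
theorem build {n P : ℕ} {sg : ℕ → ℕ → Bool} {lo hi ξ τ : ℕ → ℝ} {p' : ℕ → ℝ × ℝ}
    {M Y : ℝ} {x : ℕ → ℝ} (h4 : S_POS) (hn : 1 ≤ n)
    (hle : ∀ u < NN n P, lo u ≤ hi u)
    (hpair : ∀ u u', u < u' → u' < NN n P → hi u < lo u' ∨
      (ξ u = ξ u' ∧ hi u < hi u' ∧ lo u < lo u'))
    (hne : ∀ u < NN n P, ∀ u' < NN n P, u ≠ u' →
      cf (lo u') (hi u') (ξ u') (τ u') (ξ u) ≠ τ u)
    (hbξ : ∀ u < NN n P, |ξ u| ≤ M ∧ |τ u| ≤ M)
    (hbp : ∀ j < P, |(p' j).1| ≤ M ∧ |(p' j).2| ≤ M)
    (hside : ∀ j < P, ∀ u < NN n P,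
      if sg j (u / W n P) = true then cf (lo u) (hi u) (ξ u) (τ u) (p' j).1 < (p' j).2
        else (p' j).2 < cf (lo u) (hi u) (ξ u) (τ u) (p' j).1)
    (hmono : ∀ i, i + 1 < 2 * H n P → x i < x (i + 1))
    (hleft : ∀ m < H n P, x m < - M) (hright : ∀ m < H n P, M < x (H n P + m))
    (hA : ∀ u < NN n P, cf (lo u) (hi u) (ξ u) (τ u) (x (posA n P u)) = x (posA n P u) ^ 2 - Y)
    (hB : ∀ u < NN n P, cf (lo u) (hi u) (ξ u) (τ u) (x (posB n P u)) = x (posB n P u) ^ 2 - Y)
    (hhull : ∀ z : ℝ × ℝ, |z.1| ≤ M → |z.2| ≤ M → InHull (2 * H n P) Y x z)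
    (hslope : ∀ z : ℝ × ℝ, |z.1| ≤ M → |z.2| ≤ M → ∀ j m, m < 2 * n → ∀ u < NN n P,
      (x (posS n P sg j m) ^ 2 - Y - z.2) / (x (posS n P sg j m) - z.1) < lo u ∨
      hi u < (x (posS n P sg j m) ^ 2 - Y - z.2) / (x (posS n P sg j m) - z.1))
    (hg1 : ∀ j < P, ∀ u < NN n P, ∀ i < 2 * H n P,
      cr (p' j - rp Y x i) ((ξ u, τ u) - rp Y x i) ≠ 0)
    (hg2 : ∀ j < P, ∀ i < 2 * H n P, ∀ i' < 2 * H n P, i ≠ i' →
      cr (p' j - rp Y x i) (rp Y x i' - rp Y x i) ≠ 0)
    (hg3 : ∀ j < P, ∀ j' < P, j ≠ j' → ∀ i < 2 * H n P,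
      cr (p' j - rp Y x i) (p' j' - rp Y x i) ≠ 0) :
    Main n P sg Y x (fun u => (ξ u, τ u)) p' := by
  obtain ⟨hp1, hp2, hp3, hp4⟩ := h4 n P sg hn
  have hx := strictmono_of hmono
  have hxA : ∀ u < NN n P, x (posA n P u) < ξ u := by
    intro u hu
    have := hleft _ (hp1 u hu).1
    have := (abs_le.1 (hbξ u hu).1).1
    linarith
  have hxB : ∀ u < NN n P, ξ u < x (posB n P u) := by
    intro u hu
    have := hright _ (hp1 u hu).1
    have := (abs_le.1 (hbξ u hu).1).2
    have e : posB n P u = H n P + posA n P u := rfl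
    rw [e]
    linarith
  have hcd : ∀ u < NN n P, ∀ z ∈ cd n P Y x (fun u => (ξ u, τ u)) u,
      z.2 = cf (lo u) (hi u) (ξ u) (τ u) z.1 := by
    intro u hu z hz
    rcases hz with hz | hz
    · exact seg_left (r := rp Y x (posA n P u)) (hA u hu).symm (hxA u hu).le hz
    · exact seg_right (r := rp Y x (posB n P u)) (hB u hu).symm (hxB u hu).le hz
  have hchm : ∀ u u', u < u' → u' < NN n P →
      StrictMono (fun t => cf (lo u') (hi u') (ξ u') (τ u') t - cf (lo u) (hi u) (ξ u) (τ u) t) := by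
    intro u u' huu hu'
    rcases hpair u u' huu hu' with h | ⟨h1, h2, h3⟩
    · exact diff_mono (hle u (by omega)) (hle u' hu') h
    · rw [h1]
      exact same_mono h3 h2
  -- abscissas of rim vertices
  have hS : ∀ j m, m < 2 * n → x (posS n P sg j m) < - M ∨ M < x (posS n P sg j m) := by
    intro j m hm
    obtain ⟨a1, a2, -⟩ := hp3 j m hm
    by_cases h : posS n P sg j m < H n P
    · left; exact hleft _ h
    · right
      have := hright (posS n P sg j m - H n P) (by omega)
      rwa [show H n P + (posS n P sg j m - H n P) = posS n P sg j m by omega] at this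
  have hSne : ∀ j < P, ∀ i m, m < 2 * n → x (posS n P sg i m) - (p' j).1 ≠ 0 := by
    intro j hj i m hm h
    have h1 := abs_le.1 (hbp j hj).1
    rcases hS i m hm with h2 | h2 <;> linarith
  have hMS : ∀ j < P, ∀ m < 2 * n, ∀ z ∈ sp n P sg Y x p' j m,
      z.2 = (p' j).2 + (x (posS n P sg j m) ^ 2 - Y - (p' j).2) /
        (x (posS n P sg j m) - (p' j).1) * (z.1 - (p' j).1) ∧
      z.1 ∈ Set.uIcc (p' j).1 (x (posS n P sg j m)) := by
    intro j hj m hm z hz
    exact seg_line (r := rp Y x (posS n P sg j m)) hz (hSne j hj j m hm)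
  have hxne : ∀ i < 2 * H n P, ∀ i' < 2 * H n P, i ≠ i' → x i ≠ x i' := by
    intro i hi i' hi' hii
    rcases Nat.lt_or_gt_of_ne hii with h | h
    · exact (hx i i' h hi').ne
    · exact (hx i' i h hi).ne'
  refine ⟨hmono, ?_, ?_, ?_, ?_, ?_, ?_, ?_, ?_⟩
  · intro u hu
    exact hhull _ (hbξ u hu).1 (hbξ u hu).2
  · intro j hj
    exact hhull _ (hbp j hj).1 (hbp j hj).2
  · intro u hu
    exact ⟨hxA u hu, hxB u hu⟩
  · intro u hu u' hu' huu
    have hinj : Function.Injective (fun t => cf (lo u') (hi u') (ξ u') (τ u') t -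
        cf (lo u) (hi u) (ξ u) (τ u) t) := by
      rcases Nat.lt_or_gt_of_ne huu with h | h
      · exact (hchm u u' h hu').injective
      · intro a b hab
        apply (hchm u' u h hu).injective
        dsimp only at hab ⊢
        linarith
    constructor
    · rintro z ⟨h1, h2⟩ z' ⟨h3, h4⟩
      have e1 := hcd u hu z h1
      have e2 := hcd u' hu' z h2
      have e3 := hcd u hu z' h3
      have e4 := hcd u' hu' z' h4
      have : z.1 = z'.1 := by
        apply hinj
        dsimp only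
        linarith
      refine Prod.ext this ?_
      rw [e1, e3, this]
    · intro h
      exact hne u hu u' hu' huu (hcd u' hu' _ h).symm
  · intro j hj m hm u hu
    have hmo := line_mono (ξ := ξ u) (τ := τ u) (a := (p' j).2) (b := (p' j).1) (hle u hu)
      (hslope (p' j) (hbp j hj).1 (hbp j hj).2 j m hm u hu)
    refine ⟨?_, ?_, ?_⟩
    · rintro z ⟨h1, h2⟩ z' ⟨h3, h4⟩
      have e1 := (hMS j hj m hm z h1).1
      have e2 := hcd u hu z h2
      have e3 := (hMS j hj m hm z' h3).1
      have e4 := hcd u hu z' h4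
      have : z.1 = z'.1 := by
        apply mono_inj hmo
        linarith
      refine Prod.ext this ?_
      rw [e2, e4, this]
    · intro h
      exact hg1 j hj u hu _ (hp3 j m hm).1 (col_of_mem h)
    · intro hab
      rw [Set.eq_empty_iff_forall_notMem]
      rintro z ⟨h1, h2⟩
      obtain ⟨e1, e1'⟩ := hMS j hj m hm z h1
      have e2 := hcd u hu z h2
      have hs := hside j hj u hu
      obtain ⟨-, -, hpp⟩ := hp3 j m hm
      obtain ⟨q1, q2, q3, q4⟩ := hpp u hu
      obtain ⟨r1, r2, r3⟩ := hp1 u hu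
      have r0 := (hp3 j m hm).1
      have hend : (p' j).2 + (x (posS n P sg j m) ^ 2 - Y - (p' j).2) /
        (x (posS n P sg j m) - (p' j).1) * (x (posS n P sg j m) - (p' j).1) =
          x (posS n P sg j m) ^ 2 - Y := by
        rw [div_mul_cancel₀ _ (hSne j hj j m hm)]; ring
      by_cases hsg : sg j (u / W n P) = true
      · rw [if_pos hsg] at hs
        rw [hsg] at hab
        have hout : cf (lo u) (hi u) (ξ u) (τ u) (x (posS n P sg j m)) <
            x (posS n P sg j m) ^ 2 - Y := by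
          apply par_out (hle u hu) (hx _ _ (by omega) r3) (hA u hu) (hB u hu) _
            ⟨(hxA u hu).le, (hxB u hu).le⟩
          rcases q3.1 hab with h | h
          · left; exact hx _ _ h (by omega)
          · right; exact hx _ _ h r0
        have := mono_pos hmo e1' (by simpa using hs) (by rw [hend]; linarith)
        linarith
      · rw [if_neg hsg] at hs
        have hsg' : sg j (u / W n P) = false := by simpa using hsg
        rw [hsg'] at hab
        have hin : x (posS n P sg j m) ^ 2 - Y <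
            cf (lo u) (hi u) (ξ u) (τ u) (x (posS n P sg j m)) := by
          have h := q4.1 hab
          exact par_in (hle u hu) (hA u hu) (hB u hu) ⟨hx _ _ h.1 r0, hx _ _ h.2 r3⟩
        have := mono_neg hmo e1' (by simpa using hs) (by rw [hend]; linarith)
        linarith
  · intro j hj u hu h
    have e := hcd u hu _ h
    have hs := hside j hj u hu
    by_cases hsg : sg j (u / W n P) = true
    · rw [if_pos hsg] at hs; linarith
    · rw [if_neg hsg] at hs; linarith
  · intro j hj j' hj' hjj m hm h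
    exact hg3 j hj j' hj' hjj _ (hp3 j m hm).1 (col_of_mem h)
  · intro j hj m hm j' hj' m' hm' hne' z hz z' hz'
    by_contra hzz
    have h := two_pts hz.1 hz'.1 hz.2 hz'.2 hzz
    by_cases hjj : j = j'
    · subst hjj
      have hmm : m ≠ m' := fun h => hne' ⟨rfl, h⟩
      have hpp : posS n P sg j m ≠ posS n P sg j m' := by
        rcases Nat.lt_or_gt_of_ne hmm with h | h
        · exact (hp4 j m m' h hm').ne
        · exact (hp4 j m' m h hm).ne'
      exact hg2 j hj _ (hp3 j m hm).1 _ (hp3 j m' hm').1 hpp h.2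
    · exact hg3 j hj j' hj' hjj _ (hp3 j m hm).1 h.1

theorem star_posS (n P : ℕ) (sg : ℕ → ℕ → Bool) (j m : ℕ) :
    (m < n → star (W n P) (posS n P sg j m)) ∧
      (¬ m < n → H n P ≤ posS n P sg j m ∧ star (W n P) (posS n P sg j m - H n P)) := by
  have key : ∀ c r, r < W n P + 2 → (c * (W n P + 2) + r) % (W n P + 2) = r := by
    intro c r hr
    rw [Nat.add_comm, Nat.add_mul_mod_self_right, Nat.mod_eq_of_lt hr]
  constructor
  · intro h
    unfold posS star
    rw [if_pos h]
    split_ifs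
    · left; exact key _ _ (by omega)
    · right; exact key _ _ (by omega)
  · intro h
    unfold posS star
    rw [if_neg h]
    refine ⟨by omega, ?_⟩
    rw [Nat.add_sub_cancel_left]
    split_ifs
    · right; exact key _ _ (by omega)
    · left; exact key _ _ (by omega)

end MainP

open MainP in
/-- The drawing inside the polygon. -/
theorem t_MAIN (h1 : S_CPY) (h2 : S_LAY) (h3 : S_GEN) (h4 : S_POS) : S_MAIN := by
  intro n P sg hn hconf
  have hw : 0 < W n P := by unfold W; omega
  obtain ⟨lo, hi, ξ, τ, p, hC⟩ := h1 n P (W n P) sg hw hconf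
  obtain ⟨z0, hz, hgap⟩ := gap_ex hC
  obtain ⟨ε, hε, hside⟩ := side_ex hC
  obtain ⟨M1, hM1, hb1⟩ := bd_ex (NN n P) ξ
  obtain ⟨M2, hM2, hb2⟩ := bd_ex (NN n P) τ
  obtain ⟨M3, hM3, hb3⟩ := bd_ex P (fun j => (p j).1)
  obtain ⟨M4, hM4, hb4⟩ := bd_ex P (fun j => (p j).2)
  set M := M1 + M2 + M3 + M4 + 1 with hM
  set Lo := fam (W n P) lo (fun c => lo (c * W n P + 0) - z0)
    (fun c => hi (c * W n P + (W n P - 1)) + z0) with hLo
  set Hi := fam (W n P) hi (fun c => lo (c * W n P + 0) - z0)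
    (fun c => hi (c * W n P + (W n P - 1)) + z0) with hHi
  set Ξ := fam (W n P) ξ (fun _ => 0) (fun _ => 0) with hΞ
  set T := fam (W n P) τ (fun _ => 0) (fun _ => 0) with hT
  have hsep := fam_sep hw hC z0 hz hgap
  rw [← hLo, ← hHi, ← hΞ] at hsep
  have hLH : ∀ m < H n P, Lo m ≤ Hi m := fun m hm => (fam_bd hw hC z0 hz m hm).2.2.2.2
  have hH3 : 3 ≤ H n P := by
    unfold H
    nlinarith
  have hstar0 : star (W n P) 0 := Or.inl (Nat.zero_mod _)
  have hbd : ∀ m < H n P, |Ξ m| ≤ M ∧ |T m| ≤ M := by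
    intro m hm
    have hc : m / (W n P + 2) < n := Nat.div_lt_of_lt_mul (by rw [Nat.mul_comm]; exact hm)
    have hr : m % (W n P + 2) < W n P + 2 := Nat.mod_lt _ (by omega)
    rw [hΞ, hT]
    unfold fam
    split_ifs with k1 k2
    · rw [abs_zero]; constructor <;> linarith
    · rw [abs_zero]; constructor <;> linarith
    · have hu : m / (W n P + 2) * W n P + (m % (W n P + 2) - 1) < NN n P :=
        idx_lt hc (by omega)
      have := hb1 _ hu
      have := hb2 _ hu
      constructor <;> linarith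
  obtain ⟨Y, x, hL⟩ := h2 (H n P) Lo Hi Ξ T M hH3 (by linarith) hLH
    (fun m m' hmm hm' => by
      rcases hsep m m' hmm hm' with h | ⟨-, -, h⟩
      · exact Or.inl h
      · exact Or.inr h)
    (by
      rcases hsep 0 (H n P - 1) (by omega) (by unfold H at *; omega) with h | ⟨h, -⟩
      · exact h
      · exact absurd hstar0 h)
    hbd
  obtain ⟨p', g1, g2, g3⟩ := h3 P p (min ε 1)
    ((Finset.range (2 * H n P)).image (rp Y x) ∪
      (Finset.range (NN n P)).image (fun u => (ξ u, τ u))) (lt_min hε one_pos)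
  have hZ1 : ∀ i < 2 * H n P, rp Y x i ∈ ((Finset.range (2 * H n P)).image (rp Y x) ∪
      (Finset.range (NN n P)).image (fun u => (ξ u, τ u))) := fun i hi =>
    Finset.mem_union_left _ (Finset.mem_image_of_mem _ (Finset.mem_range.2 hi))
  have hZ2 : ∀ u < NN n P, (ξ u, τ u) ∈ ((Finset.range (2 * H n P)).image (rp Y x) ∪
      (Finset.range (NN n P)).image (fun u => (ξ u, τ u))) := fun u hu =>
    Finset.mem_union_right _ (Finset.mem_image_of_mem (fun u => (ξ u, τ u)) (Finset.mem_range.2 hu))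
  have hch : ∀ u, Lo (posA n P u) = lo u ∧ Hi (posA n P u) = hi u ∧ Ξ (posA n P u) = ξ u ∧
      T (posA n P u) = τ u ∧ ¬ star (W n P) (posA n P u) := fun u =>
    ⟨(fam_chord hw _ _ _ u).1, (fam_chord hw _ _ _ u).1, (fam_chord hw _ _ _ u).1,
      (fam_chord hw _ _ _ u).1, (fam_chord hw (fun _ => 0) (fun _ => 0) (fun _ => 0) u).2⟩
  obtain ⟨hp1, hp2, hp3, hp4⟩ := h4 n P sg hn
  have hxne : ∀ i < 2 * H n P, ∀ i' < 2 * H n P, i ≠ i' → x i ≠ x i' := by
    intro i hi i' hi' hii
    rcases Nat.lt_or_gt_of_ne hii with h | h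
    · exact (strictmono_of hL.mono i i' h hi').ne
    · exact (strictmono_of hL.mono i' i h hi).ne'
  have hξ : ∀ u < NN n P, |ξ u| ≤ M ∧ |τ u| ≤ M := by
    intro u hu
    have := hb1 _ hu
    have := hb2 _ hu
    constructor <;> linarith
  have hxM : ∀ i < 2 * H n P, x i < - M ∨ M < x i := by
    intro i hi'
    by_cases h : i < H n P
    · left; exact hL.left _ h
    · right
      have := hL.right (i - H n P) (by omega)
      rwa [show H n P + (i - H n P) = i by omega] at this
  refine ⟨Y, x, fun u => (ξ u, τ u), p', build h4 hn hC.le ?_ hC.ne hξ ?_ ?_ hL.mono hL.left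
    hL.right ?_ ?_ hL.hull ?_ ?_ ?_ ?_⟩
  · intro u u' huu hu'
    by_cases hd : u / W n P = u' / W n P
    · right; exact hC.same u u' huu hu' hd
    · left
      exact hC.diff u u' hu' (lt_of_le_of_ne (Nat.div_le_div_right huu.le) hd)
  · intro j hj
    have e1 := hb3 j hj
    have e2 := hb4 j hj
    have e3 := (g1 j hj).1
    have e4 := (g1 j hj).2
    have e5 : |(p' j).1| ≤ |(p' j).1 - (p j).1| + |(p j).1| := by
      have := abs_add_le ((p' j).1 - (p j).1) (p j).1
      rwa [sub_add_cancel] at this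
    have e6 : |(p' j).2| ≤ |(p' j).2 - (p j).2| + |(p j).2| := by
      have := abs_add_le ((p' j).2 - (p j).2) (p j).2
      rwa [sub_add_cancel] at this
    have e7 := min_le_right ε 1
    constructor <;> linarith
  · intro j hj u hu
    exact hside j hj u hu (p' j) (lt_of_lt_of_le (g1 j hj).1 (min_le_left _ _))
      (lt_of_lt_of_le (g1 j hj).2 (min_le_left _ _))
  · intro u hu
    have := hL.onL _ (hp1 u hu).1
    rwa [(hch u).1, (hch u).2.1, (hch u).2.2.1, (hch u).2.2.2.1] at this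
  · intro u hu
    have := hL.onR _ (hp1 u hu).1
    rwa [(hch u).1, (hch u).2.1, (hch u).2.2.1, (hch u).2.2.2.1] at this
  · intro z hz1 hz2 j m hm u hu
    obtain ⟨r1, r2, r3⟩ := hp1 u hu
    obtain ⟨s1, s2, s3⟩ := hp3 j m hm
    obtain ⟨t1, t2⟩ := star_posS n P sg j m
    have hcu := hch u
    -- the member of the family
    have hsepk : ∀ k < H n P, star (W n P) k → Hi k < lo u ∨ hi u < Lo k := by
      intro k hk hst
      rcases Nat.lt_trichotomy k (posA n P u) with h | h | h
      · rcases hsep k (posA n P u) h r1 with h' | ⟨h', -⟩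
        · left; rwa [hcu.1] at h'
        · exact absurd hst h'
      · subst h; exact absurd hst hcu.2.2.2.2
      · rcases hsep (posA n P u) k h hk with h' | ⟨-, h', -⟩
        · right; rwa [hcu.2.1] at h'
        · exact absurd hst h'
    by_cases hmn : m < n
    · have hk := s2.1 hmn
      rcases hsepk _ hk (t1 hmn) with h | h
      · left
        have := (hL.slope z hz1 hz2 _ hk _ r1 (by rw [hcu.1]; exact h)).1.1
        rwa [hcu.1] at this
      · right
        have := (hL.slope z hz1 hz2 _ r1 _ hk (by rw [hcu.2.1]; exact h)).2.1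
        rwa [hcu.2.1] at this
    · obtain ⟨t3, t4⟩ := t2 hmn
      have hk : posS n P sg j m - H n P < H n P := by omega
      have e : H n P + (posS n P sg j m - H n P) = posS n P sg j m := by omega
      rcases hsepk _ hk t4 with h | h
      · left
        have := (hL.slope z hz1 hz2 _ hk _ r1 (by rw [hcu.1]; exact h)).1.2
        rwa [hcu.1, e] at this
      · right
        have := (hL.slope z hz1 hz2 _ r1 _ hk (by rw [hcu.2.1]; exact h)).2.2
        rwa [hcu.2.1, e] at this
  · intro j hj u hu i hi'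
    apply (g2 j hj).2 _ (hZ1 i hi') _ (hZ2 u hu)
    intro h
    have h' := congrArg Prod.fst h
    have e := abs_le.1 (hξ u hu).1
    have e2 := hxM i hi'
    simp only [rp] at h'
    rcases e2 with e2 | e2 <;> linarith
  · intro j hj i hi1 i' hi2 hii
    apply (g2 j hj).2 _ (hZ1 i hi1) _ (hZ1 i' hi2)
    intro h
    exact hxne i hi1 i' hi2 hii (congrArg Prod.fst h)
  · intro j hj j' hj' hjj i hi'
    exact (g3 j hj j' hj' hjj).2 _ (hZ1 i hi')

end Pool.Agent.K1H23.PC
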