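import Pool.Agent.K1H23.PC.Stm

/-!
# The reduction is computable in polynomial time
-/

namespace Pool.Agent.NPC.K1H23PR

open Pool.Agent.NPC Pool.Agent.NPC.ER Pool.Agent.NPC.ER.Oslp Pool.Agent.K1H23.PC

variable {α : Type} [TEnc α]

theorem poly_eqc {s : α → ℕ} (hs : Poly s) (n : ℕ) : Poly (fun x => decide (s x = n)) :=
  Poly.decide_eq hs (Poly.const n)

theorem poly_opd {p : α → List Ins} {k : α → ℕ} (hp : Poly p) (hk : Poly k) :
    Poly (fun a => Sgn.opd (p a) (k a)) := by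
  refine (Poly.ite (Poly.decide_lt hk (Poly.const 2)) (Poly.const none)
    (Poly.getD hp (Poly.sub hk (Poly.const 2)) (Poly.const none))).congr fun a => ?_
  unfold Sgn.opd
  rw [List.getD_eq_getElem?_getD]

theorem upoly_Ng {p : α → List Ins} (hp : Poly p) : UPoly (fun a => Ng (p a)) :=
  UPoly.add (UPoly.length hp) (UPoly.const 2)

theorem upoly_bN {p : α → List Ins} (hp : Poly p) : UPoly (fun a => bN (p a)) :=
  UPoly.mul (UPoly.mul (UPoly.const 72) (upoly_Ng hp)) (upoly_Ng hp)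

theorem upoly_bP {p : α → List Ins} (hp : Poly p) : UPoly (fun a => bP (p a)) :=
  UPoly.mul (UPoly.const 10) (upoly_Ng hp)

theorem upoly_sub {m n : α → ℕ} (hm : UPoly m) (hn : Poly n) : UPoly (fun a => m a - n a) :=
  UPoly.of_le (Poly.sub hm.toPoly hn) hm fun _ => Nat.sub_le _ _

theorem upoly_div {m n : α → ℕ} (hm : UPoly m) (hn : Poly n) : UPoly (fun a => m a / n a) :=
  UPoly.of_le (Poly.div hm.toPoly hn) hm fun _ => Nat.div_le_self _ _

theorem upoly_fN {p : α → List Ins} (hp : Poly p) : UPoly (fun a => fN (p a)) :=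
  UPoly.mul (UPoly.const 12) (UPoly.add (upoly_bN hp) (UPoly.const 1))

theorem upoly_fP1 {p : α → List Ins} (hp : Poly p) : UPoly (fun a => fP1 (p a)) :=
  UPoly.add (upoly_bP hp) (upoly_sub (upoly_bN hp) (Poly.const 1))

theorem upoly_fP {p : α → List Ins} (hp : Poly p) : UPoly (fun a => fP (p a)) :=
  UPoly.add (upoly_fP1 hp) (UPoly.mul (UPoly.const 31) (UPoly.add (upoly_bN hp) (UPoly.const 1)))

/-! ### The signs -/

theorem poly_ent {M : α → List (List Bool)} {i c : α → ℕ} (hM : Poly M) (hi : Poly i)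
    (hc : Poly c) : Poly (fun a => ent (M a) (i a) (c a)) :=
  Poly.getD (Poly.getD hM hi (Poly.const [])) hc (Poly.const false)

theorem poly_grp {p : α → List Ins} {x : α → ℕ} (hp : Poly p) (hx : Poly x) :
    Poly (fun a => grp (p a) (x a)) :=
  Poly.ite (poly_eqc hx 0) (Poly.add (Poly.length hp) (Poly.const 1)) (Poly.sub hx (Poly.const 1))

theorem poly_lab {c : α → ℕ × ℕ × ℕ × ℕ} {k u : α → ℕ} (hc : Poly c) (hk : Poly k)
    (hu : Poly u) : Poly (fun a => lab (c a) (k a) (u a)) :=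
  Poly.ite (poly_eqc hu 0) (Poly.fst (Poly.snd (Poly.snd hc)))
    (Poly.ite (poly_eqc hu 1) (Poly.fst (Poly.snd hc))
      (Poly.ite (poly_eqc hu 2) (Poly.fst hc)
        (Poly.ite (poly_eqc hu 3) (Poly.const 0)
          (Poly.ite (poly_eqc hu 4) (Poly.snd (Poly.snd (Poly.snd hc))) hk))))

theorem poly_zn {b u : α → ℕ} (hb : Poly b) (hu : Poly u) : Poly (fun a => zn (b a) (u a)) :=
  Poly.ite (poly_eqc hb 1)
    (Poly.ite (poly_eqc hu 1) (Poly.const 0) (Poly.ite (poly_eqc hu 5) (Poly.const 3)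
      (Poly.const 5)))
    (Poly.ite (poly_eqc hu 1) (Poly.const 5) (Poly.ite (poly_eqc hu 5) (Poly.const 2)
      (Poly.const 0)))

theorem poly_12 {p : α → List Ins} (hp : Poly p) : Poly (fun a => 12 * Ng (p a)) :=
  Poly.mul (Poly.const 12) (upoly_Ng hp).toPoly

theorem poly_lidx {p : α → List Ins} {g z r : α → ℕ} (hp : Poly p) (hg : Poly g) (hz : Poly z)
    (hr : Poly r) : Poly (fun a => lidx (p a) (g a) (z a) (r a)) :=
  Poly.add (Poly.mul (Poly.add (Poly.mul hg (Poly.const 6)) hz) (poly_12 hp)) hr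

theorem poly_qidx {p : α → List Ins} {c : α → ℕ × ℕ × ℕ × ℕ} {k b u : α → ℕ} (hp : Poly p)
    (hc : Poly c) (hk : Poly k) (hb : Poly b) (hu : Poly u) :
    Poly (fun a => qidx (p a) (c a) (k a) (b a) (u a)) :=
  poly_lidx hp (poly_grp hp (poly_lab hc hk hu)) (poly_zn hb hu)
    (Poly.add (Poly.mul (Poly.const 6) (Poly.add (Poly.mul (Poly.const 2) hk) hb)) hu)

theorem poly_isReal {p : α → List Ins} {x : α → ℕ} (hp : Poly p) (hx : Poly x) :
    Poly (fun a => isReal (p a) (x a)) := by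
  have h1 : Poly (fun a => x a % (12 * Ng (p a))) := Poly.mod hx (poly_12 hp)
  have h2 : Poly (fun a => x a % (12 * Ng (p a)) / 6) := Poly.div h1 (Poly.const 6)
  have h3 : Poly (fun a => x a % (12 * Ng (p a)) / 6 / 2) := Poly.div h2 (Poly.const 2)
  have h4 : Poly (fun a => x a % (12 * Ng (p a)) / 6 % 2) := Poly.mod h2 (Poly.const 2)
  have h5 : Poly (fun a => x a % (12 * Ng (p a)) % 6) := Poly.mod h1 (Poly.const 6)
  have g : Poly (fun y : α × (ℕ × ℕ × ℕ × ℕ) => y.1) := Poly.fst Poly.id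
  refine (Poly.optCases (g := fun _ => false)
    (h := fun a c => decide (x a = qidx (p a) c (x a % (12 * Ng (p a)) / 6 / 2)
      (x a % (12 * Ng (p a)) / 6 % 2) (x a % (12 * Ng (p a)) % 6))) (poly_opd hp h3)
    (Poly.const false)
    (Poly.decide_eq (hx.comp g) (poly_qidx (hp.comp g) (Poly.snd Poly.id) (h3.comp g) (h4.comp g)
      (h5.comp g)))).congr fun a => ?_
  unfold isReal
  cases Sgn.opd (p a) (x a % (12 * Ng (p a)) / 6 / 2) <;> rfl

theorem poly_tab {s : α → Bool} {b i u : α → ℕ} (hs : Poly s) (hb : Poly b) (hi : Poly i)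
    (hu : Poly u) : Poly (fun a => tab (s a) (b a) (i a) (u a)) :=
  Poly.xor (poly_ent (Poly.ite (poly_eqc hb 1) (Poly.const tabU) (Poly.const tabL)) hi hu)
    (Poly.and hs (poly_eqc hu 2))

theorem poly_cen {p : α → List Ins} {x : α → ℕ} (hp : Poly p) (hx : Poly x) :
    Poly (fun a => cen (p a) (x a)) :=
  Poly.ite (Poly.decide_bool (poly_isReal hp hx))
    (Poly.add (Poly.div (Poly.mod hx (poly_12 hp)) (Poly.const 6)) (Poly.const 1)) (Poly.const 0)

theorem poly_bsg {p : α → List Ins} {i x : α → ℕ} (hp : Poly p) (hi : Poly i) (hx : Poly x) :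
    Poly (fun a => bsg (p a) (i a) (x a)) := by
  have h1 : Poly (fun a => i a / 5) := Poly.div hi (Poly.const 5)
  have h2 : Poly (fun a => i a / 5 / 2) := Poly.div h1 (Poly.const 2)
  have h3 : Poly (fun a => i a / 5 + 1) := Poly.add h1 (Poly.const 1)
  have h4 : Poly (fun a => i a / 5 % 2) := Poly.mod h1 (Poly.const 2)
  have h5 : Poly (fun a => i a % 5) := Poly.mod hi (Poly.const 5)
  have h6 : Poly (fun a => x a % (12 * Ng (p a)) % 6) :=
    Poly.mod (Poly.mod hx (poly_12 hp)) (Poly.const 6)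
  have h7 : Poly (fun a => x a / (12 * Ng (p a)) / 6) :=
    Poly.div (Poly.div hx (poly_12 hp)) (Poly.const 6)
  have h8 : Poly (fun a => Ng (p a) - 1) := Poly.sub (upoly_Ng hp).toPoly (Poly.const 1)
  have h9 := poly_cen hp hx
  have g : Poly (fun y : α × (ℕ × ℕ × ℕ × ℕ) => y.1) := Poly.fst Poly.id
  refine (Poly.optCases (g := fun _ => true)
    (h := fun a c => if cen (p a) (x a) = i a / 5 + 1 then
        tab (decide (c.1 = 0)) (i a / 5 % 2) (i a % 5) (x a % (12 * Ng (p a)) % 6)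
      else if cen (p a) (x a) < i a / 5 + 1 then
        decide (x a / (12 * Ng (p a)) / 6 < Ng (p a) - 1)
      else decide (x a / (12 * Ng (p a)) / 6 = Ng (p a) - 1)) (poly_opd hp h2)
    (Poly.const true)
    (Poly.ite (Poly.decide_eq (h9.comp g) (h3.comp g))
      (poly_tab (poly_eqc (Poly.fst (Poly.snd Poly.id)) 0) (h4.comp g) (h5.comp g) (h6.comp g))
      (Poly.ite (Poly.decide_lt (h9.comp g) (h3.comp g)) (Poly.decide_lt (h7.comp g) (h8.comp g))
        (Poly.decide_eq (h7.comp g) (h8.comp g))))).congr fun a => ?_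
  unfold bsg
  cases Sgn.opd (p a) (i a / 5 / 2) <;> rfl

theorem poly_fS {p : α → List Ins} {i c : α → ℕ} (hp : Poly p) (hi : Poly i) (hc : Poly c) :
    Poly (fun a => fS (p a) (i a) (c a)) := by
  have hP1 := (upoly_fP1 hp).toPoly
  have hbP := (upoly_bP hp).toPoly
  have h1 : Poly (fun a => c a / 12) := Poly.div hc (Poly.const 12)
  have h2 : Poly (fun a => c a % 12) := Poly.mod hc (Poly.const 12)
  have h3 : Poly (fun a => i a - fP1 (p a)) := Poly.sub hi hP1
  have h4 : Poly (fun a => (i a - fP1 (p a)) / 31) := Poly.div h3 (Poly.const 31)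
  have h5 : Poly (fun a => (i a - fP1 (p a)) % 31) := Poly.mod h3 (Poly.const 31)
  have hs1 : Poly (fun a => sg1 (bP (p a)) (bsg (p a)) (i a) (c a / 12)) :=
    Poly.ite (Poly.decide_lt hi hbP)
      (Poly.ite (poly_eqc h1 0) (Poly.const true) (poly_bsg hp hi (Poly.sub h1 (Poly.const 1))))
      (Poly.ite (poly_eqc h1 0) (Poly.const true)
        (Poly.decide_lt (Poly.add (Poly.sub hi hbP) (Poly.const 1)) h1))
  exact Poly.ite (Poly.decide_lt hi hP1) hs1
    (Poly.ite (Poly.decide_lt h1 h4) (Poly.const true)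
      (Poly.ite (Poly.decide_lt h4 h1) (Poly.const false) (poly_ent (Poly.const k12) h5 h2)))

/-! ### The graph -/

section

variable {n P : α → ℕ} (hn : UPoly n) (hP : UPoly P)

include hn hP

theorem upoly_2nP : UPoly (fun a => 2 * n a * P a) :=
  UPoly.mul (UPoly.mul (UPoly.const 2) hn) hP

theorem upoly_W : UPoly (fun a => W (n a) (P a)) :=
  UPoly.add (UPoly.mul (upoly_2nP hn hP) (upoly_2nP hn hP)) (UPoly.const 1)

theorem upoly_H : UPoly (fun a => H (n a) (P a)) :=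
  UPoly.mul hn (UPoly.add (upoly_W hn hP) (UPoly.const 2))

theorem upoly_NN : UPoly (fun a => NN (n a) (P a)) := UPoly.mul hn (upoly_W hn hP)

theorem upoly_KK : UPoly (fun a => KK (n a) (P a)) :=
  UPoly.add (UPoly.add (upoly_div (UPoly.mul (upoly_NN hn hP)
      (upoly_sub (upoly_NN hn hP) (Poly.const 1))) (Poly.const 2))
    (UPoly.mul (UPoly.mul hP (upoly_NN hn hP)) (upoly_sub hn (Poly.const 1))))
    (UPoly.mul (upoly_2nP hn hP) (upoly_2nP hn hP))

theorem upoly_BB : UPoly (fun a => BB (n a) (P a)) :=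
  UPoly.add (UPoly.mul (UPoly.const 2) (upoly_KK hn hP)) (UPoly.const 1)

theorem poly_W2 : Poly (fun a => W (n a) (P a) + 2) :=
  (UPoly.add (upoly_W hn hP) (UPoly.const 2)).toPoly

theorem poly_posA {u : α → ℕ} (hu : Poly u) : Poly (fun a => posA (n a) (P a) (u a)) :=
  Poly.add (Poly.add (Poly.mul (Poly.div hu (upoly_W hn hP).toPoly) (poly_W2 hn hP))
    (Poly.const 1)) (Poly.mod hu (upoly_W hn hP).toPoly)

theorem poly_posB {u : α → ℕ} (hu : Poly u) : Poly (fun a => posB (n a) (P a) (u a)) :=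
  Poly.add (upoly_H hn hP).toPoly (poly_posA hn hP hu)

theorem poly_posS {sg : α → ℕ → ℕ → Bool} (hsg : Poly (fun x : α × ℕ × ℕ => sg x.1 x.2.1 x.2.2))
    {j m : α → ℕ} (hj : Poly j) (hm : Poly m) :
    Poly (fun a => posS (n a) (P a) (sg a) (j a) (m a)) := by
  have h1 : Poly (fun a => sg a (j a) (m a)) := hsg.comp (Poly.id.pair (hj.pair hm))
  have h2 : Poly (fun a => m a - n a) := Poly.sub hm hn.toPoly
  have h3 : Poly (fun a => sg a (j a) (m a - n a)) := hsg.comp (Poly.id.pair (hj.pair h2))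
  have h4 : Poly (fun a => W (n a) (P a) + 1) :=
    Poly.add (upoly_W hn hP).toPoly (Poly.const 1)
  exact Poly.ite (Poly.decide_lt hm hn.toPoly)
    (Poly.add (Poly.mul hm (poly_W2 hn hP)) (Poly.ite (Poly.decide_bool h1) (Poly.const 0) h4))
    (Poly.add (upoly_H hn hP).toPoly (Poly.add (Poly.mul h2 (poly_W2 hn hP))
      (Poly.ite (Poly.decide_bool h3) h4 (Poly.const 0))))

end

theorem poly_lin {x : α → ℕ} (hx : Poly x) (k : ℕ) : Poly (fun a => 5 * x a + k) :=
  Poly.add (Poly.mul (Poly.const 5) hx) (Poly.const k)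

theorem poly_pr {x y : α → ℕ} (hx : Poly x) (hy : Poly y) : Poly (fun a => pr (x a) (y a)) :=
  Poly.pair (Poly.min hx hy) (Poly.max hx hy)

theorem poly_vts {n P : α → ℕ} (hn : UPoly n) (hP : UPoly P) :
    Poly (fun a => vts (n a) (P a)) := by
  have h2 : Poly (fun y : α × ℕ => y.2) := Poly.snd Poly.id
  have hH : UPoly (fun a => 2 * H (n a) (P a)) := UPoly.mul (UPoly.const 2) (upoly_H hn hP)
  have hHB : UPoly (fun a => 2 * H (n a) (P a) * BB (n a) (P a)) := UPoly.mul hH (upoly_BB hn hP)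
  exact Poly.cons (Poly.const 0) (Poly.append (Poly.append (Poly.append
    (Poly.map (F := fun _ b => vR b) hH.range (poly_lin h2 1))
    (Poly.map (F := fun _ b => vP b) hP.range (poly_lin h2 2)))
    (Poly.map (F := fun _ b => 5 * b + 3) hHB.range (poly_lin h2 3)))
    (Poly.map (F := fun _ b => 5 * b + 4) hHB.range (poly_lin h2 4)))

theorem poly_eds {n P : α → ℕ} (hn : UPoly n) (hP : UPoly P) {sg : α → ℕ → ℕ → Bool}
    (hsg : Poly (fun x : α × ℕ × ℕ => sg x.1 x.2.1 x.2.2)) :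
    Poly (fun a => eds (n a) (P a) (sg a)) := by
  have h1 : Poly (fun y : α × ℕ => y.1) := Poly.fst Poly.id
  have h2 : Poly (fun y : α × ℕ => y.2) := Poly.snd Poly.id
  have hH : UPoly (fun a => 2 * H (n a) (P a)) := UPoly.mul (UPoly.const 2) (upoly_H hn hP)
  refine Poly.append (Poly.append ?_ ?_) ?_
  · refine Poly.map (F := fun a u => pr (vR (posA (n a) (P a) u)) (vR (posB (n a) (P a) u)))
      (upoly_NN hn hP).range ?_
    exact poly_pr (poly_lin (poly_posA (hn.comp h1) (hP.comp h1) h2) 1)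
      (poly_lin (poly_posB (hn.comp h1) (hP.comp h1) h2) 1)
  · refine Poly.flatMap (F := fun a j => (List.range (2 * n a)).map fun m =>
      pr (vP j) (vR (posS (n a) (P a) (sg a) j m))) hP.range ?_
    refine Poly.map (F := fun (y : α × ℕ) m =>
      pr (vP y.2) (vR (posS (n y.1) (P y.1) (sg y.1) y.2 m)))
      (UPoly.mul (UPoly.const 2) (hn.comp h1)).range ?_
    have g1 : Poly (fun z : (α × ℕ) × ℕ => z.1.1) := Poly.fst (Poly.fst Poly.id)
    have g2 : Poly (fun z : (α × ℕ) × ℕ => z.1.2) := Poly.snd (Poly.fst Poly.id)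
    have g3 : Poly (fun z : (α × ℕ) × ℕ => z.2) := Poly.snd Poly.id
    have hsg' : Poly (fun x : ((α × ℕ) × ℕ) × ℕ × ℕ => sg x.1.1.1 x.2.1 x.2.2) :=
      hsg.comp ((g1.comp (Poly.fst Poly.id)).pair (Poly.snd Poly.id))
    exact poly_pr (poly_lin g2 2)
      (poly_lin (poly_posS (sg := fun z : (α × ℕ) × ℕ => sg z.1.1) (hn.comp g1) (hP.comp g1)
        hsg' g2 g3) 1)
  · refine Poly.flatMap (F := fun a i => (List.range (BB (n a) (P a))).flatMap fun k =>
      [pr (vR i) (vX (n a) (P a) i k),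
        pr (vX (n a) (P a) i k) (vR ((i + 1) % (2 * H (n a) (P a)))),
        pr 0 (vY (n a) (P a) i k), pr (vY (n a) (P a) i k) (vR i)]) hH.range ?_
    refine Poly.flatMap (F := fun (y : α × ℕ) k =>
      [pr (vR y.2) (vX (n y.1) (P y.1) y.2 k),
        pr (vX (n y.1) (P y.1) y.2 k) (vR ((y.2 + 1) % (2 * H (n y.1) (P y.1)))),
        pr 0 (vY (n y.1) (P y.1) y.2 k), pr (vY (n y.1) (P y.1) y.2 k) (vR y.2)])
      ((upoly_BB hn hP).comp h1).range ?_
    have g1 : Poly (fun z : (α × ℕ) × ℕ => z.1.1) := Poly.fst (Poly.fst Poly.id)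
    have g2 : Poly (fun z : (α × ℕ) × ℕ => z.1.2) := Poly.snd (Poly.fst Poly.id)
    have g3 : Poly (fun z : (α × ℕ) × ℕ => z.2) := Poly.snd Poly.id
    have q : Poly (fun z : (α × ℕ) × ℕ => z.1.2 * BB (n z.1.1) (P z.1.1) + z.2) :=
      Poly.add (Poly.mul g2 ((upoly_BB hn hP).comp g1).toPoly) g3
    have hX : Poly (fun z : (α × ℕ) × ℕ => vX (n z.1.1) (P z.1.1) z.1.2 z.2) := poly_lin q 3
    have hY : Poly (fun z : (α × ℕ) × ℕ => vY (n z.1.1) (P z.1.1) z.1.2 z.2) := poly_lin q 4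
    have hR : Poly (fun z : (α × ℕ) × ℕ => vR z.1.2) := poly_lin g2 1
    have hR' : Poly (fun z : (α × ℕ) × ℕ => vR ((z.1.2 + 1) % (2 * H (n z.1.1) (P z.1.1)))) :=
      poly_lin (Poly.mod (Poly.add g2 (Poly.const 1)) (hH.comp g1).toPoly) 1
    exact Poly.cons (poly_pr hR hX) (Poly.cons (poly_pr hX hR') (Poly.cons
      (poly_pr (Poly.const 0) hY) (Poly.cons (poly_pr hY hR) (Poly.const []))))

theorem poly_gr {n P : α → ℕ} (hn : UPoly n) (hP : UPoly P) {sg : α → ℕ → ℕ → Bool}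
    (hsg : Poly (fun x : α × ℕ × ℕ => sg x.1 x.2.1 x.2.2)) :
    Poly (fun a => gr (n a) (P a) (sg a)) :=
  Poly.pair (poly_vts hn hP) (Poly.pair (poly_eds hn hP hsg) (upoly_KK hn hP).toPoly)

theorem poly_red : Poly red := by
  have hp : Poly (fun S : List Con => prog S) := poly_prog Poly.id
  refine poly_gr (upoly_fN hp) (upoly_fP hp) ?_
  exact poly_fS (hp.comp (Poly.fst Poly.id)) (Poly.fst (Poly.snd Poly.id))
    (Poly.snd (Poly.snd Poly.id))

end Pool.Agent.NPC.K1H23PR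

namespace Pool.Agent.K1H23.PC

theorem t_PR : S_PR := Pool.Agent.NPC.K1H23PR.poly_red

end Pool.Agent.K1H23.PC
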