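import Pool.Agent.K1H23.PC.Stm
import Pool.Agent.Helper448.VanKampen

/-!
# The topological lemma: the frame contains uncrossed paths; `K₅` is not planar
-/

set_option autoImplicit false

namespace Pool.Agent.K1H23.PC

namespace TT

/-! ### `K₅` in the plane -/

/-- the vertex-disjoint pairs of edges of `K₅` -/
def L5 : List ((Fin 5 × Fin 5) × (Fin 5 × Fin 5)) :=
  [((0, 1), (2, 3)), ((0, 2), (1, 3)), ((0, 3), (1, 2)),
   ((1, 2), (3, 4)), ((1, 3), (2, 4)), ((1, 4), (2, 3)),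
   ((0, 2), (3, 4)), ((0, 3), (2, 4)), ((0, 4), (2, 3)),
   ((0, 1), (3, 4)), ((0, 3), (1, 4)), ((0, 4), (1, 3)),
   ((0, 1), (2, 4)), ((0, 2), (1, 4)), ((0, 4), (1, 2))]

theorem mem_L5 : ∀ a b c d : Fin 5, a < b → c < d → a ≠ c → a ≠ d → b ≠ c → b ≠ d →
    ((a, b), (c, d)) ∈ L5 ∨ ((c, d), (a, b)) ∈ L5 := by decide

theorem k5R (p : Fin 5 → ℝ × ℝ) (S : Fin 5 → Fin 5 → Set (ℝ × ℝ))
    (hS : ∀ a b, a < b → JoinedIn (S a b) (p a) (p b))
    (hdis : ∀ x ∈ L5, Disjoint (S x.1.1 x.1.2) (S x.2.1 x.2.2)) : False := by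
  let g : ℝ × ℝ → ℂ := Complex.equivRealProdCLM.symm
  have hg : Continuous g := Complex.equivRealProdCLM.symm.continuous
  have hgi : Function.Injective g := Complex.equivRealProdCLM.symm.injective
  apply Pool.Agent.Helper448.VanKampen.k5_joined (fun a => g (p a)) (fun a b => g '' (S a b))
  · intro a b hab
    exact (hS a b hab).map hg
  · intro a b c d hab hcd h1 h2 h3 h4
    rw [Set.disjoint_image_iff hgi]
    rcases mem_L5 a b c d hab hcd h1 h2 h3 h4 with h | h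
    · exact hdis _ h
    · exact (hdis _ h).symm

/-! ### paths -/

theorem joined_path (q : ℕ → ℝ × ℝ) : JoinedIn (path 2 q) (q 0) (q 2) := by
  have h0 : segment ℝ (q 0) (q 1) ⊆ path 2 q := fun x hx => ⟨0, by norm_num, hx⟩
  have h1 : segment ℝ (q 1) (q 2) ⊆ path 2 q := fun x hx => ⟨1, by norm_num, hx⟩
  exact (JoinedIn.of_segment_subset h0).trans (JoinedIn.of_segment_subset h1)

variable {n P : ℕ} {sg : ℕ → ℕ → Bool} {φ : ℕ → ℝ × ℝ} {q : ℕ × ℕ → ℕ → ℝ × ℝ}

theorem joined_edge (hn : 1 ≤ n) (hE : S_EDS) (h : IsPoly 2 (vts n P) (eds n P sg) φ q) (e : Ed)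
    (he : e.Valid n P) : JoinedIn (pth n P sg q e) (φ (e.src n P)) (φ (e.tgt n P sg)) := by
  have hm : e.pair n P sg ∈ eds n P sg := (hE n P sg hn _).2 ⟨e, he, rfl⟩
  have h0 := h.src _ hm
  have h2 := h.tgt _ hm
  have hj := joined_path (q (e.pair n P sg))
  rw [h0, h2] at hj
  rcases le_total (e.src n P) (e.tgt n P sg) with hl | hl
  · have e1 : (e.pair n P sg).1 = e.src n P := min_eq_left hl
    have e2 : (e.pair n P sg).2 = e.tgt n P sg := max_eq_right hl
    rw [e1, e2] at hj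
    exact hj
  · have e1 : (e.pair n P sg).1 = e.tgt n P sg := min_eq_right hl
    have e2 : (e.pair n P sg).2 = e.src n P := max_eq_left hl
    rw [e1, e2] at hj
    exact hj.symm

/-- the edges (pairs) which occur in a crossing -/
def Bad (n P : ℕ) (sg : ℕ → ℕ → Bool) (φ : ℕ → ℝ × ℝ) (q : ℕ × ℕ → ℕ → ℝ × ℝ) : Set (ℕ × ℕ) :=
  {g | ∃ z ∈ crossings 2 (eds n P sg) φ q, g ∈ z.1}

theorem bad_card (hD : Dr n P sg φ q) : ∃ B : Finset (ℕ × ℕ), (∀ g, g ∈ Bad n P sg φ q → g ∈ B) ∧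
    B.card ≤ KK n P * 2 := by
  classical
  set C := hD.fin.toFinset with hC
  refine ⟨C.biUnion fun z => z.1.toFinset, ?_, ?_⟩
  · rintro g ⟨z, hz, hg⟩
    rw [Finset.mem_biUnion]
    exact ⟨z, (Set.Finite.mem_toFinset _).2 hz, Sym2.mem_toFinset.2 hg⟩
  · have h1 : (C.biUnion fun z => z.1.toFinset).card ≤ C.card * 2 := by
      refine Finset.card_biUnion_le_card_mul _ _ _ fun z _ => ?_
      by_cases hd : z.1.IsDiag
      · rw [Sym2.card_toFinset_of_isDiag _ hd]; norm_num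
      · rw [Sym2.card_toFinset_of_not_isDiag _ hd]
    refine h1.trans (Nat.mul_le_mul_right _ ?_)
    rw [hC, ← Set.ncard_eq_toFinset_card _ hD.fin]
    exact hD.le

theorem exists_good (hn : 1 ≤ n) (hI : S_INJ) (hD : Dr n P sg φ q) (g1 g2 : ℕ → Ed)
    (v1 : ∀ k < BB n P, (g1 k).Valid n P) (v2 : ∀ k < BB n P, (g2 k).Valid n P)
    (h11 : ∀ k k', g1 k = g1 k' → k = k') (h22 : ∀ k k', g2 k = g2 k' → k = k')
    (h12 : ∀ k k', g1 k ≠ g2 k') :
    ∃ k < BB n P, (g1 k).pair n P sg ∉ Bad n P sg φ q ∧ (g2 k).pair n P sg ∉ Bad n P sg φ q := by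
  classical
  by_contra hcon
  push Not at hcon
  obtain ⟨B, hB, hcard⟩ := bad_card hD
  let f : ℕ → ℕ × ℕ := fun k => if (g1 k).pair n P sg ∈ Bad n P sg φ q then (g1 k).pair n P sg
    else (g2 k).pair n P sg
  have hf : ∀ k ∈ Finset.range (BB n P), f k ∈ B := by
    intro k hk
    rw [Finset.mem_range] at hk
    apply hB
    show (if (g1 k).pair n P sg ∈ Bad n P sg φ q then (g1 k).pair n P sg
      else (g2 k).pair n P sg) ∈ Bad n P sg φ q
    split_ifs with h
    · exact h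
    · exact hcon k hk h
  have hinj : Set.InjOn f (Finset.range (BB n P) : Finset ℕ) := by
    intro k hk k' hk' hkk
    rw [Finset.mem_coe, Finset.mem_range] at hk hk'
    have hkk' : (if (g1 k).pair n P sg ∈ Bad n P sg φ q then (g1 k).pair n P sg
      else (g2 k).pair n P sg) = (if (g1 k').pair n P sg ∈ Bad n P sg φ q then (g1 k').pair n P sg
      else (g2 k').pair n P sg) := hkk
    split_ifs at hkk' with h h' h'
    · exact h11 _ _ (hI n P sg hn _ _ (v1 k hk) (v1 k' hk') hkk')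
    · exact absurd (hI n P sg hn _ _ (v1 k hk) (v2 k' hk') hkk') (h12 _ _)
    · exact absurd (hI n P sg hn _ _ (v1 k' hk') (v2 k hk) hkk'.symm) (h12 _ _)
    · exact h22 _ _ (hI n P sg hn _ _ (v2 k hk) (v2 k' hk') hkk')
  have h1 := Finset.card_le_card_of_injOn f hf hinj
  rw [Finset.card_range] at h1
  unfold BB at h1
  omega

theorem meet_unbad (hn : 1 ≤ n) (hE : S_EDS) (hI : S_INJ) {e f : Ed} (he : e.Valid n P)
    (hf : f.Valid n P) (hne : e ≠ f) (hgood : e.pair n P sg ∉ Bad n P sg φ q) {z : ℝ × ℝ}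
    (h1 : z ∈ pth n P sg q e) (h2 : z ∈ pth n P sg q f) :
    ∃ w, (w = e.src n P ∨ w = e.tgt n P sg) ∧ (w = f.src n P ∨ w = f.tgt n P sg) := by
  have hem : e.pair n P sg ∈ eds n P sg := (hE n P sg hn _).2 ⟨e, he, rfl⟩
  have hfm : f.pair n P sg ∈ eds n P sg := (hE n P sg hn _).2 ⟨f, hf, rfl⟩
  have hpne : e.pair n P sg ≠ f.pair n P sg := fun h => hne (hI n P sg hn _ _ he hf h)
  by_contra hcon
  apply hgood
  refine ⟨(s(e.pair n P sg, f.pair n P sg), z), ?_, Sym2.mem_mk_left _ _⟩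
  refine ⟨_, hem, _, hfm, hpne, rfl, h1, h2, ?_⟩
  rintro ⟨w, hw1, hw2, -⟩
  apply hcon
  refine ⟨w, ?_, ?_⟩
  · rcases hw1 with h | h
    · rw [h]
      rcases min_choice (e.src n P) (e.tgt n P sg) with h' | h'
      · exact Or.inl h'
      · exact Or.inr h'
    · rw [h]
      rcases max_choice (e.src n P) (e.tgt n P sg) with h' | h'
      · exact Or.inl h'
      · exact Or.inr h'
  · rcases hw2 with h | h
    · rw [h]
      rcases min_choice (f.src n P) (f.tgt n P sg) with h' | h'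
      · exact Or.inl h'
      · exact Or.inr h'
    · rw [h]
      rcases max_choice (f.src n P) (f.tgt n P sg) with h' | h'
      · exact Or.inl h'
      · exact Or.inr h'

theorem disj_unbad (hn : 1 ≤ n) (hE : S_EDS) (hI : S_INJ) {e f : Ed} (he : e.Valid n P)
    (hf : f.Valid n P) (hgood : e.pair n P sg ∉ Bad n P sg φ q)
    (h : ∀ w, (w = e.src n P ∨ w = e.tgt n P sg) → (w = f.src n P ∨ w = f.tgt n P sg) → False) :
    Disjoint (pth n P sg q e) (pth n P sg q f) := by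
  rw [Set.disjoint_left]
  intro z h1 h2
  have hne : e ≠ f := by
    rintro rfl
    exact h _ (Or.inl rfl) (Or.inl rfl)
  obtain ⟨w, hw1, hw2⟩ := meet_unbad hn hE hI he hf hne hgood h1 h2
  exact h w hw1 hw2

/-- four sets in the plane which are joined like the rim, the spokes and the diagonals -/
theorem k5_frame (R r0 r1 r2 r3 : ℕ) (h01 : r0 < r1) (h12 : r1 < r2) (h23 : r2 < r3) (h3R : r3 < R)
    (ψ : ℕ → ℝ × ℝ) (c : ℝ × ℝ) (Q S : ℕ → Set (ℝ × ℝ)) (D02 D13 : Set (ℝ × ℝ))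
    (jQ : ∀ i < R, JoinedIn (Q i) (ψ i) (ψ ((i + 1) % R)))
    (jS : ∀ i < R, JoinedIn (S i) (ψ i) c)
    (dQQ : ∀ i < R, ∀ j < R, i ≠ j → i ≠ (j + 1) % R → (i + 1) % R ≠ j → Disjoint (Q i) (Q j))
    (dQS : ∀ i < R, ∀ j < R, i ≠ j → (i + 1) % R ≠ j → Disjoint (Q i) (S j))
    (j02 : JoinedIn D02 (ψ r0) (ψ r2)) (j13 : JoinedIn D13 (ψ r1) (ψ r3))
    (d0213 : Disjoint D02 D13) (d1 : Disjoint D02 (S r1)) (d3 : Disjoint D02 (S r3))
    (d0 : Disjoint D13 (S r0)) (d2 : Disjoint D13 (S r2)) : False := by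
  have hmod : ∀ i < R, (i + 1) % R = if i + 1 = R then 0 else i + 1 := by
    intro i hi
    split_ifs with h
    · rw [h, Nat.mod_self]
    · exact Nat.mod_eq_of_lt (by omega)
  let UQ : Set ℕ → Set (ℝ × ℝ) := fun T => ⋃ t ∈ T, Q t
  have hUQ : ∀ T (t : ℕ), t ∈ T → Q t ⊆ UQ T := fun T t ht => Set.subset_biUnion_of_mem ht
  have arc : ∀ (T : Set ℕ) (r d : ℕ), r + d + 1 ≤ R → (∀ t, r ≤ t → t < r + d + 1 → t ∈ T) →
      JoinedIn (UQ T) (ψ r) (ψ ((r + d + 1) % R)) := by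
    intro T r d
    induction d with
    | zero =>
      intro h1 h2
      exact (jQ r (by omega)).mono (hUQ T r (h2 r le_rfl (by omega)))
    | succ d ih =>
      intro h1 h2
      have h3 := ih (by omega) (fun t ht1 ht2 => h2 t ht1 (by omega))
      rw [Nat.mod_eq_of_lt (show r + d + 1 < R by omega)] at h3
      have h4 := (jQ (r + d + 1) (by omega)).mono (hUQ T (r + d + 1) (h2 _ (by omega) (by omega)))
      exact h3.trans h4
  have hdU : ∀ T T' : Set ℕ, (∀ t ∈ T, ∀ t' ∈ T', Disjoint (Q t) (Q t')) → Disjoint (UQ T) (UQ T') := by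
    intro T T' h
    rw [Set.disjoint_left]
    intro z h1 h2
    rw [Set.mem_iUnion₂] at h1 h2
    obtain ⟨t, ht, hz⟩ := h1
    obtain ⟨t', ht', hz'⟩ := h2
    exact Set.disjoint_left.1 (h t ht t' ht') hz hz'
  have hdS : ∀ (T : Set ℕ) (A : Set (ℝ × ℝ)), (∀ t ∈ T, Disjoint (Q t) A) → Disjoint (UQ T) A := by
    intro T A h
    rw [Set.disjoint_left]
    intro z h1 h2
    rw [Set.mem_iUnion₂] at h1
    obtain ⟨t, ht, hz⟩ := h1
    exact Set.disjoint_left.1 (h t ht) hz h2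
  set A01 : Set ℕ := {t | r0 ≤ t ∧ t < r1} with hA01
  set A12 : Set ℕ := {t | r1 ≤ t ∧ t < r2} with hA12
  set A23 : Set ℕ := {t | r2 ≤ t ∧ t < r3} with hA23
  set A03 : Set ℕ := {t | (r3 ≤ t ∧ t < R) ∨ t < r0} with hA03
  have j01 : JoinedIn (UQ A01) (ψ r0) (ψ r1) := by
    have := arc A01 r0 (r1 - r0 - 1) (by omega) (fun t h1 h2 => ⟨h1, by omega⟩)
    rwa [show r0 + (r1 - r0 - 1) + 1 = r1 by omega, Nat.mod_eq_of_lt (by omega)] at this
  have j12 : JoinedIn (UQ A12) (ψ r1) (ψ r2) := by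
    have := arc A12 r1 (r2 - r1 - 1) (by omega) (fun t h1 h2 => ⟨h1, by omega⟩)
    rwa [show r1 + (r2 - r1 - 1) + 1 = r2 by omega, Nat.mod_eq_of_lt (by omega)] at this
  have j23 : JoinedIn (UQ A23) (ψ r2) (ψ r3) := by
    have := arc A23 r2 (r3 - r2 - 1) (by omega) (fun t h1 h2 => ⟨h1, by omega⟩)
    rwa [show r2 + (r3 - r2 - 1) + 1 = r3 by omega, Nat.mod_eq_of_lt (by omega)] at this
  have j03 : JoinedIn (UQ A03) (ψ r0) (ψ r3) := by
    have h1 := arc A03 r3 (R - r3 - 1) (by omega) (fun t h1 h2 => Or.inl ⟨h1, by omega⟩)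
    rw [show r3 + (R - r3 - 1) + 1 = R by omega, Nat.mod_self] at h1
    rcases Nat.eq_zero_or_pos r0 with h0 | h0
    · rw [h0]; exact h1.symm
    · have h2 := arc A03 0 (r0 - 1) (by omega) (fun t h1 h2 => Or.inr (by omega))
      rw [show 0 + (r0 - 1) + 1 = r0 by omega, Nat.mod_eq_of_lt (by omega)] at h2
      exact (h1.trans h2).symm
  refine k5R ![ψ r0, ψ r1, ψ r2, ψ r3, c]
    ![![∅, UQ A01, D02, UQ A03, S r0], ![∅, ∅, UQ A12, D13, S r1], ![∅, ∅, ∅, UQ A23, S r2],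
      ![∅, ∅, ∅, ∅, S r3], ![∅, ∅, ∅, ∅, ∅]] ?_ ?_
  · intro a b hab
    have : (a, b) ∈ [((0 : Fin 5), (1 : Fin 5)), (0, 2), (0, 3), (0, 4), (1, 2), (1, 3), (1, 4), (2, 3),
        (2, 4), (3, 4)] := by revert a b; decide
    simp only [List.mem_cons, Prod.mk.injEq, List.not_mem_nil, or_false] at this
    rcases this with ⟨rfl, rfl⟩ | ⟨rfl, rfl⟩ | ⟨rfl, rfl⟩ | ⟨rfl, rfl⟩ | ⟨rfl, rfl⟩ | ⟨rfl, rfl⟩ |
      ⟨rfl, rfl⟩ | ⟨rfl, rfl⟩ | ⟨rfl, rfl⟩ | ⟨rfl, rfl⟩
    · exact j01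
    · exact j02
    · exact j03
    · exact jS r0 (by omega)
    · exact j12
    · exact j13
    · exact jS r1 (by omega)
    · exact j23
    · exact jS r2 (by omega)
    · exact jS r3 (by omega)
  · intro x hx
    simp only [L5, List.mem_cons, List.not_mem_nil, or_false] at hx
    rcases hx with rfl | rfl | rfl | rfl | rfl | rfl | rfl | rfl | rfl | rfl | rfl | rfl | rfl | rfl | rfl
    · show Disjoint (UQ A01) (UQ A23)
      refine hdU _ _ fun t ht t' ht' => dQQ t ?_ t' ?_ ?_ ?_ ?_ <;>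
        simp only [hA01, hA23, Set.mem_ofPred_eq] at ht ht' <;> first | omega | skip
      · rw [hmod t' (by omega)]; split_ifs <;> omega
      · rw [hmod t (by omega)]; split_ifs <;> omega
    · exact d0213
    · show Disjoint (UQ A03) (UQ A12)
      refine hdU _ _ fun t ht t' ht' => dQQ t ?_ t' ?_ ?_ ?_ ?_ <;>
        simp only [hA03, hA12, Set.mem_ofPred_eq] at ht ht' <;> first | omega | skip
      · rw [hmod t' (by omega)]; split_ifs <;> omega
      · rw [hmod t (by omega)]; split_ifs <;> omega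
    · show Disjoint (UQ A12) (S r3)
      refine hdS _ _ fun t ht => dQS t ?_ r3 h3R ?_ ?_ <;>
        simp only [hA12, Set.mem_ofPred_eq] at ht <;> first | omega | skip
      rw [hmod t (by omega)]; split_ifs <;> omega
    · exact d2
    · show Disjoint (S r1) (UQ A23)
      refine (hdS _ _ fun t ht => dQS t ?_ r1 (by omega) ?_ ?_).symm <;>
        simp only [hA23, Set.mem_ofPred_eq] at ht <;> first | omega | skip
      rw [hmod t (by omega)]; split_ifs <;> omega
    · exact d3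
    · show Disjoint (UQ A03) (S r2)
      refine hdS _ _ fun t ht => dQS t ?_ r2 (by omega) ?_ ?_ <;>
        simp only [hA03, Set.mem_ofPred_eq] at ht <;> first | omega | skip
      rw [hmod t (by omega)]; split_ifs <;> omega
    · show Disjoint (S r0) (UQ A23)
      refine (hdS _ _ fun t ht => dQS t ?_ r0 (by omega) ?_ ?_).symm <;>
        simp only [hA23, Set.mem_ofPred_eq] at ht <;> first | omega | skip
      rw [hmod t (by omega)]; split_ifs <;> omega
    · show Disjoint (UQ A01) (S r3)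
      refine hdS _ _ fun t ht => dQS t ?_ r3 (by omega) ?_ ?_ <;>
        simp only [hA01, Set.mem_ofPred_eq] at ht <;> first | omega | skip
      rw [hmod t (by omega)]; split_ifs <;> omega
    · show Disjoint (UQ A03) (S r1)
      refine hdS _ _ fun t ht => dQS t ?_ r1 (by omega) ?_ ?_ <;>
        simp only [hA03, Set.mem_ofPred_eq] at ht <;> first | omega | skip
      rw [hmod t (by omega)]; split_ifs <;> omega
    · exact d0.symm
    · show Disjoint (UQ A01) (S r2)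
      refine hdS _ _ fun t ht => dQS t ?_ r2 (by omega) ?_ ?_ <;>
        simp only [hA01, Set.mem_ofPred_eq] at ht <;> first | omega | skip
      rw [hmod t (by omega)]; split_ifs <;> omega
    · exact d1
    · show Disjoint (S r0) (UQ A12)
      refine (hdS _ _ fun t ht => dQS t ?_ r0 (by omega) ?_ ?_).symm <;>
        simp only [hA12, Set.mem_ofPred_eq] at ht <;> first | omega | skip
      rw [hmod t (by omega)]; split_ifs <;> omega

theorem blk {B i j k k' : ℕ} (hk : k < B) (hk' : k' < B) (h : i * B + k = j * B + k') : i = j := by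
  rcases lt_trichotomy i j with hij | hij | hij
  · have h1 := Nat.mul_le_mul_right B (show i + 1 ≤ j from hij)
    rw [Nat.succ_mul] at h1
    omega
  · exact hij
  · have h1 := Nat.mul_le_mul_right B (show j + 1 ≤ i from hij)
    rw [Nat.succ_mul] at h1
    omega

end TT

open TT in
theorem t_T (hE : S_EDS) (hI : S_INJ) : S_T := by
  intro n P sg φ q hn hD
  obtain ⟨R, hR⟩ : ∃ R, R = 2 * H n P := ⟨_, rfl⟩
  have hmod : ∀ i < R, (i + 1) % R = if i + 1 = R then 0 else i + 1 := by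
    intro i hi
    split_ifs with h
    · rw [h, Nat.mod_self]
    · exact Nat.mod_eq_of_lt (by omega)
  have hminj : ∀ i < R, ∀ j < R, (i + 1) % R = (j + 1) % R → i = j := by
    intro i hi j hj h
    rw [hmod i hi, hmod j hj] at h
    split_ifs at h <;> omega
  -- uncrossed paths
  have hx : ∀ i, i < R → ∃ k < BB n P, (Ed.x1 i k).pair n P sg ∉ Bad n P sg φ q ∧
      (Ed.x2 i k).pair n P sg ∉ Bad n P sg φ q := by
    intro i hi
    refine exists_good hn hI hD (fun k => Ed.x1 i k) (fun k => Ed.x2 i k) (fun k hk => ⟨hR ▸ hi, hk⟩)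
      (fun k hk => ⟨hR ▸ hi, hk⟩) ?_ ?_ ?_
    · intro k k' h; injection h
    · intro k k' h; injection h
    · intro k k' h; injection h
  have hy : ∀ i, i < R → ∃ k < BB n P, (Ed.y1 i k).pair n P sg ∉ Bad n P sg φ q ∧
      (Ed.y2 i k).pair n P sg ∉ Bad n P sg φ q := by
    intro i hi
    refine exists_good hn hI hD (fun k => Ed.y1 i k) (fun k => Ed.y2 i k) (fun k hk => ⟨hR ▸ hi, hk⟩)
      (fun k hk => ⟨hR ▸ hi, hk⟩) ?_ ?_ ?_
    · intro k k' h; injection h
    · intro k k' h; injection h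
    · intro k k' h; injection h
  choose! kx hkx hx1 hx2 using hx
  choose! ky hky hy1 hy2 using hy
  have vx1 : ∀ i < R, (Ed.x1 i (kx i)).Valid n P := fun i hi => ⟨hR ▸ hi, hkx i hi⟩
  have vx2 : ∀ i < R, (Ed.x2 i (kx i)).Valid n P := fun i hi => ⟨hR ▸ hi, hkx i hi⟩
  have vy1 : ∀ i < R, (Ed.y1 i (ky i)).Valid n P := fun i hi => ⟨hR ▸ hi, hky i hi⟩
  have vy2 : ∀ i < R, (Ed.y2 i (ky i)).Valid n P := fun i hi => ⟨hR ▸ hi, hky i hi⟩
  obtain ⟨Q, hQ⟩ : ∃ Q : ℕ → Set (ℝ × ℝ), ∀ i, Q i = pth n P sg q (Ed.x1 i (kx i)) ∪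
      pth n P sg q (Ed.x2 i (kx i)) := ⟨_, fun i => rfl⟩
  obtain ⟨Sp, hSp⟩ : ∃ Sp : ℕ → Set (ℝ × ℝ), ∀ i, Sp i = pth n P sg q (Ed.y1 i (ky i)) ∪
      pth n P sg q (Ed.y2 i (ky i)) := ⟨_, fun i => rfl⟩
  have jQ : ∀ i < R, JoinedIn (Q i) (φ (vR i)) (φ (vR ((i + 1) % R))) := by
    intro i hi
    have h1 := joined_edge hn hE hD.poly _ (vx1 i hi)
    have h2 := joined_edge hn hE hD.poly _ (vx2 i hi)
    rw [hQ]
    have e : (Ed.x2 i (kx i)).tgt n P sg = vR ((i + 1) % R) := by rw [hR]; rfl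
    rw [e] at h2
    exact (h1.mono Set.subset_union_left).trans (h2.mono Set.subset_union_right)
  have jS : ∀ i < R, JoinedIn (Sp i) (φ (vR i)) (φ 0) := by
    intro i hi
    have h1 := joined_edge hn hE hD.poly _ (vy1 i hi)
    have h2 := joined_edge hn hE hD.poly _ (vy2 i hi)
    rw [hSp]
    exact ((h1.mono Set.subset_union_left).trans (h2.mono Set.subset_union_right)).symm
  have dQQ : ∀ i < R, ∀ j < R, i ≠ j → i ≠ (j + 1) % R → (i + 1) % R ≠ j → Disjoint (Q i) (Q j) := by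
    intro i hi j hj h1 h2 h3
    have h4 : (i + 1) % R ≠ (j + 1) % R := fun h => h1 (hminj i hi j hj h)
    have hX : i * BB n P + kx i ≠ j * BB n P + kx j := fun h => h1 (blk (hkx i hi) (hkx j hj) h)
    rw [hR] at h2 h3 h4
    rw [hQ, hQ, Set.disjoint_union_left, Set.disjoint_union_right, Set.disjoint_union_right]
    refine ⟨⟨?_, ?_⟩, ?_, ?_⟩
    · refine disj_unbad hn hE hI (vx1 i hi) (vx1 j hj) (hx1 i hi) ?_
      rintro w (rfl | rfl) (h | h) <;> simp only [Ed.src, Ed.tgt, vR, vX] at h <;> omega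
    · refine disj_unbad hn hE hI (vx1 i hi) (vx2 j hj) (hx1 i hi) ?_
      rintro w (rfl | rfl) (h | h) <;> simp only [Ed.src, Ed.tgt, vR, vX] at h <;> omega
    · refine disj_unbad hn hE hI (vx2 i hi) (vx1 j hj) (hx2 i hi) ?_
      rintro w (rfl | rfl) (h | h) <;> simp only [Ed.src, Ed.tgt, vR, vX] at h <;> omega
    · refine disj_unbad hn hE hI (vx2 i hi) (vx2 j hj) (hx2 i hi) ?_
      rintro w (rfl | rfl) (h | h) <;> simp only [Ed.src, Ed.tgt, vR, vX] at h <;> omega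
  have dQS : ∀ i < R, ∀ j < R, i ≠ j → (i + 1) % R ≠ j → Disjoint (Q i) (Sp j) := by
    intro i hi j hj h1 h2
    rw [hR] at h2
    rw [hQ, hSp, Set.disjoint_union_left, Set.disjoint_union_right, Set.disjoint_union_right]
    refine ⟨⟨?_, ?_⟩, ?_, ?_⟩
    · refine disj_unbad hn hE hI (vx1 i hi) (vy1 j hj) (hx1 i hi) ?_
      rintro w (rfl | rfl) (h | h) <;> simp only [Ed.src, Ed.tgt, vR, vX, vY] at h <;> omega
    · refine disj_unbad hn hE hI (vx1 i hi) (vy2 j hj) (hx1 i hi) ?_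
      rintro w (rfl | rfl) (h | h) <;> simp only [Ed.src, Ed.tgt, vR, vX, vY] at h <;> omega
    · refine disj_unbad hn hE hI (vx2 i hi) (vy1 j hj) (hx2 i hi) ?_
      rintro w (rfl | rfl) (h | h) <;> simp only [Ed.src, Ed.tgt, vR, vX, vY] at h <;> omega
    · refine disj_unbad hn hE hI (vx2 i hi) (vy2 j hj) (hx2 i hi) ?_
      rintro w (rfl | rfl) (h | h) <;> simp only [Ed.src, Ed.tgt, vR, vX, vY] at h <;> omega
  -- main edges and spokes
  have dMS : ∀ (e : Ed) (j : ℕ), j < R → e.Valid n P → e.Main → ¬ e.Inc n P sg (vR j) →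
      Disjoint (pth n P sg q e) (Sp j) := by
    intro e j hj he hm hinc
    rw [hSp, Set.disjoint_union_right]
    have hend : ∀ w, (w = e.src n P ∨ w = e.tgt n P sg) → w ≠ 0 ∧ w % 5 ≠ 4 ∧ w ≠ vR j := by
      intro w hw
      refine ⟨?_, ?_, fun h => hinc (h ▸ hw)⟩
      · rcases e with u | ⟨a, b⟩ | _ | _ | _ | _
        · rcases hw with rfl | rfl <;> simp only [Ed.src, Ed.tgt, vR] <;> omega
        · rcases hw with rfl | rfl <;> simp only [Ed.src, Ed.tgt, vR, vP] <;> omega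
        all_goals exact absurd hm (by simp [Ed.Main])
      · rcases e with u | ⟨a, b⟩ | _ | _ | _ | _
        · rcases hw with rfl | rfl <;> simp only [Ed.src, Ed.tgt, vR] <;> omega
        · rcases hw with rfl | rfl <;> simp only [Ed.src, Ed.tgt, vR, vP] <;> omega
        all_goals exact absurd hm (by simp [Ed.Main])
    constructor
    · refine (disj_unbad hn hE hI (vy1 j hj) he (hy1 j hj) ?_).symm
      rintro w hw1 hw2
      obtain ⟨h1, h2, h3⟩ := hend w hw2
      rcases hw1 with rfl | rfl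
      · exact h1 rfl
      · simp only [Ed.tgt, vY] at h2; omega
    · refine (disj_unbad hn hE hI (vy2 j hj) he (hy2 j hj) ?_).symm
      rintro w hw1 hw2
      obtain ⟨h1, h2, h3⟩ := hend w hw2
      rcases hw1 with rfl | rfl
      · simp only [Ed.src, vY] at h2; omega
      · exact h3 rfl
  have dDS : ∀ (D : Set (ℝ × ℝ)) (A : Set Ed) (j : ℕ), j < R → (∀ z ∈ D, ∃ e ∈ A, z ∈ pth n P sg q e) →
      (∀ e ∈ A, e.Valid n P ∧ e.Main ∧ ¬ e.Inc n P sg (vR j)) → Disjoint D (Sp j) := by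
    intro D A j hj hz hA
    rw [Set.disjoint_left]
    intro z h1 h2
    obtain ⟨e, he, hze⟩ := hz z h1
    obtain ⟨a1, a2, a3⟩ := hA e he
    exact Set.disjoint_left.1 (dMS e j hj a1 a2 a3) hze h2
  intro a b i i' hab hb hi hi' hai hib hor S S' A A' hA hA' hS hS' hj hj'
  rw [← hR] at hb hi hi'
  rw [Set.nonempty_iff_ne_empty]
  intro hemp
  have hdis : Disjoint S S' := Set.disjoint_iff_inter_eq_empty.2 hemp
  have dSa := dDS S A a (by omega) hS (fun e he => ⟨(hA e he).1, (hA e he).2.1, (hA e he).2.2.1⟩)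
  have dSb := dDS S A b hb hS (fun e he => ⟨(hA e he).1, (hA e he).2.1, (hA e he).2.2.2⟩)
  have dSi := dDS S' A' i hi hS' (fun e he => ⟨(hA' e he).1, (hA' e he).2.1, (hA' e he).2.2.1⟩)
  have dSi' := dDS S' A' i' hi' hS' (fun e he => ⟨(hA' e he).1, (hA' e he).2.1, (hA' e he).2.2.2⟩)
  rcases hor with h | h
  · exact k5_frame R i' a i b h hai hib hb (fun t => φ (vR t)) (φ 0) Q Sp S S' jQ jS dQQ dQS
      hj.symm hj' hdis dSa dSb dSi' dSi
  · exact k5_frame R a i b i' hai hib h hi' (fun t => φ (vR t)) (φ 0) Q Sp S' S jQ jS dQQ dQS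
      hj' hj hdis.symm dSi dSi' dSa dSb

end Pool.Agent.K1H23.PC
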