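import Pool.Agent.K1H33.PC.TF

set_option autoImplicit false

namespace Pool.Agent.K1H23.PC

theorem t_TF (h1 : S_POS) (h2 : S_EDS) : S_TF := Pool.Agent.K1H33.PC.t_TF h1 h2

end Pool.Agent.K1H23.PC
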